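import Mathlib

/-!
# Numerical helpers
-/

set_option autoImplicit false

open Finset

namespace Pool.Agent.Lib.MP_d75b76_nt

/-- the parameter of the growth steps -/
def PP (L : ℕ) : ℕ := 10 ^ 17 * L ^ 4

/-- numerical helper: everything of the form `C L^a` is small compared with `k` -/
lemma big_aux {L k : ℕ} (hL : 1000 ≤ L) (hk : L ^ 50 ≤ k) {a : ℕ} (ha : a ≤ 50) {C : ℕ}
    (hC : C ≤ 1000 ^ (50 - a)) : C * L ^ a ≤ k := by
  calc C * L ^ a ≤ 1000 ^ (50 - a) * L ^ a := Nat.mul_le_mul_right _ hC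
    _ ≤ L ^ (50 - a) * L ^ a := Nat.mul_le_mul_right _ (Nat.pow_le_pow_left hL _)
    _ = L ^ 50 := by rw [← pow_add]; congr 1; omega
    _ ≤ k := hk

end Pool.Agent.Lib.MP_d75b76_nt
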