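import Mathlib
import Pool.Agent.Lib.MP_d75b76_nt.Num
import Pool.Agent.Lib.MP_d3cc86_co.AM.S1

/-!
# Zero-sum-free sets which avoid units (MP_d75b76_nt): definitions
-/

set_option autoImplicit false
set_option linter.unusedSectionVars false

open Finset Pointwise

namespace Pool.Agent.Lib.MP_d75b76_nt

open RG (stb mem_stb)
open AM (sf off mem_sf mem_off card_sf zero_mem_sf)
open Pool.Agent.Lib.MP_d3cc86_co (lam Asym symz)

section
variable {G : Type} [AddCommGroup G]

/-- zero-sum-free sets -/
def ZSF (A : Finset G) : Prop := ∀ T ⊆ A, T.Nonempty → ∑ x ∈ T, x ≠ 0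

lemma ZSF.mono {A V : Finset G} (h : ZSF A) (hV : V ⊆ A) : ZSF V :=
  fun T hT hne => h T (hT.trans hV) hne

lemma ZSF.zero_notMem {A : Finset G} (h : ZSF A) : (0 : G) ∉ A := by
  intro h0
  refine h {0} (Finset.singleton_subset_iff.2 h0) (Finset.singleton_nonempty _) ?_
  simp

/-- a zero-sum-free set without elements of order two is asymmetric -/
lemma ZSF.asym {A : Finset G} (h : ZSF A) (h2 : ∀ a ∈ A, a + a ≠ 0) : Asym A := by
  classical
  intro a ha hna
  have hne : a ≠ -a := fun h3 => h2 a ha (by
    nth_rewrite 1 [h3]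
    exact neg_add_cancel a)
  refine h {a, -a} ?_ ⟨a, Finset.mem_insert_self _ _⟩ ?_
  · intro x hx
    rw [Finset.mem_insert, Finset.mem_singleton] at hx
    rcases hx with rfl | rfl
    · exact ha
    · exact hna
  · rw [Finset.sum_pair hne, add_neg_cancel]

open Classical in
/-- the elements of `A` in the subgroup `H` -/
noncomputable def inn (A : Finset G) (H : AddSubgroup G) : Finset G := A.filter (fun x => x ∈ H)

lemma mem_inn (A : Finset G) (H : AddSubgroup G) (x : G) : x ∈ inn A H ↔ x ∈ A ∧ x ∈ H := by
  classical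
  simp [inn]

lemma inn_sub (A : Finset G) (H : AddSubgroup G) : inn A H ⊆ A :=
  fun x hx => ((mem_inn A H x).1 hx).1

lemma inn_mono {A B : Finset G} (h : A ⊆ B) (H : AddSubgroup G) : inn A H ⊆ inn B H := by
  intro x hx
  rw [mem_inn] at hx ⊢
  exact ⟨h hx.1, hx.2⟩

lemma inn_add_off [Fintype G] (A : Finset G) (H : AddSubgroup G) :
    (inn A H).card + (off A H).card = A.card := by
  classical
  unfold inn off
  convert Finset.card_filter_add_card_filter_not (s := A) (fun x => x ∈ H)

/-- The standing hypotheses: `A` is asymmetric, zero-sum-free, large, the group has at most `|A|^2`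
elements and every proper subgroup misses at least `3 |A| / L` elements of `A`. -/
structure Good [Fintype G] (A : Finset G) (L : ℕ) : Prop where
  asym : Asym A
  zsf : ZSF A
  L1000 : 1000 ≤ L
  big : L ^ 50 ≤ A.card
  size : Fintype.card G ≤ A.card ^ 2
  nc : ∀ H : AddSubgroup G, H ≠ ⊤ → L * (inn A H).card + 3 * A.card ≤ L * A.card

/-- the large subsets of `A` which miss between `|A| / L` and `2 |A| / L` elements -/
structure Win (A : Finset G) (L : ℕ) (V : Finset G) : Prop where
  sub : V ⊆ A
  lo : L * (A.card - V.card) ≤ 2 * A.card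
  hi : A.card ≤ L * (A.card - V.card)

end

end Pool.Agent.Lib.MP_d75b76_nt
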