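import Pool.Agent.Lib.MP_d75b76_nt.Defs
import Pool.Agent.Lib.MP_d3cc86_co.AM.P1

section

/-!
# The Davenport bound
-/

set_option autoImplicit false
set_option linter.unusedSectionVars false

open Finset Pointwise

namespace Pool.Agent.Lib.MP_d75b76_nt

open RG (stb mem_stb)
open AM (sf off mem_sf mem_off card_sf zero_mem_sf)
open Pool.Agent.Lib.MP_d3cc86_co (lam Asym symz)

variable {G : Type} [AddCommGroup G] [Fintype G]

private theorem dv_diff (A : Finset G) (M : AddSubgroup G)
    (h : ∀ T ⊆ A, T.Nonempty → ∑ x ∈ T, x ∉ M) {n : ℕ} (e : Fin n → G) (he : Function.Injective e)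
    (heA : ∀ j, e j ∈ A) (i i' : ℕ) (hii : i < i') (hi' : i' ≤ n) :
    (∑ j ∈ Finset.univ.filter (fun j : Fin n => j.val < i'), e j) -
      (∑ j ∈ Finset.univ.filter (fun j : Fin n => j.val < i), e j) ∉ M := by
  classical
  have h1 : (∑ j ∈ Finset.univ.filter (fun j : Fin n => j.val < i'), e j) =
      (∑ j ∈ Finset.univ.filter (fun j : Fin n => i ≤ j.val ∧ j.val < i'), e j) +
      (∑ j ∈ Finset.univ.filter (fun j : Fin n => j.val < i), e j) := by
    rw [← Finset.sum_union]
    · congr 1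
      ext j
      simp only [Finset.mem_filter, Finset.mem_univ, true_and, Finset.mem_union]
      omega
    · rw [Finset.disjoint_left]
      intro j hj hj'
      simp only [Finset.mem_filter, Finset.mem_univ, true_and] at hj hj'
      omega
  rw [h1, add_sub_cancel_right]
  have h2 : (∑ j ∈ Finset.univ.filter (fun j : Fin n => i ≤ j.val ∧ j.val < i'), e j) =
      ∑ x ∈ (Finset.univ.filter (fun j : Fin n => i ≤ j.val ∧ j.val < i')).image e, x := by
    rw [Finset.sum_image]
    intro x _ y _ hxy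
    exact he hxy
  rw [h2]
  refine h _ ?_ ?_
  · intro x hx
    rw [Finset.mem_image] at hx
    obtain ⟨j, _, rfl⟩ := hx
    exact heA j
  · rw [Finset.image_nonempty]
    refine ⟨⟨i, by omega⟩, ?_⟩
    simp only [Finset.mem_filter, Finset.mem_univ, true_and]
    omega

/-- No nonempty subset of `A` has its sum in `M`; then `(|A| + 1) |M| ≤ |H|` (`A ⊆ H`, `M ≤ H`).
Enumerate `A = {a 0, ..., a (n-1)}` (`A.equivFin` or `Finset.equivFin`, or induction over a list) and
let `s i = ∑_{j < i} a j` for `0 ≤ i ≤ n`. For `i < i'` the difference `s i' - s i = ∑_{i ≤ j < i'} a j`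
is the sum of a nonempty subset of `A`, hence not in `M`. So the `n + 1` cosets `s i + M` are pairwise
disjoint subsets of `H`. (For example: the map `Fin (n+1) × M → H`, `(i, y) ↦ s i + y` is injective.) -/
theorem dav [DecidableEq G] (A : Finset G) (M H : AddSubgroup G) (hMH : M ≤ H)
    (hAH : ∀ a ∈ A, a ∈ H) (h : ∀ T ⊆ A, T.Nonempty → ∑ x ∈ T, x ∉ M) :
    (A.card + 1) * Nat.card M ≤ Nat.card H := by
  classical
  set n := A.card with hn
  let e : Fin n → G := fun j => (A.equivFin.symm j : G)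
  have he : Function.Injective e := fun x y hxy => A.equivFin.symm.injective (Subtype.ext hxy)
  have heA : ∀ j, e j ∈ A := fun j => (A.equivFin.symm j).2
  let s : ℕ → G := fun i => ∑ j ∈ Finset.univ.filter (fun j : Fin n => j.val < i), e j
  have hs : ∀ i, s i ∈ H := fun i => H.sum_mem fun j _ => hAH _ (heA j)
  have hd : ∀ i i' : ℕ, i < i' → i' ≤ n → s i' - s i ∉ M := fun i i' hii hi' =>
    dv_diff A M h e he heA i i' hii hi'
  let f : Fin (n + 1) × M → H := fun p => ⟨s p.1.val + p.2.1, H.add_mem (hs _) (hMH p.2.2)⟩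
  have hf : Function.Injective f := by
    rintro ⟨i, y⟩ ⟨i', y'⟩ hp
    have hp1 : s i.val + y.1 = s i'.val + y'.1 := congrArg Subtype.val hp
    have h1 : i.val = i'.val := by
      by_contra hne
      rcases Nat.lt_or_gt_of_ne hne with hlt | hlt
      · apply hd i.val i'.val hlt (by omega)
        have h2 : s i'.val - s i.val = y.1 - y'.1 := by
          rw [sub_eq_sub_iff_add_eq_add, add_comm y.1, hp1]
        rw [h2]
        exact M.sub_mem y.2 y'.2
      · apply hd i'.val i.val hlt (by omega)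
        have h2 : s i.val - s i'.val = y'.1 - y.1 := by
          rw [sub_eq_sub_iff_add_eq_add, add_comm y'.1, ← hp1]
        rw [h2]
        exact M.sub_mem y'.2 y.2
    have h3 : y.1 = y'.1 := by
      rw [h1] at hp1
      exact add_left_cancel hp1
    exact Prod.ext (Fin.ext h1) (Subtype.ext h3)
  have h4 := Nat.card_le_card_of_injective f hf
  rwa [Nat.card_prod, Nat.card_eq_fintype_card, Fintype.card_fin] at h4

end Pool.Agent.Lib.MP_d75b76_nt
end

section

/-!
# Removing elements one by one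
-/

set_option autoImplicit false
set_option linter.unusedSectionVars false

open Finset Pointwise

namespace Pool.Agent.Lib.MP_d75b76_nt

open RG (stb mem_stb)
open AM (sf off mem_sf mem_off card_sf zero_mem_sf)
open Pool.Agent.Lib.MP_d3cc86_co (lam Asym symz)

variable {G : Type} [AddCommGroup G] [Fintype G]

open Pool.Agent.Lib.MP_d3cc86_co (subsetSum_insert' card_union_vadd)

/-- Let `W = V.erase x`, `B' = W.subsetSum`, `B = V.subsetSum = B' ∪ (x +ᵥ B')` (`subsetSum_insert'`, or
`AM.SM_ind`, `AM.inc`), so `|B| = |B'| + lam B' x` (`card_union_vadd`) and `lam B x ≤ lam B' x`: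
`(x +ᵥ B) \ B ⊆ (x + x +ᵥ B') \ (x +ᵥ B') = x +ᵥ ((x +ᵥ B') \ B')`. (Compare `AM.inc`, file `AM/A1.lean`
of the library `MP_d3cc86_co`: it is the same statement for multisets; one can also deduce this lemma
from it with `AM.SM_ind`.) -/
theorem inc_set [DecidableEq G] (V : Finset G) (x : G) (hx : x ∈ V) :
    (V.erase x).subsetSum.card + lam V.subsetSum x ≤ V.subsetSum.card := by
  have h1 : V.subsetSum = (V.erase x).subsetSum ∪ (x +ᵥ (V.erase x).subsetSum) := by
    conv_lhs => rw [← Finset.insert_erase hx]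
    exact subsetSum_insert' (Finset.notMem_erase x V)
  set B := (V.erase x).subsetSum with hB
  have h2 : V.subsetSum.card = B.card + lam B x := by rw [h1, card_union_vadd]
  have h3 : lam V.subsetSum x ≤ lam B x := by
    unfold lam
    rw [h1]
    have : (x +ᵥ (B ∪ (x +ᵥ B))) \ (B ∪ (x +ᵥ B)) ⊆ x +ᵥ ((x +ᵥ B) \ B) := by
      intro z hz
      rw [Finset.mem_sdiff, Finset.vadd_finset_union, Finset.mem_union, Finset.mem_union] at hz
      obtain ⟨h4, h5⟩ := hz
      push Not at h5
      rw [Finset.vadd_finset_sdiff, Finset.mem_sdiff]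
      rcases h4 with h4 | h4
      · exact absurd h4 h5.2
      · exact ⟨h4, h5.2⟩
    calc _ ≤ _ := Finset.card_le_card this
      _ = _ := Finset.card_vadd_finset _ _
  omega

/-- Claim by induction on `d`: if `V ⊆ A`, `|V| = a + d`, `a + d ≤ b`, then
`∑_{i ∈ Ioc a (a+d)} f i ≤ K |V.subsetSum|`. `d = 0` is trivial. For `d + 1` take `x` from `hstep` and use
`inc_set` and the induction hypothesis for `V.erase x`. Finally take `V ⊆ A` with `|V| = b`
(`Finset.exists_subset_card_eq`) and `V.subsetSum ⊆ A.subsetSum` (`Finset.subsetSum_mono`). -/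
theorem chain [DecidableEq G] (A : Finset G) (a b K : ℕ) (f : ℕ → ℕ)
    (hstep : ∀ V ⊆ A, a < V.card → V.card ≤ b →
      ∃ x ∈ V, f V.card ≤ K * lam V.subsetSum x) (hab : a ≤ b) (hb : b ≤ A.card) :
    ∑ i ∈ Finset.Ioc a b, f i ≤ K * A.subsetSum.card := by
  have key : ∀ d : ℕ, ∀ V ⊆ A, V.card = a + d → a + d ≤ b →
      ∑ i ∈ Finset.Ioc a (a + d), f i ≤ K * V.subsetSum.card := by
    intro d
    induction d with
    | zero =>
      intro V _ _ _
      rw [add_zero, Finset.Ioc_self, Finset.sum_empty]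
      exact Nat.zero_le _
    | succ d ih =>
      intro V hV hcard hd
      obtain ⟨x, hx, hfx⟩ := hstep V hV (by omega) (by omega)
      have h1 := ih (V.erase x) ((Finset.erase_subset _ _).trans hV)
        (by rw [Finset.card_erase_of_mem hx, hcard]; omega) (by omega)
      have h2 := inc_set V x hx
      have h3 : ∑ i ∈ Finset.Ioc a (a + (d + 1)), f i =
          ∑ i ∈ Finset.Ioc a (a + d), f i + f (a + (d + 1)) := by
        rw [← add_assoc, Finset.sum_Ioc_succ_top (by omega)]
      rw [h3]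
      rw [hcard] at hfx
      have h4 := Nat.mul_le_mul_left K h2
      rw [Nat.mul_add] at h4
      omega
  obtain ⟨V, hV, hVc⟩ := Finset.exists_subset_card_eq hb
  have h1 := key (b - a) V hV (by omega) (by omega)
  rw [show a + (b - a) = b by omega] at h1
  exact h1.trans (Nat.mul_le_mul_left K (Finset.card_le_card (Finset.subsetSum_mono hV)))

end Pool.Agent.Lib.MP_d75b76_nt
end

section

/-!
# Descent: a dense asymmetric set fills a subgroup
-/

set_option autoImplicit false
set_option linter.unusedSectionVars false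

open Finset Pointwise

namespace Pool.Agent.Lib.MP_d75b76_nt

open RG (stb mem_stb)
open AM (sf off mem_sf mem_off card_sf zero_mem_sf)
open Pool.Agent.Lib.MP_d3cc86_co (lam Asym symz)

variable {G : Type} [AddCommGroup G] [Fintype G]

open Pool.Agent.Lib.MP_d3cc86_co (descent exists_params params_ok)

/-- This is the first half of the proof of `AM.sparse` (file `AM/P1.lean` of the library
`MP_d3cc86_co`; copy it): work in the group `↥H` with `A = V.subtype (· ∈ H)`, `|A| = |V|`;
`2 |A| + 1 ≤ |H|` (`Asym.card_le`), so `|A| ≥ 51`; `w` with `3 w ≤ |A| + 2`, `|A| ≤ 3 w`, `w ≥ 17`;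
`exists_params`, `params_ok`, `descent` give `M ≤ ↥H` and `F ⊆ A` with `F ⊆ M`, `w ≤ |F|` and every
element of `M` a subset sum of `F`. Take the images in `G`: `M.map H.subtype` and
`F.map (Function.Embedding.subtype _)`. If `V` is empty the hypothesis `h` is impossible because
`Nat.card H ≥ 1`. -/
theorem descent_sub [DecidableEq G] (V : Finset G) (hV : Asym V) (H : AddSubgroup G)
    (hH : ∀ v ∈ V, v ∈ H) (h : 25 * Nat.card H ≤ V.card ^ 2) :
    ∃ M : AddSubgroup G, M ≤ H ∧ ∃ F ⊆ V, (∀ x ∈ F, x ∈ M) ∧ V.card ≤ 3 * F.card ∧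
      ∀ y ∈ M, y ∈ F.subsetSum := by
  classical
  rw [Nat.card_eq_fintype_card] at h
  set A : Finset H := V.subtype (fun x => x ∈ H) with hAdef
  have hAcard : A.card = V.card := by
    rw [hAdef, Finset.card_subtype, Finset.filter_true_of_mem hH]
  have hA : Asym A := by
    intro a ha hna
    rw [hAdef, Finset.mem_subtype] at ha hna
    exact hV _ ha (by simpa using hna)
  have h25 : 25 * Fintype.card H ≤ A.card ^ 2 := by rw [hAcard]; exact h
  have hmN : 2 * A.card + 1 ≤ Fintype.card H := hA.card_le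
  have hm51 : 51 ≤ A.card := by
    have hpos : 0 < Fintype.card H := Fintype.card_pos
    nlinarith
  obtain ⟨w, hw1, hw2⟩ : ∃ w, 3 * w ≤ A.card + 2 ∧ A.card ≤ 3 * w :=
    ⟨(A.card + 2) / 3, by omega, by omega⟩
  have hw17 : 17 ≤ w := by omega
  obtain ⟨l, J, hp1, hp2, hp3⟩ := exists_params w hw17
  obtain ⟨hq1, hq2⟩ := params_ok hw17 hw1 hw2 h25 hp2 hp3
  obtain ⟨M, F, hFA, hFM, hFc, hFs⟩ := descent (by omega) hp1 J H A hA hq1 hq2
  refine ⟨M.map H.subtype, ?_, F.map (Function.Embedding.subtype _), ?_, ?_, ?_, ?_⟩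
  · rintro x ⟨y, -, rfl⟩
    exact y.2
  · intro x hx
    rw [Finset.mem_map] at hx
    obtain ⟨y, hy, rfl⟩ := hx
    have := hFA hy
    rw [hAdef, Finset.mem_subtype] at this
    exact this
  · intro x hx
    rw [Finset.mem_map] at hx
    obtain ⟨y, hy, rfl⟩ := hx
    exact ⟨y, hFM y hy, rfl⟩
  · rw [Finset.card_map]
    omega
  · rintro x ⟨y, hy, rfl⟩
    have h1 := hFs y hy
    rw [Finset.mem_subsetSum_iff] at h1 ⊢
    obtain ⟨B, hB, hBy⟩ := h1
    refine ⟨B.map (Function.Embedding.subtype _), Finset.map_subset_map.2 hB, ?_⟩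
    rw [Finset.sum_map, ← hBy]
    simp

end Pool.Agent.Lib.MP_d75b76_nt
end

section

/-!
# Olson's bound: a zero-sum-free set in a group of order `n` has fewer than `20 √n` elements
-/

set_option autoImplicit false
set_option linter.unusedSectionVars false

open Finset Pointwise

namespace Pool.Agent.Lib.MP_d75b76_nt

open RG (stb mem_stb)
open AM (sf off mem_sf mem_off card_sf zero_mem_sf)
open Pool.Agent.Lib.MP_d3cc86_co (lam Asym symz)

variable {G : Type} [AddCommGroup G] [Fintype G]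

/-- Suppose `400 |H| ≤ n^2`, `n = |V|` (so `n ≥ 20`). Take `V1 ⊆ V` with `|V1| = n1 = (n + 1) / 2`
(`Finset.exists_subset_card_eq`), `25 |H| ≤ 100 |H| ≤ n1^2`. `descent_sub` gives `M ≤ H`, `F ⊆ V1`, `F ⊆ M`,
`n1 ≤ 3 |F|`, `M ⊆ F.subsetSum`. Let `R = V \ F`. For every nonempty `T ⊆ R`: `∑ T ∉ M`, because otherwise
`-∑ T ∈ M` is `∑ W` with `W ⊆ F` and `T ∪ W` is a nonempty subset of `V` with sum zero. So `dav`:
`(|R| + 1) |M| ≤ |H|`. Here `|R| + 1 = n - |F| + 1 ≥ n - n1 + 1 ≥ (n + 1) / 2` and `|M| ≥ |F| ≥ n1 / 3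
≥ n / 6` (`F ⊆ sf M`), so `n^2 / 12 ≤ |H| ≤ n^2 / 400`, contradiction (`12 |H| ≥ 12 (|R|+1) |M|`,
`2 (|R| + 1) ≥ n + 1`, `6 |M| ≥ n`). -/
theorem olson [DecidableEq G] (V : Finset G) (hV : Asym V) (hz : ZSF V) (H : AddSubgroup G)
    (hH : ∀ v ∈ V, v ∈ H) : V.card ^ 2 < 400 * Nat.card H := by
  by_contra hcon
  push Not at hcon
  obtain ⟨V1, hV1, hV1c⟩ := Finset.exists_subset_card_eq (s := V) (n := (V.card + 1) / 2) (by omega)
  have h2 : V.card ≤ 2 * V1.card := by omega
  have h25 : 25 * Nat.card H ≤ V1.card ^ 2 := by nlinarith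
  obtain ⟨M, hMH, F, hFV1, hFM, hFc, hFs⟩ :=
    descent_sub V1 (hV.mono hV1) H (fun v hv => hH v (hV1 hv)) h25
  have hFV : F ⊆ V := hFV1.trans hV1
  have hd := dav (V \ F) M H hMH (fun a ha => hH a (Finset.mem_sdiff.1 ha).1) (by
    intro T hT hne hTM
    have h1 := hFs _ (M.neg_mem hTM)
    rw [Finset.mem_subsetSum_iff] at h1
    obtain ⟨B, hB, hBs⟩ := h1
    have hdis : Disjoint T B := by
      rw [Finset.disjoint_left]
      intro x hx hxB
      exact (Finset.mem_sdiff.1 (hT hx)).2 (hB hxB)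
    refine hz (T ∪ B) ?_ (hne.mono Finset.subset_union_left) ?_
    · intro x hx
      rcases Finset.mem_union.1 hx with h | h
      · exact (Finset.mem_sdiff.1 (hT h)).1
      · exact hFV (hB h)
    · rw [Finset.sum_union hdis, hBs, add_neg_cancel])
  have hMc : F.card ≤ Nat.card M := by
    rw [← card_sf]
    apply Finset.card_le_card
    intro x hx
    rw [mem_sf]
    exact hFM x hx
  have hRc : (V \ F).card = V.card - F.card := Finset.card_sdiff_of_subset hFV
  have hFc1 : F.card ≤ V1.card := Finset.card_le_card hFV1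
  have hR2 : V.card + 1 ≤ 2 * ((V \ F).card + 1) := by omega
  have hM6 : V.card ≤ 6 * Nat.card M := by omega
  have hprod : (V.card + 1) * V.card ≤ 12 * Nat.card H := by
    calc (V.card + 1) * V.card ≤ (2 * ((V \ F).card + 1)) * (6 * Nat.card M) :=
          Nat.mul_le_mul hR2 hM6
      _ = 12 * (((V \ F).card + 1) * Nat.card M) := by ring
      _ ≤ 12 * Nat.card H := Nat.mul_le_mul_left _ hd
  have hpos : 0 < Nat.card H := Nat.card_pos
  nlinarith

/-- `olson` for `inn V H` (`inn_sub`, `Asym.mono`, `ZSF.mono`, `mem_inn`). -/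
theorem olson_in [DecidableEq G] (V : Finset G) (hV : Asym V) (hz : ZSF V) (H : AddSubgroup G) :
    (inn V H).card ^ 2 < 400 * Nat.card H :=
  olson (inn V H) (hV.mono (inn_sub V H)) (hz.mono (inn_sub V H)) H
    (fun v hv => ((mem_inn V H v).1 hv).2)

end Pool.Agent.Lib.MP_d75b76_nt
end

section

/-!
# Zero-sum-free sets are thick
-/

set_option autoImplicit false
set_option linter.unusedSectionVars false

open Finset Pointwise

namespace Pool.Agent.Lib.MP_d75b76_nt

open RG (stb mem_stb)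
open AM (sf off mem_sf mem_off card_sf zero_mem_sf)
open Pool.Agent.Lib.MP_d3cc86_co (lam Asym symz)

variable {G : Type} [AddCommGroup G] [Fintype G]

/-- `AM.Thick V g` means `g ≤ |V|` and `g ≤ |off V H|` for every subgroup `H` with `|H| < 2 |V|`. Write
`n = |V|`. `P g ≤ (P - 1) n` gives `g ≤ n`. Let `|H| < 2 n` and suppose `|off V H| < g`. By `olson_in`
`(n - |off V H|)^2 = |inn V H|^2 < 400 |H| < 800 n` (`inn_add_off`). `n - |off V H| > n - g`, so
`P |inn V H| ≥ P (n - g) ≥ n` and `n^2 ≤ P^2 |inn V H|^2 < 800 P^2 n ≤ n^2`, contradiction. -/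
theorem thick [DecidableEq G] (V : Finset G) (hV : Asym V) (hz : ZSF V) (P g : ℕ) (hP : 1 ≤ P)
    (h : 800 * P ^ 2 ≤ V.card) (hg : P * g ≤ (P - 1) * V.card) : AM.Thick V g := by
  have hPm : P * g + V.card ≤ P * V.card := by
    obtain ⟨Q, rfl⟩ : ∃ Q, P = Q + 1 := ⟨P - 1, by omega⟩
    rw [Nat.add_sub_cancel] at hg
    nlinarith
  have hgn : g ≤ V.card := by
    by_contra hcon
    push Not at hcon
    have := Nat.mul_le_mul_left P hcon.le
    have hpos : 0 < V.card := by
      have : 0 < P ^ 2 := by positivity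
      omega
    omega
  refine ⟨hgn, ?_⟩
  intro H hH _
  by_contra hcon
  push Not at hcon
  have h1 := olson_in V hV hz H
  have h2 := inn_add_off V H
  have h3 : V.card ≤ P * (inn V H).card := by
    have h4 : V.card ≤ (inn V H).card + g := by omega
    have h5 : P * V.card ≤ P * (inn V H).card + P * g := by
      rw [← Nat.mul_add]
      exact Nat.mul_le_mul_left P h4
    omega
  have h6 : V.card ^ 2 ≤ P ^ 2 * (inn V H).card ^ 2 := by
    rw [← Nat.mul_pow]
    exact Nat.pow_le_pow_left h3 2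
  have h7 : P ^ 2 * (inn V H).card ^ 2 < P ^ 2 * (400 * (2 * V.card)) := by
    have hP2 : 0 < P ^ 2 := by positivity
    refine Nat.mul_lt_mul_of_pos_left ?_ hP2
    omega
  have h8 : P ^ 2 * (400 * (2 * V.card)) ≤ V.card ^ 2 := by
    calc P ^ 2 * (400 * (2 * V.card)) = (800 * P ^ 2) * V.card := by ring
      _ ≤ V.card * V.card := Nat.mul_le_mul_right _ h
      _ = V.card ^ 2 := by ring
  omega

end Pool.Agent.Lib.MP_d75b76_nt
end

section

/-!
# Quadratic growth of the subset sums of a zero-sum-free set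
-/

set_option autoImplicit false
set_option linter.unusedSectionVars false

open Finset Pointwise

namespace Pool.Agent.Lib.MP_d75b76_nt

open RG (stb mem_stb)
open AM (sf off mem_sf mem_off card_sf zero_mem_sf)
open Pool.Agent.Lib.MP_d3cc86_co (lam Asym symz)

variable {G : Type} [AddCommGroup G] [Fintype G]

private theorem quad_thick [DecidableEq G] (W : Finset G) (hW : Asym W) (hz : ZSF W)
    (hj : 1500 ≤ W.card) : AM.Thick W (W.card / 4) := by
  refine ⟨Nat.div_le_self _ _, ?_⟩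
  intro H hH _
  by_contra hcon
  push Not at hcon
  have h1 := olson_in W hW hz H
  have h2 := inn_add_off W H
  have h3 : 3 * W.card ≤ 4 * (inn W H).card := by omega
  have h4 : (3 * W.card) ^ 2 ≤ (4 * (inn W H).card) ^ 2 := Nat.pow_le_pow_left h3 2
  have h5 : 9 * (W.card * W.card) ≤ 16 * ((inn W H).card ^ 2) := by
    calc 9 * (W.card * W.card) = (3 * W.card) ^ 2 := by ring
      _ ≤ (4 * (inn W H).card) ^ 2 := h4
      _ = 16 * ((inn W H).card ^ 2) := by ring
  have h6 : 1500 * W.card ≤ W.card * W.card := Nat.mul_le_mul_right _ hj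
  omega

private theorem quad_step [DecidableEq G] (W : Finset G) (hW : Asym W) (hz : ZSF W)
    (hj : 1500 ≤ W.card)
    (hc : W.subsetSum.card + W.card < Nat.card (AddSubgroup.closure (W : Set G))) :
    ∃ x ∈ W, W.card ≤ 8 * lam W.subsetSum x := by
  have h0 : (0 : G) ∉ W := hz.zero_notMem
  have hsub : insert 0 W ⊆ W.subsetSum := by
    intro x hx
    rw [Finset.mem_subsetSum_iff]
    rcases Finset.mem_insert.1 hx with rfl | hx
    · exact ⟨∅, Finset.empty_subset _, by simp⟩
    · exact ⟨{x}, Finset.singleton_subset_iff.2 hx, by simp⟩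
  have hcard : W.card + 1 ≤ W.subsetSum.card := by
    rw [← Finset.card_insert_of_notMem h0]
    exact Finset.card_le_card hsub
  have hB : ∀ x ∈ W.subsetSum, x ∈ AddSubgroup.closure (W : Set G) := by
    intro x hx
    rw [Finset.mem_subsetSum_iff] at hx
    obtain ⟨B, hB, rfl⟩ := hx
    exact AddSubgroup.sum_mem _ fun y hy => AddSubgroup.subset_closure (hB hy)
  obtain ⟨x, hx, h⟩ := AM.stage W W.subsetSum hW hB (W.card / 4) 2 (by omega) (by omega)
    (quad_thick W hW hz hj) (by omega) (by omega)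
  exact ⟨x, hx, by omega⟩

/-- Let `n = |V|`. If `n ≤ 3000` then `n^2 ≤ 10^7` and `|V.subsetSum| ≥ 1`. Let `n > 3000`.

Case 1: there is `W ⊆ V` with `n ≤ 2 |W|` and `Nat.card (closure W) ≤ |W.subsetSum| + |W|`. Then by
`olson` for `H = closure W`: `|W|^2 < 400 (|W.subsetSum| + |W|)`, so `400 |W.subsetSum| ≥ |W| (|W| - 400)`,
and with `|W| ≥ n / 2 ≥ 1500` this is `≥ n/2 (n/2 - 400) ≥ n^2 / 10`; hence
`n^2 ≤ 4000 |W.subsetSum| ≤ 10^7 |V.subsetSum|` (`Finset.subsetSum_mono`).

Case 2: not. For `W ⊆ V` with `n ≤ 2 |W|` put `j = |W|`, `g = j / 4` and apply `AM.stage W W.subsetSum`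
with `L := 2`. `Thick W g` directly from the definition: `g ≤ j`; for `|H| < 2 j` `olson_in` gives
`(j - |off W H|)^2 = |inn W H|^2 < 800 j`, and `|off W H| < j / 4` would give `(3 j / 4)^2 < 800 j`,
`9 j < 12800`, but `j ≥ 1500`. `2 g + 1 ≤ |W.subsetSum|`: `insert 0 W ⊆ W.subsetSum`, `0 ∉ W`. And
`|W.subsetSum| + 2 g + 1 ≤ Nat.card (closure W)` because case 1 fails. Result: `x ∈ W` with
`2 g + 1 ≤ 2 lam W.subsetSum x + g`, so `8 lam ≥ 4 g + 4 ≥ j`... (`4 g ≥ j - 3`), i.e. `j ≤ 8 lam`. `chain`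
with `a = (n + 1) / 2`, `b = n`, `f i = i`, `K = 8` gives `∑_{i ∈ Ioc a n} i ≤ 8 |V.subsetSum|` and the left
side is at least `(n - a) a ≥ n^2 / 5`. -/
theorem quad [DecidableEq G] (V : Finset G) (hV : Asym V) (hz : ZSF V) :
    V.card ^ 2 ≤ 10 ^ 7 * V.subsetSum.card := by
  have hpos : 1 ≤ V.subsetSum.card := by
    rw [Nat.succ_le_iff, Finset.card_pos]
    exact ⟨0, by rw [Finset.mem_subsetSum_iff]; exact ⟨∅, Finset.empty_subset _, by simp⟩⟩
  by_cases hn : V.card ≤ 3000
  · have h1 : V.card ^ 2 ≤ 3000 ^ 2 := Nat.pow_le_pow_left hn 2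
    have h2 : 10 ^ 7 * 1 ≤ 10 ^ 7 * V.subsetSum.card := Nat.mul_le_mul_left _ hpos
    norm_num at h1 h2 ⊢
    omega
  · by_cases hc : ∃ W ⊆ V, V.card ≤ 2 * W.card ∧
        Nat.card (AddSubgroup.closure (W : Set G)) ≤ W.subsetSum.card + W.card
    · obtain ⟨W, hWV, hWn, hWc⟩ := hc
      have h1 := olson W (hV.mono hWV) (hz.mono hWV) (AddSubgroup.closure (W : Set G))
        (fun v hv => AddSubgroup.subset_closure hv)
      have h2 : W.subsetSum.card ≤ V.subsetSum.card :=
        Finset.card_le_card (Finset.subsetSum_mono hWV)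
      have h3 : W.card * W.card < 400 * (V.subsetSum.card + W.card) := by
        calc W.card * W.card = W.card ^ 2 := by ring
          _ < 400 * Nat.card (AddSubgroup.closure (W : Set G)) := h1
          _ ≤ 400 * (V.subsetSum.card + W.card) := Nat.mul_le_mul_left _ (by omega)
      have h4 : 1500 * W.card ≤ W.card * W.card := Nat.mul_le_mul_right _ (by omega)
      have h5 : V.card ^ 2 ≤ 4 * (W.card * W.card) := by
        calc V.card ^ 2 ≤ (2 * W.card) ^ 2 := Nat.pow_le_pow_left hWn 2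
          _ = 4 * (W.card * W.card) := by ring
      norm_num
      omega
    · push Not at hc
      have hch := chain V ((V.card + 1) / 2) V.card 8 (fun i => i) (by
        intro W hWV ha hb
        have h1 : V.card ≤ 2 * W.card := by omega
        exact quad_step W (hV.mono hWV) (hz.mono hWV) (by omega) (hc W hWV h1))
        (by omega) le_rfl
      have hlow : (Finset.Ioc ((V.card + 1) / 2) V.card).card • ((V.card + 1) / 2) ≤
          ∑ i ∈ Finset.Ioc ((V.card + 1) / 2) V.card, i := by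
        apply Finset.card_nsmul_le_sum
        intro i hi
        rw [Finset.mem_Ioc] at hi
        exact hi.1.le
      rw [Nat.card_Ioc, smul_eq_mul] at hlow
      set a := (V.card + 1) / 2 with ha
      have h1 : V.card ≤ 2 * a := by omega
      have h2 : V.card ≤ 2 * (V.card - a) + 1 := by omega
      have h3 : 4 * V.card ≤ 10 * (V.card - a) := by omega
      have h4 : (4 * V.card) * V.card ≤ (10 * (V.card - a)) * (2 * a) := Nat.mul_le_mul h3 h1
      have h5 : 4 * V.card ^ 2 ≤ 20 * ((V.card - a) * a) := by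
        calc 4 * V.card ^ 2 = (4 * V.card) * V.card := by ring
          _ ≤ (10 * (V.card - a)) * (2 * a) := h4
          _ = 20 * ((V.card - a) * a) := by ring
      have h6 : (V.card - a) * a ≤ 8 * V.subsetSum.card := hlow.trans hch
      norm_num
      omega

end Pool.Agent.Lib.MP_d75b76_nt
end

section

/-!
# Lifting a set of small heights to `ZMod m × ℤ`
-/

set_option autoImplicit false
set_option linter.unusedSectionVars false

open Finset Pointwise

namespace Pool.Agent.Lib.MP_d75b76_nt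

open RG (stb mem_stb)
open AM (sf off mem_sf mem_off card_sf zero_mem_sf)
open Pool.Agent.Lib.MP_d3cc86_co (lam Asym symz)

/-- the lift of `x`: its height is `(r * x).valMinAbs` -/
def lft {m : ℕ} (r x : ZMod m) : ZMod m × ℤ := (x, (r * x).valMinAbs)

open Classical in
/-- the set `2 S + H`, lifted -/
noncomputable def PT {m : ℕ} [NeZero m] (r : ZMod m) (S : Finset (ZMod m))
    (H : AddSubgroup (ZMod m)) : Finset (ZMod m × ℤ) :=
  S.image (lft r) + S.image (lft r) + (sf H).image (fun y => ((y, 0) : ZMod m × ℤ))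

variable {m : ℕ} [NeZero m] {r : ZMod m} {S : Finset (ZMod m)} {H : AddSubgroup (ZMod m)}

/-- `2 |valMinAbs| < m`: the lift is odd (`ZMod.valMinAbs_neg_of_ne_half`, or `ZMod.valMinAbs_spec`) -/
theorem lft_neg (r x : ZMod m) (hx : 20 * |(r * x).valMinAbs| < m) : lft r (-x) = - lft r x := by
  have h1 : (r * -x).valMinAbs = -(r * x).valMinAbs := by
    rw [mul_neg, ZMod.valMinAbs_spec]
    refine ⟨?_, ?_⟩
    · rw [Int.cast_neg, ZMod.coe_valMinAbs]
    · have h2 := abs_nonneg (r * x).valMinAbs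
      have h3 := le_abs_self (r * x).valMinAbs
      have h4 := neg_abs_le (r * x).valMinAbs
      constructor <;> omega
  unfold lft
  rw [h1]
  rfl

private theorem mem_PT_iff (y : ZMod m × ℤ) : y ∈ PT r S H ↔ ∃ a ∈ S, ∃ b ∈ S, ∃ h ∈ H,
    y = (a + b + h, (r * a).valMinAbs + (r * b).valMinAbs) := by
  classical
  unfold PT lft
  rw [Finset.mem_add]
  constructor
  · rintro ⟨u, hu, v, hv, rfl⟩
    rw [Finset.mem_add] at hu
    obtain ⟨u1, hu1, u2, hu2, rfl⟩ := hu
    obtain ⟨a, ha, rfl⟩ := Finset.mem_image.1 hu1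
    obtain ⟨b, hb, rfl⟩ := Finset.mem_image.1 hu2
    obtain ⟨h, hh, rfl⟩ := Finset.mem_image.1 hv
    refine ⟨a, ha, b, hb, h, (mem_sf H h).1 hh, ?_⟩
    simp
  · rintro ⟨a, ha, b, hb, h, hh, rfl⟩
    refine ⟨(a + b, (r * a).valMinAbs + (r * b).valMinAbs), ?_, (h, 0), ?_, ?_⟩
    · rw [Finset.mem_add]
      exact ⟨_, Finset.mem_image_of_mem _ ha, _, Finset.mem_image_of_mem _ hb, rfl⟩
    · exact Finset.mem_image_of_mem _ ((mem_sf H h).2 hh)
    · simp

/-- every element `y` of `PT r S H` satisfies `y.2 = r * y.1` in `ZMod m` (`ZMod.coe_valMinAbs`; on `H` we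
have `r * y = 0`) -/
theorem PT_mod (hH : ∀ y ∈ H, r * y = 0) : ∀ y ∈ PT r S H, ((y.2 : ℤ) : ZMod m) = r * y.1 := by
  intro y hy
  obtain ⟨a, -, b, -, h, hh, rfl⟩ := (mem_PT_iff y).1 hy
  show (((r * a).valMinAbs + (r * b).valMinAbs : ℤ) : ZMod m) = r * (a + b + h)
  rw [Int.cast_add, ZMod.coe_valMinAbs, ZMod.coe_valMinAbs, mul_add, mul_add, hH h hh, add_zero]

/-- A finite set of pairs with `y.2 = r * y.1` in `ZMod m` and `2 |y.2| < m` has as many elements as its
projection to `ZMod m`: `y.2` is determined by `y.1`. -/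
theorem card_proj (r : ZMod m) (X : Finset (ZMod m × ℤ))
    (h1 : ∀ y ∈ X, ((y.2 : ℤ) : ZMod m) = r * y.1) (h2 : ∀ y ∈ X, 2 * |y.2| < m) :
    (X.image Prod.fst).card = X.card := by
  refine Finset.card_image_of_injOn ?_
  intro y hy z hz hyz
  have hy' : y ∈ X := hy
  have hz' : z ∈ X := hz
  have e1 : y.1 = z.1 := hyz
  have e2 : ((y.2 : ℤ) : ZMod m) = ((z.2 : ℤ) : ZMod m) := by rw [h1 y hy', h1 z hz', e1]
  rw [ZMod.intCast_eq_intCast_iff_dvd_sub] at e2
  have a1 := h2 y hy'
  have a2 := h2 z hz'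
  have e3 : z.2 - y.2 = 0 := by
    refine Int.eq_zero_of_abs_lt_dvd e2 ?_
    have a3 := abs_sub z.2 y.2
    omega
  exact Prod.ext e1 (by omega)

/-- `PT r S H` contains `0`, the lifts of the elements `x ∈ S`, and `2 • lft r x`, `-(2 • lft r x)`
(`lft_neg`); all heights of `PT r S H` are in `[-2 N, 2 N]`. -/
theorem mem_PT (h0 : (0 : ZMod m) ∈ S) (hsym : ∀ x ∈ S, -x ∈ S)
    (hS : ∀ x ∈ S, 20 * |(r * x).valMinAbs| < m) (N : ℤ)
    (hSN : ∀ x ∈ S, |(r * x).valMinAbs| ≤ N) :
    (0 : ZMod m × ℤ) ∈ PT r S H ∧ (∀ x ∈ S, lft r x ∈ PT r S H ∧ 2 • lft r x ∈ PT r S H ∧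
      -(2 • lft r x) ∈ PT r S H) ∧ ∀ y ∈ PT r S H, -(2 * N) ≤ y.2 ∧ y.2 ≤ 2 * N := by
  have z0 : (r * 0 : ZMod m).valMinAbs = 0 := by rw [mul_zero, ZMod.valMinAbs_zero]
  have dbl : ∀ x ∈ S, 2 • lft r x ∈ PT r S H := by
    intro x hx
    refine (mem_PT_iff _).2 ⟨x, hx, x, hx, 0, H.zero_mem, ?_⟩
    unfold lft
    rw [two_nsmul, Prod.mk_add_mk, add_zero]
  refine ⟨?_, fun x hx => ⟨?_, dbl x hx, ?_⟩, ?_⟩
  · refine (mem_PT_iff _).2 ⟨0, h0, 0, h0, 0, H.zero_mem, ?_⟩
    rw [z0, add_zero, add_zero, add_zero]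
    rfl
  · refine (mem_PT_iff _).2 ⟨x, hx, 0, h0, 0, H.zero_mem, ?_⟩
    rw [z0]
    unfold lft
    simp
  · have h := dbl (-x) (hsym x hx)
    rw [lft_neg r x (hS x hx), smul_neg] at h
    exact h
  · intro y hy
    obtain ⟨a, ha, b, hb, h, hh, rfl⟩ := (mem_PT_iff y).1 hy
    have h1 := abs_le.1 (hSN a ha)
    have h2 := abs_le.1 (hSN b hb)
    constructor
    · show -(2 * N) ≤ (r * a).valMinAbs + (r * b).valMinAbs
      omega
    · show (r * a).valMinAbs + (r * b).valMinAbs ≤ 2 * N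
      omega

end Pool.Agent.Lib.MP_d75b76_nt
end
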