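import Mathlib
import Pool.Agent.Lib.MP_d75b76_nt.Num
import Pool.Agent.Lib.MP_d75b76_nt.Defs
import Pool.Agent.Lib.MP_d75b76_nt.F3

section

/-!
# A good index (pure arithmetic)
-/

set_option autoImplicit false

open Finset

namespace Pool.Agent.Lib.MP_d75b76_nt

private theorem pick_sum (f : ℕ → ℕ) (v g J L : ℕ) (hJ : 10 ^ 12 * L ≤ J) (hg1 : g ≤ v)
    (hg2 : 10 ^ 12 * L * (v - g) ≤ v) (h1 : ∀ i < J, 2 * g * i ≤ f i)
    (h2 : 10 ^ 9 * L * ∑ i ∈ Finset.range J, f i ≤ (10 ^ 9 * L + 3) * (v * J ^ 2)) :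
    10 ^ 9 * L * ∑ i ∈ Finset.range J, (f i - 2 * g * i) ≤ 4 * (v * J ^ 2) := by
  have e1 : ∑ i ∈ Finset.range J, (f i - 2 * g * i) + ∑ i ∈ Finset.range J, 2 * g * i =
      ∑ i ∈ Finset.range J, f i := by
    rw [← Finset.sum_add_distrib]
    exact Finset.sum_congr rfl fun i hi => Nat.sub_add_cancel (h1 i (Finset.mem_range.1 hi))
  have e2 : ∑ i ∈ Finset.range J, 2 * g * i = g * (J * (J - 1)) := by
    rw [← Finset.mul_sum, ← Finset.sum_range_id_mul_two]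
    ring
  obtain ⟨w, rfl⟩ : ∃ w, v = g + w := ⟨v - g, by omega⟩
  have hw : 10 ^ 12 * L * w ≤ g + w := by
    have : g + w - g = w := by omega
    rwa [this] at hg2
  rw [e2] at e1
  set S := ∑ i ∈ Finset.range J, (f i - 2 * g * i) with hS
  set T := ∑ i ∈ Finset.range J, f i with hT
  rcases Nat.eq_zero_or_pos J with h0 | h0
  · subst h0
    simp at hS
    simp [hS]
  obtain ⟨j, rfl⟩ : ∃ j, J = j + 1 := ⟨J - 1, by omega⟩
  have e3 : j + 1 - 1 = j := by omega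
  rw [e3] at e1
  rw [← e1] at h2
  have h3 : 10 ^ 9 * L * S + 10 ^ 9 * L * (g * ((j + 1) * j)) ≤
      (10 ^ 9 * L + 3) * ((g + w) * (j + 1) ^ 2) := by
    calc _ = 10 ^ 9 * L * (S + g * ((j + 1) * j)) := by ring
      _ ≤ _ := h2
  have h4 : 10 ^ 12 * L * w * (j + 1) ^ 2 ≤ (g + w) * (j + 1) ^ 2 := Nat.mul_le_mul_right _ hw
  have h5 : 10 ^ 12 * L * ((g + w) * (j + 1)) ≤ (g + w) * (j + 1) ^ 2 := by
    calc _ ≤ (j + 1) * ((g + w) * (j + 1)) := Nat.mul_le_mul_right _ hJ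
      _ = _ := by ring
  have h6 : 10 ^ 12 * L * (g * (j + 1)) ≤ 10 ^ 12 * L * ((g + w) * (j + 1)) :=
    Nat.mul_le_mul_left _ (Nat.mul_le_mul_right _ (by omega))
  nlinarith [h3, h4, h5, h6]

/-- Call `i < J` bad if `v J < 10^6 L (f i - 2 g i)` (`f i - 2 g i ≥ 0` by `h1`). `h2` and `hg2` give
`∑_{i < J} (f i - 2 g i) ≤ (1 + 3 / (10^9 L)) v J^2 - g J (J - 1) ≤ 4 v J^2 / (10^9 L)`
(`g ≥ v - v / (10^12 L)`, `g J ≤ v J ≤ v J^2 / (10^12 L)`), so there are at most `0.004 J` bad `i`.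
If `i` is good (`i < J` not bad) and `J ≤ 4 i` then
`10^6 L f i ≤ 10^6 L * 2 g i + v J ≤ 10^6 L * 2 v i + 4 v i = (10^6 L + 2) (2 v i)`.
Suppose that `f i + 16 v < f (i + 1)` for all good `i` with `J ≤ 4 i`, `2 i ≤ J` (otherwise done). There
are at least `J / 4 - 2 - 0.004 J ≥ 0.2 J` such `i`, and `f` is monotone, so for every `i' > J / 2`:
`f i' ≥ 0.2 J * 16 v = 3.2 v J` (telescoping: `f (n+1) - f 0 = ∑ (f (i+1) - f i)`). There is a good
`i'` with `J / 2 < i' ≤ 0.6 J` (more than `0.004 J` numbers), and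
`f i' ≤ 2 g i' + v J / (10^6 L) ≤ 1.21 v J`, contradiction. -/
theorem pick (f : ℕ → ℕ) (hf : Monotone f) (v g J L : ℕ) (hL : 1000 ≤ L) (hv : 10 ^ 12 * L ≤ v)
    (hJ : 10 ^ 12 * L ≤ J) (hg1 : g ≤ v) (hg2 : 10 ^ 12 * L * (v - g) ≤ v)
    (h1 : ∀ i < J, 2 * g * i ≤ f i)
    (h2 : 10 ^ 9 * L * ∑ i ∈ Finset.range J, f i ≤ (10 ^ 9 * L + 3) * (v * J ^ 2)) :
    ∃ I, J ≤ 4 * I ∧ 2 * I ≤ J ∧ 10 ^ 6 * L * f I ≤ (10 ^ 6 * L + 2) * (2 * v * I) ∧
      f (I + 1) ≤ f I + 16 * v := by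
  classical
  have hs := pick_sum f v g J L hJ hg1 hg2 h1 h2
  have hJ0 : 10 ^ 15 ≤ J := by
    calc 10 ^ 15 = 10 ^ 12 * 1000 := by norm_num
      _ ≤ 10 ^ 12 * L := Nat.mul_le_mul_left _ hL
      _ ≤ J := hJ
  have hv0 : 0 < v := by
    have : 0 < 10 ^ 12 * L := by positivity
    omega
  set B := (Finset.range J).filter (fun i => v * J < 10 ^ 6 * L * (f i - 2 * g * i)) with hB
  -- few bad indices
  have hcB : 1000 * B.card ≤ 4 * J := by
    have e1 : B.card * (v * J) ≤ ∑ i ∈ B, 10 ^ 6 * L * (f i - 2 * g * i) := by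
      rw [← smul_eq_mul]
      apply Finset.card_nsmul_le_sum
      intro i hi
      exact le_of_lt (Finset.mem_filter.1 hi).2
    have e2 : ∑ i ∈ B, 10 ^ 6 * L * (f i - 2 * g * i) ≤
        ∑ i ∈ Finset.range J, 10 ^ 6 * L * (f i - 2 * g * i) :=
      Finset.sum_le_sum_of_subset (Finset.filter_subset _ _)
    rw [← Finset.mul_sum (Finset.range J)] at e2
    have e3 : (1000 * B.card) * (v * J) ≤ (4 * J) * (v * J) := by
      calc (1000 * B.card) * (v * J) = 1000 * (B.card * (v * J)) := by ring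
        _ ≤ 1000 * (10 ^ 6 * L * ∑ i ∈ Finset.range J, (f i - 2 * g * i)) :=
          Nat.mul_le_mul_left _ (e1.trans e2)
        _ = 10 ^ 9 * L * ∑ i ∈ Finset.range J, (f i - 2 * g * i) := by ring
        _ ≤ 4 * (v * J ^ 2) := hs
        _ = _ := by ring
    exact Nat.le_of_mul_le_mul_right e3 (Nat.mul_pos hv0 (by omega))
  have good : ∀ i, i < J → i ∉ B → 10 ^ 6 * L * f i ≤ 10 ^ 6 * L * (2 * v * i) + v * J := by
    intro i hi hiB
    have e1 : 10 ^ 6 * L * (f i - 2 * g * i) ≤ v * J := by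
      by_contra hc
      exact hiB (Finset.mem_filter.2 ⟨Finset.mem_range.2 hi, not_le.1 hc⟩)
    have e2 : f i = (f i - 2 * g * i) + 2 * g * i := (Nat.sub_add_cancel (h1 i hi)).symm
    calc 10 ^ 6 * L * f i = 10 ^ 6 * L * (f i - 2 * g * i) + 10 ^ 6 * L * (2 * g * i) := by
          conv_lhs => rw [e2]
          ring
      _ ≤ v * J + 10 ^ 6 * L * (2 * v * i) := by
          apply Nat.add_le_add e1
          apply Nat.mul_le_mul_left
          apply Nat.mul_le_mul_right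
          omega
      _ = _ := by ring
  by_contra hcon
  push Not at hcon
  set A := (Finset.Icc ((J + 3) / 4) (J / 2)) \ B with hA
  have hcA : J ≤ 5 * A.card := by
    have e1 : (Finset.Icc ((J + 3) / 4) (J / 2)).card ≤ A.card + B.card := by
      have := Finset.card_le_card_sdiff_add_card (s := Finset.Icc ((J + 3) / 4) (J / 2)) (t := B)
      exact this
    rw [Nat.card_Icc] at e1
    omega
  have hstep : ∀ i ∈ A, 16 * v ≤ f (i + 1) - f i := by
    intro i hi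
    rw [hA, Finset.mem_sdiff, Finset.mem_Icc] at hi
    obtain ⟨⟨ha, hb⟩, hc⟩ := hi
    have hi1 : J ≤ 4 * i := by omega
    have hi2 : 2 * i ≤ J := by omega
    have hi3 : i < J := by omega
    have e1 := good i hi3 hc
    have e2 : 10 ^ 6 * L * f i ≤ (10 ^ 6 * L + 2) * (2 * v * i) := by
      have : v * J ≤ v * (4 * i) := Nat.mul_le_mul_left _ hi1
      nlinarith [e1, this]
    have := hcon i hi1 hi2 e2
    omega
  have htel : 16 * v * A.card ≤ f (J / 2 + 1) := by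
    have e1 : A.card * (16 * v) ≤ ∑ i ∈ A, (f (i + 1) - f i) := by
      rw [← smul_eq_mul]
      exact Finset.card_nsmul_le_sum _ _ _ hstep
    have e2 : ∑ i ∈ A, (f (i + 1) - f i) ≤ ∑ i ∈ Finset.range (J / 2 + 1), (f (i + 1) - f i) := by
      apply Finset.sum_le_sum_of_subset
      intro i hi
      rw [hA, Finset.mem_sdiff, Finset.mem_Icc] at hi
      rw [Finset.mem_range]
      omega
    rw [Finset.sum_range_tsub hf] at e2
    have e3 : f (J / 2 + 1) - f 0 ≤ f (J / 2 + 1) := Nat.sub_le _ _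
    calc 16 * v * A.card = A.card * (16 * v) := by ring
      _ ≤ _ := e1.trans (e2.trans e3)
  -- a good index beyond J / 2
  obtain ⟨i, hi⟩ : ((Finset.Ico (J / 2 + 1) J) \ B).Nonempty := by
    rw [← Finset.card_pos]
    have := Finset.card_le_card_sdiff_add_card (s := Finset.Ico (J / 2 + 1) J) (t := B)
    rw [Nat.card_Ico] at this
    omega
  rw [Finset.mem_sdiff, Finset.mem_Ico] at hi
  obtain ⟨⟨ha, hb⟩, hc⟩ := hi
  have e1 := good i hb hc
  have e2 : f (J / 2 + 1) ≤ f i := hf ha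
  have e3 : 16 * v * J ≤ 5 * f i := by
    calc 16 * v * J ≤ 16 * v * (5 * A.card) := Nat.mul_le_mul_left _ hcA
      _ = 5 * (16 * v * A.card) := by ring
      _ ≤ 5 * f i := Nat.mul_le_mul_left _ (htel.trans e2)
  have e4 : 2 * v * i ≤ 2 * v * J := Nat.mul_le_mul_left _ hb.le
  have e5 : 10 ^ 6 * L * (2 * v * i) ≤ 10 ^ 6 * L * (2 * v * J) := Nat.mul_le_mul_left _ e4
  have e6 : 10 ^ 6 * L * (16 * v * J) ≤ 10 ^ 6 * L * (5 * f i) := Nat.mul_le_mul_left _ e3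
  have e7 : v * J ≤ L * (v * J) := Nat.le_mul_of_pos_left _ (by omega)
  have e8 : 0 < L * (v * J) := Nat.mul_pos (by omega) (Nat.mul_pos hv0 (by omega))
  nlinarith [e1, e5, e6, e7, e8]

end Pool.Agent.Lib.MP_d75b76_nt
end

section

/-!
# The number of prime factors is small
-/

set_option autoImplicit false

open Finset

namespace Pool.Agent.Lib.MP_d75b76_nt

private theorem pow_card_le (Q m : ℕ) (hQ : 1 ≤ Q) (hm : 1 ≤ m) :
    Q ^ m.primeFactors.card ≤ Q ^ Q * m := by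
  classical
  have h1 : Q ^ m.primeFactors.card = ∏ _p ∈ m.primeFactors, Q := by
    rw [Finset.prod_const]
  rw [h1, ← Finset.prod_filter_mul_prod_filter_not m.primeFactors (fun p => p ≤ Q)]
  refine Nat.mul_le_mul ?_ ?_
  · rw [Finset.prod_const]
    refine Nat.pow_le_pow_right hQ ?_
    have h2 : m.primeFactors.filter (fun p => p ≤ Q) ⊆ Finset.Icc 1 Q := by
      intro p hp
      rw [Finset.mem_filter] at hp
      rw [Finset.mem_Icc]
      exact ⟨(Nat.prime_of_mem_primeFactors hp.1).one_lt.le, hp.2⟩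
    have h3 := Finset.card_le_card h2
    rwa [Nat.card_Icc, Nat.add_sub_cancel] at h3
  · have h2 : ∏ _p ∈ m.primeFactors.filter (fun p => ¬ p ≤ Q), Q ≤
        ∏ p ∈ m.primeFactors.filter (fun p => ¬ p ≤ Q), p := by
      refine Finset.prod_le_prod' fun p hp => ?_
      rw [Finset.mem_filter] at hp
      omega
    have h3 : ∏ p ∈ m.primeFactors.filter (fun p => ¬ p ≤ Q), p ≤ ∏ p ∈ m.primeFactors, p := by
      refine Finset.prod_le_prod_of_subset_of_one_le' (Finset.filter_subset _ _) fun p hp _ => ?_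
      exact (Nat.prime_of_mem_primeFactors hp).one_lt.le
    exact h2.trans (h3.trans (Nat.le_of_dvd hm (Nat.prod_primeFactors_dvd m)))

/-- `w = m.primeFactors.card`. `(C^2)^w = ∏_{p ∣ m} C^2 ≤ ∏_{p ∣ m, p ≤ C^2} C^2 * ∏_{p ∣ m, p > C^2} p ≤
(C^2)^(C^2) * m` (`C ≥ 1`; at most `C^2` primes are `≤ C^2`; `∏_{p ∣ m} p ≤ m`: `Nat.prod_primeFactors_dvd`).
So `(D * C^w)^2 ≤ D^2 (C^2)^(C^2) m ≤ m^2` if `m ≥ M = D^2 (C^2)^(C^2) + 1`. (`C = 0` is trivial or similar.) -/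
theorem pow_omega (C D : ℕ) : ∃ M, ∀ m ≥ M, D * C ^ m.primeFactors.card ≤ m := by
  rcases Nat.eq_zero_or_pos C with hC | hC
  · subst hC
    refine ⟨D, fun m hm => ?_⟩
    have h1 : 0 ^ m.primeFactors.card ≤ 1 := by
      rcases Nat.eq_zero_or_pos m.primeFactors.card with h | h
      · rw [h, pow_zero]
      · rw [Nat.zero_pow h]
        exact Nat.zero_le 1
    have h2 := Nat.mul_le_mul_left D h1
    omega
  · refine ⟨D ^ 2 * (C ^ 2) ^ (C ^ 2) + 1, fun m hm => ?_⟩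
    have h0 : 1 ≤ C ^ 2 := Nat.one_le_pow _ _ hC
    have h1 := pow_card_le (C ^ 2) m h0 (by omega)
    have h2 : (D * C ^ m.primeFactors.card) ^ 2 ≤ m ^ 2 := by
      calc (D * C ^ m.primeFactors.card) ^ 2 = D ^ 2 * (C ^ 2) ^ m.primeFactors.card := by
            rw [mul_pow, ← pow_mul, ← pow_mul, mul_comm 2]
        _ ≤ D ^ 2 * ((C ^ 2) ^ (C ^ 2) * m) := Nat.mul_le_mul_left _ h1
        _ = D ^ 2 * (C ^ 2) ^ (C ^ 2) * m := by rw [mul_assoc]
        _ ≤ m * m := Nat.mul_le_mul_right _ (by omega)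
        _ = m ^ 2 := by rw [pow_two]
    exact (Nat.pow_le_pow_iff_left (by norm_num)).1 h2

private theorem arith (a k m : ℕ) (ha : 1 ≤ a) (h1 : 4 * a ^ 2 ≤ m)
    (h2 : 2 * m ≤ (k + 1) * (k + 2)) : a ≤ k := by
  by_contra hlt
  have h3 : k + 1 ≤ a := not_le.1 hlt
  have h4 : (k + 1) * (k + 2) ≤ a * (a + 1) := Nat.mul_le_mul h3 (by omega)
  have h5 : a * (a + 1) ≤ a * (a + a) := Nat.mul_le_mul_left _ (by omega)
  have h6 : a * (a + a) = 2 * a ^ 2 := by ring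
  have h7 : 0 < a ^ 2 := Nat.pow_pos ha
  omega

/-- `L = 1000 * 8^w`, `L^52 = 1000^52 * (8^52)^w`. `pow_omega` with `D = (1000^52)^2 * 4`, `C = (8^52)^2` gives
`4 (L^52)^2 ≤ m` for large `m`. From `2 m ≤ (k + 1) (k + 2)` and `k ≥ 1`: `2 m ≤ 6 k^2`, so `(L^52)^2 ≤ k^2`. -/
theorem exists_L : ∃ M, ∀ m ≥ M, ∀ k : ℕ, 2 * m ≤ (k + 1) * (k + 2) →
    ∃ L, 1000 ≤ L ∧ L ^ 52 ≤ k ∧ 8 ^ m.primeFactors.card ≤ L := by
  obtain ⟨M, hM⟩ := pow_omega ((8 ^ 52) ^ 2) (4 * (1000 ^ 52) ^ 2)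
  refine ⟨M, fun m hm k hk => ?_⟩
  have h1 := hM m hm
  set w := m.primeFactors.card with hw
  have h8 : 1 ≤ 8 ^ w := Nat.one_le_pow _ _ (by norm_num)
  refine ⟨1000 * 8 ^ w, by omega, ?_, by omega⟩
  refine arith _ k m (Nat.one_le_pow _ _ (by omega)) ?_ hk
  have h2 : 4 * ((1000 * 8 ^ w) ^ 52) ^ 2 = 4 * (1000 ^ 52) ^ 2 * ((8 ^ 52) ^ 2) ^ w := by
    have h3 : ∀ u v : ℕ, 4 * ((u * v ^ w) ^ 52) ^ 2 = 4 * (u ^ 52) ^ 2 * ((v ^ 52) ^ 2) ^ w := by
      intro u v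
      rw [mul_pow, mul_pow, ← pow_mul v w 52, ← pow_mul v (w * 52) 2, ← pow_mul v 52 2,
        ← pow_mul v (52 * 2) w, mul_assoc]
      have h4 : w * (52 * 2) = 52 * 2 * w := by ring
      rw [h4]
      exact (mul_assoc _ _ _).symm
    exact h3 1000 8
  rw [h2]
  exact h1

end Pool.Agent.Lib.MP_d75b76_nt
end

section

/-!
# Arithmetic for the case of a proper subgroup
-/

set_option autoImplicit false

open Finset

namespace Pool.Agent.Lib.MP_d75b76_nt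

/-- `q n^2 ≤ 400 q h ≤ 400 k^2 ≤ 400 * 10^16 L^4 n^2`, so `q ≤ 4 * 10^18 L^4` (`n > 0` since `k > 0`).
`2 q ≤ X`: otherwise `3 k ≤ q L X ≤ 2 q^2 L ≤ 3.2 * 10^37 L^9`, but `3.2 * 10^37 L^9 ≤ k` (`big_aux`).
So `X^2 ≤ 4 * 10^7 q P n ≤ 4 * 10^7 q P k` and `9 k^2 ≤ (q L X)^2 ≤ 4 * 10^7 q^3 L^2 P k`,
`9 k ≤ 4 * 10^7 * (4 * 10^18 L^4)^3 * L^2 * 10^17 L^4 = 2.56 * 10^80 L^18 ≤ k` (`big_aux` with
`C = 10^96 = 1000^32`), contradiction. -/
theorem np_arith (k n L q X h : ℕ) (hL : 1000 ≤ L) (hk : L ^ 50 ≤ k) (hn : n ≤ k)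
    (h1 : k ≤ 10 ^ 8 * L ^ 2 * n) (h2 : q * h ≤ k ^ 2) (h3 : n ^ 2 < 400 * h)
    (h4 : 3 * k ≤ q * L * X) (h5 : 2 * q ≤ X → X ^ 2 ≤ 4 * 10 ^ 7 * q * (PP L * n)) : False := by
  have hk0 : 0 < k := lt_of_lt_of_le (pow_pos (by omega) 50) hk
  have hn0 : 0 < n := by
    rcases Nat.eq_zero_or_pos n with h | h
    · subst h
      simp at h1
      omega
    · exact h
  have hk2 : k ^ 2 ≤ 10 ^ 16 * L ^ 4 * n ^ 2 := by
    calc k ^ 2 ≤ (10 ^ 8 * L ^ 2 * n) ^ 2 := Nat.pow_le_pow_left h1 2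
      _ = 10 ^ 16 * L ^ 4 * n ^ 2 := by ring
  have hq : q ≤ 4 * 10 ^ 18 * L ^ 4 := by
    have hle : q * n ^ 2 ≤ (4 * 10 ^ 18 * L ^ 4) * n ^ 2 := by
      calc q * n ^ 2 ≤ q * (400 * h) := Nat.mul_le_mul_left _ h3.le
        _ = 400 * (q * h) := by ring
        _ ≤ 400 * k ^ 2 := Nat.mul_le_mul_left _ h2
        _ ≤ 400 * (10 ^ 16 * L ^ 4 * n ^ 2) := Nat.mul_le_mul_left _ hk2
        _ = (4 * 10 ^ 18 * L ^ 4) * n ^ 2 := by ring
    exact Nat.le_of_mul_le_mul_right hle (pow_pos hn0 2)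
  have hX : 2 * q ≤ X := by
    by_contra hlt
    have hX2 : X ≤ 2 * q := by omega
    have hb : 10 ^ 38 * L ^ 9 ≤ k := big_aux hL hk (by norm_num) (by norm_num)
    have hc : 3 * k ≤ 10 ^ 38 * L ^ 9 := by
      calc 3 * k ≤ q * L * X := h4
        _ ≤ q * L * (2 * q) := Nat.mul_le_mul_left _ hX2
        _ = 2 * L * (q * q) := by ring
        _ ≤ 2 * L * ((4 * 10 ^ 18 * L ^ 4) * (4 * 10 ^ 18 * L ^ 4)) :=
          Nat.mul_le_mul_left _ (Nat.mul_le_mul hq hq)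
        _ = (32 * 10 ^ 36) * L ^ 9 := by ring
        _ ≤ 10 ^ 38 * L ^ 9 := Nat.mul_le_mul_right _ (by norm_num)
    omega
  have hX2 : X ^ 2 ≤ 4 * 10 ^ 24 * q * L ^ 4 * k := by
    calc X ^ 2 ≤ 4 * 10 ^ 7 * q * (PP L * n) := h5 hX
      _ ≤ 4 * 10 ^ 7 * q * (PP L * k) :=
        Nat.mul_le_mul_left _ (Nat.mul_le_mul_left _ hn)
      _ = 4 * 10 ^ 24 * q * L ^ 4 * k := by
        unfold PP
        ring
  have hq3 : q ^ 3 ≤ 64 * 10 ^ 54 * L ^ 12 := by
    calc q ^ 3 ≤ (4 * 10 ^ 18 * L ^ 4) ^ 3 := Nat.pow_le_pow_left hq 3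
      _ = 64 * 10 ^ 54 * L ^ 12 := by ring
  have hb : 1000 ^ 32 * L ^ 18 ≤ k := big_aux hL hk (by norm_num) (by norm_num)
  have hfin : 9 * k ^ 2 ≤ k ^ 2 := by
    calc 9 * k ^ 2 = (3 * k) ^ 2 := by ring
      _ ≤ (q * L * X) ^ 2 := Nat.pow_le_pow_left h4 2
      _ = q ^ 2 * L ^ 2 * X ^ 2 := by ring
      _ ≤ q ^ 2 * L ^ 2 * (4 * 10 ^ 24 * q * L ^ 4 * k) := Nat.mul_le_mul_left _ hX2
      _ = 4 * 10 ^ 24 * L ^ 6 * k * q ^ 3 := by ring
      _ ≤ 4 * 10 ^ 24 * L ^ 6 * k * (64 * 10 ^ 54 * L ^ 12) := Nat.mul_le_mul_left _ hq3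
      _ = (256 * 10 ^ 78) * L ^ 18 * k := by ring
      _ ≤ 1000 ^ 32 * L ^ 18 * k :=
        Nat.mul_le_mul_right _ (Nat.mul_le_mul_right _ (by norm_num))
      _ ≤ k * k := Nat.mul_le_mul_right _ hb
      _ = k ^ 2 := by ring
  have : 0 < k ^ 2 := pow_pos hk0 2
  omega

end Pool.Agent.Lib.MP_d75b76_nt
end

section

/-!
# Arithmetic for the upper bound
-/

set_option autoImplicit false

open Finset

namespace Pool.Agent.Lib.MP_d75b76_nt

private theorem sum_Ioc_aux (a b : ℕ) (hab : a ≤ b) :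
    2 * ∑ i ∈ Finset.Ioc a b, i + a * (a + 1) = b * (b + 1) := by
  induction b, hab using Nat.le_induction with
  | base => simp
  | succ m hm ih =>
    rw [Finset.sum_Ioc_succ_top (by omega)]
    nlinarith [ih]

/-- `2 ∑_{i ∈ Ioc a b} i = b (b + 1) - a (a + 1)` (or any good lower bound for the sum).
`b ≥ k - k / P - 1 ≥ 0.999 k`, `a ≤ 0.001 k`, `(P - 3) / P ≥ 0.999`, so `2 n ≥ 0.99 k^2`. Work in `ℝ`. -/
theorem upper_arith (k n L a b : ℕ) (hL : 1000 ≤ L) (hk : L ^ 50 ≤ k)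
    (ha : a = k / (10 ^ 8 * L ^ 2)) (hb : b = k - (k / PP L + 1))
    (h : ∑ i ∈ Finset.Ioc a b, (PP L - 3) * i ≤ PP L * n) : 49 * k ^ 2 ≤ 100 * n := by
  have hP : 10 ^ 29 ≤ PP L := by
    have h1 : 1000 ^ 4 ≤ L ^ 4 := Nat.pow_le_pow_left hL 4
    unfold PP
    calc 10 ^ 29 = 10 ^ 17 * 1000 ^ 4 := by norm_num
      _ ≤ 10 ^ 17 * L ^ 4 := Nat.mul_le_mul_left _ h1
  have hk8 : 10 ^ 8 ≤ k := by
    have h1 := big_aux hL hk (a := 0) (C := 10 ^ 8) (by norm_num) (by norm_num)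
    simpa using h1
  obtain ⟨P, hPP⟩ : ∃ P, P = PP L := ⟨_, rfl⟩
  rw [← hPP] at hP h hb
  have h1 : 10 ^ 8 * (k / P) ≤ k := by
    calc 10 ^ 8 * (k / P) ≤ P * (k / P) := Nat.mul_le_mul_right _ (by omega)
      _ ≤ k := Nat.mul_div_le k P
  have h2 : 10 ^ 8 * a ≤ k := by
    have hL2 : 1 ≤ L ^ 2 := Nat.one_le_pow _ _ (by omega)
    calc 10 ^ 8 * a ≤ (10 ^ 8 * L ^ 2) * a := Nat.mul_le_mul_right _ (by omega)
      _ ≤ k := by rw [ha]; exact Nat.mul_div_le k _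
  have h3 : b + (k / P + 1) = k := by omega
  have hab : a ≤ b := by omega
  have hS := sum_Ioc_aux a b hab
  rw [← Finset.mul_sum] at h
  obtain ⟨S, hSS⟩ : ∃ S, S = ∑ i ∈ Finset.Ioc a b, i := ⟨_, rfl⟩
  rw [← hSS] at h hS
  obtain ⟨Q, hQ⟩ : ∃ Q, P = Q + 3 := ⟨P - 3, by omega⟩
  have hQ1 : 1000 ≤ Q := by omega
  rw [hQ, Nat.add_sub_cancel] at h
  have h4 : 9999 * k ≤ 10000 * b := by omega
  have h5 : 10000 * (a + 1) ≤ k := by omega
  have h4' : (9999 : ℝ) * k ≤ 10000 * b := by exact_mod_cast h4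
  have h5' : (10000 : ℝ) * (a + 1) ≤ k := by exact_mod_cast h5
  have hS' : 2 * (S : ℝ) + a * (a + 1) = b * (b + 1) := by exact_mod_cast hS
  have h' : (Q : ℝ) * S ≤ (Q + 3) * n := by exact_mod_cast h
  have hQ1' : (1000 : ℝ) ≤ Q := by exact_mod_cast hQ1
  have ha0 : (0 : ℝ) ≤ a := Nat.cast_nonneg a
  have hk0 : (0 : ℝ) ≤ k := Nat.cast_nonneg k
  have hb0 : (0 : ℝ) ≤ b := Nat.cast_nonneg b
  have hn0 : (0 : ℝ) ≤ n := Nat.cast_nonneg n
  have h6 : (a : ℝ) * (a + 1) ≤ k ^ 2 / 10000 := by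
    have : (a : ℝ) * (a + 1) ≤ k * (k / 10000) := by
      apply mul_le_mul _ _ (by positivity) hk0
      · linarith
      · linarith
    calc (a : ℝ) * (a + 1) ≤ k * (k / 10000) := this
      _ = k ^ 2 / 10000 := by ring
  have h7 : (9998 : ℝ) / 10000 * k ^ 2 ≤ b ^ 2 := by
    have h8 : (9999 / 10000 * (k : ℝ)) ^ 2 ≤ b ^ 2 := by
      apply pow_le_pow_left₀ (by positivity)
      linarith
    have h9 : (9998 : ℝ) / 10000 * k ^ 2 ≤ (9999 / 10000 * (k : ℝ)) ^ 2 := by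
      have : (9999 / 10000 * (k : ℝ)) ^ 2 = 9999 ^ 2 / 10000 ^ 2 * k ^ 2 := by ring
      rw [this]
      apply mul_le_mul_of_nonneg_right _ (by positivity)
      norm_num
    linarith
  have h10 : (4995 : ℝ) / 10000 * k ^ 2 ≤ S := by nlinarith
  have h11 : (49 : ℝ) * k ^ 2 ≤ 100 * n := by
    by_contra hcon
    push Not at hcon
    have h12 : (Q : ℝ) * (4995 / 10000 * k ^ 2) ≤ (Q + 3) * n :=
      (mul_le_mul_of_nonneg_left h10 (by linarith)).trans h'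
    have hk2 : (0 : ℝ) < k ^ 2 := by
      have : (0 : ℝ) < k := by
        have : 0 < k := by omega
        exact_mod_cast this
      positivity
    have h13 : ((Q : ℝ) + 3) * (100 * n) < (Q + 3) * (49 * k ^ 2) :=
      mul_lt_mul_of_pos_left hcon (by linarith)
    have h14 : (Q : ℝ) * (4995 / 100 * k ^ 2) < (Q + 3) * (49 * k ^ 2) := by nlinarith
    have h15 : ((Q : ℝ) * (95 / 100) - 147) * k ^ 2 < 0 := by nlinarith
    have h16 : 0 < (Q : ℝ) * (95 / 100) - 147 := by linarith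
    nlinarith [mul_pos h16 hk2]
  exact_mod_cast h11

end Pool.Agent.Lib.MP_d75b76_nt
end

section

/-!
# Arithmetic for the tight set
-/

set_option autoImplicit false

open Finset

namespace Pool.Agent.Lib.MP_d75b76_nt

private theorem sum_Ioc_two (a b : ℕ) (hab : a ≤ b) :
    2 * ∑ i ∈ Finset.Ioc a b, i + a * (a + 1) = b * (b + 1) := by
  induction b, hab using Nat.le_induction with
  | base => simp
  | succ m hm ih =>
    rw [Finset.sum_Ioc_succ_top (by omega : a ≤ m)]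
    nlinarith [ih]

private theorem sum_split (P L a b a1 b1 : ℕ) (h1 : a ≤ a1) (h2 : a1 ≤ b1) (h3 : b1 ≤ b)
    (hP : 3 ≤ P) :
    ∑ i ∈ Finset.Ioc a b, (if a1 < i ∧ i ≤ b1 then (P + 9 * L) * i else (P - 3) * i) =
      (P - 3) * ∑ i ∈ Finset.Ioc a b, i + (9 * L + 3) * ∑ i ∈ Finset.Ioc a1 b1, i := by
  have e : ∀ i ∈ Finset.Ioc a b,
      (if a1 < i ∧ i ≤ b1 then (P + 9 * L) * i else (P - 3) * i) =
      (P - 3) * i + (if a1 < i ∧ i ≤ b1 then (9 * L + 3) * i else 0) := by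
    intro i _
    split_ifs
    · rw [← add_mul]
      congr 1
      omega
    · simp
  rw [Finset.sum_congr rfl e, Finset.sum_add_distrib, ← Finset.mul_sum]
  congr 1
  rw [Finset.mul_sum, ← Finset.sum_filter]
  apply Finset.sum_congr _ (fun _ _ => rfl)
  ext i
  simp only [Finset.mem_filter, Finset.mem_Ioc]
  omega

/-- `P = PP L = 10^17 L^4`. First `a ≤ a1 ≤ b1 ≤ b`. The sum is
`(P - 3) ∑_{Ioc a b} i + (9 L + 3) ∑_{Ioc a1 b1} i`, `2 ∑_{Ioc a b} i ≥ b^2 - a^2`,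
`∑_{Ioc a1 b1} i ≥ (b1 - a1) a1`. So
`(P - 3) (b^2 - a^2) + 2 (9 L + 3) (b1 - a1) a1 ≤ 2 P n ≤ P (k^2 + 6 k)`.
Estimates (in `ℝ`): `b ≥ k - k / P - 1`, `b^2 ≥ k^2 - 2 k^2 / P - 2 k`,
`(P - 3) b^2 ≥ P k^2 - 5 k^2 - 2 k P`; `a ≤ k / (10^8 L^2)`, `P a^2 ≤ 10 k^2`;
`b1 - a1 ≥ k / L - 2`, `a1 ≥ k - 2 k / L ≥ 0.998 k`. So
`2 (9 L + 3) (k / L - 2)(0.998 k) ≤ 15 k^2 + 8 k P ≤ 15.1 k^2` (`8 P ≤ 0.1 k` by `big_aux`), but the left
side is at least `17.9 k^2` (`36 L k ≤ 0.01 k^2`). -/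
theorem tight_arith (k n L a b a1 b1 : ℕ) (hL : 1000 ≤ L) (hk : L ^ 50 ≤ k)
    (ha : a = k / (10 ^ 8 * L ^ 2)) (hb : b = k - (k / PP L + 1)) (ha1 : a1 = k - 2 * k / L)
    (hb1 : b1 = k - (k / L + 1)) (hn : 2 * n ≤ k ^ 2 + 6 * k)
    (h : ∑ i ∈ Finset.Ioc a b, (if a1 < i ∧ i ≤ b1 then (PP L + 9 * L) * i else (PP L - 3) * i) ≤
      PP L * n) : False := by
  have hPdef : PP L = 10 ^ 17 * L ^ 4 := rfl
  have hP80 : 80 * PP L ≤ k := by
    have := big_aux hL hk (a := 4) (by norm_num) (C := 80 * 10 ^ 17) (by norm_num)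
    rw [hPdef]
    calc 80 * (10 ^ 17 * L ^ 4) = 80 * 10 ^ 17 * L ^ 4 := by ring
      _ ≤ k := this
  have hL36 : 3600 * L ≤ k := by
    have := big_aux hL hk (a := 1) (by norm_num) (C := 3600) (by norm_num)
    simpa using this
  have hLP : L ≤ PP L := by
    rw [hPdef]
    calc L = 1 * L ^ 1 := by ring
      _ ≤ 10 ^ 17 * L ^ 4 := Nat.mul_le_mul (by norm_num)
          (Nat.pow_le_pow_right (by omega) (by norm_num))
  -- real versions
  have rL : (1000 : ℝ) ≤ (L : ℝ) := by exact_mod_cast hL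
  have rP80 : 80 * (PP L : ℝ) ≤ (k : ℝ) := by exact_mod_cast hP80
  have rL36 : 3600 * (L : ℝ) ≤ (k : ℝ) := by exact_mod_cast hL36
  have rLP : (L : ℝ) ≤ (PP L : ℝ) := by exact_mod_cast hLP
  have rPdef : (PP L : ℝ) = 10 ^ 17 * (L : ℝ) ^ 4 := by
    rw [hPdef]; push_cast; ring
  have hLpos : (0 : ℝ) < (L : ℝ) := by linarith
  have hPpos : (0 : ℝ) < (PP L : ℝ) := by linarith
  have hKpos : (0 : ℝ) < (k : ℝ) := by linarith
  obtain ⟨x, hx⟩ : ∃ x : ℝ, x = (k : ℝ) / (PP L : ℝ) := ⟨_, rfl⟩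
  obtain ⟨y, hy⟩ : ∃ y : ℝ, y = (k : ℝ) / (L : ℝ) := ⟨_, rfl⟩
  have hPx : (PP L : ℝ) * x = (k : ℝ) := by rw [hx]; field_simp
  have hLy : (L : ℝ) * y = (k : ℝ) := by rw [hy]; field_simp
  have hx0 : 0 ≤ x := by rw [hx]; positivity
  have hy0 : 3600 ≤ y := by
    rw [hy, le_div_iff₀ hLpos]; linarith
  have hyK : 1000 * y ≤ (k : ℝ) := by
    rw [← hLy]; nlinarith
  have hxy : x ≤ y := by
    rw [hx, hy]; exact div_le_div_of_nonneg_left hKpos.le hLpos rLP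
  -- divisions
  have d1 : ((k / PP L : ℕ) : ℝ) ≤ x := by rw [hx]; exact Nat.cast_div_le
  have d2 : ((k / L : ℕ) : ℝ) ≤ y := by rw [hy]; exact Nat.cast_div_le
  have d3 : ((2 * k / L : ℕ) : ℝ) ≤ 2 * y := by
    have : ((2 * k / L : ℕ) : ℝ) ≤ ((2 * k : ℕ) : ℝ) / (L : ℝ) := Nat.cast_div_le
    calc ((2 * k / L : ℕ) : ℝ) ≤ ((2 * k : ℕ) : ℝ) / (L : ℝ) := this
      _ = 2 * y := by rw [hy]; push_cast; ring
  have d4 : 2 * y ≤ ((2 * k / L : ℕ) : ℝ) + 1 := by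
    have h1 : 2 * k < L * (2 * k / L + 1) := by
      have := Nat.div_add_mod (2 * k) L
      have h2 := Nat.mod_lt (2 * k) (show 0 < L by omega)
      rw [Nat.mul_add]
      omega
    have h2 : (2 * (k : ℝ)) < (L : ℝ) * (((2 * k / L : ℕ) : ℝ) + 1) := by exact_mod_cast h1
    rw [← hLy] at h2
    have h3 : (L : ℝ) * (2 * y) < (L : ℝ) * (((2 * k / L : ℕ) : ℝ) + 1) := by linarith
    exact (lt_of_mul_lt_mul_left h3 hLpos.le).le
  have hden : (0 : ℝ) < ((10 ^ 8 * L ^ 2 : ℕ) : ℝ) := by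
    push_cast; positivity
  have d5 : (a : ℝ) * (10 ^ 8 * (L : ℝ) ^ 2) ≤ (k : ℝ) := by
    have h1 : k / (10 ^ 8 * L ^ 2) * (10 ^ 8 * L ^ 2) ≤ k := Nat.div_mul_le_self _ _
    rw [← ha] at h1
    exact_mod_cast h1
  have ha0 : (0 : ℝ) ≤ (a : ℝ) := Nat.cast_nonneg _
  have hPa : (PP L : ℝ) * (a : ℝ) ^ 2 ≤ 10 * (k : ℝ) ^ 2 := by
    have h1 : ((a : ℝ) * (10 ^ 8 * (L : ℝ) ^ 2)) ^ 2 ≤ (k : ℝ) ^ 2 :=
      pow_le_pow_left₀ (by positivity) d5 2
    rw [rPdef]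
    nlinarith [h1]
  have haK : 1000 * (a : ℝ) ≤ (k : ℝ) := by
    have h1 : (1000 : ℝ) ≤ 10 ^ 8 * (L : ℝ) ^ 2 := by nlinarith
    nlinarith
  -- order of the four numbers
  have ck : (k : ℝ) ≤ (b : ℝ) + ((k / PP L : ℕ) : ℝ) + 1 := by
    have : k ≤ b + (k / PP L) + 1 := by omega
    exact_mod_cast this
  have cb1 : (k : ℝ) ≤ (b1 : ℝ) + ((k / L : ℕ) : ℝ) + 1 := by
    have : k ≤ b1 + (k / L) + 1 := by omega
    exact_mod_cast this
  have ca1 : (k : ℝ) ≤ (a1 : ℝ) + ((2 * k / L : ℕ) : ℝ) := by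
    have : k ≤ a1 + (2 * k / L) := by omega
    exact_mod_cast this
  have hr : 2 * k / L ≤ k := by
    have h1 : ((2 * k / L : ℕ) : ℝ) ≤ (k : ℝ) := by linarith
    exact_mod_cast h1
  have ca1' : (a1 : ℝ) + ((2 * k / L : ℕ) : ℝ) = (k : ℝ) := by
    have : a1 + (2 * k / L) = k := by omega
    exact_mod_cast this
  have e1 : a ≤ a1 := by
    have h1 : (a : ℝ) ≤ (a1 : ℝ) := by linarith
    exact_mod_cast h1
  have hba1 : y - 2 ≤ (b1 : ℝ) - (a1 : ℝ) := by linarith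
  have e2 : a1 ≤ b1 := by
    have h1 : (a1 : ℝ) ≤ (b1 : ℝ) := by linarith
    exact_mod_cast h1
  have e3 : b1 ≤ b := by
    have h1 : k / PP L ≤ k / L := Nat.div_le_div_left hLP (by omega)
    omega
  have e4 : a ≤ b := by omega
  have h3P : 3 ≤ PP L := by omega
  rw [sum_split (PP L) L a b a1 b1 e1 e2 e3 h3P] at h
  have s1 := sum_Ioc_two a b e4
  have s2 := sum_Ioc_two a1 b1 e2
  obtain ⟨SI, hSI⟩ : ∃ SI : ℕ, SI = ∑ i ∈ Finset.Ioc a b, i := ⟨_, rfl⟩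
  obtain ⟨SJ, hSJ⟩ : ∃ SJ : ℕ, SJ = ∑ i ∈ Finset.Ioc a1 b1, i := ⟨_, rfl⟩
  rw [← hSI] at s1 h
  rw [← hSJ] at s2 h
  have hsub : ((PP L - 3 : ℕ) : ℝ) = (PP L : ℝ) - 3 := by
    rw [Nat.cast_sub h3P, Nat.cast_ofNat]
  have rh : ((PP L : ℝ) - 3) * (SI : ℝ) + (9 * (L : ℝ) + 3) * (SJ : ℝ) ≤ (PP L : ℝ) * (n : ℝ) := by
    have h1 : (((PP L - 3) * SI + (9 * L + 3) * SJ : ℕ) : ℝ) ≤ ((PP L * n : ℕ) : ℝ) := by
      exact_mod_cast h
    push_cast at h1
    rw [hsub] at h1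
    exact h1
  have rn : 2 * (n : ℝ) ≤ (k : ℝ) ^ 2 + 6 * (k : ℝ) := by exact_mod_cast hn
  have rs1 : 2 * (SI : ℝ) + (a : ℝ) * ((a : ℝ) + 1) = (b : ℝ) * ((b : ℝ) + 1) := by
    exact_mod_cast s1
  have rs2 : 2 * (SJ : ℝ) + (a1 : ℝ) * ((a1 : ℝ) + 1) = (b1 : ℝ) * ((b1 : ℝ) + 1) := by
    exact_mod_cast s2
  have rab : (a : ℝ) ≤ (b : ℝ) := by exact_mod_cast e4
  have ra1b1 : (a1 : ℝ) ≤ (b1 : ℝ) := by exact_mod_cast e2
  have hb0 : (0 : ℝ) ≤ (b : ℝ) := Nat.cast_nonneg _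
  have ha10 : (0 : ℝ) ≤ (a1 : ℝ) := Nat.cast_nonneg _
  have hP3 : (0 : ℝ) ≤ (PP L : ℝ) - 3 := by
    have : (3 : ℝ) ≤ (PP L : ℝ) := by exact_mod_cast h3P
    linarith
  -- lower bound for the first sum
  have bb : (k : ℝ) - x - 1 ≤ (b : ℝ) := by linarith
  have hxK : x + 1 ≤ (k : ℝ) := by linarith
  have b2 : (k : ℝ) ^ 2 - 2 * (k : ℝ) * (x + 1) ≤ (b : ℝ) ^ 2 := by
    have hc := pow_le_pow_left₀ (show (0 : ℝ) ≤ (k : ℝ) - x - 1 by linarith) bb 2
    have hc2 : ((k : ℝ) - x - 1) ^ 2 = (k : ℝ) ^ 2 - 2 * (k : ℝ) * (x + 1) + (x + 1) ^ 2 := by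
      ring
    linarith [sq_nonneg (x + 1)]
  have f1 : (b : ℝ) ^ 2 - (a : ℝ) ^ 2 ≤ 2 * (SI : ℝ) := by
    have q1 : (b : ℝ) * ((b : ℝ) + 1) = (b : ℝ) ^ 2 + (b : ℝ) := by ring
    have q2 : (a : ℝ) * ((a : ℝ) + 1) = (a : ℝ) ^ 2 + (a : ℝ) := by ring
    linarith
  have f2 : ((PP L : ℝ) - 3) * ((b : ℝ) ^ 2 - (a : ℝ) ^ 2) ≤ ((PP L : ℝ) - 3) * (2 * (SI : ℝ)) :=
    mul_le_mul_of_nonneg_left f1 hP3
  have f3 : ((PP L : ℝ) - 3) * ((k : ℝ) ^ 2 - 2 * (k : ℝ) * (x + 1)) ≤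
      ((PP L : ℝ) - 3) * (b : ℝ) ^ 2 := mul_le_mul_of_nonneg_left b2 hP3
  have f4 : (PP L : ℝ) * (k : ℝ) ^ 2 - 5 * (k : ℝ) ^ 2 - 2 * (k : ℝ) * (PP L : ℝ) ≤
      ((PP L : ℝ) - 3) * ((k : ℝ) ^ 2 - 2 * (k : ℝ) * (x + 1)) := by
    have h1 : (PP L : ℝ) * x * (k : ℝ) = (k : ℝ) ^ 2 := by rw [hPx]; ring
    have h2 : ((PP L : ℝ) - 3) * ((k : ℝ) ^ 2 - 2 * (k : ℝ) * (x + 1)) =
        (PP L : ℝ) * (k : ℝ) ^ 2 - 2 * ((PP L : ℝ) * x * (k : ℝ)) - 2 * (k : ℝ) * (PP L : ℝ)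
          - 3 * (k : ℝ) ^ 2 + 6 * ((k : ℝ) * x) + 6 * (k : ℝ) := by ring
    rw [h2, h1]
    linarith [mul_nonneg hKpos.le hx0]
  have f5 : ((PP L : ℝ) - 3) * (a : ℝ) ^ 2 ≤ 10 * (k : ℝ) ^ 2 := by
    have h1 : ((PP L : ℝ) - 3) * (a : ℝ) ^ 2 = (PP L : ℝ) * (a : ℝ) ^ 2 - 3 * (a : ℝ) ^ 2 := by
      ring
    linarith [sq_nonneg (a : ℝ)]
  -- lower bound for the second sum
  have g1 : 2 * (((b1 : ℝ) - (a1 : ℝ)) * (a1 : ℝ)) ≤ 2 * (SJ : ℝ) := by
    have q1 : (b1 : ℝ) * ((b1 : ℝ) + 1) = (b1 : ℝ) ^ 2 + (b1 : ℝ) := by ring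
    have q2 : (a1 : ℝ) * ((a1 : ℝ) + 1) = (a1 : ℝ) ^ 2 + (a1 : ℝ) := by ring
    have q3 : 2 * (((b1 : ℝ) - (a1 : ℝ)) * (a1 : ℝ)) =
        (b1 : ℝ) ^ 2 - (a1 : ℝ) ^ 2 - ((b1 : ℝ) - (a1 : ℝ)) ^ 2 := by ring
    linarith [sq_nonneg ((b1 : ℝ) - (a1 : ℝ))]
  have g2 : (998 : ℝ) / 1000 * (k : ℝ) ≤ (a1 : ℝ) := by linarith
  have g3 : (y - 2) * ((998 : ℝ) / 1000 * (k : ℝ)) ≤ ((b1 : ℝ) - (a1 : ℝ)) * (a1 : ℝ) :=
    mul_le_mul hba1 g2 (by positivity) (by linarith)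
  have g4 : (9 * (L : ℝ) + 3) * (2 * ((y - 2) * ((998 : ℝ) / 1000 * (k : ℝ)))) ≤
      (9 * (L : ℝ) + 3) * (2 * (SJ : ℝ)) :=
    mul_le_mul_of_nonneg_left (by linarith) (by positivity)
  have g5 : 9 * (k : ℝ) - 18 * (L : ℝ) ≤ (9 * (L : ℝ) + 3) * (y - 2) := by
    have h1 : (9 * (L : ℝ) + 3) * (y - 2) = 9 * ((L : ℝ) * y) - 18 * (L : ℝ) + 3 * (y - 2) := by
      ring
    rw [h1, hLy]
    linarith
  have g6 : (9 * (k : ℝ) - 18 * (L : ℝ)) * (2 * ((998 : ℝ) / 1000 * (k : ℝ))) ≤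
      (9 * (L : ℝ) + 3) * (2 * ((y - 2) * ((998 : ℝ) / 1000 * (k : ℝ)))) := by
    have h1 := mul_le_mul_of_nonneg_right g5
      (show (0 : ℝ) ≤ 2 * ((998 : ℝ) / 1000 * (k : ℝ)) by positivity)
    calc _ ≤ _ := h1
      _ = _ := by ring
  have g7 : (1795 : ℝ) / 100 * (k : ℝ) ^ 2 ≤
      (9 * (k : ℝ) - 18 * (L : ℝ)) * (2 * ((998 : ℝ) / 1000 * (k : ℝ))) := by
    have h1 := mul_le_mul_of_nonneg_right rL36 hKpos.le
    have h2 : (9 * (k : ℝ) - 18 * (L : ℝ)) * (2 * ((998 : ℝ) / 1000 * (k : ℝ))) =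
        (17964 : ℝ) / 1000 * (k : ℝ) ^ 2 - (35928 : ℝ) / 1000 * ((L : ℝ) * (k : ℝ)) := by ring
    have h3 : 3600 * (L : ℝ) * (k : ℝ) = 3600 * ((L : ℝ) * (k : ℝ)) := by ring
    have h4 : (k : ℝ) * (k : ℝ) = (k : ℝ) ^ 2 := by ring
    rw [h3, h4] at h1
    rw [h2]
    linarith [sq_nonneg (k : ℝ)]
  have u1 : (PP L : ℝ) * (2 * (n : ℝ)) ≤ (PP L : ℝ) * ((k : ℝ) ^ 2 + 6 * (k : ℝ)) :=
    mul_le_mul_of_nonneg_left rn hPpos.le
  have u2 : 8 * (PP L : ℝ) * (k : ℝ) ≤ (1 : ℝ) / 10 * (k : ℝ) ^ 2 := by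
    have h1 := mul_le_mul_of_nonneg_right rP80 hKpos.le
    have h3 : 80 * (PP L : ℝ) * (k : ℝ) = 80 * ((PP L : ℝ) * (k : ℝ)) := by ring
    have h4 : (k : ℝ) * (k : ℝ) = (k : ℝ) ^ 2 := by ring
    have h5 : 8 * (PP L : ℝ) * (k : ℝ) = 8 * ((PP L : ℝ) * (k : ℝ)) := by ring
    rw [h3, h4] at h1
    rw [h5]
    linarith
  have k2 : (0 : ℝ) < (k : ℝ) ^ 2 := by positivity
  -- expand the products of the sums
  have v1 : ((PP L : ℝ) - 3) * ((b : ℝ) ^ 2 - (a : ℝ) ^ 2) =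
      ((PP L : ℝ) - 3) * (b : ℝ) ^ 2 - ((PP L : ℝ) - 3) * (a : ℝ) ^ 2 := by ring
  have v2 : ((PP L : ℝ) - 3) * (2 * (SI : ℝ)) = 2 * (((PP L : ℝ) - 3) * (SI : ℝ)) := by ring
  have v3 : (9 * (L : ℝ) + 3) * (2 * (SJ : ℝ)) = 2 * ((9 * (L : ℝ) + 3) * (SJ : ℝ)) := by ring
  have v4 : (PP L : ℝ) * (2 * (n : ℝ)) = 2 * ((PP L : ℝ) * (n : ℝ)) := by ring
  have v5 : (PP L : ℝ) * ((k : ℝ) ^ 2 + 6 * (k : ℝ)) =
      (PP L : ℝ) * (k : ℝ) ^ 2 + 6 * ((PP L : ℝ) * (k : ℝ)) := by ring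
  have v6 : 8 * (PP L : ℝ) * (k : ℝ) = 8 * ((PP L : ℝ) * (k : ℝ)) := by ring
  have v7 : 2 * (k : ℝ) * (PP L : ℝ) = 2 * ((PP L : ℝ) * (k : ℝ)) := by ring
  rw [v1, v2] at f2
  rw [v3] at g4
  rw [v4, v5] at u1
  rw [v6] at u2
  rw [v7] at f4
  linarith

end Pool.Agent.Lib.MP_d75b76_nt
end

section

/-!
# Arithmetic for the sum of the layers
-/

set_option autoImplicit false

open Finset

namespace Pool.Agent.Lib.MP_d75b76_nt

/-- Work in `ℝ`, `P = PP L = 10^17 L^4`. `v (J - 1) ≤ c < v J`. `hav`: `l F ≤ (l J - c) fJ + c^2`.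
`P l J ≤ (P + 9 L) v J ≤ (P + 9 L)(c + v)`, so `P (l J - c) ≤ 9 L c + 2 P v` and (`0 ≤ fJ ≤ n ≤ k^2`)
`(P - 3) v F ≤ P l F ≤ (9 L c + 2 P v) k^2 + P c^2`. Multiply the claim by `(P - 3) v` and use
`c ≤ v J`: it is enough that `10^9 L (9 L c k^2 + 2 P v k^2) ≤ (3 P - 3 * 10^9 L - 9) c^2`. Here
`10^9 L * 9 L c k^2 ≤ 9 * 10^9 L^2 * 2 * 10^7 L^2 c^2 = 1.8 P c^2`;
`10^9 L * 2 P v k^2 ≤ 2 * 10^9 L P k^3 ≤ P c^2` because `k^4 ≤ 4 * 10^14 L^4 c^2` and
`8 * 10^23 L^5 ≤ k` (`big_aux`); `3 * 10^9 L + 9 ≤ 0.1 P`. -/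
theorem layers_arith (k v L c l J F fJ n : ℕ) (hL : 1000 ≤ L) (hk : L ^ 50 ≤ k) (hv : v ≤ k)
    (hv' : 499 * k ≤ 500 * v) (hc : k ^ 2 ≤ 2 * 10 ^ 7 * L ^ 2 * c) (hn : n ≤ k ^ 2)
    (hl1 : PP L * l ≤ (PP L + 9 * L) * v) (hl2 : (PP L - 3) * v ≤ PP L * l)
    (hJ : J = c / v + 1) (hfJ : fJ ≤ n) (hav : c * fJ + l * F ≤ l * (J * fJ) + c ^ 2) :
    10 ^ 9 * L * F ≤ (10 ^ 9 * L + 3) * (v * J ^ 2) := by
  have hL0 : 0 < L := by omega
  have hk0 : 0 < k := lt_of_lt_of_le (pow_pos hL0 50) hk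
  have hv0 : 0 < v := by omega
  have hbig : 8 * 10 ^ 23 * L ^ 5 ≤ k := big_aux hL hk (by norm_num) (by norm_num)
  -- the bounds of `J`
  have hJ1 : v * J ≤ c + v := by
    rw [hJ, Nat.mul_add, Nat.mul_one]
    exact Nat.add_le_add_right (Nat.mul_div_le c v) v
  have hJ2 : c ≤ v * J := by
    rw [hJ]
    exact (Nat.lt_mul_div_succ c hv0).le
  have hPP : PP L = 10 ^ 17 * L ^ 4 := rfl
  have hL4 : L ≤ L ^ 4 := Nat.le_self_pow (by norm_num) L
  have hP9 : 9 * L ≤ PP L := by rw [hPP]; nlinarith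
  have hP3 : 3 ≤ PP L := by omega
  -- everything in the reals
  have hl2' : ((PP L : ℝ) - 3) * v ≤ (PP L : ℝ) * l := by
    have h := (Nat.cast_le (α := ℝ)).2 hl2
    push_cast [Nat.cast_sub hP3] at h
    exact h
  have hl1' : (PP L : ℝ) * l ≤ ((PP L : ℝ) + 9 * L) * v := by exact_mod_cast hl1
  have hPR : (PP L : ℝ) = 10 ^ 17 * (L : ℝ) ^ 4 := by rw [hPP]; push_cast; ring
  have hLR : (1000 : ℝ) ≤ L := by exact_mod_cast hL
  have hkR : (0 : ℝ) < k := by exact_mod_cast hk0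
  have hvR : (0 : ℝ) < v := by exact_mod_cast hv0
  have hvk : (v : ℝ) ≤ k := by exact_mod_cast hv
  have hJ1R : (v : ℝ) * J ≤ c + v := by exact_mod_cast hJ1
  have hJ2R : (c : ℝ) ≤ v * J := by exact_mod_cast hJ2
  have hcR : (k : ℝ) ^ 2 ≤ 2 * 10 ^ 7 * (L : ℝ) ^ 2 * c := by exact_mod_cast hc
  have hfn : (fJ : ℝ) ≤ (k : ℝ) ^ 2 := by exact_mod_cast hfJ.trans hn
  have havR : (c : ℝ) * fJ + l * F ≤ l * (J * fJ) + (c : ℝ) ^ 2 := by exact_mod_cast hav
  have hbigR : 8 * 10 ^ 23 * (L : ℝ) ^ 5 ≤ k := by exact_mod_cast hbig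
  have hP9R : 9 * (L : ℝ) ≤ PP L := by exact_mod_cast hP9
  have hc0 : (0 : ℝ) ≤ c := Nat.cast_nonneg c
  have hf0 : (0 : ℝ) ≤ fJ := Nat.cast_nonneg fJ
  have hF0 : (0 : ℝ) ≤ F := Nat.cast_nonneg F
  have hL0R : (0 : ℝ) < L := by linarith
  have hP0 : (0 : ℝ) < PP L := by linarith
  have hPbig : 10 ^ 9 * (10 ^ 8 * (L : ℝ)) ≤ PP L := by
    rw [hPR]
    have : (L : ℝ) ≤ (L : ℝ) ^ 4 := by exact_mod_cast hL4
    linarith
  set P : ℝ := (PP L : ℝ) with hPdef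
  -- `P (l J - c) ≤ X`
  have hX : P * (l * J - c) ≤ 9 * L * c + 2 * P * v := by
    have h1 : P * l * J ≤ (P + 9 * L) * v * J :=
      mul_le_mul_of_nonneg_right hl1' (Nat.cast_nonneg J)
    have h2 : (P + 9 * L) * (v * J) ≤ (P + 9 * L) * (c + v) :=
      mul_le_mul_of_nonneg_left hJ1R (by positivity)
    have h3 : 9 * L * v ≤ P * v := mul_le_mul_of_nonneg_right hP9R hvR.le
    nlinarith
  have hX0 : 0 ≤ 9 * L * c + 2 * P * v := by positivity
  have hlF : P * l * F ≤ (9 * L * c + 2 * P * v) * (k : ℝ) ^ 2 + P * (c : ℝ) ^ 2 := by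
    have h1 : P * (l * J - c) * fJ ≤ (9 * L * c + 2 * P * v) * fJ :=
      mul_le_mul_of_nonneg_right hX hf0
    have h2 : (9 * L * c + 2 * P * v) * fJ ≤ (9 * L * c + 2 * P * v) * (k : ℝ) ^ 2 :=
      mul_le_mul_of_nonneg_left hfn hX0
    have h3 : P * (c * fJ + l * F) ≤ P * (l * (J * fJ) + (c : ℝ) ^ 2) :=
      mul_le_mul_of_nonneg_left havR hP0.le
    nlinarith
  have hvF : (P - 3) * v * F ≤ (9 * L * c + 2 * P * v) * (k : ℝ) ^ 2 + P * (c : ℝ) ^ 2 :=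
    le_trans (mul_le_mul_of_nonneg_right hl2' hF0) hlF
  -- the two error terms
  have hE1 : 10 ^ 9 * L * (9 * L * c) * (k : ℝ) ^ 2 ≤ 18 / 10 * P * (c : ℝ) ^ 2 := by
    have h1 : (9 * 10 ^ 9 * (L : ℝ) ^ 2 * c) * (k : ℝ) ^ 2 ≤
        (9 * 10 ^ 9 * (L : ℝ) ^ 2 * c) * (2 * 10 ^ 7 * (L : ℝ) ^ 2 * c) :=
      mul_le_mul_of_nonneg_left hcR (by positivity)
    rw [hPR]
    nlinarith
  have hk4 : (k : ℝ) ^ 4 ≤ 4 * 10 ^ 14 * (L : ℝ) ^ 4 * (c : ℝ) ^ 2 := by
    have h1 : ((k : ℝ) ^ 2) ^ 2 ≤ (2 * 10 ^ 7 * (L : ℝ) ^ 2 * c) ^ 2 :=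
      pow_le_pow_left₀ (by positivity) hcR 2
    nlinarith
  have hk3 : 2 * 10 ^ 9 * L * (k : ℝ) ^ 3 ≤ (c : ℝ) ^ 2 := by
    have h1 : 8 * 10 ^ 23 * (L : ℝ) ^ 5 * (k : ℝ) ^ 3 ≤ k * (k : ℝ) ^ 3 :=
      mul_le_mul_of_nonneg_right hbigR (by positivity)
    have h2 : (4 * 10 ^ 14 * (L : ℝ) ^ 4) * (2 * 10 ^ 9 * L * (k : ℝ) ^ 3) ≤
        (4 * 10 ^ 14 * (L : ℝ) ^ 4) * (c : ℝ) ^ 2 := by
      calc (4 * 10 ^ 14 * (L : ℝ) ^ 4) * (2 * 10 ^ 9 * L * (k : ℝ) ^ 3)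
          = 8 * 10 ^ 23 * (L : ℝ) ^ 5 * (k : ℝ) ^ 3 := by ring
        _ ≤ k * (k : ℝ) ^ 3 := h1
        _ = (k : ℝ) ^ 4 := by ring
        _ ≤ _ := by linarith
    exact le_of_mul_le_mul_left h2 (by positivity)
  have hE2 : 10 ^ 9 * L * (2 * P * v) * (k : ℝ) ^ 2 ≤ P * (c : ℝ) ^ 2 := by
    have h1 : 10 ^ 9 * L * (2 * P * v) * (k : ℝ) ^ 2 ≤ P * (2 * 10 ^ 9 * L * (k : ℝ) ^ 3) := by
      have : P * (2 * 10 ^ 9 * L * (k : ℝ) ^ 3) - 10 ^ 9 * L * (2 * P * v) * (k : ℝ) ^ 2 =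
          2 * 10 ^ 9 * L * P * (k : ℝ) ^ 2 * (k - v) := by ring
      have h0 : 0 ≤ 2 * 10 ^ 9 * L * P * (k : ℝ) ^ 2 * (k - v) :=
        mul_nonneg (by positivity) (by linarith)
      linarith
    exact h1.trans (mul_le_mul_of_nonneg_left hk3 hP0.le)
  have hP3R : 3 < P := by linarith
  -- multiply the claim by `(P - 3) v`
  have hmain : ((P - 3) * v) * (10 ^ 9 * L * F) ≤
      ((P - 3) * v) * ((10 ^ 9 * L + 3) * (v * (J : ℝ) ^ 2)) := by
    have h1 : 10 ^ 9 * L * ((P - 3) * v * F) ≤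
        10 ^ 9 * L * ((9 * L * c + 2 * P * v) * (k : ℝ) ^ 2 + P * (c : ℝ) ^ 2) :=
      mul_le_mul_of_nonneg_left hvF (by positivity)
    have h2 : (c : ℝ) ^ 2 ≤ (v * J) ^ 2 := pow_le_pow_left₀ hc0 hJ2R 2
    have h3 : ((P - 3) * (10 ^ 9 * L + 3)) * (c : ℝ) ^ 2 ≤
        ((P - 3) * (10 ^ 9 * L + 3)) * (v * J) ^ 2 :=
      mul_le_mul_of_nonneg_left h2 (mul_nonneg (by linarith) (by positivity))
    have h4 : (3 * 10 ^ 9 * L + 9) * (c : ℝ) ^ 2 ≤ 2 / 10 * P * (c : ℝ) ^ 2 :=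
      mul_le_mul_of_nonneg_right (by linarith) (by positivity)
    nlinarith
  have hpos : 0 < (P - 3) * v := mul_pos (by linarith) hvR
  have hfin : 10 ^ 9 * (L : ℝ) * F ≤ (10 ^ 9 * L + 3) * (v * (J : ℝ) ^ 2) :=
    le_of_mul_le_mul_left hmain hpos
  exact_mod_cast hfin

end Pool.Agent.Lib.MP_d75b76_nt
end

section

/-!
# Arithmetic for Kneser's theorem at the layer `I`
-/

set_option autoImplicit false

open Finset

namespace Pool.Agent.Lib.MP_d75b76_nt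

/-- `δ = 1 / (10^6 L)`, `I ≤ 4 i4 + 3`, `f ≤ 2 v I (1 + 2 δ)`, `v δ ≤ t + 1`, `t ≥ 24` and `i4 ≥ 10^9 L` (from
`hI`, `big_aux`). Work in `ℝ`.
* `i4 (X4 - h) ≤ f - h ≤ f ≤ 2 v (4 i4 + 3)(1 + 2 δ)`, so `X4 - h ≤ (8 v + 6 v / i4)(1 + 2 δ) ≤
  8 v (1 + 3 δ) ≤ 8 v + 24 t + 24 ≤ 8 v + 25 t`.
* `2 i4 (X2 - h) ≤ f`, so `X2 - h ≤ 4 v (1 + 3 δ) ≤ 4 v + 12 t + 12 ≤ 4 v + 13 t`.
* `4 i4 * 2 h ≤ 4 i4 X1 ≤ f + (4 i4 - 1) h`, so `(4 i4 + 1) h ≤ f ≤ 2 v (4 i4 + 3)(1 + 2 δ)`, `h ≤ 3 v`. -/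
theorem kn_arith (k v L I i4 t f h X1 X2 X4 : ℕ) (hL : 1000 ≤ L) (hk : L ^ 50 ≤ k)
    (hv' : 499 * k ≤ 500 * v) (hI : k ≤ 10 ^ 8 * L ^ 2 * I)
    (hf : 10 ^ 6 * L * f ≤ (10 ^ 6 * L + 2) * (2 * v * I)) (hvk : v ≤ k) (hi4 : i4 = I / 4)
    (ht : t = v / (10 ^ 6 * L)) (h4 : i4 * X4 ≤ f + (i4 - 1) * h)
    (h2 : 2 * i4 * X2 ≤ f + (2 * i4 - 1) * h) (h1 : 4 * i4 * X1 ≤ f + (4 * i4 - 1) * h)
    (h0 : 2 * h ≤ X1) : h ≤ 3 * v ∧ X2 ≤ h + 4 * v + 13 * t ∧ X4 ≤ h + 8 * v + 25 * t := by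
  have hk20 : 10 ^ 20 * L ^ 3 ≤ k := big_aux hL hk (by norm_num) (by norm_num)
  have hk9 : 10 ^ 9 * L ≤ k := by
    have := big_aux hL hk (a := 1) (C := 10 ^ 9) (by norm_num) (by norm_num)
    simpa using this
  obtain ⟨W, hW⟩ : ∃ W, W = 10 ^ 6 * L := ⟨_, rfl⟩
  have hWpos : 0 < W := by omega
  have hI12 : 10 ^ 12 * L ≤ I := by
    have h5 : 10 ^ 8 * L ^ 2 * (10 ^ 12 * L) ≤ 10 ^ 8 * L ^ 2 * I := by
      calc 10 ^ 8 * L ^ 2 * (10 ^ 12 * L) = 10 ^ 20 * L ^ 3 := by ring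
        _ ≤ k := hk20
        _ ≤ _ := hI
    exact Nat.le_of_mul_le_mul_left h5 (by positivity)
  have hi4a : W + 2 ≤ i4 := by omega
  have hI4 : I ≤ 4 * i4 + 3 := by omega
  rw [← hW] at hf ht
  have hv9 : 24 * W ≤ v := by omega
  have ht24 : 24 ≤ t := by
    rw [ht]
    exact (Nat.le_div_iff_mul_le hWpos).2 hv9
  have hvt : v ≤ (t + 1) * W := by
    have h6 := Nat.lt_div_mul_add (a := v) hWpos
    rw [← ht] at h6
    nlinarith
  have hi4pos : 0 < i4 := by omega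
  have hfW : W * f ≤ i4 * (8 * v * (W + 3)) := by
    calc W * f ≤ (W + 2) * (2 * v * I) := hf
      _ ≤ (W + 2) * (2 * v * (4 * i4 + 3)) :=
        Nat.mul_le_mul_left _ (Nat.mul_le_mul_left _ hI4)
      _ = i4 * (8 * v * (W + 2)) + 6 * v * (W + 2) := by ring
      _ ≤ i4 * (8 * v * (W + 2)) + 6 * v * i4 :=
        Nat.add_le_add_left (Nat.mul_le_mul_left _ hi4a) _
      _ ≤ i4 * (8 * v * (W + 2)) + 8 * v * i4 := by
        apply Nat.add_le_add_left
        apply Nat.mul_le_mul_right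
        omega
      _ = i4 * (8 * v * (W + 3)) := by ring
  refine ⟨?_, ?_, ?_⟩
  · have h7 : 4 * i4 * (2 * h) ≤ f + (4 * i4 - 1) * h := (Nat.mul_le_mul_left _ h0).trans h1
    have h8 : (4 * i4 + 1) * h ≤ f := by
      have h9 : (4 * i4 - 1) * h + (4 * i4 + 1) * h = 4 * i4 * (2 * h) := by
        rw [← Nat.add_mul, show 4 * i4 - 1 + (4 * i4 + 1) = 4 * i4 * 2 by omega, Nat.mul_assoc]
      omega
    have h10 : i4 * (4 * W * h) ≤ i4 * (8 * v * (W + 3)) := by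
      calc i4 * (4 * W * h) = W * (4 * i4 * h) := by ring
        _ ≤ W * ((4 * i4 + 1) * h) :=
          Nat.mul_le_mul_left _ (Nat.mul_le_mul_right _ (by omega))
        _ ≤ W * f := Nat.mul_le_mul_left _ h8
        _ ≤ _ := hfW
    have h11 : 4 * W * h ≤ 8 * v * (W + 3) := Nat.le_of_mul_le_mul_left h10 hi4pos
    have h12 : 4 * W * h ≤ 4 * W * (3 * v) := by
      calc 4 * W * h ≤ 8 * v * (W + 3) := h11
        _ = 8 * v * W + 24 * v := by ring
        _ ≤ 8 * v * W + 4 * W * v := by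
          apply Nat.add_le_add_left
          apply Nat.mul_le_mul_right
          omega
        _ = 4 * W * (3 * v) := by ring
    exact Nat.le_of_mul_le_mul_left h12 (by omega)
  · have h7 : 2 * i4 * X2 ≤ f + 2 * i4 * h :=
      h2.trans (Nat.add_le_add_left (Nat.mul_le_mul_right _ (by omega)) _)
    have h10 : 2 * i4 * (W * X2) ≤ 2 * i4 * (4 * v * (W + 3) + W * h) := by
      calc 2 * i4 * (W * X2) = W * (2 * i4 * X2) := by ring
        _ ≤ W * (f + 2 * i4 * h) := Nat.mul_le_mul_left _ h7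
        _ = W * f + 2 * i4 * (W * h) := by ring
        _ ≤ i4 * (8 * v * (W + 3)) + 2 * i4 * (W * h) := Nat.add_le_add_right hfW _
        _ = _ := by ring
    have h11 : W * X2 ≤ 4 * v * (W + 3) + W * h :=
      Nat.le_of_mul_le_mul_left h10 (by omega)
    have h12 : W * X2 ≤ W * (h + 4 * v + 12 * (t + 1)) := by
      calc W * X2 ≤ 4 * v * (W + 3) + W * h := h11
        _ = W * (h + 4 * v) + 12 * v := by ring
        _ ≤ W * (h + 4 * v) + 12 * ((t + 1) * W) :=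
          Nat.add_le_add_left (Nat.mul_le_mul_left _ hvt) _
        _ = _ := by ring
    have h13 := Nat.le_of_mul_le_mul_left h12 hWpos
    omega
  · have h7 : i4 * X4 ≤ f + i4 * h :=
      h4.trans (Nat.add_le_add_left (Nat.mul_le_mul_right _ (by omega)) _)
    have h10 : i4 * (W * X4) ≤ i4 * (8 * v * (W + 3) + W * h) := by
      calc i4 * (W * X4) = W * (i4 * X4) := by ring
        _ ≤ W * (f + i4 * h) := Nat.mul_le_mul_left _ h7
        _ = W * f + i4 * (W * h) := by ring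
        _ ≤ i4 * (8 * v * (W + 3)) + i4 * (W * h) := Nat.add_le_add_right hfW _
        _ = _ := by ring
    have h11 : W * X4 ≤ 8 * v * (W + 3) + W * h :=
      Nat.le_of_mul_le_mul_left h10 hi4pos
    have h12 : W * X4 ≤ W * (h + 8 * v + 24 * (t + 1)) := by
      calc W * X4 ≤ 8 * v * (W + 3) + W * h := h11
        _ = W * (h + 8 * v) + 24 * v := by ring
        _ ≤ W * (h + 8 * v) + 24 * ((t + 1) * W) :=
          Nat.add_le_add_left (Nat.mul_le_mul_left _ hvt) _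
        _ = _ := by ring
    have h13 := Nat.le_of_mul_le_mul_left h12 hWpos
    omega

end Pool.Agent.Lib.MP_d75b76_nt
end

section

/-!
# Averaging over the layers `i • S`
-/

set_option autoImplicit false
set_option linter.unusedSectionVars false

open Finset Pointwise

namespace Pool.Agent.Lib.MP_d75b76_nt

open RG (stb mem_stb)
open AM (sf off mem_sf mem_off card_sf zero_mem_sf)
open Pool.Agent.Lib.MP_d3cc86_co (lam Asym symz)

variable {G : Type} [AddCommGroup G] [Fintype G]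

open Pool.Agent.Lib.MP_d3cc86_co (lam_nsmul_le nsmul_mono_zero card_mul_le_sum_lam)

/-- For `y ∈ J • S` let `d y = |{i < J : y ∉ i • S}|`. Then `lam C y ≤ d y * l`: `y ∈ (d y) • S` (the sets
`i • S` increase, `nsmul_mono_zero`; if `d y = J` use `y ∈ J • S`), `lam_nsmul_le`. (See the proof of
`olson`, file `Olson.lean` of the library `MP_d3cc86_co`, for this step.)
`∑_{y ∈ J • S} d y = ∑_{i < J} (|J • S| - |i • S|)`, so
`∑_y d y + ∑_{i < J} |i • S| = J |J • S|`. `card_mul_le_sum_lam C (J • S)`: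
`|C| |J • S| ≤ ∑_y lam C y + |C|^2 ≤ l ∑_y d y + |C|^2`. -/
theorem averaging [DecidableEq G] (C S : Finset G) (h0 : (0 : G) ∈ S) (l : ℕ)
    (hl : ∀ s ∈ S, lam C s ≤ l) (J : ℕ) :
    C.card * (J • S).card + l * ∑ i ∈ Finset.range J, (i • S).card ≤
      l * (J * (J • S).card) + C.card ^ 2 := by
  classical
  set N : ℕ := (J • S).card with hN
  let d : G → ℕ := fun c => ((Finset.range J).filter (fun k => c ∉ k • S)).card
  have hd : ∀ c ∈ J • S, lam C c ≤ d c * l := by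
    intro c hc
    apply lam_nsmul_le hl
    by_contra hcon
    have hdr : d c ≤ J := by
      have := Finset.card_filter_le (Finset.range J) (fun k => c ∉ k • S)
      simpa [d] using this
    by_cases hdr' : d c = J
    · apply hcon
      rw [hdr']
      exact hc
    · have h1 : Finset.range (d c + 1) ⊆ (Finset.range J).filter (fun k => c ∉ k • S) := by
        intro k hk
        rw [Finset.mem_range] at hk
        rw [Finset.mem_filter, Finset.mem_range]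
        refine ⟨by omega, fun h => hcon ?_⟩
        exact nsmul_mono_zero h0 (by omega) h
      have h2 := Finset.card_le_card h1
      rw [Finset.card_range] at h2
      change d c + 1 ≤ d c at h2
      omega
  have hsumd : ∑ c ∈ J • S, d c + ∑ k ∈ Finset.range J, (k • S).card = J * N := by
    have h1 : ∀ c ∈ J • S, d c = ∑ k ∈ Finset.range J, if c ∉ k • S then 1 else 0 := by
      intro c _
      simp only [d]
      rw [Finset.card_filter]
    rw [Finset.sum_congr rfl h1, Finset.sum_comm, ← Finset.sum_add_distrib]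
    have h3 : ∀ k ∈ Finset.range J,
        ((∑ c ∈ J • S, if c ∉ k • S then 1 else 0) + (k • S).card) = N := by
      intro k hk
      rw [Finset.mem_range] at hk
      rw [← Finset.card_filter]
      have h2 : (J • S).filter (fun c => c ∉ k • S) = (J • S) \ (k • S) := by
        ext x; simp
      rw [h2]
      exact Finset.card_sdiff_add_card_eq_card (nsmul_mono_zero h0 hk.le)
    rw [Finset.sum_congr rfl h3]
    simp
  have h1 := card_mul_le_sum_lam C (J • S)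
  have h2 : ∑ c ∈ J • S, lam C c ≤ ∑ c ∈ J • S, d c * l := Finset.sum_le_sum hd
  rw [← Finset.sum_mul] at h2
  rw [← hN] at h1
  calc C.card * N + l * ∑ i ∈ Finset.range J, (i • S).card
      ≤ (∑ c ∈ J • S, lam C c + C.card * C.card) + l * ∑ i ∈ Finset.range J, (i • S).card :=
        Nat.add_le_add_right h1 _
    _ ≤ ((∑ c ∈ J • S, d c) * l + C.card * C.card) +
          l * ∑ i ∈ Finset.range J, (i • S).card := by gcongr
    _ = l * (∑ c ∈ J • S, d c + ∑ k ∈ Finset.range J, (k • S).card) + C.card ^ 2 := by ring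
    _ = l * (J * N) + C.card ^ 2 := by rw [hsumd]

end Pool.Agent.Lib.MP_d75b76_nt
end

section

/-!
# Consequences of Kneser's theorem for `n • S`
-/

set_option autoImplicit false
set_option linter.unusedSectionVars false

open Finset Pointwise

namespace Pool.Agent.Lib.MP_d75b76_nt

open RG (stb mem_stb)
open AM (sf off mem_sf mem_off card_sf zero_mem_sf)
open Pool.Agent.Lib.MP_d3cc86_co (lam Asym symz)

variable {G : Type} [AddCommGroup G] [Fintype G]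

/-- `n • S = i • (j • S)` (`mul_nsmul`/`mul_nsmul'`, `mul_comm`) and `AM.kneser_iter (j • S) i`. -/
theorem kn_iter [DecidableEq G] (S : Finset G) (hS : S.Nonempty) (n j i : ℕ) (hn : n = j * i)
    (hi : 1 ≤ i) : i * (j • S + sf (stb (n • S))).card ≤
      (n • S).card + (i - 1) * Nat.card (stb (n • S)) := by
  have h := AM.kneser_iter (j • S) hS.nsmul i hi
  have e : n • S = i • (j • S) := by rw [hn, mul_nsmul]
  rw [e]
  exact h

/-- `n' • S = n • S + (n' - n) • S` (`add_nsmul`) and `stb X ≤ stb (X + Y)` (the proof of the private lemma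
`stb_le_stb_add` in `AM/K2.lean`: `AM.le_stb`, `add_right_comm`, `AM.add_sf_stb`) -/
theorem stb_nsmul_le [DecidableEq G] (S : Finset G) (n n' : ℕ) (h : n ≤ n') :
    stb (n • S) ≤ stb (n' • S) := by
  obtain ⟨m, rfl⟩ : ∃ m, n' = n + m := ⟨n' - n, by omega⟩
  rw [add_nsmul]
  apply AM.le_stb
  rw [add_right_comm, AM.add_sf_stb]

/-- for `x ∈ X` the map `g ↦ x + g` sends `sf (stb X)` injectively into `X` -/
theorem card_stb_le [DecidableEq G] (X : Finset G) (hX : X.Nonempty) :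
    Nat.card (stb X) ≤ X.card := by
  obtain ⟨x, hx⟩ := hX
  rw [← card_sf]
  refine Finset.card_le_card_of_injOn (fun g => x + g) ?_ ?_
  · intro g hg
    have h : x + g ∈ X + sf (stb X) := Finset.add_mem_add hx hg
    rw [AM.add_sf_stb] at h
    exact h
  · intro a _ b _ hab
    exact add_left_cancel hab

/-- `S + sf H` contains `sf H` and the disjoint coset `s + H`, `s ∈ S`, `s ∉ H`. -/
theorem two_cosets [DecidableEq G] (S : Finset G) (h0 : (0 : G) ∈ S) (H : AddSubgroup G)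
    (h : ¬ ∀ s ∈ S, s ∈ H) : 2 * Nat.card H ≤ (S + sf H).card := by
  push Not at h
  obtain ⟨s, hs, hsH⟩ := h
  have h1 : Disjoint (sf H) ((sf H).image (fun g => s + g)) := by
    rw [Finset.disjoint_left]
    intro a ha hb
    rw [Finset.mem_image] at hb
    obtain ⟨g, hg, rfl⟩ := hb
    rw [mem_sf] at ha hg
    exact hsH ((AddSubgroup.add_mem_cancel_right H hg).1 ha)
  have h2 : ((sf H).image (fun g => s + g)).card = (sf H).card :=
    Finset.card_image_of_injective _ (fun a b hab => add_left_cancel hab)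
  have h3 : sf H ∪ (sf H).image (fun g => s + g) ⊆ S + sf H := by
    intro a ha
    rw [Finset.mem_union, Finset.mem_image] at ha
    rcases ha with ha | ⟨g, hg, rfl⟩
    · exact Finset.mem_add.2 ⟨0, h0, a, ha, zero_add a⟩
    · exact Finset.add_mem_add hs hg
  calc 2 * Nat.card H = (sf H ∪ (sf H).image (fun g => s + g)).card := by
        rw [Finset.card_union_of_disjoint h1, h2, card_sf]; ring
    _ ≤ _ := Finset.card_le_card h3

end Pool.Agent.Lib.MP_d75b76_nt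
end

section

/-!
# The interval
-/

set_option autoImplicit false
set_option linter.unusedSectionVars false

open Finset Pointwise

namespace Pool.Agent.Lib.MP_d75b76_nt

open RG (stb mem_stb)
open AM (sf off mem_sf mem_off card_sf zero_mem_sf)
open Pool.Agent.Lib.MP_d3cc86_co (lam Asym symz)

/-- `S = (Finset.Icc 1 l).image (Nat.cast : ℕ → ZMod m)`; `l < m`, so the cast is injective on `Icc 1 l`. A
nonempty `T ⊆ S` is the image of a nonempty `B ⊆ Icc 1 l`, with `0 < ∑ B ≤ l (l + 1) / 2 < m`, so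
`∑ T ≠ 0` (`ZMod.natCast_eq_zero_iff`, `Nat.le_of_dvd`). -/
theorem interval (m l : ℕ) [NeZero m] (h : l * (l + 1) < 2 * m) :
    ∃ S : Finset (ZMod m), S.card = l ∧ ZSF S := by
  classical
  have hlm : l < m := by
    by_contra hc
    push Not at hc
    have hm : 0 < m := Nat.pos_of_ne_zero (NeZero.ne m)
    have h1 : m * (m + 1) ≤ l * (l + 1) := Nat.mul_le_mul hc (by omega)
    nlinarith
  have hinj : Set.InjOn (Nat.cast : ℕ → ZMod m) (Finset.Icc 1 l : Finset ℕ) := by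
    intro a ha b hb hab
    have ha' := Finset.mem_Icc.1 (Finset.mem_coe.1 ha)
    have hb' := Finset.mem_Icc.1 (Finset.mem_coe.1 hb)
    have h1 := (ZMod.natCast_eq_natCast_iff' a b m).1 hab
    rw [Nat.mod_eq_of_lt (by omega), Nat.mod_eq_of_lt (by omega)] at h1
    exact h1
  refine ⟨(Finset.Icc 1 l).image (Nat.cast : ℕ → ZMod m), ?_, ?_⟩
  · rw [Finset.card_image_of_injOn hinj, Nat.card_Icc, Nat.add_sub_cancel]
  · intro T hT hne h0
    obtain ⟨B, hB, hBT⟩ := Finset.subset_image_iff.1 hT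
    subst hBT
    have hBne : B.Nonempty := Finset.image_nonempty.1 hne
    rw [Finset.sum_image (fun a ha b hb hab => hinj (hB ha) (hB hb) hab), ← Nat.cast_sum,
      ZMod.natCast_eq_zero_iff] at h0
    have hpos : 0 < ∑ x ∈ B, x := by
      obtain ⟨b, hb⟩ := hBne
      have hb1 := (Finset.mem_Icc.1 (hB hb)).1
      have h2 : b ≤ ∑ x ∈ B, x := Finset.single_le_sum (f := fun x => x) (fun _ _ => Nat.zero_le _) hb
      omega
    have hle : ∑ x ∈ B, x ≤ ∑ x ∈ Finset.Icc 1 l, x := Finset.sum_le_sum_of_subset hB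
    have hG : (∑ x ∈ Finset.Icc 1 l, x) * 2 = l * (l + 1) := by
      have h3 := Finset.sum_range_id_mul_two (l + 1)
      have h4 : ∑ x ∈ Finset.Icc 1 l, x = ∑ x ∈ Finset.range (l + 1), x := by
        symm
        apply (Finset.sum_subset _ _).symm
        · intro x hx
          rw [Finset.mem_Icc] at hx
          rw [Finset.mem_range]
          omega
        · intro x hx hx2
          rw [Finset.mem_range] at hx
          rw [Finset.mem_Icc] at hx2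
          omega
      rw [h4, h3, Nat.add_sub_cancel, mul_comm]
    have h5 := Nat.le_of_dvd hpos h0
    omega

end Pool.Agent.Lib.MP_d75b76_nt
end

section

/-!
# The number of elements of the lifted sets
-/

set_option autoImplicit false
set_option linter.unusedSectionVars false

open Finset Pointwise

namespace Pool.Agent.Lib.MP_d75b76_nt

open RG (stb mem_stb)
open AM (sf off mem_sf mem_off card_sf zero_mem_sf)
open Pool.Agent.Lib.MP_d3cc86_co (lam Asym symz)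

variable {m : ℕ} [NeZero m] {r : ZMod m} {S : Finset (ZMod m)} {H : AddSubgroup (ZMod m)}

private theorem image_fst_add (A B : Finset (ZMod m × ℤ)) :
    (A + B).image Prod.fst = A.image Prod.fst + B.image Prod.fst :=
  Finset.image_add (AddMonoidHom.fst (ZMod m) ℤ)

private theorem image_fst_PT : (PT r S H).image Prod.fst = 2 • S + sf H := by
  classical
  unfold PT
  rw [image_fst_add, image_fst_add, Finset.image_image, Finset.image_image, two_nsmul]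
  have e1 : S.image (Prod.fst ∘ lft r) = S := by
    have : (Prod.fst ∘ lft r : ZMod m → ZMod m) = id := rfl
    rw [this, Finset.image_id]
  have e2 : (sf H).image (Prod.fst ∘ fun y => ((y, 0) : ZMod m × ℤ)) = sf H := by
    have : (Prod.fst ∘ fun y => ((y, 0) : ZMod m × ℤ) : ZMod m → ZMod m) = id := rfl
    rw [this, Finset.image_id]
  rw [e1, e2]

private theorem bd_PT (hS : ∀ x ∈ S, 20 * |(r * x).valMinAbs| < m) :
    ∀ y ∈ PT r S H, 10 * |y.2| < m := by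
  classical
  intro y hy
  unfold PT lft at hy
  rw [Finset.mem_add] at hy
  obtain ⟨u, hu, v, hv, rfl⟩ := hy
  rw [Finset.mem_add] at hu
  obtain ⟨u1, hu1, u2, hu2, rfl⟩ := hu
  obtain ⟨a, ha, rfl⟩ := Finset.mem_image.1 hu1
  obtain ⟨b, hb, rfl⟩ := Finset.mem_image.1 hu2
  obtain ⟨h, hh, rfl⟩ := Finset.mem_image.1 hv
  show 10 * |(r * a).valMinAbs + (r * b).valMinAbs + 0| < m
  rw [add_zero]
  have h1 := hS a ha
  have h2 := hS b hb
  have h3 := abs_add_le (r * a).valMinAbs (r * b).valMinAbs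
  omega

/-- `card_proj` for `X = PT r S H` (heights `≤ 2 m / 20`); the projection is `S + S + sf H`
(`Finset.image_add` for the homomorphism `AddMonoidHom.fst`, `two_nsmul`). -/
theorem card_PT (hS : ∀ x ∈ S, 20 * |(r * x).valMinAbs| < m) (hH : ∀ y ∈ H, r * y = 0) :
    (PT r S H).card = (2 • S + sf H).card := by
  rw [← image_fst_PT (r := r) (S := S) (H := H)]
  refine (card_proj r _ (PT_mod hH) ?_).symm
  intro y hy
  have h1 := bd_PT hS y hy
  have h2 := abs_nonneg y.2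
  omega

/-- `card_proj` for `X = PT + PT` (heights `≤ 4 m / 20`); the projection is
`S + S + S + S + (sf H + sf H) = 4 • S + sf H` (`AM.sf_add_sf`). -/
theorem card_PT2 (hS : ∀ x ∈ S, 20 * |(r * x).valMinAbs| < m) (hH : ∀ y ∈ H, r * y = 0) :
    (PT r S H + PT r S H).card = (4 • S + sf H).card := by
  have e : (PT r S H + PT r S H).image Prod.fst = 4 • S + sf H := by
    rw [image_fst_add, image_fst_PT]
    have h4 : 4 • S = 2 • S + 2 • S := by
      rw [← add_nsmul]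
    rw [h4, add_add_add_comm, AM.sf_add_sf]
  rw [← e]
  refine (card_proj r _ ?_ ?_).symm
  · intro y hy
    obtain ⟨u, hu, v, hv, rfl⟩ := Finset.mem_add.1 hy
    have h1 := PT_mod hH u hu
    have h2 := PT_mod hH v hv
    show ((u.2 + v.2 : ℤ) : ZMod m) = r * (u.1 + v.1)
    rw [Int.cast_add, h1, h2, mul_add]
  · intro y hy
    obtain ⟨u, hu, v, hv, rfl⟩ := Finset.mem_add.1 hy
    have h1 := bd_PT hS u hu
    have h2 := bd_PT hS v hv
    have h3 := abs_add_le u.2 v.2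
    have h4 := abs_nonneg u.2
    have h5 := abs_nonneg v.2
    show 2 * |u.2 + v.2| < m
    omega

end Pool.Agent.Lib.MP_d75b76_nt
end

section

/-!
# The top fibre of the lifted set
-/

set_option autoImplicit false
set_option linter.unusedSectionVars false

open Finset Pointwise

namespace Pool.Agent.Lib.MP_d75b76_nt

open RG (stb mem_stb)
open AM (sf off mem_sf mem_off card_sf zero_mem_sf)
open Pool.Agent.Lib.MP_d3cc86_co (lam Asym symz)

variable {m : ℕ} [NeZero m] {r : ZMod m} {S : Finset (ZMod m)} {H : AddSubgroup (ZMod m)}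

private theorem mem_PT_iff (y : ZMod m × ℤ) : y ∈ PT r S H ↔ ∃ a ∈ S, ∃ b ∈ S, ∃ h ∈ H,
    y = (a + b + h, (r * a).valMinAbs + (r * b).valMinAbs) := by
  classical
  unfold PT lft
  rw [Finset.mem_add]
  constructor
  · rintro ⟨u, hu, v, hv, rfl⟩
    rw [Finset.mem_add] at hu
    obtain ⟨u1, hu1, u2, hu2, rfl⟩ := hu
    obtain ⟨a, ha, rfl⟩ := Finset.mem_image.1 hu1
    obtain ⟨b, hb, rfl⟩ := Finset.mem_image.1 hu2
    obtain ⟨h, hh, rfl⟩ := Finset.mem_image.1 hv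
    refine ⟨a, ha, b, hb, h, (mem_sf H h).1 hh, ?_⟩
    simp
  · rintro ⟨a, ha, b, hb, h, hh, rfl⟩
    refine ⟨(a + b, (r * a).valMinAbs + (r * b).valMinAbs), ?_, (h, 0), ?_, ?_⟩
    · rw [Finset.mem_add]
      exact ⟨_, Finset.mem_image_of_mem _ ha, _, Finset.mem_image_of_mem _ hb, rfl⟩
    · exact Finset.mem_image_of_mem _ ((mem_sf H h).2 hh)
    · simp

private theorem vma_neg (r x : ZMod m) (hx : 20 * |(r * x).valMinAbs| < m) :
    (r * -x).valMinAbs = -(r * x).valMinAbs :=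
  congrArg Prod.snd (lft_neg r x hx)

/-- `PT r S H` contains the lift of `S + H`, i.e. `Y = S.image (lft r) + (sf H).image (·, 0)` (`0 ∈ S`,
`lft r 0 = 0`; heights in `[-N, N]`; it has `|S + sf H|` elements by `card_proj`), and the elements of
height `2 N` and of height `-2 N`; these three sets are disjoint (`N > 0`), and the last two have the
same number of elements because `PT r S H` is symmetric (`S` and `H` are symmetric, `lft_neg`). -/
theorem top_PT (h0 : (0 : ZMod m) ∈ S) (hsym : ∀ x ∈ S, -x ∈ S)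
    (hS : ∀ x ∈ S, 20 * |(r * x).valMinAbs| < m) (hH : ∀ y ∈ H, r * y = 0) (N : ℤ) (hN : 0 < N)
    (hSN : ∀ x ∈ S, |(r * x).valMinAbs| ≤ N) :
    (S + sf H).card + 2 * ((PT r S H).filter (fun y => y.2 = 2 * N)).card ≤
      (PT r S H).card := by
  classical
  set Y : Finset (ZMod m × ℤ) := (S ×ˢ sf H).image (fun p => (p.1 + p.2, (r * p.1).valMinAbs))
    with hY
  set Fp := (PT r S H).filter (fun y => y.2 = 2 * N) with hFp
  set Fm := (PT r S H).filter (fun y => y.2 = -(2 * N)) with hFm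
  have hYmem : ∀ y ∈ Y, ∃ a ∈ S, ∃ h ∈ H, y = (a + h, (r * a).valMinAbs) := by
    intro y hy
    obtain ⟨p, hp, rfl⟩ := Finset.mem_image.1 hy
    rw [Finset.mem_product] at hp
    exact ⟨p.1, hp.1, p.2, (mem_sf H p.2).1 hp.2, rfl⟩
  have hYc : Y.card = (S + sf H).card := by
    rw [← card_proj r Y ?_ ?_]
    · congr 1
      ext z
      rw [Finset.mem_image, Finset.mem_add]
      constructor
      · rintro ⟨y, hy, rfl⟩
        obtain ⟨a, ha, h, hh, rfl⟩ := hYmem y hy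
        exact ⟨a, ha, h, (mem_sf H h).2 hh, rfl⟩
      · rintro ⟨a, ha, h, hh, rfl⟩
        exact ⟨(a + h, (r * a).valMinAbs), Finset.mem_image.2 ⟨(a, h),
          Finset.mem_product.2 ⟨ha, hh⟩, rfl⟩, rfl⟩
    · intro y hy
      obtain ⟨a, ha, h, hh, rfl⟩ := hYmem y hy
      show (((r * a).valMinAbs : ℤ) : ZMod m) = r * (a + h)
      rw [ZMod.coe_valMinAbs, mul_add, hH h hh, add_zero]
    · intro y hy
      obtain ⟨a, ha, h, hh, rfl⟩ := hYmem y hy
      have h1 := hS a ha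
      have h2 := abs_nonneg (r * a).valMinAbs
      show 2 * |(r * a).valMinAbs| < m
      omega
  have hYb : ∀ y ∈ Y, |y.2| ≤ N := by
    intro y hy
    obtain ⟨a, ha, h, hh, rfl⟩ := hYmem y hy
    exact hSN a ha
  have hYsub : Y ⊆ PT r S H := by
    intro y hy
    obtain ⟨a, ha, h, hh, rfl⟩ := hYmem y hy
    refine (mem_PT_iff _).2 ⟨a, ha, 0, h0, h, hh, ?_⟩
    rw [mul_zero, ZMod.valMinAbs_zero, add_zero, add_zero]
  have hd1 : Disjoint Y Fp := by
    rw [Finset.disjoint_left]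
    intro y hy hy'
    have h1 := hYb y hy
    rw [hFp, Finset.mem_filter] at hy'
    rw [hy'.2, abs_of_pos (by omega)] at h1
    omega
  have hd2 : Disjoint (Y ∪ Fp) Fm := by
    rw [Finset.disjoint_left]
    intro y hy hy'
    rw [hFm, Finset.mem_filter] at hy'
    rcases Finset.mem_union.1 hy with hy | hy
    · have h1 := hYb y hy
      rw [hy'.2, abs_neg, abs_of_pos (by omega)] at h1
      omega
    · rw [hFp, Finset.mem_filter] at hy
      omega
  have hneg : ∀ y ∈ PT r S H, -y ∈ PT r S H := by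
    intro y hy
    obtain ⟨a, ha, b, hb, h, hh, rfl⟩ := (mem_PT_iff y).1 hy
    refine (mem_PT_iff _).2 ⟨-a, hsym a ha, -b, hsym b hb, -h, H.neg_mem hh, ?_⟩
    rw [vma_neg r a (hS a ha), vma_neg r b (hS b hb)]
    refine Prod.ext ?_ ?_
    · show -(a + b + h) = -a + -b + -h
      ring
    · show -((r * a).valMinAbs + (r * b).valMinAbs) = -(r * a).valMinAbs + -(r * b).valMinAbs
      ring
  have hc : Fp.card = Fm.card := by
    refine Finset.card_bij (fun y _ => -y) ?_ ?_ ?_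
    · intro y hy
      rw [hFp, Finset.mem_filter] at hy
      rw [hFm, Finset.mem_filter]
      refine ⟨hneg y hy.1, ?_⟩
      show -y.2 = -(2 * N)
      rw [hy.2]
    · intro y _ z _ h
      exact neg_injective h
    · intro y hy
      rw [hFm, Finset.mem_filter] at hy
      refine ⟨-y, ?_, neg_neg y⟩
      rw [hFp, Finset.mem_filter]
      refine ⟨hneg y hy.1, ?_⟩
      show -y.2 = 2 * N
      rw [hy.2, neg_neg]
  have hsub : (Y ∪ Fp) ∪ Fm ⊆ PT r S H :=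
    Finset.union_subset (Finset.union_subset hYsub (Finset.filter_subset _ _))
      (Finset.filter_subset _ _)
  have h1 := Finset.card_le_card hsub
  rw [Finset.card_union_of_disjoint hd2, Finset.card_union_of_disjoint hd1, hYc, ← hc] at h1
  omega

end Pool.Agent.Lib.MP_d75b76_nt
end

section

/-!
# The part of `V1` outside `K` and the set `U`
-/

set_option autoImplicit false
set_option linter.unusedSectionVars false

open Finset Pointwise

namespace Pool.Agent.Lib.MP_d75b76_nt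

open RG (stb mem_stb)
open AM (sf off mem_sf mem_off card_sf zero_mem_sf)
open Pool.Agent.Lib.MP_d3cc86_co (lam Asym symz)

open Classical in
/-- `K = Γ.comap (AddMonoidHom.inl (ZMod m) ℤ) = {x : (x, 0) ∈ Γ}`. The map `V1 \ K → U`, `x ↦ lft r x` if
`(r x).valMinAbs > 0` and `x ↦ -lft r x` if `< 0` (it is not `0`, because then `x ∈ K`), is injective:
its first coordinate is `± x` and `V1` is asymmetric; `IsUnit (-x) ↔ IsUnit x`. -/
theorem inj_U {m : ℕ} [NeZero m] (V1 : Finset (ZMod m)) (hA : Asym V1) (r : ZMod m) (N : ℤ)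
    (Γ : AddSubgroup (ZMod m × ℤ)) (hΓ : ∀ x ∈ V1, lft r x ∈ Γ ∧ |(r * x).valMinAbs| ≤ N)
    (U : Finset (ZMod m × ℤ)) (hU : ∀ γ, γ ∈ U ↔ γ ∈ Γ ∧ 0 < γ.2 ∧ γ.2 ≤ N)
    (hu : ∀ x ∈ V1, ¬ IsUnit x) :
    V1.card ≤ (inn V1 (Γ.comap (AddMonoidHom.inl (ZMod m) ℤ))).card +
      (U.filter (fun γ => ¬ IsUnit γ.1)).card := by
  have hsplit : V1.card = (inn V1 (Γ.comap (AddMonoidHom.inl (ZMod m) ℤ))).card +
      (V1.filter (fun x => ¬ x ∈ Γ.comap (AddMonoidHom.inl (ZMod m) ℤ))).card := by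
    unfold inn
    exact (Finset.card_filter_add_card_filter_not (s := V1)
      (fun x => x ∈ Γ.comap (AddMonoidHom.inl (ZMod m) ℤ))).symm
  rw [hsplit]
  refine Nat.add_le_add_left ?_ _
  refine Finset.card_le_card_of_injOn
    (fun x => if 0 < (r * x).valMinAbs then lft r x else - lft r x) ?_ ?_
  · intro x hx
    have hx' := Finset.mem_filter.1 (Finset.mem_coe.1 hx)
    obtain ⟨hxV, hxK⟩ := hx'
    obtain ⟨h1, h2⟩ := hΓ x hxV
    have h3 := abs_le.1 h2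
    have h0 : (r * x).valMinAbs ≠ 0 := by
      intro h
      apply hxK
      rw [AddSubgroup.mem_comap]
      have e : lft r x = AddMonoidHom.inl (ZMod m) ℤ x := by
        unfold lft
        rw [h]
        rfl
      rw [← e]
      exact h1
    rw [Finset.mem_coe, Finset.mem_filter]
    by_cases hp : 0 < (r * x).valMinAbs
    · simp only [hp, if_true]
      exact ⟨(hU _).2 ⟨h1, hp, h3.2⟩, hu x hxV⟩
    · simp only [hp, if_false]
      refine ⟨(hU _).2 ⟨Γ.neg_mem h1, ?_, ?_⟩, ?_⟩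
      · show 0 < -(r * x).valMinAbs
        omega
      · show -(r * x).valMinAbs ≤ N
        omega
      · show ¬ IsUnit (-x)
        rw [IsUnit.neg_iff]
        exact hu x hxV
  · intro x hx y hy hxy
    have hxV := (Finset.mem_filter.1 (Finset.mem_coe.1 hx)).1
    have hyV := (Finset.mem_filter.1 (Finset.mem_coe.1 hy)).1
    have hxy1 := congrArg Prod.fst hxy
    by_cases hp : 0 < (r * x).valMinAbs
    · by_cases hq : 0 < (r * y).valMinAbs
      · simp only [hp, hq, if_true] at hxy1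
        exact hxy1
      · simp only [hp, hq, if_true, if_false] at hxy1
        exfalso
        have e : x = -y := hxy1
        exact hA y hyV (e ▸ hxV)
    · by_cases hq : 0 < (r * y).valMinAbs
      · simp only [hp, hq, if_true, if_false] at hxy1
        exfalso
        have e : -x = y := hxy1
        exact hA x hxV (e ▸ hyV)
      · simp only [hp, hq, if_false] at hxy1
        have e : -x = -y := hxy1
        exact neg_injective e

/-- for `γ₀ ∈ U` the map `κ ↦ (κ, 0) + γ₀` sends `K` injectively into `U` -/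
theorem card_K_le {m : ℕ} [NeZero m] (N : ℤ) (Γ : AddSubgroup (ZMod m × ℤ))
    (U : Finset (ZMod m × ℤ)) (hU : ∀ γ, γ ∈ U ↔ γ ∈ Γ ∧ 0 < γ.2 ∧ γ.2 ≤ N)
    (hne : U.Nonempty) : Nat.card (Γ.comap (AddMonoidHom.inl (ZMod m) ℤ)) ≤ U.card := by
  obtain ⟨g, hg⟩ := hne
  obtain ⟨hg1, hg2, hg3⟩ := (hU g).1 hg
  have hmem : ∀ κ : (Γ.comap (AddMonoidHom.inl (ZMod m) ℤ) : AddSubgroup (ZMod m)),
      AddMonoidHom.inl (ZMod m) ℤ κ.1 + g ∈ U := by
    intro κ
    have hκ := AddSubgroup.mem_comap.1 κ.2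
    refine (hU _).2 ⟨Γ.add_mem hκ hg1, ?_, ?_⟩
    · show 0 < (0 : ℤ) + g.2
      omega
    · show (0 : ℤ) + g.2 ≤ N
      omega
  have hinj : Function.Injective
      (fun κ : (Γ.comap (AddMonoidHom.inl (ZMod m) ℤ) : AddSubgroup (ZMod m)) =>
        (⟨AddMonoidHom.inl (ZMod m) ℤ κ.1 + g, hmem κ⟩ : U)) := by
    intro κ κ' h
    have h1 := congrArg Subtype.val h
    have h2 : AddMonoidHom.inl (ZMod m) ℤ κ.1 = AddMonoidHom.inl (ZMod m) ℤ κ'.1 :=
      add_right_cancel h1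
    exact Subtype.ext (congrArg Prod.fst h2)
  have := Nat.card_le_card_of_injective _ hinj
  rwa [Nat.card_eq_fintype_card (α := U), Fintype.card_coe] at this

end Pool.Agent.Lib.MP_d75b76_nt
end

section

/-!
# Many elements of `A` in a nontrivial coset of `H`
-/

set_option autoImplicit false
set_option linter.unusedSectionVars false

open Finset Pointwise

namespace Pool.Agent.Lib.MP_d75b76_nt

open RG (stb mem_stb)
open AM (sf off mem_sf mem_off card_sf zero_mem_sf)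
open Pool.Agent.Lib.MP_d3cc86_co (lam Asym symz)

variable {G : Type} [AddCommGroup G] [Fintype G]

/-- `X` lies in one coset `x₀ + H ≠ H`, `q` is the index of `H` (so `q • x₀ ∈ H`, indeed `q • g ∈ H` for
all `g`: `AddSubgroup.nsmul_index_mem` or Lagrange in `G ⧸ H`). Choose `X2 ⊆ X` with `|X2| = q`,
`X1 = X \ X2`, `|X1| ≥ |X| / 2`. `quad`: `10^7 |X1.subsetSum| ≥ |X1|^2 ≥ |X|^2 / 4`. Every `s ∈ X1.subsetSum`,
`s = ∑ T`, lies in the coset `|T| • x₀ + H`, so in one of the `q` cosets `j • x₀ + H`, `j < q` (reduce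
`|T|` modulo `q`). Pigeonhole (`Finset.exists_le_card_fiber_of_mul_le_card_of_maps_to` or a sum over
fibers): some `j < q` such that `D = {s ∈ X1.subsetSum : s - j • x₀ ∈ H}` has `|X1.subsetSum| ≤ q |D|`.
Choose `T2 ⊆ X2` with `|T2| = q - j ≥ 1`. For `s = ∑ T ∈ D` the element `s + ∑ T2` is in `H`, and
`-(s + ∑ T2) ∉ V.subsetSum`: otherwise `-(s + ∑ T2) = ∑ W`, `W ⊆ V`, and `W ∪ T ∪ T2` is a nonempty
subset of `A` (disjoint union: `V ⊆ H` and `X ∩ H = ∅`) with sum zero. So `s ↦ -(s + ∑ T2)` maps `D`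
injectively into `sf H \ V.subsetSum`, `|D| ≤ |H| - |V.subsetSum|` (`V.subsetSum ⊆ sf H`). Altogether
`|X|^2 ≤ 4 |X1|^2 ≤ 4 * 10^7 |X1.subsetSum| ≤ 4 * 10^7 q |D|`. -/
theorem class_sums [DecidableEq G] (A V X : Finset G) (hA : Asym A) (hz : ZSF A) (hV : V ⊆ A)
    (hX : X ⊆ A) (H : AddSubgroup G) (hVH : ∀ v ∈ V, v ∈ H) (x₀ : G) (hx₀ : ∀ x ∈ X, x - x₀ ∈ H)
    (hXH : ∀ x ∈ X, x ∉ H) (hq : 2 * H.index ≤ X.card) :
    X.card ^ 2 ≤ 4 * 10 ^ 7 * H.index * (Nat.card H - V.subsetSum.card) := by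
  classical
  have hq0 : 0 < H.index := Nat.pos_of_ne_zero AddSubgroup.index_ne_zero_of_finite
  obtain ⟨X2, hX2, hX2c⟩ := Finset.exists_subset_card_eq (s := X) (n := H.index) (by omega)
  have hX1X : X \ X2 ⊆ X := Finset.sdiff_subset
  have hX1c : (X \ X2).card = X.card - H.index := by
    rw [Finset.card_sdiff_of_subset hX2, hX2c]
  have h2 : X.card ≤ 2 * (X \ X2).card := by omega
  have hX1A : X \ X2 ⊆ A := hX1X.trans hX
  have hquad := quad (X \ X2) (hA.mono hX1A) (hz.mono hX1A)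
  have hcos : ∀ T ⊆ X, ∑ x ∈ T, x - T.card • x₀ ∈ H := by
    intro T hT
    have h3 : ∑ x ∈ T, x - T.card • x₀ = ∑ x ∈ T, (x - x₀) := by
      rw [Finset.sum_sub_distrib, Finset.sum_const]
    rw [h3]
    exact H.sum_mem fun x hx => hx₀ x (hT hx)
  have hex : ∀ s ∈ (X \ X2).subsetSum, ∃ T : Finset G, T ⊆ X \ X2 ∧ ∑ x ∈ T, x = s := by
    intro s hs
    obtain ⟨T, hT, hTs⟩ := Finset.mem_subsetSum_iff.1 hs
    exact ⟨T, hT, hTs⟩
  choose! τ hτ1 hτ2 using hex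
  have hfib : ∑ j ∈ Finset.range H.index,
      ((X \ X2).subsetSum.filter (fun s => (τ s).card % H.index = j)).card =
      (X \ X2).subsetSum.card := by
    rw [← Finset.card_eq_sum_card_fiberwise]
    intro s _
    exact Finset.mem_coe.2 (Finset.mem_range.2 (Nat.mod_lt _ hq0))
  obtain ⟨j, hj, hjD⟩ : ∃ j ∈ Finset.range H.index, (X \ X2).subsetSum.card ≤
      H.index * ((X \ X2).subsetSum.filter (fun s => (τ s).card % H.index = j)).card := by
    by_contra! hcon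
    have h4 : ∑ j ∈ Finset.range H.index,
        H.index * ((X \ X2).subsetSum.filter (fun s => (τ s).card % H.index = j)).card <
        ∑ _j ∈ Finset.range H.index, (X \ X2).subsetSum.card :=
      Finset.sum_lt_sum_of_nonempty ⟨0, Finset.mem_range.2 hq0⟩ hcon
    rw [← Finset.mul_sum, hfib, Finset.sum_const, Finset.card_range, smul_eq_mul] at h4
    exact lt_irrefl _ h4
  have hjq : j < H.index := Finset.mem_range.1 hj
  obtain ⟨T2, hT2, hT2c⟩ := Finset.exists_subset_card_eq (s := X2) (n := H.index - j) (by omega)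
  have hT2ne : T2.Nonempty := by
    rw [← Finset.card_pos]
    omega
  have hVs : V.subsetSum ⊆ sf H := by
    intro y hy
    obtain ⟨W, hW, rfl⟩ := Finset.mem_subsetSum_iff.1 hy
    rw [mem_sf]
    exact H.sum_mem fun v hv => hVH v (hW hv)
  have hDc : ((X \ X2).subsetSum.filter (fun s => (τ s).card % H.index = j)).card ≤
      (sf H \ V.subsetSum).card := by
    refine Finset.card_le_card_of_injOn (fun s => -(s + ∑ x ∈ T2, x)) ?_ ?_
    · intro s hs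
      obtain ⟨hs1, hs2⟩ := Finset.mem_filter.1 (Finset.mem_coe.1 hs)
      have hT1 := hτ1 s hs1
      have hTs := hτ2 s hs1
      have hTX : τ s ⊆ X := hT1.trans hX1X
      rw [Finset.mem_coe, Finset.mem_sdiff]
      constructor
      · rw [mem_sf]
        apply H.neg_mem
        have h5 := H.add_mem (hcos (τ s) hTX) (hcos T2 (hT2.trans hX2))
        have h6 : (τ s).card • x₀ + T2.card • x₀ ∈ H := by
          rw [← add_nsmul, hT2c]
          have h7 : (τ s).card + (H.index - j) = H.index * ((τ s).card / H.index + 1) := by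
            have h8 := Nat.div_add_mod (τ s).card H.index
            rw [hs2] at h8
            rw [Nat.mul_add, Nat.mul_one]
            omega
          rw [h7, mul_comm, mul_nsmul]
          exact AddSubgroup.nsmul_index_mem H _
        have h9 := H.add_mem h5 h6
        rw [hTs] at h9
        have h10 : s - (τ s).card • x₀ + (∑ x ∈ T2, x - T2.card • x₀) +
            ((τ s).card • x₀ + T2.card • x₀) = s + ∑ x ∈ T2, x := by abel
        rwa [h10] at h9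
      · intro hmem
        obtain ⟨W, hW, hWs⟩ := Finset.mem_subsetSum_iff.1 hmem
        have hd1 : Disjoint (τ s) T2 := by
          rw [Finset.disjoint_left]
          intro x hx hx'
          exact (Finset.mem_sdiff.1 (hT1 hx)).2 (hT2 hx')
        have hd2 : Disjoint W (τ s ∪ T2) := by
          rw [Finset.disjoint_left]
          intro x hx hx'
          have hxX : x ∈ X := by
            rcases Finset.mem_union.1 hx' with h | h
            · exact hTX h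
            · exact hX2 (hT2 h)
          exact hXH x hxX (hVH x (hW hx))
        refine hz (W ∪ (τ s ∪ T2)) ?_ ?_ ?_
        · refine Finset.union_subset (hW.trans hV) (Finset.union_subset (hTX.trans hX) ?_)
          exact (hT2.trans hX2).trans hX
        · obtain ⟨t, ht⟩ := hT2ne
          exact ⟨t, Finset.mem_union_right _ (Finset.mem_union_right _ ht)⟩
        · rw [Finset.sum_union hd2, Finset.sum_union hd1, hTs, hWs]
          exact neg_add_cancel _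
    · intro s _ t _ hst
      have h11 : -(s + ∑ x ∈ T2, x) = -(t + ∑ x ∈ T2, x) := hst
      exact add_right_cancel (neg_injective h11)
  rw [Finset.card_sdiff_of_subset hVs, card_sf] at hDc
  calc X.card ^ 2 ≤ (2 * (X \ X2).card) ^ 2 := Nat.pow_le_pow_left h2 2
    _ = 4 * (X \ X2).card ^ 2 := by ring
    _ ≤ 4 * (10 ^ 7 * (X \ X2).subsetSum.card) := Nat.mul_le_mul_left _ hquad
    _ ≤ 4 * (10 ^ 7 * (H.index *
        ((X \ X2).subsetSum.filter (fun s => (τ s).card % H.index = j)).card)) :=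
      Nat.mul_le_mul_left _ (Nat.mul_le_mul_left _ hjD)
    _ ≤ 4 * (10 ^ 7 * (H.index * (Nat.card H - V.subsetSum.card))) :=
      Nat.mul_le_mul_left _ (Nat.mul_le_mul_left _ (Nat.mul_le_mul_left _ hDc))
    _ = 4 * 10 ^ 7 * H.index * (Nat.card H - V.subsetSum.card) := by ring

end Pool.Agent.Lib.MP_d75b76_nt
end

section

/-!
# Disjoint parts of a zero-sum-free set
-/

set_option autoImplicit false
set_option linter.unusedSectionVars false

open Finset Pointwise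

namespace Pool.Agent.Lib.MP_d75b76_nt

open RG (stb mem_stb)
open AM (sf off mem_sf mem_off card_sf zero_mem_sf)
open Pool.Agent.Lib.MP_d3cc86_co (lam Asym symz)

variable {G : Type} [AddCommGroup G] [Fintype G]

/-- Let `V, R` be disjoint parts of the zero-sum-free set `A`, both inside the subgroup `H`. The sets
`V.subsetSum` and `-(R.subsetSum)` are subsets of `H` (as `Finset`s of `G`: subsets of `sf H`) and their
only common element is `0`: if `∑ B = -∑ C`, `B ⊆ V`, `C ⊆ R`, then `∑ (B ∪ C) = 0` (disjoint union,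
`Finset.sum_union`), so `B ∪ C = ∅` by `ZSF`. Inclusion-exclusion:
`|V.subsetSum| + |-(R.subsetSum)| = |union| + |intersection| ≤ |sf H| + 1` (`card_sf`,
`Finset.card_neg`). -/
theorem halves [DecidableEq G] (A V R : Finset G) (hA : ZSF A) (hV : V ⊆ A) (hR : R ⊆ A)
    (hd : Disjoint V R) (H : AddSubgroup G) (hVH : ∀ v ∈ V, v ∈ H) (hRH : ∀ r ∈ R, r ∈ H) :
    V.subsetSum.card + R.subsetSum.card ≤ Nat.card H + 1 := by
  have hVs : V.subsetSum ⊆ sf H := by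
    intro x hx
    obtain ⟨B, hB, rfl⟩ := Finset.mem_subsetSum_iff.1 hx
    rw [mem_sf]
    exact H.sum_mem fun b hb => hVH b (hB hb)
  have hRs : -(R.subsetSum) ⊆ sf H := by
    intro x hx
    rw [Finset.mem_neg] at hx
    obtain ⟨y, hy, rfl⟩ := hx
    obtain ⟨B, hB, rfl⟩ := Finset.mem_subsetSum_iff.1 hy
    rw [mem_sf]
    exact H.neg_mem (H.sum_mem fun b hb => hRH b (hB hb))
  have hint : V.subsetSum ∩ -(R.subsetSum) ⊆ {0} := by
    intro x hx
    rw [Finset.mem_inter, Finset.mem_neg] at hx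
    obtain ⟨hx1, y, hy, hyx⟩ := hx
    obtain ⟨B, hB, hBx⟩ := Finset.mem_subsetSum_iff.1 hx1
    obtain ⟨C, hC, hCy⟩ := Finset.mem_subsetSum_iff.1 hy
    have hdBC : Disjoint B C := hd.mono hB hC
    have hsum : ∑ z ∈ B ∪ C, z = 0 := by
      rw [Finset.sum_union hdBC, hBx, hCy, ← hyx, neg_add_cancel]
    have hempty : B ∪ C = ∅ := by
      by_contra hne
      exact hA (B ∪ C) (Finset.union_subset (hB.trans hV) (hC.trans hR))
        (Finset.nonempty_iff_ne_empty.2 hne) hsum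
    have hB0 : B = ∅ := (Finset.union_eq_empty.1 hempty).1
    rw [Finset.mem_singleton, ← hBx, hB0, Finset.sum_empty]
  have h1 := Finset.card_union_add_card_inter V.subsetSum (-(R.subsetSum))
  have h2 : (V.subsetSum ∪ -(R.subsetSum)).card ≤ Nat.card H := by
    rw [← card_sf]
    exact Finset.card_le_card (Finset.union_subset hVs hRs)
  have h3 : (V.subsetSum ∩ -(R.subsetSum)).card ≤ 1 :=
    (Finset.card_le_card hint).trans (Finset.card_singleton _).le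
  rw [Finset.card_neg] at h1
  omega

end Pool.Agent.Lib.MP_d75b76_nt
end
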