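import Mathlib
import Pool.Agent.Lib.MP_d75b76_nt.Defs

section

/-!
# The real part of the standard character
-/

set_option autoImplicit false

open Finset

namespace Pool.Agent.Lib.MP_d75b76_nt

/-- `ZMod.stdAddChar_coe` or `ZMod.stdAddChar_apply`, `ZMod.toCircle_intCast` with the integer
`z.valMinAbs` (`ZMod.coe_valMinAbs`); `Complex.exp_mul_I`/`Complex.exp_re`. -/
theorem re_std {m : ℕ} [NeZero m] (z : ZMod m) :
    (ZMod.stdAddChar z : ℂ).re = Real.cos (2 * Real.pi * z.valMinAbs / m) := by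
  have h1 : z = ((z.valMinAbs : ℤ) : ZMod m) := (ZMod.coe_valMinAbs z).symm
  have h2 : (ZMod.stdAddChar z : ℂ) = Complex.exp (2 * Real.pi * Complex.I * (z.valMinAbs : ℤ) / m) := by
    conv_lhs => rw [h1]
    rw [ZMod.stdAddChar_coe]
  rw [h2]
  have h3 : (2 * Real.pi * Complex.I * (z.valMinAbs : ℤ) / m : ℂ) =
      ((2 * Real.pi * z.valMinAbs / m : ℝ) : ℂ) * Complex.I := by
    push_cast
    ring
  rw [h3, Complex.exp_ofReal_mul_I_re]

/-- `|z.valMinAbs| ≥ m / 20` gives `1 - cos(2 π z / m) ≥ 1 / 50`: `θ = 2 π valMinAbs / m` has `|θ| ≤ π`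
(`ZMod.valMinAbs_mem_Ioc`) and `Real.cos_quadratic_upper_bound : |x| ≤ π → cos x ≤ 1 - 2 / π ^ 2 * x ^ 2`;
`2 / π^2 * θ^2 = 8 (valMinAbs / m)^2 ≥ 8 / 400`. -/
theorem one_sub_re {m : ℕ} [NeZero m] (z : ZMod m) (hz : (m : ℤ) ≤ 20 * |z.valMinAbs|) :
    (1 : ℝ) / 50 ≤ 1 - (ZMod.stdAddChar z : ℂ).re := by
  rw [re_std]
  have hm : (0 : ℝ) < m := by
    have : 0 < m := Nat.pos_of_ne_zero (NeZero.ne m)
    exact_mod_cast this
  have hpi := Real.pi_pos
  set v : ℝ := ((z.valMinAbs : ℤ) : ℝ) with hv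
  have h1 : (m : ℝ) ≤ 20 * |v| := by
    have h2 : ((m : ℤ) : ℝ) ≤ ((20 * |z.valMinAbs| : ℤ) : ℝ) := Int.cast_le.2 hz
    push_cast at h2
    exact h2
  have h3 : 2 * |v| ≤ m := by
    have h4 := ZMod.valMinAbs_mem_Ioc z
    rw [Set.mem_Ioc] at h4
    have h5 : 2 * |z.valMinAbs| ≤ (m : ℤ) := by
      rcases abs_cases z.valMinAbs with ⟨h6, _⟩ | ⟨h6, _⟩ <;> rw [h6] <;> linarith [h4.1, h4.2]
    have h6 : ((2 * |z.valMinAbs| : ℤ) : ℝ) ≤ ((m : ℤ) : ℝ) := Int.cast_le.2 h5
    push_cast at h6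
    exact h6
  have habs : |2 * Real.pi * v / m| = 2 * Real.pi * |v| / m := by
    rw [abs_div, abs_mul, abs_of_pos (by positivity : (0 : ℝ) < 2 * Real.pi), abs_of_pos hm]
  have hle : |2 * Real.pi * v / m| ≤ Real.pi := by
    rw [habs, div_le_iff₀ hm]
    nlinarith
  have h7 := Real.cos_le_one_sub_mul_cos_sq hle
  have h8 : 2 / Real.pi ^ 2 * (2 * Real.pi * v / m) ^ 2 = 8 * (|v| / m) ^ 2 := by
    rw [div_pow, div_pow, sq_abs]
    field_simp
    ring
  rw [h8] at h7
  have h9 : 1 / 20 ≤ |v| / m := by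
    rw [div_le_div_iff₀ (by norm_num) hm]
    linarith
  have h10 : (1 / 20 : ℝ) ^ 2 ≤ (|v| / m) ^ 2 := pow_le_pow_left₀ (by norm_num) h9 2
  norm_num at h10
  linarith

end Pool.Agent.Lib.MP_d75b76_nt
end

section

/-!
# Counting in the fibres of the quotient map
-/

set_option autoImplicit false

open Finset Pointwise

namespace Pool.Agent.Lib.MP_d75b76_nt

/-- For every class `w` in the image of `P + P` let `ρ w` be an element of `P + P` in this class with
minimal second coordinate (`Finset.exists_min_image`). The set `M = {ρ w}` has as many elements as the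
image. The elements `y + u`, `y ∈ P`, are in `P + P` (`u ∈ P`) and not in `M`: `y = y + 0 ∈ P + P` is in
the same class and has a smaller second coordinate. So `M` and `P + {u}` are disjoint subsets of
`P + P`. -/
theorem fib {m : ℕ} (u : ZMod m × ℤ) (hu : 0 < u.2) (P : Finset (ZMod m × ℤ))
    (h0 : (0 : ZMod m × ℤ) ∈ P) (hu0 : u ∈ P)
    [DecidableEq ((ZMod m × ℤ) ⧸ AddSubgroup.zmultiples u)] :
    ((P + P).image (fun y => (QuotientAddGroup.mk y : (ZMod m × ℤ) ⧸ AddSubgroup.zmultiples u))).card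
      + P.card ≤ (P + P).card := by
  classical
  set q : ZMod m × ℤ → (ZMod m × ℤ) ⧸ AddSubgroup.zmultiples u := fun y => QuotientAddGroup.mk y
    with hq
  have key : ∀ w ∈ (P + P).image q, ∃ y ∈ P + P, q y = w ∧ ∀ z ∈ P + P, q z = w → y.2 ≤ z.2 := by
    intro w hw
    obtain ⟨y0, hy0, hy0w⟩ := Finset.mem_image.mp hw
    obtain ⟨y, hy, hmin⟩ := Finset.exists_min_image ((P + P).filter fun y => q y = w)
      (fun y => y.2) ⟨y0, Finset.mem_filter.mpr ⟨hy0, hy0w⟩⟩
    rw [Finset.mem_filter] at hy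
    exact ⟨y, hy.1, hy.2, fun z hz hzw => hmin z (Finset.mem_filter.mpr ⟨hz, hzw⟩)⟩
  choose! ρ hρ1 hρ2 hρ3 using key
  have hinj : Set.InjOn ρ ((P + P).image q) := by
    intro a ha b hb hab
    rw [← hρ2 a ha, ← hρ2 b hb, hab]
  have hu' : ∀ y, q (y + u) = q y := by
    intro y
    simp only [hq]
    rw [QuotientAddGroup.eq]
    have : -(y + u) + y = -u := by abel
    rw [this]
    exact neg_mem (AddSubgroup.mem_zmultiples u)
  have hdisj : Disjoint (((P + P).image q).image ρ) (P.image fun y => y + u) := by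
    rw [Finset.disjoint_left]
    intro z hz1 hz2
    obtain ⟨w, hw, rfl⟩ := Finset.mem_image.mp hz1
    obtain ⟨y, hy, hyz⟩ := Finset.mem_image.mp hz2
    have h1 : q y = w := by rw [← hu' y, hyz, hρ2 w hw]
    have h2 : y ∈ P + P := by
      have := Finset.add_mem_add hy h0
      rwa [add_zero] at this
    have h3 := hρ3 w hw y h2 h1
    rw [← hyz] at h3
    have h4 : (y + u).2 = y.2 + u.2 := rfl
    omega
  have hsub : ((P + P).image q).image ρ ∪ P.image (fun y => y + u) ⊆ P + P := by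
    intro z hz
    rcases Finset.mem_union.mp hz with hz | hz
    · obtain ⟨w, hw, rfl⟩ := Finset.mem_image.mp hz
      exact hρ1 w hw
    · obtain ⟨y, hy, rfl⟩ := Finset.mem_image.mp hz
      exact Finset.add_mem_add hy hu0
  have h5 := Finset.card_le_card hsub
  rw [Finset.card_union_of_disjoint hdisj, Finset.card_image_of_injOn hinj,
    Finset.card_image_of_injective P (add_left_injective u)] at h5
  exact h5

end Pool.Agent.Lib.MP_d75b76_nt
end

section

/-!
# The quotient of `ZMod m × ℤ` by a cyclic subgroup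
-/

set_option autoImplicit false

open Finset Pointwise

namespace Pool.Agent.Lib.MP_d75b76_nt

/-- The quotient is finite if `u.2 > 0`: every class contains an element `(x, z)` with `0 ≤ z < u.2`
(subtract `(z / u.2) • u`), so the finite set `univ ×ˢ Finset.Ico 0 u.2` maps onto the quotient
(`Finite.of_surjective`, `Set.Finite`). -/
theorem finite_quot {m : ℕ} [NeZero m] (u : ZMod m × ℤ) (hu : 0 < u.2) :
    Finite ((ZMod m × ℤ) ⧸ AddSubgroup.zmultiples u) := by
  classical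
  let T : Finset (ZMod m × ℤ) := (Finset.univ : Finset (ZMod m)) ×ˢ Finset.Ico (0 : ℤ) u.2
  let f : T → (ZMod m × ℤ) ⧸ AddSubgroup.zmultiples u := fun p => QuotientAddGroup.mk p.1
  refine Finite.of_surjective f ?_
  intro q
  obtain ⟨y, rfl⟩ := QuotientAddGroup.mk_surjective q
  have h2 : (y - (y.2 / u.2) • u).2 = y.2 % u.2 := by
    rw [Prod.snd_sub, Prod.smul_snd, smul_eq_mul, mul_comm]
    have := Int.emod_add_mul_ediv y.2 u.2
    linarith
  have hmem : y - (y.2 / u.2) • u ∈ T := by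
    rw [Finset.mem_product]
    refine ⟨Finset.mem_univ _, ?_⟩
    rw [h2, Finset.mem_Ico]
    exact ⟨Int.emod_nonneg _ hu.ne', Int.emod_lt_of_pos _ hu⟩
  refine ⟨⟨_, hmem⟩, ?_⟩
  change (QuotientAddGroup.mk (y - (y.2 / u.2) • u) :
    (ZMod m × ℤ) ⧸ AddSubgroup.zmultiples u) = QuotientAddGroup.mk y
  rw [QuotientAddGroup.eq]
  rw [AddSubgroup.mem_zmultiples_iff]
  exact ⟨y.2 / u.2, by abel⟩

/-- The map to the quotient is injective on `P` without the elements of height `u.2`: if `y - y' = j • u`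
and `0 ≤ y.2, y'.2 < u.2` then `|j| u.2 < u.2`, `j = 0`. -/
theorem inj_quot {m : ℕ} (u : ZMod m × ℤ) (hu : 0 < u.2) (P : Finset (ZMod m × ℤ))
    (hP : ∀ y ∈ P, 0 ≤ y.2 ∧ y.2 ≤ u.2)
    [DecidableEq ((ZMod m × ℤ) ⧸ AddSubgroup.zmultiples u)] :
    P.card ≤ (P.image (fun y =>
      (QuotientAddGroup.mk y : (ZMod m × ℤ) ⧸ AddSubgroup.zmultiples u))).card +
        (P.filter (fun y => y.2 = u.2)).card := by
  classical
  have h1 : (P.filter (fun y => y.2 = u.2)).card + (P.filter (fun y => ¬ y.2 = u.2)).card =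
      P.card := Finset.card_filter_add_card_filter_not _
  have h2 : (P.filter (fun y => ¬ y.2 = u.2)).card ≤ (P.image (fun y =>
      (QuotientAddGroup.mk y : (ZMod m × ℤ) ⧸ AddSubgroup.zmultiples u))).card := by
    refine Finset.card_le_card_of_injOn
      (fun y => (QuotientAddGroup.mk y : (ZMod m × ℤ) ⧸ AddSubgroup.zmultiples u)) ?_ ?_
    · intro y hy
      have hy' : y ∈ P.filter (fun y => ¬ y.2 = u.2) := hy
      rw [Finset.mem_filter] at hy'
      exact Finset.mem_coe.2 (Finset.mem_image_of_mem _ hy'.1)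
    · intro y hy z hz hyz
      have hy' : y ∈ P.filter (fun y => ¬ y.2 = u.2) := hy
      have hz' : z ∈ P.filter (fun y => ¬ y.2 = u.2) := hz
      rw [Finset.mem_filter] at hy' hz'
      have hy1 := hP y hy'.1
      have hz1 := hP z hz'.1
      have hy2 : y.2 < u.2 := lt_of_le_of_ne hy1.2 hy'.2
      have hz2 : z.2 < u.2 := lt_of_le_of_ne hz1.2 hz'.2
      have hyz' : (QuotientAddGroup.mk y : (ZMod m × ℤ) ⧸ AddSubgroup.zmultiples u) =
        QuotientAddGroup.mk z := hyz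
      rw [QuotientAddGroup.eq, AddSubgroup.mem_zmultiples_iff] at hyz'
      obtain ⟨j, hj⟩ := hyz'
      have hj2 : j * u.2 = -y.2 + z.2 := by
        have := congrArg Prod.snd hj
        simpa using this
      have hj0 : j = 0 := by
        have ha : j < 1 := by
          by_contra hcon
          push Not at hcon
          nlinarith [hy1.1, hz2]
        have hb : -1 < j := by
          by_contra hcon
          push Not at hcon
          nlinarith [hz1.1, hy2]
        omega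
      rw [hj0, zero_smul] at hj
      have : z = y := by
        have h3 : y + 0 = y + (-y + z) := by rw [hj]
        rw [add_zero, add_neg_cancel_left] at h3
        exact h3.symm
      exact this.symm
  omega

end Pool.Agent.Lib.MP_d75b76_nt
end

section

/-!
# Units in a coset
-/

set_option autoImplicit false

open Finset

namespace Pool.Agent.Lib.MP_d75b76_nt

/-- `m ≤ 2^w φ(m)`, `w = m.primeFactors.card` (`Nat.totient_mul_prod_primeFactors` or
`Nat.totient_eq_mul_prod_factors : (φ n : ℚ) = n * ∏ p ∈ n.primeFactors, (1 - (p : ℚ)⁻¹)`; every factor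
is at least `1/2`). -/
theorem totient_lower (m : ℕ) : m ≤ 2 ^ m.primeFactors.card * m.totient := by
  have h1 := Nat.totient_mul_prod_primeFactors m
  have h2 : ∏ p ∈ m.primeFactors, p ≤ 2 ^ m.primeFactors.card * ∏ p ∈ m.primeFactors, (p - 1) := by
    rw [← Finset.prod_const, ← Finset.prod_mul_distrib]
    refine Finset.prod_le_prod' fun p hp => ?_
    have := (Nat.prime_of_mem_primeFactors hp).two_le
    omega
  have h3 : 0 < ∏ p ∈ m.primeFactors, (p - 1) := by
    refine Finset.prod_pos fun p hp => ?_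
    have := (Nat.prime_of_mem_primeFactors hp).two_le
    omega
  have h4 : m * ∏ p ∈ m.primeFactors, (p - 1) ≤
      2 ^ m.primeFactors.card * m.totient * ∏ p ∈ m.primeFactors, (p - 1) := by
    rw [← h1]
    calc m.totient * ∏ p ∈ m.primeFactors, p ≤
        m.totient * (2 ^ m.primeFactors.card * ∏ p ∈ m.primeFactors, (p - 1)) :=
          Nat.mul_le_mul_left _ h2
      _ = _ := by ring
  exact Nat.le_of_mul_le_mul_right h4 h3

open Classical in
/-- `K` is a subgroup of `ZMod m` and `τ`, `K` generate `ZMod m`. There is a divisor `m1` of `m` such that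
`K = {x : m1 ∣ x.val}`, i.e. `K` is the kernel of `ZMod.castHom (m1 ∣ m) (ZMod m1)`, `|K| m1 = m` (the
subgroup is cyclic; `m1 = m / |K|`; every element of `K` is killed by `|K|`, so it is a multiple of `m1`, and
there are `|K|` multiples of `m1`). The image `τ'` of `τ` in `ZMod m1` generates `ZMod m1`, so it is a unit.
`ZMod.unitsMap_surjective`: the map `(ZMod m)ˣ → (ZMod m1)ˣ` is surjective, all fibers have the same number
`φ(m) / φ(m1)` of elements, and the fiber of `τ'` is (in bijection with) `{κ ∈ K : IsUnit (τ + κ)}`. So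
this number is `φ(m) / φ(m1) ≥ φ(m) / m1 = |K| φ(m) / m ≥ |K| / 2^w` (`totient_lower`). -/
theorem coset_units (m : ℕ) [NeZero m] (K : AddSubgroup (ZMod m)) (τ : ZMod m)
    (h : ∀ x : ZMod m, ∃ j : ℤ, x - j • τ ∈ K) :
    Nat.card K ≤ 2 ^ m.primeFactors.card *
      ((Finset.univ : Finset (ZMod m)).filter (fun κ => κ ∈ K ∧ IsUnit (τ + κ))).card := by
  have hm : 0 < m := Nat.pos_of_ne_zero (NeZero.ne m)
  set n := Nat.card K with hn
  set m1 := K.index with hm1
  have hnm : n * m1 = m := by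
    rw [hn, hm1, AddSubgroup.card_mul_index, Nat.card_eq_fintype_card, ZMod.card]
  have hn0 : 0 < n := Nat.pos_of_ne_zero (fun h0 => by rw [h0, zero_mul] at hnm; omega)
  have hm10 : 0 < m1 := Nat.pos_of_ne_zero (fun h0 => by rw [h0, mul_zero] at hnm; omega)
  have : NeZero m1 := ⟨by omega⟩
  have hdvd : m1 ∣ m := ⟨n, by rw [← hnm, mul_comm]⟩
  set f := ZMod.castHom hdvd (ZMod m1) with hf
  have hfs : Function.Surjective f := ZMod.castHom_surjective hdvd
  -- `K` is the kernel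
  have hKsub : ∀ x ∈ K, f x = 0 := by
    intro x hx
    have h1 : n • x = 0 := by
      have h2 : n • (⟨x, hx⟩ : K) = 0 := by
        rw [hn]
        exact card_nsmul_eq_zero'
      have h3 := congrArg (Subtype.val) h2
      simpa using h3
    rw [nsmul_eq_mul, ← ZMod.natCast_zmod_val x, ← Nat.cast_mul, ZMod.natCast_eq_zero_iff] at h1
    have h2 : m1 ∣ x.val := Nat.dvd_of_mul_dvd_mul_left hn0 ((dvd_of_eq hnm).trans h1)
    rw [← ZMod.natCast_zmod_val x, map_natCast, ZMod.natCast_eq_zero_iff]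
    exact h2
  have hker : K = f.toAddMonoidHom.ker := by
    have hle : K ≤ f.toAddMonoidHom.ker := fun x hx => hKsub x hx
    refine AddSubgroup.eq_of_le_of_card_ge hle ?_
    have h1 : Nat.card f.toAddMonoidHom.ker * f.toAddMonoidHom.ker.index = Nat.card (ZMod m) :=
      AddSubgroup.card_mul_index _
    have h2 : f.toAddMonoidHom.ker.index = m1 := by
      rw [AddSubgroup.index_ker]
      have h3 : f.toAddMonoidHom.range = ⊤ := AddMonoidHom.range_eq_top.2 hfs
      rw [h3, AddSubgroup.card_top, Nat.card_eq_fintype_card, ZMod.card]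
    rw [h2, Nat.card_eq_fintype_card (α := ZMod m), ZMod.card] at h1
    exact (Nat.eq_of_mul_eq_mul_right hm10 (h1.trans hnm.symm)).le
  have hKmem : ∀ x, f x = 0 → x ∈ K := by
    intro x hx
    rw [hker]
    exact hx
  -- the image of `τ` is a unit
  obtain ⟨j, hj⟩ := h 1
  have hτ : (j : ZMod m1) * f τ = 1 := by
    have h1 := hKsub _ hj
    rw [map_sub, map_one, map_zsmul, sub_eq_zero, zsmul_eq_mul] at h1
    exact h1.symm
  obtain ⟨u0, hu0⟩ : IsUnit (f τ) := IsUnit.of_mul_eq_one (j : ZMod m1) (by rw [mul_comm]; exact hτ)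
  -- fibers
  set g := ZMod.unitsMap hdvd with hg
  have hgs : Function.Surjective g := ZMod.unitsMap_surjective hdvd
  have hfib : ∀ u : (ZMod m1)ˣ, (univ.filter (fun v : (ZMod m)ˣ => g v = u)).card =
      (univ.filter (fun v : (ZMod m)ˣ => g v = u0)).card := fun u =>
    MonoidHom.card_fiber_eq_of_mem_range g (hgs u) (hgs u0)
  have hsum : Fintype.card (ZMod m)ˣ = Fintype.card (ZMod m1)ˣ *
      (univ.filter (fun v : (ZMod m)ˣ => g v = u0)).card := by
    have h1 : (univ : Finset (ZMod m)ˣ).card = ∑ u : (ZMod m1)ˣ,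
        (univ.filter (fun v : (ZMod m)ˣ => g v = u)).card :=
      Finset.card_eq_sum_card_fiberwise (fun v _ => Finset.mem_univ _)
    rw [Finset.card_univ] at h1
    rw [h1, Finset.sum_congr rfl (fun u _ => hfib u), Finset.sum_const, Finset.card_univ,
      smul_eq_mul]
  rw [ZMod.card_units_eq_totient, ZMod.card_units_eq_totient] at hsum
  set N := (univ.filter (fun v : (ZMod m)ˣ => g v = u0)).card with hN
  have hinj : N ≤ ((Finset.univ : Finset (ZMod m)).filter
      (fun κ => κ ∈ K ∧ IsUnit (τ + κ))).card := by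
    refine Finset.card_le_card_of_injOn (fun v => (v : ZMod m) - τ) ?_ ?_
    · intro v hv
      have hv' : g v = u0 := (Finset.mem_filter.1 hv).2
      refine Finset.mem_coe.2 (Finset.mem_filter.2 ⟨Finset.mem_univ _, ?_, ?_⟩)
      · refine hKmem _ ?_
        rw [map_sub, ← hu0, ← hv', sub_eq_zero]
        rfl
      · show IsUnit (τ + ((v : ZMod m) - τ))
        rw [add_sub_cancel]
        exact v.isUnit
    · intro v _ v' _ hvv
      have h1 : (v : ZMod m) - τ = (v' : ZMod m) - τ := hvv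
      exact Units.ext (sub_left_injective h1)
  have h1 := totient_lower m
  have h2 : m1.totient ≤ m1 := Nat.totient_le m1
  have h3 : n * m1 ≤ 2 ^ m.primeFactors.card * N * m1 := by
    calc n * m1 = m := hnm
      _ ≤ 2 ^ m.primeFactors.card * m.totient := h1
      _ = 2 ^ m.primeFactors.card * (m1.totient * N) := by rw [hsum]
      _ ≤ 2 ^ m.primeFactors.card * (m1 * N) :=
        Nat.mul_le_mul_left _ (Nat.mul_le_mul_right _ h2)
      _ = _ := by ring
  have h4 : n ≤ 2 ^ m.primeFactors.card * N := Nat.le_of_mul_le_mul_right h3 hm10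
  exact h4.trans (Nat.mul_le_mul_left _ hinj)

end Pool.Agent.Lib.MP_d75b76_nt
end

section

/-!
# The Legendre sieve
-/

set_option autoImplicit false

open Finset

namespace Pool.Agent.Lib.MP_d75b76_nt

/-- The multiples of `p` among the `T`-free numbers up to `n`. -/
private theorem card_mult (T : Finset ℕ) (hT : ∀ q ∈ T, q.Prime) {p : ℕ} (hp : p.Prime) (hpT : p ∉ T)
    (n : ℕ) :
    (((Finset.Icc 1 n).filter (fun j => ∀ q ∈ T, ¬ q ∣ j)).filter (fun j => p ∣ j)).card =
      ((Finset.Icc 1 (n / p)).filter (fun j => ∀ q ∈ T, ¬ q ∣ j)).card := by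
  symm
  apply Finset.card_bij (fun j _ => p * j)
  · intro j hj
    rw [Finset.mem_filter, Finset.mem_Icc] at hj
    obtain ⟨⟨h1, h2⟩, h3⟩ := hj
    rw [Finset.mem_filter, Finset.mem_filter, Finset.mem_Icc]
    refine ⟨⟨⟨?_, ?_⟩, ?_⟩, Dvd.intro _ rfl⟩
    · exact Nat.succ_le_of_lt (Nat.mul_pos hp.pos h1)
    · calc p * j ≤ p * (n / p) := Nat.mul_le_mul_left _ h2
        _ ≤ n := Nat.mul_div_le n p
    · intro q hq hdvd
      rcases (hT q hq).dvd_mul.1 hdvd with h | h
      · have : q = p := (Nat.prime_dvd_prime_iff_eq (hT q hq) hp).1 h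
        exact hpT (this ▸ hq)
      · exact h3 q hq h
  · intro a _ b _ hab
    exact Nat.eq_of_mul_eq_mul_left hp.pos hab
  · intro b hb
    rw [Finset.mem_filter, Finset.mem_filter, Finset.mem_Icc] at hb
    obtain ⟨⟨⟨h1, h2⟩, h3⟩, c, rfl⟩ := hb
    refine ⟨c, ?_, rfl⟩
    rw [Finset.mem_filter, Finset.mem_Icc]
    refine ⟨⟨?_, ?_⟩, ?_⟩
    · rcases Nat.eq_zero_or_pos c with h | h
      · subst h; simp at h1
      · exact h
    · rw [Nat.le_div_iff_mul_le hp.pos, mul_comm]; exact h2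
    · intro q hq hd
      exact h3 q hq (Dvd.dvd.mul_left hd p)

/-- Let `c_T(n)` be the number of `1 ≤ j ≤ n` not divisible by any `p ∈ T`,
`Π_T = ∏_{p ∈ T} (1 - 1/p) ∈ [0, 1]`. Induction on `T` with the statement for all real `x ≥ 0`. `T = ∅`:
`|⌊x⌋ - x| ≤ 1`. For `p ∉ T`: `c_{T ∪ {p}}(⌊x⌋) = c_T(⌊x⌋) - c_T(⌊x / p⌋)` (the `j ≤ x` divisible by `p` are
`j = p j'`, `j' ≤ x / p`, and for `q ∈ T`, `q ≠ p`: `q ∣ p j' ↔ q ∣ j'`), and
`x Π_{T ∪ {p}} = x Π_T - (x / p) Π_T`; the errors add: `2^|T| + 2^|T|`. -/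
theorem sieve (T : Finset ℕ) (hT : ∀ p ∈ T, p.Prime) (x : ℝ) (hx : 0 ≤ x) :
    |(((Finset.Icc 1 ⌊x⌋₊).filter (fun j => ∀ p ∈ T, ¬ p ∣ j)).card : ℝ) -
      x * ∏ p ∈ T, (1 - 1 / (p : ℝ))| ≤ 2 ^ T.card := by
  induction T using Finset.induction_on generalizing x with
  | empty =>
    have h1 : (((Finset.Icc 1 ⌊x⌋₊).filter (fun j => ∀ p ∈ (∅ : Finset ℕ), ¬ p ∣ j)).card : ℝ) =
        (⌊x⌋₊ : ℝ) := by
      rw [Finset.filter_true_of_mem (by simp)]
      simp
    rw [h1, Finset.prod_empty, Finset.card_empty, pow_zero, mul_one, abs_le]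
    have h2 := Nat.floor_le hx
    have h3 := Nat.lt_floor_add_one x
    constructor <;> linarith
  | @insert p T hpT ih =>
    have hp : p.Prime := hT p (Finset.mem_insert_self p T)
    have hT' : ∀ q ∈ T, q.Prime := fun q hq => hT q (Finset.mem_insert_of_mem hq)
    have hp0 : (0 : ℝ) < p := by exact_mod_cast hp.pos
    have i1 := ih hT' x hx
    have i2 := ih hT' (x / p) (div_nonneg hx hp0.le)
    rw [Nat.floor_div_natCast] at i2
    have e1 : ((Finset.Icc 1 ⌊x⌋₊).filter (fun j => ∀ q ∈ insert p T, ¬ q ∣ j)) =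
        ((Finset.Icc 1 ⌊x⌋₊).filter (fun j => ∀ q ∈ T, ¬ q ∣ j)).filter (fun j => ¬ p ∣ j) := by
      ext j
      simp only [Finset.mem_filter, Finset.mem_insert, forall_eq_or_imp]
      tauto
    have e2 := Finset.card_filter_add_card_filter_not
      (s := (Finset.Icc 1 ⌊x⌋₊).filter (fun j => ∀ q ∈ T, ¬ q ∣ j)) (fun j => p ∣ j)
    rw [card_mult T hT' hp hpT] at e2
    rw [e1]
    have e3 : ((((Finset.Icc 1 ⌊x⌋₊).filter (fun j => ∀ q ∈ T, ¬ q ∣ j)).filter
        (fun j => ¬ p ∣ j)).card : ℝ) =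
        (((Finset.Icc 1 ⌊x⌋₊).filter (fun j => ∀ q ∈ T, ¬ q ∣ j)).card : ℝ) -
        (((Finset.Icc 1 (⌊x⌋₊ / p)).filter (fun j => ∀ q ∈ T, ¬ q ∣ j)).card : ℝ) := by
      rw [eq_sub_iff_add_eq]
      exact_mod_cast (by rw [add_comm]; exact e2)
    rw [e3, Finset.prod_insert hpT, Finset.card_insert_of_notMem hpT, pow_succ]
    rw [abs_le] at i1 i2 ⊢
    have e4 : x * ((1 - 1 / (p : ℝ)) * ∏ q ∈ T, (1 - 1 / (q : ℝ))) =
        x * ∏ q ∈ T, (1 - 1 / (q : ℝ)) - x / p * ∏ q ∈ T, (1 - 1 / (q : ℝ)) := by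
      field_simp
    rw [e4]
    constructor <;> linarith [i1.1, i1.2, i2.1, i2.2]

end Pool.Agent.Lib.MP_d75b76_nt
end

section

/-!
# Counting integers coprime to `m`
-/

set_option autoImplicit false

open Finset

namespace Pool.Agent.Lib.MP_d75b76_nt

private theorem coprime_iff_free (m j : ℕ) (hm : m ≠ 0) :
    j.Coprime m ↔ ∀ p ∈ m.primeFactors, ¬ p ∣ j := by
  constructor
  · intro h p hp hd
    have hpp := Nat.prime_of_mem_primeFactors hp
    have hpm := Nat.dvd_of_mem_primeFactors hp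
    have h1 : p ∣ Nat.gcd j m := Nat.dvd_gcd hd hpm
    rw [Nat.Coprime] at h
    rw [h] at h1
    exact hpp.one_lt.ne' (Nat.dvd_one.1 h1)
  · intro h
    rw [Nat.coprime_iff_gcd_eq_one]
    by_contra hne
    obtain ⟨p, hp, hpd⟩ := Nat.exists_prime_and_dvd hne
    have h1 : p ∣ j := hpd.trans (Nat.gcd_dvd_left j m)
    have h2 : p ∣ m := hpd.trans (Nat.gcd_dvd_right j m)
    exact h p (Nat.mem_primeFactors.2 ⟨hp, h2, hm⟩) h1

private theorem prod_lower (T : Finset ℕ) (hT : ∀ p ∈ T, p.Prime) :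
    (1 / 2 : ℝ) ^ T.card ≤ ∏ p ∈ T, (1 - 1 / (p : ℝ)) := by
  rw [← Finset.prod_const]
  apply Finset.prod_le_prod
  · intro i _
    norm_num
  · intro p hp
    have h2 : (2 : ℝ) ≤ p := by exact_mod_cast (hT p hp).two_le
    have h3 : 1 / (p : ℝ) ≤ 1 / 2 := by
      apply one_div_le_one_div_of_le
      · norm_num
      · exact h2
    linarith

/-- `w = m.primeFactors.card`. `j` is coprime to `m` iff no prime factor of `m` divides `j`. `∏ (1 - 1/p) ≥
2^(-w)`. If `n ≥ 2 * 4^w` the number `c` of coprime `j ≤ n` is at least `n 2^(-w) - 2^w ≥ n 2^(-w) / 2 ≥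
n 4^(-w) / 2` (`sieve` with `x = n`). If `n < 2 * 4^w` then `c ≥ 1` (`j = 1`) and `n ≤ 2 * 4^w c`. -/
theorem coprime_count (m n : ℕ) (hm : m ≠ 0) (hn : 1 ≤ n) :
    n ≤ 2 * 4 ^ m.primeFactors.card *
      ((Finset.Icc 1 n).filter (fun j => j.Coprime m)).card := by
  rcases lt_or_ge n (2 * 4 ^ m.primeFactors.card) with hlt | hge
  · have hc : 1 ≤ ((Finset.Icc 1 n).filter (fun j => j.Coprime m)).card := by
      rw [Nat.succ_le_iff, Finset.card_pos]
      exact ⟨1, by simp [hn]⟩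
    calc n ≤ 2 * 4 ^ m.primeFactors.card * 1 := by omega
      _ ≤ _ := Nat.mul_le_mul_left _ hc
  · have hs := sieve m.primeFactors (fun p hp => Nat.prime_of_mem_primeFactors hp) (n : ℝ)
      (Nat.cast_nonneg n)
    rw [Nat.floor_natCast] at hs
    have he : ((Finset.Icc 1 n).filter (fun j => ∀ p ∈ m.primeFactors, ¬ p ∣ j)) =
        ((Finset.Icc 1 n).filter (fun j => j.Coprime m)) := by
      apply Finset.filter_congr
      intro j _
      exact (coprime_iff_free m j hm).symm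
    rw [he] at hs
    have hpr := prod_lower m.primeFactors (fun p hp => Nat.prime_of_mem_primeFactors hp)
    generalize ((Finset.Icc 1 n).filter (fun j => j.Coprime m)).card = c at *
    generalize (∏ p ∈ m.primeFactors, (1 - 1 / (p : ℝ))) = P at *
    generalize m.primeFactors.card = w at *
    have h0 : (0 : ℝ) ≤ n := Nat.cast_nonneg n
    have h2 : (0 : ℝ) < 2 ^ w := by positivity
    have h4 : (4 : ℝ) ^ w = 2 ^ w * 2 ^ w := by
      rw [← mul_pow]; norm_num
    have hge' : (2 : ℝ) * (2 ^ w * 2 ^ w) ≤ n := by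
      rw [← h4]; exact_mod_cast hge
    have hhalf : (1 / 2 : ℝ) ^ w * 2 ^ w = 1 := by
      rw [← mul_pow]; norm_num
    rw [abs_le] at hs
    have e1 : (n : ℝ) * (1 / 2 : ℝ) ^ w ≤ n * P := mul_le_mul_of_nonneg_left hpr h0
    have e2 : (n : ℝ) * (1 / 2 : ℝ) ^ w - 2 ^ w ≤ c := by linarith [hs.1]
    have e3 : (n : ℝ) - 2 ^ w * 2 ^ w ≤ 2 ^ w * c := by
      have := mul_le_mul_of_nonneg_left e2 h2.le
      have e4 : (2 : ℝ) ^ w * ((n : ℝ) * (1 / 2 : ℝ) ^ w - 2 ^ w) = n - 2 ^ w * 2 ^ w := by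
        calc (2 : ℝ) ^ w * ((n : ℝ) * (1 / 2 : ℝ) ^ w - 2 ^ w) =
            n * ((1 / 2 : ℝ) ^ w * 2 ^ w) - 2 ^ w * 2 ^ w := by ring
          _ = _ := by rw [hhalf, mul_one]
      rw [e4] at this
      exact this
    have hw1 : (1 : ℝ) ≤ 2 ^ w := one_le_pow₀ (by norm_num)
    have hc0 : (0 : ℝ) ≤ c := Nat.cast_nonneg c
    have e5 : (n : ℝ) ≤ 2 * (2 ^ w * c) := by linarith
    have e6 : (2 : ℝ) ^ w * c ≤ 2 ^ w * (2 ^ w * c) := by
      have : (0 : ℝ) ≤ 2 ^ w * c := by positivity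
      nlinarith
    have e7 : (n : ℝ) ≤ 2 * 4 ^ w * c := by
      rw [h4]; linarith
    exact_mod_cast e7

end Pool.Agent.Lib.MP_d75b76_nt
end

section

/-!
# Many units in a coset progression
-/

set_option autoImplicit false

open Finset

namespace Pool.Agent.Lib.MP_d75b76_nt

open Classical in
/-- Let `g > 0` be the generator of the subgroup of heights `Γ.map snd ≤ ℤ` (it is not zero because `U` is
not empty; `Int.subgroup_cyclic`/`AddSubgroup.isAddCyclic` or the smallest positive height), `τ ∈ Γ`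
with `τ.2 = g`, `K = {x : (x, 0) ∈ Γ}` (`Γ.comap (AddMonoidHom.inl _ _)`), `n = N / g ≥ 1` (an element of
`U` has height `j g`, `0 < j g ≤ N`). The map `(j, κ) ↦ (j • τ.1 + κ, j g)` is a bijection from
`{1, ..., n} × K` to `U`: `|U| = n |K|`. By `hproj` the hypothesis of `coset_units` holds for `K` and `τ.1`
(an element `γ ∈ Γ` has height `j g`, so `γ - j • τ = (x - j • τ.1, 0)`, `x - j • τ.1 ∈ K`). If `j ≤ n` is
coprime to `m` and `τ.1 + κ` is a unit, `κ ∈ K`, then `(j • τ.1 + j • κ, j g) = j • (τ + (κ, 0)) ∈ U` and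
`j • (τ.1 + κ) = (j : ZMod m) * (τ.1 + κ)` is a unit (`ZMod.isUnit_iff_coprime`). Different pairs
`(j, κ)` give different elements (`j` is determined by the height and `j` is a unit in `ZMod m`). So the
number of `γ ∈ U` with unit `γ.1` is at least `c * d` with `c` from `coprime_count m n` and `d` from
`coset_units`, and `|U| = n |K| ≤ (2 * 4^w c) (2^w d)`. -/
theorem units_many (m : ℕ) [NeZero m] (Γ : AddSubgroup (ZMod m × ℤ))
    (hproj : ∀ x : ZMod m, ∃ γ ∈ Γ, γ.1 = x) (N : ℤ) (U : Finset (ZMod m × ℤ))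
    (hU : ∀ γ, γ ∈ U ↔ γ ∈ Γ ∧ 0 < γ.2 ∧ γ.2 ≤ N) (hne : U.Nonempty) :
    U.card ≤ 2 * 8 ^ m.primeFactors.card * (U.filter (fun γ => IsUnit γ.1)).card := by
  have hm : m ≠ 0 := NeZero.ne m
  obtain ⟨γ₀, hγ₀⟩ := hne
  have hγ₀' := (hU γ₀).1 hγ₀
  obtain ⟨g, hg0, hgen⟩ : ∃ g : ℤ, 0 < g ∧ ∀ h : ℤ, (∃ γ ∈ Γ, γ.2 = h) ↔ g ∣ h := by
    obtain ⟨a, ha⟩ := Int.subgroup_cyclic (Γ.map (AddMonoidHom.snd (ZMod m) ℤ))
    have hmem : ∀ h : ℤ, (∃ γ ∈ Γ, γ.2 = h) ↔ a ∣ h := by
      intro h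
      rw [← Int.mem_zmultiples_iff, AddSubgroup.zmultiples_eq_closure, ← ha, AddSubgroup.mem_map]
      rfl
    refine ⟨|a|, ?_, fun h => by rw [hmem h, abs_dvd]⟩
    rw [abs_pos]
    rintro rfl
    have h2 := (hmem γ₀.2).1 ⟨γ₀, hγ₀'.1, rfl⟩
    rw [zero_dvd_iff] at h2
    omega
  obtain ⟨τ, hτ, hτg⟩ := (hgen g).2 dvd_rfl
  obtain ⟨K, hKmem⟩ : ∃ K : AddSubgroup (ZMod m), ∀ x, x ∈ K ↔ (x, (0 : ℤ)) ∈ Γ :=
    ⟨Γ.comap (AddMonoidHom.inl (ZMod m) ℤ), fun x => Iff.rfl⟩
  have hsub : ∀ (γ : ZMod m × ℤ) (j : ℤ), γ ∈ Γ → γ.2 = g * j → γ.1 - j • τ.1 ∈ K := by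
    intro γ j hγ hj
    rw [hKmem]
    have h1 : γ - j • τ ∈ Γ := Γ.sub_mem hγ (Γ.zsmul_mem hτ j)
    have h2 : γ - j • τ = (γ.1 - j • τ.1, 0) := by
      apply Prod.ext
      · rfl
      · change γ.2 - j • τ.2 = 0
        rw [hτg, hj, smul_eq_mul]
        ring
    rwa [h2] at h1
  have hcos : ∀ x : ZMod m, ∃ j : ℤ, x - j • τ.1 ∈ K := by
    intro x
    obtain ⟨γ, hγ, rfl⟩ := hproj x
    obtain ⟨j, hj⟩ := (hgen γ.2).1 ⟨γ, hγ, rfl⟩
    exact ⟨j, hsub γ j hγ hj⟩
  obtain ⟨n, hn⟩ : ∃ n : ℕ, (n : ℤ) = N / g := by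
    refine ⟨(N / g).toNat, Int.toNat_of_nonneg ?_⟩
    exact Int.ediv_nonneg (by omega) hg0.le
  have hle : ∀ j : ℕ, j ≤ n ↔ (j : ℤ) * g ≤ N := by
    intro j
    rw [← Int.le_ediv_iff_mul_le hg0, ← hn]
    exact Int.ofNat_le.symm
  have hn1 : 1 ≤ n := by
    rw [hle]
    have h1 := Int.le_of_dvd hγ₀'.2.1 ((hgen γ₀.2).1 ⟨γ₀, hγ₀'.1, rfl⟩)
    push_cast
    rw [one_mul]
    exact h1.trans hγ₀'.2.2
  -- the upper bound
  have hup : U.card ≤ n * Nat.card K := by
    have h1 : U ⊆ ((Finset.Icc 1 n) ×ˢ (Finset.univ.filter (fun κ : ZMod m => κ ∈ K))).image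
        (fun p => (p.1 • τ.1 + p.2, (p.1 : ℤ) * g)) := by
      intro γ hγ
      obtain ⟨h2, h3, h4⟩ := (hU γ).1 hγ
      obtain ⟨j, hj⟩ := (hgen γ.2).1 ⟨γ, h2, rfl⟩
      have hj0 : 0 < j := by
        rw [hj] at h3
        exact (pos_iff_pos_of_mul_pos h3).1 hg0
      obtain ⟨i, rfl⟩ := Int.eq_ofNat_of_zero_le hj0.le
      rw [Finset.mem_image]
      refine ⟨(i, γ.1 - (i : ℤ) • τ.1), ?_, ?_⟩
      · rw [Finset.mem_product, Finset.mem_Icc, Finset.mem_filter]
        refine ⟨⟨?_, ?_⟩, Finset.mem_univ _, hsub γ _ h2 hj⟩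
        · change 1 ≤ i
          omega
        · change i ≤ n
          rw [hle, mul_comm, ← hj]
          exact h4
      · apply Prod.ext
        · change i • τ.1 + (γ.1 - (i : ℤ) • τ.1) = γ.1
          rw [natCast_zsmul]
          abel
        · change (i : ℤ) * g = γ.2
          rw [hj, mul_comm]
    refine (Finset.card_le_card h1).trans (Finset.card_image_le.trans ?_)
    rw [Finset.card_product, Nat.card_Icc, Nat.add_sub_cancel]
    refine Nat.mul_le_mul le_rfl ?_
    rw [Nat.card_eq_fintype_card, Fintype.card_subtype]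
  -- the lower bound
  have hlow : ((Finset.Icc 1 n).filter (fun j => j.Coprime m)).card *
      ((Finset.univ : Finset (ZMod m)).filter (fun κ => κ ∈ K ∧ IsUnit (τ.1 + κ))).card ≤
      (U.filter (fun γ => IsUnit γ.1)).card := by
    rw [← Finset.card_product]
    refine Finset.card_le_card_of_injOn (fun p => (p.1 • (τ.1 + p.2), (p.1 : ℤ) * g)) ?_ ?_
    · rintro ⟨j, κ⟩ hp
      rw [Finset.mem_coe, Finset.mem_product, Finset.mem_filter, Finset.mem_filter,
        Finset.mem_Icc] at hp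
      obtain ⟨⟨⟨hj1, hj2⟩, hjc⟩, -, hκ, hu⟩ := hp
      dsimp only at hj1 hj2 hjc hκ hu
      rw [Finset.mem_coe, Finset.mem_filter, hU]
      refine ⟨⟨?_, ?_, ?_⟩, ?_⟩
      · have h1 : j • (τ + (κ, (0 : ℤ))) ∈ Γ :=
          Γ.nsmul_mem (Γ.add_mem hτ ((hKmem κ).1 hκ)) j
        have h2 : j • (τ + (κ, (0 : ℤ))) = (j • (τ.1 + κ), (j : ℤ) * g) := by
          apply Prod.ext
          · rfl
          · change j • (τ.2 + 0) = (j : ℤ) * g
            rw [add_zero, hτg, nsmul_eq_mul]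
        rwa [h2] at h1
      · change 0 < (j : ℤ) * g
        have : (0 : ℤ) < j := by exact_mod_cast hj1
        positivity
      · exact (hle j).1 hj2
      · change IsUnit (j • (τ.1 + κ))
        rw [nsmul_eq_mul]
        exact ((ZMod.isUnit_iff_coprime j m).2 hjc).mul hu
    · rintro ⟨j, κ⟩ hp ⟨j', κ'⟩ hp' heq
      rw [Finset.mem_coe, Finset.mem_product, Finset.mem_filter, Finset.mem_filter,
        Finset.mem_Icc] at hp
      obtain ⟨⟨⟨hj1, hj2⟩, hjc⟩, -, hκ, hu⟩ := hp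
      dsimp only at hj1 hj2 hjc hκ hu heq
      rw [Prod.mk.injEq] at heq
      obtain ⟨h1, h2⟩ := heq
      have h3 : j = j' := by
        have := mul_right_cancel₀ hg0.ne' h2
        exact_mod_cast this
      subst h3
      rw [nsmul_eq_mul, nsmul_eq_mul] at h1
      have h4 := ((ZMod.isUnit_iff_coprime j m).2 hjc).mul_left_cancel h1
      rw [add_left_cancel h4]
  have hc := coprime_count m n hm hn1
  have hd := coset_units m K τ.1 hcos
  set c := ((Finset.Icc 1 n).filter (fun j => j.Coprime m)).card with hcdef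
  set d := ((Finset.univ : Finset (ZMod m)).filter (fun κ => κ ∈ K ∧ IsUnit (τ.1 + κ))).card
    with hddef
  calc U.card ≤ n * Nat.card K := hup
    _ ≤ (2 * 4 ^ m.primeFactors.card * c) * (2 ^ m.primeFactors.card * d) :=
        Nat.mul_le_mul hc hd
    _ = 2 * 8 ^ m.primeFactors.card * (c * d) := by
        rw [show (8 : ℕ) = 4 * 2 by norm_num, mul_pow]
        ring
    _ ≤ 2 * 8 ^ m.primeFactors.card * (U.filter (fun γ => IsUnit γ.1)).card :=
        Nat.mul_le_mul le_rfl hlow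

end Pool.Agent.Lib.MP_d75b76_nt
end

section

/-!
# Fourier coefficients of a subset of `ZMod m`
-/

set_option autoImplicit false
set_option linter.unusedSectionVars false

open Finset Pointwise

namespace Pool.Agent.Lib.MP_d75b76_nt

open RG (stb mem_stb)
open AM (sf off mem_sf mem_off card_sf zero_mem_sf)
open Pool.Agent.Lib.MP_d3cc86_co (lam Asym symz)

/-- the Fourier coefficient of the set `F` at the frequency `r` -/
noncomputable def fc {m : ℕ} [NeZero m] (F : Finset (ZMod m)) (r : ZMod m) : ℂ :=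
  ∑ y ∈ F, ZMod.stdAddChar (r * y)

/-- `‖fc F r‖² = ∑_{y, y' ∈ F} stdAddChar (r * (y - y'))` (`starRingEnd`/`conj` of `stdAddChar z` is
`stdAddChar (-z)`: `AddChar.map_neg_eq_conj`; `Complex.mul_conj`, `Complex.normSq_eq_norm_sq`). Sum over
`r`: orthogonality `AddChar.sum_mulShift` with `ZMod.isPrimitive_stdAddChar`:
`∑_r stdAddChar (r * z) = m` if `z = 0` and `0` otherwise. So the sum is `m |{(y, y') : y = y'}|`. -/
theorem parseval {m : ℕ} [NeZero m] (F : Finset (ZMod m)) :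
    ∑ r : ZMod m, ‖fc F r‖ ^ 2 = (m : ℝ) * F.card := by
  classical
  have hsq : ∀ r : ZMod m, ((‖fc F r‖ ^ 2 : ℝ) : ℂ) =
      ∑ y ∈ F, ∑ y' ∈ F, ZMod.stdAddChar (r * (y - y')) := by
    intro r
    have h1 : ((‖fc F r‖ ^ 2 : ℝ) : ℂ) = fc F r * (starRingEnd ℂ) (fc F r) := by
      rw [Complex.mul_conj, Complex.normSq_eq_norm_sq]
    rw [h1]
    unfold fc
    rw [map_sum, Finset.sum_mul_sum]
    refine Finset.sum_congr rfl fun y _ => Finset.sum_congr rfl fun y' _ => ?_
    rw [← AddChar.map_neg_eq_conj, ← AddChar.map_add_eq_mul]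
    congr 1
    ring
  have hmain : ((∑ r : ZMod m, ‖fc F r‖ ^ 2 : ℝ) : ℂ) = ((m : ℝ) * F.card : ℝ) := by
    rw [Complex.ofReal_sum, Finset.sum_congr rfl (fun r _ => hsq r), Finset.sum_comm]
    have h2 : ∀ y ∈ F, ∑ r : ZMod m, ∑ y' ∈ F, (ZMod.stdAddChar (r * (y - y')) : ℂ) = (m : ℂ) := by
      intro y hy
      rw [Finset.sum_comm]
      have h3 : ∀ y' ∈ F, ∑ r : ZMod m, (ZMod.stdAddChar (r * (y - y')) : ℂ) =
          if y' = y then (m : ℂ) else 0 := by
        intro y' _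
        rw [AddChar.sum_mulShift (y - y') (ZMod.isPrimitive_stdAddChar m), ZMod.card]
        by_cases h : y' = y
        · subst h; simp
        · have h4 : y - y' ≠ 0 := sub_ne_zero.2 (Ne.symm h)
          rw [if_neg h, if_neg h4]
          simp
      rw [Finset.sum_congr rfl h3, Finset.sum_ite_eq' F y (fun _ => (m : ℂ)), if_pos hy]
    rw [Finset.sum_congr rfl h2, Finset.sum_const, nsmul_eq_mul]
    push_cast
    ring
  exact Complex.ofReal_injective hmain

/-- `fc F r = |F|` for `r = 0`. -/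
theorem fc_zero {m : ℕ} [NeZero m] (F : Finset (ZMod m)) : fc F 0 = F.card := by
  unfold fc
  simp

/-- If `y` stabilizes `F` then `fc F r = stdAddChar (r * y) * fc F r` (the map `x ↦ x + y` is a bijection of
`F`), so `stdAddChar (r * y) = 1` and `r * y = 0` (`ZMod.injective_stdAddChar`). -/
theorem fc_stb {m : ℕ} [NeZero m] (F : Finset (ZMod m)) (r : ZMod m) (hr : fc F r ≠ 0)
    (y : ZMod m) (hy : y ∈ stb F) : r * y = 0 := by
  have hst := (mem_stb F y).1 hy
  have h1 : fc F r = ZMod.stdAddChar (r * y) * fc F r := by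
    unfold fc
    rw [Finset.mul_sum]
    have h2 : ∀ x ∈ F, (ZMod.stdAddChar (r * y) : ℂ) * ZMod.stdAddChar (r * x) =
        ZMod.stdAddChar (r * (x + y)) := by
      intro x _
      rw [← AddChar.map_add_eq_mul]
      congr 1
      ring
    rw [Finset.sum_congr rfl h2]
    refine (Finset.sum_bij (fun x _ => x + y) ?_ ?_ ?_ ?_).symm
    · intro x hx
      exact (hst x).2 hx
    · intro a _ b _ hab
      exact add_right_cancel hab
    · intro b hb
      refine ⟨b - y, ?_, by ring⟩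
      have := hst (b - y)
      rw [sub_add_cancel] at this
      exact this.1 hb
    · intro x _
      rfl
  have h2 : (ZMod.stdAddChar (r * y) : ℂ) = 1 := by
    have h3 : (ZMod.stdAddChar (r * y) : ℂ) * fc F r = 1 * fc F r := by rw [one_mul]; exact h1.symm
    exact mul_right_cancel₀ hr h3
  apply ZMod.injective_stdAddChar
  rw [h2, AddChar.map_zero_eq_one]

end Pool.Agent.Lib.MP_d75b76_nt
end

section

/-!
# Kneser's theorem: a set with small doubling lies in the stabilizer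
-/

set_option autoImplicit false
set_option linter.unusedSectionVars false

open Finset Pointwise

namespace Pool.Agent.Lib.MP_d75b76_nt

open RG (stb mem_stb)
open AM (sf off mem_sf mem_off card_sf zero_mem_sf)
open Pool.Agent.Lib.MP_d3cc86_co (lam Asym symz)

variable {Q : Type} [AddCommGroup Q] [Fintype Q]

/-- Let `F = stb (X + X)`. `AM.kneser_stb X X`: `2 |X + sf F| ≤ |X + X| + |F|`. `0 ∈ X`, so
`sf F ⊆ X + sf F` and `X ⊆ X + sf F`.
Case A: `X` is not contained in `F`. Then `X + sf F` contains `sf F` and a disjoint coset `x + F`, so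
`2 |F| ≤ |X + sf F|`, `3 |X| ≤ 3 |X + sf F| ≤ 2 (2 |X + sf F| - |F|) ≤ 2 |X + X|`.
Case B: `X ⊆ F`; `|F| ≤ |X + X|`: `0 ∈ X + X` and `F` stabilizes `X + X`, so `sf F ⊆ X + X`. -/
theorem kneser_dich [DecidableEq Q] (X : Finset Q) (h0 : (0 : Q) ∈ X) :
    3 * X.card ≤ 2 * (X + X).card ∨
      ∃ F : AddSubgroup Q, (∀ x ∈ X, x ∈ F) ∧ Nat.card F ≤ (X + X).card := by
  classical
  have hX : X.Nonempty := ⟨0, h0⟩
  have hk := AM.kneser_stb X X hX hX
  set F := stb (X + X) with hF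
  have h00 : (0 : Q) ∈ X + X := Finset.mem_add.2 ⟨0, h0, 0, h0, add_zero 0⟩
  by_cases hc : ∀ x ∈ X, x ∈ F
  · right
    refine ⟨F, hc, ?_⟩
    rw [← card_sf F]
    apply Finset.card_le_card
    intro y hy
    have h1 : y ∈ (X + X) + sf F := Finset.mem_add.2 ⟨0, h00, y, hy, zero_add y⟩
    rw [hF, AM.add_sf_stb] at h1
    exact h1
  · left
    push Not at hc
    obtain ⟨x, hx, hxF⟩ := hc
    have h1 : X.card ≤ (X + sf F).card := by
      apply Finset.card_le_card
      intro y hy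
      exact Finset.mem_add.2 ⟨y, hy, 0, zero_mem_sf F, add_zero y⟩
    have h2 : Nat.card F + Nat.card F ≤ (X + sf F).card := by
      have h3 : Disjoint (sf F) ((sf F).image (fun t => x + t)) := by
        rw [Finset.disjoint_left]
        intro y hy hy2
        obtain ⟨t, ht, rfl⟩ := Finset.mem_image.1 hy2
        rw [mem_sf] at hy ht
        exact hxF ((F.add_mem_cancel_right ht).1 hy)
      have h4 : ((sf F).image (fun t => x + t)).card = (sf F).card :=
        Finset.card_image_of_injective _ (add_right_injective x)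
      have h5 : sf F ∪ (sf F).image (fun t => x + t) ⊆ X + sf F := by
        intro y hy
        rcases Finset.mem_union.1 hy with h6 | h6
        · exact Finset.mem_add.2 ⟨0, h0, y, h6, zero_add y⟩
        · obtain ⟨t, ht, rfl⟩ := Finset.mem_image.1 h6
          exact Finset.mem_add.2 ⟨x, hx, t, ht, rfl⟩
      have h6 := Finset.card_le_card h5
      rw [Finset.card_union_of_disjoint h3, h4, card_sf] at h6
      exact h6
    omega

end Pool.Agent.Lib.MP_d75b76_nt
end

section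

/-!
# Fourier formula for `lam`
-/

set_option autoImplicit false
set_option linter.unusedSectionVars false

open Finset Pointwise

namespace Pool.Agent.Lib.MP_d75b76_nt

open RG (stb mem_stb)
open AM (sf off mem_sf mem_off card_sf zero_mem_sf)
open Pool.Agent.Lib.MP_d3cc86_co (lam Asym symz)

open Pool.Agent.Lib.MP_d3cc86_co (lam_add_inter)

private lemma normSq_fc_mul {m : ℕ} [NeZero m] (F : Finset (ZMod m)) (r x : ZMod m) :
    ((‖fc F r‖ ^ 2 : ℝ) : ℂ) * ZMod.stdAddChar (r * x) =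
      ∑ y ∈ F, ∑ z ∈ F, ZMod.stdAddChar (r * (y - z + x)) := by
  have h1 : ((‖fc F r‖ ^ 2 : ℝ) : ℂ) = fc F r * (starRingEnd ℂ) (fc F r) := by
    rw [Complex.mul_conj, Complex.normSq_eq_norm_sq]
  rw [h1]
  unfold fc
  rw [map_sum, Finset.sum_mul_sum, Finset.sum_mul]
  refine Finset.sum_congr rfl fun y _ => ?_
  rw [Finset.sum_mul]
  refine Finset.sum_congr rfl fun z _ => ?_
  have h2 : (starRingEnd ℂ) ((ZMod.stdAddChar (r * z) : ℂ)) = ZMod.stdAddChar (-(r * z)) := by
    rw [AddChar.map_neg_eq_conj]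
  rw [h2, ← AddChar.map_add_eq_mul, ← AddChar.map_add_eq_mul]
  congr 1
  ring

private lemma sum_char {m : ℕ} [NeZero m] (z : ZMod m) :
    ∑ r : ZMod m, (ZMod.stdAddChar (r * z) : ℂ) = if z = 0 then (m : ℂ) else 0 := by
  have h := AddChar.sum_mulShift (R := ZMod m) (R' := ℂ) z (ZMod.isPrimitive_stdAddChar m)
  rw [h, ZMod.card]
  split_ifs <;> simp

private lemma sum_normSq_mul {m : ℕ} [NeZero m] (F : Finset (ZMod m)) (x : ZMod m) :
    ∑ r : ZMod m, ((‖fc F r‖ ^ 2 : ℝ) : ℂ) * ZMod.stdAddChar (r * x) =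
      (m : ℂ) * ((x +ᵥ F) ∩ F).card := by
  rw [Finset.sum_congr rfl fun r _ => normSq_fc_mul F r x]
  rw [Finset.sum_comm]
  have h1 : ∀ y ∈ F, ∑ r : ZMod m, ∑ z ∈ F, (ZMod.stdAddChar (r * (y - z + x)) : ℂ) =
      if x + y ∈ F then (m : ℂ) else 0 := by
    intro y _
    rw [Finset.sum_comm]
    rw [Finset.sum_congr rfl fun z _ => sum_char (y - z + x)]
    have h2 : ∀ z ∈ F, (if y - z + x = 0 then (m : ℂ) else 0) =
        if x + y = z then (m : ℂ) else 0 := by
      intro z _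
      have h3 : y - z + x = 0 ↔ x + y = z := by
        constructor
        · intro h
          have : x + y - z = 0 := by rw [← h]; ring
          exact sub_eq_zero.mp this
        · intro h
          rw [← h]; ring
      simp only [h3]
    rw [Finset.sum_congr rfl h2, Finset.sum_ite_eq]
  rw [Finset.sum_congr rfl h1, ← Finset.sum_filter, Finset.sum_const, nsmul_eq_mul, mul_comm]
  congr 2
  refine Finset.card_bij (fun y _ => x + y) ?_ ?_ ?_
  · intro y hy
    rw [Finset.mem_filter] at hy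
    rw [Finset.mem_inter]
    exact ⟨Finset.mem_vadd_finset.mpr ⟨y, hy.1, rfl⟩, hy.2⟩
  · intro a _ b _ h
    exact add_left_cancel h
  · intro b hb
    rw [Finset.mem_inter] at hb
    obtain ⟨y, hy, hyb⟩ := Finset.mem_vadd_finset.mp hb.1
    have hyb' : x + y = b := hyb
    refine ⟨y, ?_, hyb'⟩
    rw [Finset.mem_filter]
    exact ⟨hy, by rw [hyb']; exact hb.2⟩

/-- `‖fc F r‖² Re χ(x) = Re (∑_{y, y' ∈ F} χ(y - y' + x))`, `χ(y) = ZMod.stdAddChar (r * y)`
(`starRingEnd`/`conj` of `stdAddChar z` is `stdAddChar (-z)`: `AddChar.map_neg_eq_conj`, and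
`Complex.mul_conj`, `Complex.normSq_eq_norm_sq`). Sum over `r`: orthogonality
`AddChar.sum_mulShift` with `ZMod.isPrimitive_stdAddChar`: `∑_r stdAddChar (r * z) = m` if `z = 0` and
`0` otherwise. So `∑_r ‖fc F r‖² Re χ(x) = m |{(y, y') ∈ F × F : y + x = y'}| = m |(x +ᵥ F) ∩ F| =
m (|F| - lam F x)` (`lam_add_inter`); and `parseval`. -/
theorem parseval_lam {m : ℕ} [NeZero m] (F : Finset (ZMod m)) (x : ZMod m) :
    ∑ r : ZMod m, ‖fc F r‖ ^ 2 * (1 - (ZMod.stdAddChar (r * x) : ℂ).re) =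
      (m : ℝ) * lam F x := by
  have h1 := sum_normSq_mul F x
  have h2 : ∑ r : ZMod m, ‖fc F r‖ ^ 2 * (ZMod.stdAddChar (r * x) : ℂ).re =
      (m : ℝ) * ((x +ᵥ F) ∩ F).card := by
    have h3 := congrArg Complex.re h1
    rw [Complex.re_sum] at h3
    rw [Finset.sum_congr rfl fun r _ => (Complex.re_ofReal_mul (‖fc F r‖ ^ 2)
      (ZMod.stdAddChar (r * x))).symm, h3]
    simp [← Complex.ofReal_natCast, ← Complex.ofReal_mul]
  have h4 := parseval F
  have h5 : (lam F x : ℝ) + (((x +ᵥ F) ∩ F).card : ℝ) = (F.card : ℝ) := by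
    exact_mod_cast lam_add_inter F x
  have h6 : ∑ r : ZMod m, ‖fc F r‖ ^ 2 * (1 - (ZMod.stdAddChar (r * x) : ℂ).re) =
      ∑ r : ZMod m, ‖fc F r‖ ^ 2 -
        ∑ r : ZMod m, ‖fc F r‖ ^ 2 * (ZMod.stdAddChar (r * x) : ℂ).re := by
    rw [← Finset.sum_sub_distrib]
    refine Finset.sum_congr rfl fun r _ => ?_
    ring
  rw [h6, h2, h4, ← h5]
  ring

end Pool.Agent.Lib.MP_d75b76_nt
end

section

/-!
# A theorem of Freiman type
-/

set_option autoImplicit false
set_option linter.unusedSectionVars false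

open Finset Pointwise

namespace Pool.Agent.Lib.MP_d75b76_nt

open RG (stb mem_stb)
open AM (sf off mem_sf mem_off card_sf zero_mem_sf)
open Pool.Agent.Lib.MP_d3cc86_co (lam Asym symz)

/-- Let `u = 4 • s`, `P0 = (2 • s) +ᵥ P` (or `P.image (· + 2 • s)`), `|P0| = |P|`, `|P0 + P0| = |P + P|`,
`0, u, s + 2 • s ∈ P0`, heights (second coordinates) in `[0, u.2]`, and the number of elements of `P0` with
height `u.2` is `τ`, the number of elements of `P` with height `2 s.2`. Let
`Q = (ZMod m × ℤ) ⧸ zmultiples u` (finite: `finite_quot`; `letI := Fintype.ofFinite Q`, `classical`),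
`X` the image of `P0` in `Q`, so `X + X` is the image of `P0 + P0`; `|X + X| + |P| ≤ |P + P|` (`fib`) and
`|P| ≤ |X| + τ` (`inj_quot`). Apply `kneser_dich` to `X`.

Case A: `3 |X| ≤ 2 |X + X|`: `3 (|P| - τ) ≤ 2 (|P + P| - |P|)`, the first alternative.

Case B: `X ⊆ F`, `|F| ≤ |X + X|`. Let `Γ` be the preimage of `F` (`F.comap (QuotientAddGroup.mk' _)`).
`P0 ⊆ Γ`, in particular `2 • s = 0 + 2 • s ∈ Γ` (`0 ∈ P`), so `P ⊆ Γ` and `s ∈ Γ`. Let `U` be as in the
second alternative. The map `U × {0, 1, 2, 3} → F`, `(γ, j) ↦ mk (γ + j • s)` is injective: if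
`γ + j s - γ' - j' s = i • u` then `(γ.2 - γ'.2) + (j - j') s.2 = 4 i s.2`, `|γ.2 - γ'.2| < s.2`,
`|j - j'| ≤ 3` give `i = 0`, then `j = j'`, `γ = γ'`. So `4 |U| ≤ |F|`, and
`4 |U| + |P| ≤ |X + X| + |P| ≤ |P + P|`. -/
theorem freiman {m : ℕ} [NeZero m] (P : Finset (ZMod m × ℤ)) (s : ZMod m × ℤ) (hs : 0 < s.2)
    (h0 : (0 : ZMod m × ℤ) ∈ P) (hs1 : s ∈ P) (h2 : 2 • s ∈ P) (h2' : -(2 • s) ∈ P)
    (hht : ∀ y ∈ P, -(2 * s.2) ≤ y.2 ∧ y.2 ≤ 2 * s.2) :
    5 * P.card ≤ 2 * (P + P).card + 3 * (P.filter (fun y => y.2 = 2 * s.2)).card ∨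
      ∃ Γ : AddSubgroup (ZMod m × ℤ), (∀ y ∈ P, y ∈ Γ) ∧
        ∀ U : Finset (ZMod m × ℤ), (∀ γ ∈ U, γ ∈ Γ ∧ 0 < γ.2 ∧ γ.2 ≤ s.2) →
          4 * U.card + P.card ≤ (P + P).card := by
  classical
  set u : ZMod m × ℤ := 4 • s with hudef
  have hu2 : u.2 = 4 * s.2 := by
    rw [hudef, Prod.smul_snd, nsmul_eq_mul]
    norm_num
  have hu : 0 < u.2 := by omega
  have h2s2 : (2 • s).2 = 2 * s.2 := by
    rw [Prod.smul_snd, nsmul_eq_mul]
    norm_num
  have hus : (2 • s : ZMod m × ℤ) + 2 • s = u := by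
    rw [hudef, ← add_nsmul]
  have hfin := finite_quot u hu
  let _ : Fintype ((ZMod m × ℤ) ⧸ AddSubgroup.zmultiples u) := Fintype.ofFinite _
  set P0 : Finset (ZMod m × ℤ) := P.image (fun y => y + 2 • s) with hP0
  have hinj : Function.Injective (fun y : ZMod m × ℤ => y + 2 • s) := add_left_injective _
  have hc0 : P0.card = P.card := Finset.card_image_of_injective P hinj
  have h00 : (0 : ZMod m × ℤ) ∈ P0 :=
    Finset.mem_image.2 ⟨_, h2', neg_add_cancel _⟩
  have hu0 : u ∈ P0 := Finset.mem_image.2 ⟨_, h2, hus⟩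
  have hsum : P0 + P0 = (P + P).image (fun y => y + u) := by
    ext z
    constructor
    · intro hz
      obtain ⟨a, ha, b, hb, rfl⟩ := Finset.mem_add.1 hz
      obtain ⟨a', ha', rfl⟩ := Finset.mem_image.1 ha
      obtain ⟨b', hb', rfl⟩ := Finset.mem_image.1 hb
      refine Finset.mem_image.2 ⟨a' + b', Finset.add_mem_add ha' hb', ?_⟩
      rw [← hus]
      abel
    · intro hz
      obtain ⟨y, hy, rfl⟩ := Finset.mem_image.1 hz
      obtain ⟨a, ha, b, hb, rfl⟩ := Finset.mem_add.1 hy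
      refine Finset.mem_add.2 ⟨a + 2 • s, Finset.mem_image_of_mem _ ha, b + 2 • s,
        Finset.mem_image_of_mem _ hb, ?_⟩
      rw [← hus]
      abel
  have hc1 : (P0 + P0).card = (P + P).card := by
    rw [hsum]
    exact Finset.card_image_of_injective _ (add_left_injective u)
  have hhts : ∀ y ∈ P0, 0 ≤ y.2 ∧ y.2 ≤ u.2 := by
    intro y hy
    obtain ⟨y', hy', rfl⟩ := Finset.mem_image.1 hy
    have h1 := hht y' hy'
    have h3 : (y' + 2 • s).2 = y'.2 + 2 * s.2 := by rw [Prod.snd_add, h2s2]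
    show 0 ≤ (y' + 2 • s).2 ∧ (y' + 2 • s).2 ≤ u.2
    rw [h3, hu2]
    constructor <;> omega
  have htau : (P0.filter (fun y => y.2 = u.2)).card =
      (P.filter (fun y => y.2 = 2 * s.2)).card := by
    rw [hP0, Finset.filter_image, Finset.card_image_of_injective _ hinj]
    congr 1
    apply Finset.filter_congr
    intro y _
    have h3 : (y + 2 • s).2 = y.2 + 2 * s.2 := by rw [Prod.snd_add, h2s2]
    show (y + 2 • s).2 = u.2 ↔ y.2 = 2 * s.2
    rw [h3, hu2]
    constructor <;> intro h <;> omega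
  have hfib := fib u hu P0 h00 hu0
  have hinq := inj_quot u hu P0 hhts
  set f := QuotientAddGroup.mk' (AddSubgroup.zmultiples u) with hf
  set X := P0.image f with hX
  have hXX : X + X = (P0 + P0).image f := (Finset.image_add f).symm
  have hfib' : (X + X).card + P.card ≤ (P + P).card := by
    rw [hXX, ← hc1, ← hc0]
    exact hfib
  have hinq' : P.card ≤ X.card + (P.filter (fun y => y.2 = 2 * s.2)).card := by
    rw [← htau, ← hc0]
    exact hinq
  have h0X : (0 : (ZMod m × ℤ) ⧸ AddSubgroup.zmultiples u) ∈ X :=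
    Finset.mem_image.2 ⟨0, h00, map_zero f⟩
  rcases kneser_dich X h0X with hA | ⟨F, hXF, hF⟩
  · left
    omega
  · right
    have hP0F : ∀ y ∈ P0, f y ∈ F := fun y hy => hXF _ (Finset.mem_image_of_mem _ hy)
    have h2sF : f (2 • s) ∈ F := by
      refine hP0F _ (Finset.mem_image.2 ⟨0, h0, ?_⟩)
      exact zero_add _
    have hPF : ∀ y ∈ P, f y ∈ F := by
      intro y hy
      have h1 : f (y + 2 • s) ∈ F := hP0F _ (Finset.mem_image_of_mem _ hy)
      rw [map_add] at h1
      exact (F.add_mem_cancel_right h2sF).1 h1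
    have hsF : f s ∈ F := hPF s hs1
    refine ⟨F.comap f, fun y hy => hPF y hy, ?_⟩
    intro U hU
    have hVF : (U ×ˢ Finset.range 4).image (fun p => f (p.1 + p.2 • s)) ⊆ sf F := by
      intro z hz
      obtain ⟨⟨γ, j⟩, hp, rfl⟩ := Finset.mem_image.1 hz
      have hγ := (hU γ (Finset.mem_product.1 hp).1).1
      rw [mem_sf, map_add, map_nsmul]
      exact F.add_mem hγ (F.nsmul_mem hsF j)
    have hVc : ((U ×ˢ Finset.range 4).image (fun p => f (p.1 + p.2 • s))).card = U.card * 4 := by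
      rw [Finset.card_image_of_injOn, Finset.card_product, Finset.card_range]
      rintro ⟨γ, j⟩ hp ⟨γ', j'⟩ hp' hpp
      have hp1 := Finset.mem_product.1 (Finset.mem_coe.1 hp)
      have hp1' := Finset.mem_product.1 (Finset.mem_coe.1 hp')
      have hγ := hU γ hp1.1
      have hγ' := hU γ' hp1'.1
      have hj : j < 4 := Finset.mem_range.1 hp1.2
      have hj' : j' < 4 := Finset.mem_range.1 hp1'.2
      have hpp' : (QuotientAddGroup.mk (γ + j • s) : (ZMod m × ℤ) ⧸ AddSubgroup.zmultiples u) =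
        QuotientAddGroup.mk (γ' + j' • s) := hpp
      rw [QuotientAddGroup.eq, AddSubgroup.mem_zmultiples_iff] at hpp'
      obtain ⟨i, hi⟩ := hpp'
      have hi2 : i * (4 * s.2) = -(γ.2 + (j : ℤ) * s.2) + (γ'.2 + (j' : ℤ) * s.2) := by
        have := congrArg Prod.snd hi
        rw [Prod.smul_snd, smul_eq_mul, hu2] at this
        simpa using this
      have hi2' : (4 * i + (j : ℤ) - (j' : ℤ)) * s.2 = γ'.2 - γ.2 := by
        linear_combination hi2
      have hjj : 4 * i + (j : ℤ) - (j' : ℤ) = 0 := by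
        have h5 : -s.2 < γ'.2 - γ.2 := by omega
        have h6 : γ'.2 - γ.2 < s.2 := by omega
        rw [← hi2'] at h5 h6
        have ha : 4 * i + (j : ℤ) - (j' : ℤ) < 1 := by
          by_contra hcon
          push Not at hcon
          nlinarith
        have hb : -1 < 4 * i + (j : ℤ) - (j' : ℤ) := by
          by_contra hcon
          push Not at hcon
          nlinarith
        omega
      have hi0 : i = 0 := by omega
      have hjj' : j = j' := by omega
      subst hjj'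
      rw [hi0, zero_smul] at hi
      have h7 : γ + j • s = γ' + j • s := by
        have h8 : (γ + j • s) + 0 = (γ + j • s) + (-(γ + j • s) + (γ' + j • s)) := by rw [hi]
        rw [add_zero, add_neg_cancel_left] at h8
        exact h8
      have h9 : γ = γ' := add_right_cancel h7
      rw [h9]
    have h10 := Finset.card_le_card hVF
    rw [hVc, card_sf] at h10
    omega

end Pool.Agent.Lib.MP_d75b76_nt
end

section

/-!
# A frequency which is almost constant on `V`
-/

set_option autoImplicit false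
set_option linter.unusedSectionVars false

open Finset Pointwise

namespace Pool.Agent.Lib.MP_d75b76_nt

open RG (stb mem_stb)
open AM (sf off mem_sf mem_off card_sf zero_mem_sf)
open Pool.Agent.Lib.MP_d3cc86_co (lam Asym symz)

/-- Suppose that for every `r ≠ 0` with `fc F r ≠ 0` (so `r * y = 0` on `stb F`, `fc_stb`)
`4 T |V| < |F| D r`, `D r = ∑_{x ∈ V} (1 - Re stdAddChar (r * x))`. Then
`m T |V| |F| ≥ |F| m ∑_{x ∈ V} lam F x = |F| ∑_r ‖fc F r‖² D r` (`parseval_lam`, `Finset.sum_comm`; all terms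
are `≥ 0`: `1 - Re stdAddChar z ≥ 0`) and this is
`> 4 T |V| ∑_{r ≠ 0} ‖fc F r‖² = 4 T |V| (m |F| - |F|²) ≥ T |V| m |F|` (strictly, since
`m |F| - |F|² > 0`, so some `r ≠ 0` has `fc F r ≠ 0`; `parseval`, `fc_zero`, `h34`), contradiction.
So there is `r ≠ 0`, `fc F r ≠ 0`, with `|F| D r ≤ 4 T |V|`. Each `x` with `m ≤ 20 |(r x).valMinAbs|`
contributes at least `1 / 50` to `D r` (`one_sub_re`, the other terms are `≥ 0`), so the number of these
`x` is at most `50 D r`. -/
theorem freq_set {m : ℕ} [NeZero m] (F V : Finset (ZMod m)) (T : ℕ) (hF : F.Nonempty)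
    (h34 : 4 * F.card ≤ 3 * m) (hl : ∀ x ∈ V, lam F x ≤ T) :
    ∃ r : ZMod m, r ≠ 0 ∧ (∀ y ∈ stb F, r * y = 0) ∧
      (V.filter (fun x => (m : ℤ) ≤ 20 * |(r * x).valMinAbs|)).card * F.card ≤
        200 * T * V.card := by
  classical
  have hre : ∀ z : ZMod m, 0 ≤ 1 - (ZMod.stdAddChar z : ℂ).re := by
    intro z
    have h1 : (ZMod.stdAddChar z : ℂ).re ≤ ‖(ZMod.stdAddChar z : ℂ)‖ := Complex.re_le_norm _
    rw [AddChar.norm_apply] at h1
    linarith
  set D : ZMod m → ℝ := fun r => ∑ x ∈ V, (1 - (ZMod.stdAddChar (r * x) : ℂ).re) with hD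
  have hm : (0 : ℝ) < m := by exact_mod_cast Nat.pos_of_ne_zero (NeZero.ne m)
  have hFc : (0 : ℝ) < F.card := by exact_mod_cast hF.card_pos
  have h34' : 4 * (F.card : ℝ) ≤ 3 * m := by exact_mod_cast h34
  have hV0 : (0 : ℝ) ≤ V.card := Nat.cast_nonneg _
  have hT0 : (0 : ℝ) ≤ T := Nat.cast_nonneg _
  -- the sum of all the squares except the first
  have hsum : ∑ r ∈ Finset.univ.erase (0 : ZMod m), ‖fc F r‖ ^ 2 =
      (m : ℝ) * F.card - (F.card : ℝ) ^ 2 := by
    have h1 := parseval F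
    rw [← Finset.add_sum_erase _ _ (Finset.mem_univ (0 : ZMod m)), fc_zero,
      Complex.norm_natCast] at h1
    linarith
  have hpos : 0 < ∑ r ∈ Finset.univ.erase (0 : ZMod m), ‖fc F r‖ ^ 2 := by
    rw [hsum]
    nlinarith
  have hDsum : ∑ r ∈ Finset.univ.erase (0 : ZMod m), ‖fc F r‖ ^ 2 * D r ≤
      (m : ℝ) * T * V.card := by
    have h1 : ∑ r : ZMod m, ‖fc F r‖ ^ 2 * D r = ∑ x ∈ V, (m : ℝ) * lam F x := by
      rw [Finset.sum_congr rfl fun r _ => Finset.mul_sum _ _ _, Finset.sum_comm]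
      exact Finset.sum_congr rfl fun x _ => parseval_lam F x
    have h2 : ∑ r ∈ Finset.univ.erase (0 : ZMod m), ‖fc F r‖ ^ 2 * D r ≤
        ∑ r : ZMod m, ‖fc F r‖ ^ 2 * D r := by
      refine Finset.sum_le_sum_of_subset_of_nonneg (Finset.erase_subset _ _) fun r _ _ => ?_
      exact mul_nonneg (sq_nonneg _) (Finset.sum_nonneg fun x _ => hre _)
    have h3 : ∑ x ∈ V, (m : ℝ) * lam F x ≤ ∑ _x ∈ V, (m : ℝ) * T := by
      refine Finset.sum_le_sum fun x hx => mul_le_mul_of_nonneg_left ?_ hm.le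
      exact_mod_cast hl x hx
    rw [Finset.sum_const, nsmul_eq_mul] at h3
    calc _ ≤ _ := h2
      _ = _ := h1
      _ ≤ _ := h3
      _ = _ := by ring
  have hex : ∃ r : ZMod m, r ≠ 0 ∧ fc F r ≠ 0 ∧ (F.card : ℝ) * D r ≤ 4 * T * V.card := by
    by_contra hcon
    push Not at hcon
    have h1 : ∑ r ∈ Finset.univ.erase (0 : ZMod m), ‖fc F r‖ ^ 2 * (4 * T * V.card) <
        ∑ r ∈ Finset.univ.erase (0 : ZMod m), ‖fc F r‖ ^ 2 * ((F.card : ℝ) * D r) := by
      refine Finset.sum_lt_sum ?_ ?_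
      · intro r hr
        by_cases h0 : fc F r = 0
        · rw [h0]; simp
        · exact mul_le_mul_of_nonneg_left (hcon r (Finset.ne_of_mem_erase hr) h0).le
            (sq_nonneg _)
      · obtain ⟨r, hr, hr0⟩ := Finset.exists_ne_zero_of_sum_ne_zero hpos.ne'
        have h0 : fc F r ≠ 0 := by
          intro h0
          rw [h0] at hr0
          simp at hr0
        refine ⟨r, hr, mul_lt_mul_of_pos_left (hcon r (Finset.ne_of_mem_erase hr) h0) ?_⟩
        exact lt_of_le_of_ne (sq_nonneg _) (Ne.symm hr0)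
    rw [← Finset.sum_mul, hsum] at h1
    have h2 : ∑ r ∈ Finset.univ.erase (0 : ZMod m), ‖fc F r‖ ^ 2 * ((F.card : ℝ) * D r) =
        (F.card : ℝ) * ∑ r ∈ Finset.univ.erase (0 : ZMod m), ‖fc F r‖ ^ 2 * D r := by
      rw [Finset.mul_sum]
      exact Finset.sum_congr rfl fun r _ => by ring
    rw [h2] at h1
    have h3 : (F.card : ℝ) * ∑ r ∈ Finset.univ.erase (0 : ZMod m), ‖fc F r‖ ^ 2 * D r ≤
        (F.card : ℝ) * ((m : ℝ) * T * V.card) := mul_le_mul_of_nonneg_left hDsum hFc.le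
    have h4 : (F.card : ℝ) * ((m : ℝ) * T * V.card) ≤
        ((m : ℝ) * F.card - (F.card : ℝ) ^ 2) * (4 * T * V.card) := by
      have h5 : 0 ≤ (T : ℝ) * V.card * F.card := by positivity
      nlinarith
    linarith
  obtain ⟨r, hr0, hr, hrD⟩ := hex
  refine ⟨r, hr0, fun y hy => fc_stb F r hr y hy, ?_⟩
  have h1 : ((V.filter (fun x => (m : ℤ) ≤ 20 * |(r * x).valMinAbs|)).card : ℝ) * (1 / 50) ≤
      D r := by
    have h2 : ∑ x ∈ V.filter (fun x => (m : ℤ) ≤ 20 * |(r * x).valMinAbs|), ((1 : ℝ) / 50) ≤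
        ∑ x ∈ V.filter (fun x => (m : ℤ) ≤ 20 * |(r * x).valMinAbs|),
          (1 - (ZMod.stdAddChar (r * x) : ℂ).re) :=
      Finset.sum_le_sum fun x hx => one_sub_re _ (Finset.mem_filter.mp hx).2
    rw [Finset.sum_const, nsmul_eq_mul] at h2
    refine h2.trans ?_
    exact Finset.sum_le_sum_of_subset_of_nonneg (Finset.filter_subset _ _) fun x _ _ => hre _
  have h2 : ((V.filter (fun x => (m : ℤ) ≤ 20 * |(r * x).valMinAbs|)).card : ℝ) * F.card ≤
      200 * T * V.card := by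
    nlinarith
  exact_mod_cast h2

end Pool.Agent.Lib.MP_d75b76_nt
end
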