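import Pool.Agent.Lib.MP_d75b76_nt.Defs

section

/-!
# Small moduli with a maximum zero-sum-free set which avoids units
-/

set_option autoImplicit false
set_option linter.unusedSectionVars false

open Finset

namespace Pool.Agent.Lib.MP_d75b76_nt

/-- rotate the mask -/
def rot (m N x : ℕ) : ℕ := ((N <<< (m - x)) ||| (N >>> x)) &&& (2 ^ m - 1)

/-- Is there a good extension by `need` elements of the list? -/
def srch (m : ℕ) : ℕ → ℕ → List ℕ → ℕ → Bool
  | 0, _, _, _ => true
  | _ + 1, 0, _, _ => true
  | _ + 1, _ + 1, [], _ => false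
  | fuel + 1, need + 1, x :: xs, N =>
    if xs.length < need then false
    else if N.testBit x then srch m fuel (need + 1) xs N
    else
      (let N' := N ||| rot m N x
       srch m fuel need (xs.filter fun y => !N'.testBit y) N') || srch m fuel (need + 1) xs N

/-- the mask `N` represents `-B` -/
def Rep (m N : ℕ) (B : Set (ZMod m)) : Prop :=
  N < 2 ^ m ∧ ∀ i < m, N.testBit i = true ↔ (-(i : ZMod m)) ∈ B

/-- the list can be added to a set with subset sums `B` without a zero sum -/
def good {m : ℕ} : Set (ZMod m) → List ℕ → Prop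
  | _, [] => True
  | B, x :: xs => (-(x : ZMod m)) ∉ B ∧ good (B ∪ (fun b => b + (x : ZMod m)) '' B) xs

theorem rot_lt (m N x : ℕ) : rot m N x < 2 ^ m := by
  unfold rot
  exact lt_of_le_of_lt Nat.and_le_right (Nat.sub_lt (Nat.two_pow_pos m) one_pos)

theorem rot_bit {m N x i : ℕ} (hN : N < 2 ^ m) (hx : x < m) (hi : i < m) :
    (rot m N x).testBit i = N.testBit (if i + x < m then i + x else i + x - m) := by
  unfold rot
  rw [Nat.testBit_and, Nat.testBit_two_pow_sub_one, Nat.testBit_or, Nat.testBit_shiftLeft,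
    Nat.testBit_shiftRight]
  simp only [hi, decide_true, Bool.and_true]
  by_cases h : i + x < m
  · have h1 : ¬ (i ≥ m - x) := by omega
    rw [if_pos h]
    simp only [h1, decide_false, Bool.false_and, Bool.false_or, Nat.add_comm x i]
  · have h1 : i ≥ m - x := by omega
    have h2 : N.testBit (x + i) = false :=
      Nat.testBit_lt_two_pow (lt_of_lt_of_le hN (Nat.pow_le_pow_right (by omega) (by omega)))
    rw [if_neg h, h2]
    simp only [h1, decide_true, Bool.true_and, Bool.or_false]
    congr 1
    omega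

theorem rep_step {m N x : ℕ} {B : Set (ZMod m)} (h : Rep m N B) (hx : x < m) :
    Rep m (N ||| rot m N x) (B ∪ (fun b => b + (x : ZMod m)) '' B) := by
  refine ⟨Nat.or_lt_two_pow h.1 (rot_lt m N x), fun i hi => ?_⟩
  rw [Nat.testBit_or, Bool.or_eq_true, h.2 i hi, rot_bit h.1 hx hi, Set.mem_union]
  refine or_congr Iff.rfl ?_
  have hj : (if i + x < m then i + x else i + x - m) < m := by split_ifs <;> omega
  rw [h.2 _ hj]
  have hc : (((if i + x < m then i + x else i + x - m : ℕ)) : ZMod m) = (i : ZMod m) + x := by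
    split_ifs with h1
    · push_cast
      ring
    · rw [Nat.cast_sub (by omega)]
      push_cast
      simp
  rw [hc]
  constructor
  · intro hb
    refine ⟨_, hb, ?_⟩
    show -((i : ZMod m) + x) + x = -i
    ring
  · rintro ⟨b, hb, hbi⟩
    have h3 : b = -((i : ZMod m) + x) := by
      have h4 : b + (x : ZMod m) = -i := hbi
      have h5 : b = -(i : ZMod m) - x := by rw [← h4]; ring
      rw [h5]
      ring
    rw [← h3]
    exact hb

theorem good_mem {m : ℕ} : ∀ (l : List ℕ) (B : Set (ZMod m)), good B l →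
    ∀ y ∈ l, (-(y : ZMod m)) ∉ B := by
  intro l
  induction l with
  | nil => intro B _ y hy; exact absurd hy (List.not_mem_nil)
  | cons x xs ih =>
    intro B hg y hy
    rcases List.mem_cons.1 hy with rfl | hy
    · exact hg.1
    · exact fun hB => ih _ hg.2 y hy (Or.inl hB)

theorem srch_sound (m : ℕ) : ∀ (fuel need : ℕ) (cand : List ℕ) (N : ℕ) (B : Set (ZMod m)),
    Rep m N B → (∀ y ∈ cand, y < m) → cand.length < fuel → srch m fuel need cand N = false →
    ∀ l : List ℕ, l.Sublist cand → l.length = need → ¬ good B l := by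
  intro fuel
  induction fuel with
  | zero => intro need cand N B _ _ h; exact absurd h (Nat.not_lt_zero _)
  | succ fuel ih =>
    intro need cand N B hR hc hlen hs l hl hln hg
    cases need with
    | zero => simp [srch] at hs
    | succ need =>
      cases cand with
      | nil =>
        rw [List.sublist_nil] at hl
        subst hl
        simp at hln
      | cons x xs =>
        have hxm : x < m := hc x (List.mem_cons_self)
        have hxs : ∀ y ∈ xs, y < m := fun y hy => hc y (List.mem_cons_of_mem _ hy)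
        have hlen' : xs.length < fuel := by
          rw [List.length_cons] at hlen
          omega
        rw [srch] at hs
        by_cases h1 : xs.length < need
        · have h2 := hl.length_le
          rw [List.length_cons] at h2
          omega
        rw [if_neg h1] at hs
        by_cases h2 : N.testBit x = true
        · rw [if_pos h2] at hs
          rcases List.sublist_cons_iff.1 hl with h3 | ⟨l', rfl, h3⟩
          · exact ih _ xs N B hR hxs hlen' hs l h3 hln hg
          · exact hg.1 ((hR.2 x hxm).1 h2)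
        · rw [if_neg h2, Bool.or_eq_false_iff] at hs
          rcases List.sublist_cons_iff.1 hl with h3 | ⟨l', rfl, h3⟩
          · exact ih _ xs N B hR hxs hlen' hs.2 l h3 hln hg
          · have hR' := rep_step hR hxm
            have hg' := hg.2
            refine ih need _ _ _ hR' (fun y hy => hxs y (List.mem_of_mem_filter hy)) ?_ hs.1 l' ?_
              (by simpa using hln) hg'
            · exact lt_of_le_of_lt (List.length_filter_le _ _) hlen'
            · have h4 : l'.filter (fun y => !(N ||| rot m N x).testBit y) = l' := by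
                rw [List.filter_eq_self]
                intro y hy
                have h5 := good_mem l' _ hg' y hy
                have h6 : ¬ (N ||| rot m N x).testBit y = true := fun h7 =>
                  h5 ((hR'.2 y (hxs y (h3.subset hy))).1 h7)
                simpa using h6
              rw [← h4]
              exact h3.filter _

theorem good_of_zsf {m : ℕ} : ∀ (l : List ℕ) (T : Finset (ZMod m)),
    (∀ x ∈ l, (x : ZMod m) ∉ T) → (l.map (Nat.cast : ℕ → ZMod m)).Nodup →
    ZSF (T ∪ (l.map (Nat.cast : ℕ → ZMod m)).toFinset) →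
    good {b | ∃ U ⊆ T, ∑ u ∈ U, u = b} l := by
  intro l
  induction l with
  | nil => intro T _ _ _; trivial
  | cons x xs ih =>
    intro T hT hnd hz
    rw [List.map_cons, List.nodup_cons] at hnd
    have hxT : (x : ZMod m) ∉ T := hT x List.mem_cons_self
    refine ⟨?_, ?_⟩
    · rintro ⟨U, hU, hsum⟩
      have hxU : (x : ZMod m) ∉ U := fun h => hxT (hU h)
      refine hz (insert (x : ZMod m) U) ?_ ⟨x, Finset.mem_insert_self _ _⟩ ?_
      · intro y hy
        rw [Finset.mem_insert] at hy
        rw [Finset.mem_union]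
        rcases hy with rfl | hy
        · right
          simp
        · exact Or.inl (hU hy)
      · rw [Finset.sum_insert hxU, hsum]
        ring
    · have h1 := ih (insert (x : ZMod m) T) (by
        intro y hy hyT
        rw [Finset.mem_insert] at hyT
        rcases hyT with h2 | h2
        · exact hnd.1 (List.mem_map.2 ⟨y, hy, h2⟩)
        · exact hT y (List.mem_cons_of_mem _ hy) h2) hnd.2 (by
          refine hz.mono ?_
          intro y hy
          rw [Finset.mem_union, Finset.mem_insert] at hy
          rw [Finset.mem_union, List.map_cons, List.toFinset_cons, Finset.mem_insert]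
          tauto)
      have h2 : ({b | ∃ U ⊆ T, ∑ u ∈ U, u = b} ∪ (fun b => b + (x : ZMod m)) ''
          {b | ∃ U ⊆ T, ∑ u ∈ U, u = b} : Set (ZMod m)) =
          {b | ∃ U ⊆ insert (x : ZMod m) T, ∑ u ∈ U, u = b} := by
        ext b
        constructor
        · rintro (⟨U, hU, hb⟩ | ⟨b', ⟨U, hU, hb⟩, hb'⟩)
          · exact ⟨U, hU.trans (Finset.subset_insert _ _), hb⟩
          · have hxU : (x : ZMod m) ∉ U := fun h => hxT (hU h)
            refine ⟨insert (x : ZMod m) U, Finset.insert_subset_insert _ hU, ?_⟩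
            rw [Finset.sum_insert hxU, hb, ← hb']
            ring
        · rintro ⟨U, hU, hb⟩
          by_cases hx : (x : ZMod m) ∈ U
          · right
            refine ⟨∑ u ∈ U.erase (x : ZMod m), u, ⟨U.erase (x : ZMod m), ?_, rfl⟩, ?_⟩
            · intro y hy
              rw [Finset.mem_erase] at hy
              exact (Finset.mem_insert.1 (hU hy.2)).resolve_left hy.1
            · show ∑ u ∈ U.erase (x : ZMod m), u + (x : ZMod m) = b
              rw [Finset.sum_erase_add _ _ hx, hb]
          · left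
            refine ⟨U, ?_, hb⟩
            intro y hy
            refine (Finset.mem_insert.1 (hU hy)).resolve_left ?_
            rintro rfl
            exact hx hy
      rw [h2]
      exact h1

theorem rep_zero (m : ℕ) (hm : 0 < m) :
    Rep m 1 {b : ZMod m | ∃ U ⊆ (∅ : Finset (ZMod m)), ∑ u ∈ U, u = b} := by
  refine ⟨Nat.one_lt_two_pow (by omega), fun i hi => ?_⟩
  have h1 : ({b : ZMod m | ∃ U ⊆ (∅ : Finset (ZMod m)), ∑ u ∈ U, u = b} : Set (ZMod m)) = {0} := by
    ext b
    constructor
    · rintro ⟨U, hU, hb⟩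
      rw [Finset.subset_empty] at hU
      subst hU
      simpa using hb.symm
    · rintro rfl
      exact ⟨∅, Finset.Subset.refl _, by simp⟩
  rw [h1, Set.mem_singleton_iff, neg_eq_zero, ZMod.natCast_eq_zero_iff]
  rw [Nat.testBit_one_eq_true_iff_self_eq_zero]
  constructor
  · rintro rfl
    exact dvd_zero m
  · intro h
    exact Nat.eq_zero_of_dvd_of_lt h hi

theorem cast_inj_lt {m i j : ℕ} (hi : i < m) (hj : j < m) (h : (i : ZMod m) = j) : i = j := by
  rw [ZMod.natCast_eq_natCast_iff'] at h
  rwa [Nat.mod_eq_of_lt hi, Nat.mod_eq_of_lt hj] at h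

/-- the values of `S` in a list of small numbers -/
theorem list_of {m : ℕ} [NeZero m] (S : Finset (ZMod m)) (L : List ℕ) (hL : ∀ y ∈ L, y < m)
    (hnd : L.Nodup) :
    ((L.filter (fun i : ℕ => decide ((i : ZMod m) ∈ S))).map (Nat.cast : ℕ → ZMod m)).Nodup := by
  refine List.Nodup.map_on ?_ (hnd.filter _)
  intro x hx y hy hxy
  exact cast_inj_lt (hL x (List.mem_of_mem_filter hx)) (hL y (List.mem_of_mem_filter hy)) hxy

theorem zsf_smul {m : ℕ} [NeZero m] (S : Finset (ZMod m)) (hS : ZSF S) (u : (ZMod m)ˣ) :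
    ZSF (S.image (fun x => (u : ZMod m) * x)) := by
  intro T hT hne hsum
  have hinj : Function.Injective (fun x : ZMod m => (u : ZMod m) * x) := fun a b h => by
    simpa using h
  obtain ⟨T', hT', rfl⟩ := Finset.subset_image_iff.1 hT
  rw [Finset.sum_image (fun a _ b _ h => hinj h), ← Finset.mul_sum] at hsum
  rw [Finset.image_nonempty] at hne
  refine hS T' (by exact_mod_cast hT') hne ?_
  simpa using hsum

theorem max_of (m k : ℕ) [NeZero m] (hm : 1 < m)
    (h1 : srch m (m + 1) (k + 1) ((List.range m).filter fun i : ℕ => decide (1 < Nat.gcd i m)) 1 =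
      false)
    (h2 : srch m (m + 1) k ((List.range m).filter fun i : ℕ => decide (1 < i)) (1 ||| rot m 1 1) =
      false)
    (S : Finset (ZMod m)) (hS : ZSF S) : S.card ≤ k := by
  classical
  by_contra hcon
  push Not at hcon
  by_cases hu : ∃ u ∈ S, IsUnit u
  · obtain ⟨_, huS, u, rfl⟩ := hu
    have hz := zsf_smul S hS u⁻¹
    have hone : (1 : ZMod m) ∈ S.image (fun x => ((u⁻¹ : (ZMod m)ˣ) : ZMod m) * x) :=
      Finset.mem_image.2 ⟨_, huS, by simp⟩
    have hcard : (S.image (fun x => ((u⁻¹ : (ZMod m)ˣ) : ZMod m) * x)).card = S.card :=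
      Finset.card_image_of_injective _ (fun a b h => by simpa using h)
    obtain ⟨T, hT1, hT2, hT3⟩ := Finset.exists_subsuperset_card_eq
      (Finset.singleton_subset_iff.2 hone) (n := k + 1) (by simp) (by rw [hcard]; exact hcon)
    have hTz := hz.mono hT2
    have hT1' : (1 : ZMod m) ∈ T := hT1 (Finset.mem_singleton_self _)
    set L := (List.range m).filter fun i : ℕ => decide (1 < i) with hL
    have hLm : ∀ y ∈ L, y < m := fun y hy => List.mem_range.1 (List.mem_of_mem_filter hy)
    have hLnd : L.Nodup := List.nodup_range.filter _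
    set l := L.filter (fun i : ℕ => decide ((i : ZMod m) ∈ T)) with hl
    have hlnd := list_of T L hLm hLnd
    rw [← hl] at hlnd
    have hne1 : ∀ x ∈ l, (x : ZMod m) ≠ 1 := by
      intro x hx h
      have h3 : x ∈ L := List.mem_of_mem_filter hx
      have h4 : 1 < x := by simpa using List.of_mem_filter h3
      have h5 : x = 1 := cast_inj_lt (hLm x h3) hm (by simpa using h)
      omega
    have hlT : ∀ x ∈ l, (x : ZMod m) ∈ T := fun x hx => by simpa using List.of_mem_filter hx
    have hset : insert (1 : ZMod m) (l.map (Nat.cast : ℕ → ZMod m)).toFinset = T := by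
      ext y
      rw [Finset.mem_insert, List.mem_toFinset, List.mem_map]
      constructor
      · rintro (rfl | ⟨x, hx, rfl⟩)
        · exact hT1'
        · exact hlT x hx
      · intro hy
        by_cases hy1 : y = 1
        · exact Or.inl hy1
        · right
          refine ⟨y.val, ?_, ZMod.natCast_zmod_val y⟩
          rw [hl, List.mem_filter, hL, List.mem_filter, List.mem_range]
          refine ⟨⟨ZMod.val_lt y, ?_⟩, ?_⟩
          · rw [decide_eq_true_iff]
            have h0 : y ≠ 0 := fun h => hTz.zero_notMem (h ▸ hy)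
            have h0' : y.val ≠ 0 := fun h => h0 ((ZMod.val_eq_zero y).1 h)
            have h1' : y.val ≠ 1 := fun h => hy1 (by
              rw [← ZMod.natCast_zmod_val y, h]
              simp)
            omega
          · rw [decide_eq_true_iff, ZMod.natCast_zmod_val]
            exact hy
    have hlen : l.length = k := by
      have h3 : (l.map (Nat.cast : ℕ → ZMod m)).toFinset.card = l.length := by
        rw [List.toFinset_card_of_nodup hlnd, List.length_map]
      have h4 : (1 : ZMod m) ∉ (l.map (Nat.cast : ℕ → ZMod m)).toFinset := by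
        rw [List.mem_toFinset, List.mem_map]
        rintro ⟨x, hx, hx1⟩
        exact hne1 x hx hx1
      have h5 := Finset.card_insert_of_notMem h4
      rw [hset, hT3, h3] at h5
      omega
    have hg : good {b : ZMod m | ∃ U ⊆ (∅ : Finset (ZMod m)), ∑ u ∈ U, u = b} (1 :: l) := by
      refine good_of_zsf (1 :: l) ∅ (fun x _ => Finset.notMem_empty _) ?_ ?_
      · rw [List.map_cons, List.nodup_cons]
        refine ⟨?_, hlnd⟩
        rw [List.mem_map]
        rintro ⟨x, hx, hx1⟩
        exact hne1 x hx (by simpa using hx1)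
      · rw [Finset.empty_union, List.map_cons, List.toFinset_cons]
        rw [show ((1 : ℕ) : ZMod m) = 1 by simp, hset]
        exact hTz
    have hR := rep_step (rep_zero m (by omega)) hm
    exact srch_sound m (m + 1) k L _ _ hR hLm
      (by
        have := List.length_filter_le (fun i : ℕ => decide (1 < i)) (List.range m)
        rw [List.length_range] at this
        exact lt_of_le_of_lt this (Nat.lt_succ_self m)) h2 l List.filter_sublist hlen hg.2
  · push Not at hu
    obtain ⟨T, hT2, hT3⟩ := Finset.exists_subset_card_eq (show k + 1 ≤ S.card from hcon)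
    have hTz := hS.mono hT2
    set L := (List.range m).filter fun i : ℕ => decide (1 < Nat.gcd i m) with hL
    have hLm : ∀ y ∈ L, y < m := fun y hy => List.mem_range.1 (List.mem_of_mem_filter hy)
    have hLnd : L.Nodup := List.nodup_range.filter _
    set l := L.filter (fun i : ℕ => decide ((i : ZMod m) ∈ T)) with hl
    have hlnd := list_of T L hLm hLnd
    rw [← hl] at hlnd
    have hlT : ∀ x ∈ l, (x : ZMod m) ∈ T := fun x hx => by simpa using List.of_mem_filter hx
    have hset : (l.map (Nat.cast : ℕ → ZMod m)).toFinset = T := by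
      ext y
      rw [List.mem_toFinset, List.mem_map]
      constructor
      · rintro ⟨x, hx, rfl⟩
        exact hlT x hx
      · intro hy
        refine ⟨y.val, ?_, ZMod.natCast_zmod_val y⟩
        rw [hl, List.mem_filter, hL, List.mem_filter, List.mem_range]
        refine ⟨⟨ZMod.val_lt y, ?_⟩, ?_⟩
        · rw [decide_eq_true_iff]
          have h3 := hu y (hT2 hy)
          rw [← ZMod.natCast_zmod_val y, ZMod.isUnit_iff_coprime] at h3
          have h4 : Nat.gcd y.val m ≠ 0 := Nat.gcd_ne_zero_right (NeZero.ne m)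
          have h5 : Nat.gcd y.val m ≠ 1 := h3
          omega
        · rw [decide_eq_true_iff, ZMod.natCast_zmod_val]
          exact hy
    have hlen : l.length = k + 1 := by
      rw [← hT3, ← hset, List.toFinset_card_of_nodup hlnd, List.length_map]
    have hg : good {b : ZMod m | ∃ U ⊆ (∅ : Finset (ZMod m)), ∑ u ∈ U, u = b} l := by
      refine good_of_zsf l ∅ (fun x _ => Finset.notMem_empty _) hlnd ?_
      rw [Finset.empty_union, hset]
      exact hTz
    exact srch_sound m (m + 1) (k + 1) L _ _ (rep_zero m (by omega)) hLm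
      (by
        have := List.length_filter_le (fun i : ℕ => decide (1 < Nat.gcd i m)) (List.range m)
        rw [List.length_range] at this
        exact lt_of_le_of_lt this (Nat.lt_succ_self m)) h1 l List.filter_sublist hlen hg

end Pool.Agent.Lib.MP_d75b76_nt
end

section

/-!
# The moduli 12, 18, 24, 30
-/

set_option autoImplicit false
set_option linter.unusedSectionVars false
set_option maxRecDepth 10000

open Finset

namespace Pool.Agent.Lib.MP_d75b76_nt

/-- check that a list is good -/
def chk (m : ℕ) : List ℕ → ℕ → Bool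
  | [], _ => true
  | x :: xs, N => decide (x < m) && !N.testBit x && chk m xs (N ||| rot m N x)

theorem good_of_chk (m : ℕ) : ∀ (l : List ℕ) (N : ℕ) (B : Set (ZMod m)), Rep m N B →
    chk m l N = true → good B l := by
  intro l
  induction l with
  | nil => intro N B _ _; trivial
  | cons x xs ih =>
    intro N B hR h
    rw [chk, Bool.and_eq_true, Bool.and_eq_true, decide_eq_true_iff] at h
    refine ⟨fun hB => ?_, ih _ _ (rep_step hR h.1.1) h.2⟩
    have h1 := (hR.2 x h.1.1).2 hB
    rw [h1] at h
    simp at h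

theorem zsf_of_good {m : ℕ} : ∀ (l : List ℕ) (T : Finset (ZMod m)), ZSF T →
    good {b | ∃ U ⊆ T, ∑ u ∈ U, u = b} l →
    ZSF (T ∪ (l.map (Nat.cast : ℕ → ZMod m)).toFinset) := by
  classical
  intro l
  induction l with
  | nil =>
    intro T hT _
    rw [List.map_nil, List.toFinset_nil, Finset.union_empty]
    exact hT
  | cons x xs ih =>
    intro T hT hg
    rw [List.map_cons, List.toFinset_cons]
    by_cases hxT : (x : ZMod m) ∈ T
    · have h1 : T ∪ insert (x : ZMod m) (xs.map (Nat.cast : ℕ → ZMod m)).toFinset =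
          T ∪ (xs.map (Nat.cast : ℕ → ZMod m)).toFinset := by
        ext y
        rw [Finset.mem_union, Finset.mem_union, Finset.mem_insert]
        constructor
        · rintro (h | rfl | h)
          · exact Or.inl h
          · exact Or.inl hxT
          · exact Or.inr h
        · rintro (h | h)
          · exact Or.inl h
          · exact Or.inr (Or.inr h)
      rw [h1]
      refine ih T hT ?_
      have hmono : ∀ (l : List ℕ) (B C : Set (ZMod m)), B ⊆ C → good C l → good B l := by
        intro l
        induction l with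
        | nil => intro B C _ _; trivial
        | cons y ys ih2 =>
          intro B C hBC h
          exact ⟨fun hB => h.1 (hBC hB), ih2 _ _ (Set.union_subset_union hBC
            (Set.image_mono hBC)) h.2⟩
      exact hmono xs _ _ Set.subset_union_left hg.2
    · have hz : ZSF (insert (x : ZMod m) T) := by
        intro U hU hne hsum
        by_cases hx : (x : ZMod m) ∈ U
        · refine hg.1 ⟨U.erase (x : ZMod m), ?_, ?_⟩
          · intro y hy
            rw [Finset.mem_erase] at hy
            exact (Finset.mem_insert.1 (hU hy.2)).resolve_left hy.1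
          · have h2 := Finset.sum_erase_add U (fun y => y) hx
            rw [hsum] at h2
            exact eq_neg_of_add_eq_zero_left h2
        · refine hT U ?_ hne hsum
          intro y hy
          refine (Finset.mem_insert.1 (hU hy)).resolve_left ?_
          rintro rfl
          exact hx hy
      have h2 : ({b | ∃ U ⊆ T, ∑ u ∈ U, u = b} ∪ (fun b => b + (x : ZMod m)) ''
          {b | ∃ U ⊆ T, ∑ u ∈ U, u = b} : Set (ZMod m)) =
          {b | ∃ U ⊆ insert (x : ZMod m) T, ∑ u ∈ U, u = b} := by
        ext b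
        constructor
        · rintro (⟨U, hU, hb⟩ | ⟨b', ⟨U, hU, hb⟩, hb'⟩)
          · exact ⟨U, hU.trans (Finset.subset_insert _ _), hb⟩
          · have hxU : (x : ZMod m) ∉ U := fun h => hxT (hU h)
            refine ⟨insert (x : ZMod m) U, Finset.insert_subset_insert _ hU, ?_⟩
            rw [Finset.sum_insert hxU, hb, ← hb']
            ring
        · rintro ⟨U, hU, hb⟩
          by_cases hx : (x : ZMod m) ∈ U
          · right
            refine ⟨∑ u ∈ U.erase (x : ZMod m), u, ⟨U.erase (x : ZMod m), ?_, rfl⟩, ?_⟩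
            · intro y hy
              rw [Finset.mem_erase] at hy
              exact (Finset.mem_insert.1 (hU hy.2)).resolve_left hy.1
            · show ∑ u ∈ U.erase (x : ZMod m), u + (x : ZMod m) = b
              rw [Finset.sum_erase_add _ _ hx, hb]
          · left
            refine ⟨U, ?_, hb⟩
            intro y hy
            refine (Finset.mem_insert.1 (hU hy)).resolve_left ?_
            rintro rfl
            exact hx hy
      have h3 := ih (insert (x : ZMod m) T) hz (by rw [← h2]; exact hg.2)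
      have h4 : T ∪ insert (x : ZMod m) (xs.map (Nat.cast : ℕ → ZMod m)).toFinset =
          insert (x : ZMod m) T ∪ (xs.map (Nat.cast : ℕ → ZMod m)).toFinset := by
        rw [Finset.insert_union, Finset.union_insert]
      rw [h4]
      exact h3

theorem ex_of (m k : ℕ) [NeZero m] (hm : 1 < m) (l : List ℕ) (hl : chk m l 1 = true)
    (hnd : l.Nodup) (hk : l.length = k) (hlt : ∀ x ∈ l, x < m) (hu : ∀ x ∈ l, Nat.gcd x m ≠ 1)
    (h1 : srch m (m + 1) (k + 1) ((List.range m).filter fun i : ℕ => decide (1 < Nat.gcd i m)) 1 =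
      false)
    (h2 : srch m (m + 1) k ((List.range m).filter fun i : ℕ => decide (1 < i)) (1 ||| rot m 1 1) =
      false) :
    ∃ S : Finset (ZMod m), ZSF S ∧ (∀ S' : Finset (ZMod m), ZSF S' → S'.card ≤ S.card) ∧
      ∀ s ∈ S, ¬ IsUnit s := by
  have hz := zsf_of_good l ∅ (by
    intro T hT hne
    rw [Finset.subset_empty] at hT
    exact absurd hT hne.ne_empty) (good_of_chk m l 1 _ (rep_zero m (by omega)) hl)
  rw [Finset.empty_union] at hz
  have hnd' : (l.map (Nat.cast : ℕ → ZMod m)).Nodup :=
    List.Nodup.map_on (fun x hx y hy h => cast_inj_lt (hlt x hx) (hlt y hy) h) hnd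
  refine ⟨(l.map (Nat.cast : ℕ → ZMod m)).toFinset, hz, fun S' hS' => ?_, ?_⟩
  · rw [List.toFinset_card_of_nodup hnd', List.length_map, hk]
    exact max_of m k hm h1 h2 S' hS'
  · intro s hs
    rw [List.mem_toFinset, List.mem_map] at hs
    obtain ⟨x, hx, rfl⟩ := hs
    rw [ZMod.isUnit_iff_coprime]
    exact hu x hx

theorem ex12 : ∃ S : Finset (ZMod 12), ZSF S ∧ (∀ S' : Finset (ZMod 12), ZSF S' →
    S'.card ≤ S.card) ∧ ∀ s ∈ S, ¬ IsUnit s :=
  ex_of 12 4 (by norm_num) [2, 3, 6, 8] (by decide) (by decide) rfl (by decide) (by decide)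
    (by decide +kernel) (by decide +kernel)

theorem ex18 : ∃ S : Finset (ZMod 18), ZSF S ∧ (∀ S' : Finset (ZMod 18), ZSF S' →
    S'.card ≤ S.card) ∧ ∀ s ∈ S, ¬ IsUnit s :=
  ex_of 18 5 (by norm_num) [2, 3, 6, 8, 14] (by decide) (by decide) rfl (by decide) (by decide)
    (by decide +kernel) (by decide +kernel)

theorem ex24 : ∃ S : Finset (ZMod 24), ZSF S ∧ (∀ S' : Finset (ZMod 24), ZSF S' →
    S'.card ≤ S.card) ∧ ∀ s ∈ S, ¬ IsUnit s :=
  ex_of 24 6 (by norm_num) [2, 6, 8, 9, 20, 21] (by decide) (by decide) rfl (by decide)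
    (by decide) (by decide +kernel) (by decide +kernel)

theorem ex30 : ∃ S : Finset (ZMod 30), ZSF S ∧ (∀ S' : Finset (ZMod 30), ZSF S' →
    S'.card ≤ S.card) ∧ ∀ s ∈ S, ¬ IsUnit s :=
  ex_of 30 7 (by norm_num) [2, 5, 12, 15, 20, 22, 27] (by decide) (by decide) rfl (by decide)
    (by decide) (by decide +kernel) (by decide +kernel)

end Pool.Agent.Lib.MP_d75b76_nt
end

section

/-!
# A faster search for sets which avoid units
-/

set_option autoImplicit false
set_option linter.unusedSectionVars false
set_option maxRecDepth 10000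

open Finset

namespace Pool.Agent.Lib.MP_d75b76_nt

/-- evaluate the argument -/
def frc {α : Type} (n : ℕ) (k : ℕ → α) : α :=
  Nat.rec (motive := fun _ => α) (k 0) (fun n _ => k (Nat.succ n)) n

theorem frc_eq {α : Type} (n : ℕ) (k : ℕ → α) : frc n k = k n := by
  cases n <;> rfl

/-- at least `n` bits -/
def atl (n : ℕ) : ℕ → Bool :=
  Nat.rec (motive := fun _ => ℕ → Bool) (fun _ => true)
    (fun _ ih C =>
      Bool.rec (motive := fun _ => Bool)
        (frc (Nat.xor C (Nat.shiftLeft 1 (Nat.log2 C))) ih) false (Nat.beq C 0)) n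

/-- the search: `C` the mask of the candidates, `N` the mask of the negatives of the subset sums -/
def bs (m M : ℕ) (fuel : ℕ) : ℕ → ℕ → ℕ → Bool :=
  Nat.rec (motive := fun _ => ℕ → ℕ → ℕ → Bool) (fun _ _ _ => true)
    (fun _ ih need C N =>
      Nat.rec (motive := fun _ => Bool) true (fun n _ =>
        Bool.rec (motive := fun _ => Bool)
          (frc (Nat.log2 C) fun x =>
           frc (Nat.xor C (Nat.shiftLeft 1 x)) fun C1 =>
           Bool.rec (motive := fun _ => Bool) false
           (frc (Nat.lor N (Nat.land (Nat.lor (Nat.shiftLeft N (Nat.sub m x))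
              (Nat.shiftRight N x)) M)) fun N1 =>
            frc (Nat.xor C1 (Nat.land C1 N1)) fun C2 =>
            Bool.rec (motive := fun _ => Bool) (ih (Nat.succ n) C1 N) true (ih n C2 N1)) (atl n C1))
          false (Nat.beq C 0)) need) fuel

/-- the mask of a predicate -/
def msk (p : ℕ → Bool) (n : ℕ) : ℕ :=
  Nat.rec (motive := fun _ => ℕ) 0 (fun n ih =>
    Bool.rec (motive := fun _ => ℕ) ih (Nat.lor ih (Nat.shiftLeft 1 n)) (p n)) n

/-- the sets which contain `d` and whose other elements have a greatest common divisor with `m`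
which is at least `d` -/
def top (m k d : ℕ) : Bool :=
  frc (Nat.lor 1 (Nat.shiftLeft 1 (Nat.sub m d))) fun N =>
  frc (msk (fun y => Nat.ble d (Nat.gcd y m) && !(Nat.beq y d) && !(N.testBit y)) m) fun C =>
  frc (Nat.sub (Nat.shiftLeft 1 m) 1) fun M => bs m M (m + 1) (k - 1) C N

/-- no set with `k` elements -/
def nos (m k : ℕ) : Bool :=
  (List.range m).all fun d => if 2 ≤ d ∧ m % d = 0 then !(top m k d) else true

theorem beq0 {C : ℕ} (h : C ≠ 0) : Nat.beq C 0 = false := by
  cases C with
  | zero => exact absurd rfl h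
  | succ n => rfl

theorem log2_bit {C : ℕ} (hC : C ≠ 0) : C.testBit (Nat.log2 C) = true :=
  Nat.testBit_log2 hC

theorem drop_bit {C : ℕ} (hC : C ≠ 0) (y : ℕ) (hy : y ≠ Nat.log2 C) :
    (Nat.xor C (Nat.shiftLeft 1 (Nat.log2 C))).testBit y = C.testBit y := by
  have h1 : Nat.xor C (Nat.shiftLeft 1 (Nat.log2 C)) = C ^^^ (1 <<< Nat.log2 C) := rfl
  have h2 : (1 <<< Nat.log2 C : ℕ) = 2 ^ Nat.log2 C := by
    rw [Nat.shiftLeft_eq, one_mul]
  rw [h1, Nat.testBit_xor, h2, Nat.testBit_two_pow_of_ne (fun h => hy h.symm), Bool.xor_false]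

theorem atl_false : ∀ (n C : ℕ), atl n C = false → ∀ T : Finset ℕ, (∀ y ∈ T, C.testBit y = true) →
    T.card < n := by
  classical
  intro n
  induction n with
  | zero => intro C h; exact absurd h (by simp [atl])
  | succ n ih =>
    intro C h T hT
    by_cases hC : C = 0
    · have h1 : T = ∅ := by
        rw [Finset.eq_empty_iff_forall_notMem]
        intro y hy
        have := hT y hy
        rw [hC, Nat.zero_testBit] at this
        exact Bool.false_ne_true this
      rw [h1, Finset.card_empty]
      exact Nat.succ_pos n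
    · have h1 : atl (n + 1) C = Bool.rec (motive := fun _ => Bool)
        (frc (Nat.xor C (Nat.shiftLeft 1 (Nat.log2 C))) (atl n)) false (Nat.beq C 0) := rfl
      have h2 : Nat.beq C 0 = false := beq0 hC
      rw [h1, h2] at h
      have h3 : frc (Nat.xor C (Nat.shiftLeft 1 (Nat.log2 C))) (atl n) = false := h
      rw [frc_eq] at h3
      have h4 := ih _ h3 (T.erase (Nat.log2 C)) (by
        intro y hy
        rw [Finset.mem_erase] at hy
        rw [drop_bit hC y hy.1]
        exact hT y hy.2)
      have h5 := Finset.pred_card_le_card_erase (s := T) (a := Nat.log2 C)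
      omega

/-- no nonempty subset of `T` has a sum whose negative is in `B` -/
def Gd {m : ℕ} (B : Set (ZMod m)) (T : Finset ℕ) : Prop :=
  ∀ U ⊆ T, U.Nonempty → (-(∑ y ∈ U, (y : ZMod m))) ∉ B

theorem Gd.one {m : ℕ} {B : Set (ZMod m)} {T : Finset ℕ} (h : Gd B T) {y : ℕ} (hy : y ∈ T) :
    (-(y : ZMod m)) ∉ B := by
  have := h {y} (Finset.singleton_subset_iff.2 hy) (Finset.singleton_nonempty y)
  rwa [Finset.sum_singleton] at this

theorem Gd.mono {m : ℕ} {B : Set (ZMod m)} {T T' : Finset ℕ} (h : Gd B T) (h' : T' ⊆ T) : Gd B T' :=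
  fun U hU hne => h U (hU.trans h') hne

theorem Gd.step {m : ℕ} {B : Set (ZMod m)} {T : Finset ℕ} (h : Gd B T) {x : ℕ} (hx : x ∈ T) :
    Gd (B ∪ (fun b => b + (x : ZMod m)) '' B) (T.erase x) := by
  classical
  intro U hU hne
  rintro (h1 | ⟨b, hb, hb'⟩)
  · exact h U (hU.trans (Finset.erase_subset _ _)) hne h1
  · have hxU : x ∉ U := fun h2 => Finset.notMem_erase x T (hU h2)
    refine h (insert x U) ?_ (Finset.insert_nonempty _ _) ?_
    · intro y hy
      rw [Finset.mem_insert] at hy
      rcases hy with rfl | hy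
      · exact hx
      · exact Finset.mem_of_mem_erase (hU hy)
    · rw [Finset.sum_insert hxU]
      have h3 : -((x : ZMod m) + ∑ y ∈ U, (y : ZMod m)) = b := by
        have h4 : b + (x : ZMod m) = -∑ y ∈ U, (y : ZMod m) := hb'
        have h5 : b = -∑ y ∈ U, (y : ZMod m) - (x : ZMod m) := by rw [← h4]; ring
        rw [h5]
        ring
      rw [h3]
      exact hb

theorem bs_sound (m : ℕ) : ∀ (fuel need C N : ℕ) (B : Set (ZMod m)),
    Rep m N B → (∀ y, C.testBit y = true → y < m) → bs m (2 ^ m - 1) fuel need C N = false →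
    ∀ T : Finset ℕ, (∀ y ∈ T, C.testBit y = true) → T.card = need → ¬ Gd B T := by
  classical
  intro fuel
  induction fuel with
  | zero => intro need C N B _ _ h; exact absurd h (by simp [bs])
  | succ fuel ih =>
    intro need C N B hR hc hs T hT hcard hg
    cases need with
    | zero => exact absurd hs (by simp [bs])
    | succ n =>
      by_cases hC : C = 0
      · obtain ⟨y, hy⟩ := Finset.card_pos.1 (by rw [hcard]; exact Nat.succ_pos n : 0 < T.card)
        have := hT y hy
        rw [hC, Nat.zero_testBit] at this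
        exact Bool.false_ne_true this
      · set x := Nat.log2 C with hx
        set C1 := Nat.xor C (Nat.shiftLeft 1 x) with hC1
        set N1 := Nat.lor N (Nat.land (Nat.lor (Nat.shiftLeft N (Nat.sub m x))
              (Nat.shiftRight N x)) (2 ^ m - 1)) with hN1
        set C2 := Nat.xor C1 (Nat.land C1 N1) with hC2
        have h1 : bs m (2 ^ m - 1) (fuel + 1) (n + 1) C N = Bool.rec (motive := fun _ => Bool)
          (frc (Nat.log2 C) fun x =>
           frc (Nat.xor C (Nat.shiftLeft 1 x)) fun C1 =>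
           Bool.rec (motive := fun _ => Bool) false
           (frc (Nat.lor N (Nat.land (Nat.lor (Nat.shiftLeft N (Nat.sub m x))
              (Nat.shiftRight N x)) (2 ^ m - 1))) fun N1 =>
            frc (Nat.xor C1 (Nat.land C1 N1)) fun C2 =>
            Bool.rec (motive := fun _ => Bool) (bs m (2 ^ m - 1) fuel (Nat.succ n) C1 N) true
              (bs m (2 ^ m - 1) fuel n C2 N1)) (atl n C1))
          false (Nat.beq C 0) := rfl
        have h2 : Nat.beq C 0 = false := beq0 hC
        rw [h1, h2] at hs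
        simp only [frc_eq] at hs
        rw [← hx, ← hC1, ← hN1, ← hC2] at hs
        have hxm : x < m := hc x (log2_bit hC)
        have hC1b : ∀ y, y ≠ x → C1.testBit y = C.testBit y := fun y hy => drop_bit hC y hy
        have hC1x : C1.testBit x = false := by
          have e : C1 = C ^^^ (1 <<< x) := rfl
          rw [e, Nat.testBit_xor, Nat.shiftLeft_eq, one_mul, Nat.testBit_two_pow_self,
            log2_bit hC]
          rfl
        have hC1c : ∀ y, C1.testBit y = true → y < m := by
          intro y hy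
          by_cases hyx : y = x
          · rw [hyx]; exact hxm
          · rw [hC1b y hyx] at hy
            exact hc y hy
        have hcT : n ≤ (T.erase x).card := by
          have := Finset.pred_card_le_card_erase (s := T) (a := x)
          omega
        have hTe : ∀ y ∈ T.erase x, C1.testBit y = true := by
          intro y hy
          rw [Finset.mem_erase] at hy
          rw [hC1b y hy.1]
          exact hT y hy.2
        cases hat : atl n C1 with
        | false =>
          have := atl_false n C1 hat _ hTe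
          omega
        | true =>
          rw [hat] at hs
          have hN1' : N1 = N ||| rot m N x := rfl
          have hs1 : bs m (2 ^ m - 1) fuel n C2 N1 = false := by
            cases hb : bs m (2 ^ m - 1) fuel n C2 N1 with
            | false => rfl
            | true =>
              rw [hb] at hs
              exact hs
          rw [hs1] at hs
          have hs2 : bs m (2 ^ m - 1) fuel (Nat.succ n) C1 N = false := hs
          by_cases hxT : x ∈ T
          · have hg' := hg.step hxT
            have hR' := rep_step hR hxm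
            have hC2b : ∀ y, C2.testBit y = (C1.testBit y && !N1.testBit y) := by
              intro y
              have e : C2 = C1 ^^^ (C1 &&& N1) := rfl
              rw [e, Nat.testBit_xor, Nat.testBit_and]
              cases C1.testBit y <;> cases N1.testBit y <;> rfl
            refine ih n C2 N1 _ hR' ?_ hs1 (T.erase x) ?_ ?_ hg'
            · intro y hy
              rw [hC2b, Bool.and_eq_true] at hy
              exact hC1c y hy.1
            · intro y hy
              rw [hC2b, hTe y hy, Bool.true_and]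
              have h5 := hg'.one hy
              have h6 : ¬ (N ||| rot m N x).testBit y = true := fun h7 =>
                h5 ((hR'.2 y (hC1c y (hTe y hy))).1 h7)
              rw [hN1']
              simpa using h6
            · rw [Finset.card_erase_of_mem hxT, hcard]
              rfl
          · refine ih (n + 1) C1 N B hR hC1c hs2 T ?_ hcard hg
            intro y hy
            rw [hC1b y (fun h => hxT (h ▸ hy))]
            exact hT y hy

theorem msk_bit (p : ℕ → Bool) : ∀ (n y : ℕ), (msk p n).testBit y = (decide (y < n) && p y) := by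
  intro n
  induction n with
  | zero =>
    intro y
    have : msk p 0 = 0 := rfl
    rw [this, Nat.zero_testBit]
    simp
  | succ n ih =>
    intro y
    have h1 : msk p (n + 1) = Bool.rec (motive := fun _ => ℕ) (msk p n)
      (Nat.lor (msk p n) (Nat.shiftLeft 1 n)) (p n) := rfl
    rw [h1]
    cases hp : p n with
    | false =>
      show (msk p n).testBit y = _
      rw [ih]
      by_cases hy : y = n
      · subst hy
        rw [hp, Bool.and_false, Bool.and_false]
      · have h2 : (y < n) ↔ (y < n + 1) := by omega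
        simp only [h2]
    | true =>
      show (msk p n ||| (1 <<< n)).testBit y = _
      rw [Nat.testBit_or, ih, Nat.shiftLeft_eq, one_mul, Nat.testBit_two_pow]
      by_cases hy : y = n
      · subst hy
        simp [hp]
      · have h2 : (y < n) ↔ (y < n + 1) := by omega
        have h3 : ¬ n = y := fun h => hy h.symm
        simp only [h2, h3, decide_false, Bool.or_false]

/-- every residue class is a unit times its greatest common divisor with `m` -/
theorem unit_gcd {m : ℕ} [NeZero m] (x : ZMod m) :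
    ∃ u : (ZMod m)ˣ, (u : ZMod m) * x = ((Nat.gcd x.val m : ℕ) : ZMod m) := by
  have hm : 0 < m := Nat.pos_of_ne_zero (NeZero.ne m)
  set d := Nat.gcd x.val m with hd
  have hd0 : 0 < d := Nat.gcd_pos_of_pos_right _ hm
  obtain ⟨a, ha⟩ : d ∣ x.val := Nat.gcd_dvd_left _ _
  obtain ⟨n, hn⟩ : d ∣ m := Nat.gcd_dvd_right _ _
  have hn0 : 0 < n := by
    rcases Nat.eq_zero_or_pos n with h | h
    · rw [h, mul_zero] at hn
      omega
    · exact h
  have hcop : Nat.Coprime a n := by
    have h1 : Nat.gcd (d * a) (d * n) = d := by rw [← ha, ← hn]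
    rw [Nat.gcd_mul_left] at h1
    exact Nat.eq_of_mul_eq_mul_left hd0 (by rw [h1, mul_one])
  have : NeZero n := ⟨by omega⟩
  have hnm : n ∣ m := ⟨d, by rw [hn, mul_comm]⟩
  obtain ⟨u, hu⟩ := ZMod.unitsMap_surjective hnm (ZMod.unitOfCoprime a hcop)⁻¹
  refine ⟨u, ?_⟩
  have h2 : ((ZMod.cast (u : ZMod m) : ZMod n)) * (a : ZMod n) = 1 := by
    have h3 : ((ZMod.unitsMap hnm u : (ZMod n)ˣ) : ZMod n) = ZMod.cast (u : ZMod m) := by
      rw [ZMod.unitsMap_def]
      rfl
    rw [← h3, hu]
    have h4 : (((ZMod.unitOfCoprime a hcop)⁻¹ : (ZMod n)ˣ) : ZMod n) *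
        ((ZMod.unitOfCoprime a hcop : (ZMod n)ˣ) : ZMod n) = 1 := Units.inv_mul _
    rwa [ZMod.coe_unitOfCoprime] at h4
  have h5 : (((u : ZMod m).val * a : ℕ) : ZMod n) = ((1 : ℕ) : ZMod n) := by
    rw [Nat.cast_mul, Nat.cast_one, ← h2]
    congr 1
    rw [ZMod.cast_eq_val]
  rw [ZMod.natCast_eq_natCast_iff] at h5
  have h6 : d * ((u : ZMod m).val * a) ≡ d * 1 [MOD m] :=
    Eq.subst (motive := fun M => d * ((u : ZMod m).val * a) ≡ d * 1 [MOD M]) hn.symm
      (Nat.ModEq.mul_left' d h5)
  rw [← ZMod.natCast_eq_natCast_iff] at h6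
  rw [mul_one] at h6
  rw [← h6]
  push_cast
  rw [ZMod.natCast_zmod_val]
  have h7 : x = ((d * a : ℕ) : ZMod m) := by rw [← ha, ZMod.natCast_zmod_val]
  rw [h7]
  push_cast
  ring

theorem gcd_unit {m : ℕ} [NeZero m] (u : (ZMod m)ˣ) (x : ZMod m) :
    Nat.gcd ((u : ZMod m) * x).val m = Nat.gcd x.val m := by
  have hm : 0 < m := Nat.pos_of_ne_zero (NeZero.ne m)
  have key : ∀ (v : (ZMod m)ˣ) (y : ZMod m), Nat.gcd y.val m ∣ Nat.gcd ((v : ZMod m) * y).val m := by
    intro v y
    refine Nat.dvd_gcd ?_ (Nat.gcd_dvd_right _ _)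
    rw [ZMod.val_mul]
    refine (Nat.dvd_mod_iff (Nat.gcd_dvd_right _ _)).2 ?_
    exact dvd_mul_of_dvd_right (Nat.gcd_dvd_left _ _) _
  refine Nat.dvd_antisymm ?_ (key u x)
  have h1 := key u⁻¹ ((u : ZMod m) * x)
  rwa [← mul_assoc, Units.inv_mul, one_mul] at h1

theorem rep_one (m d : ℕ) (hd : 0 < d) (hdm : d < m) :
    Rep m (Nat.lor 1 (Nat.shiftLeft 1 (Nat.sub m d)))
      ({b : ZMod m | ∃ U ⊆ (∅ : Finset (ZMod m)), ∑ u ∈ U, u = b} ∪
        (fun b => b + (d : ZMod m)) '' {b : ZMod m | ∃ U ⊆ (∅ : Finset (ZMod m)), ∑ u ∈ U, u = b}) := by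
  have h1 := rep_step (rep_zero m (by omega)) hdm
  have h2 : (1 ||| rot m 1 d) = Nat.lor 1 (Nat.shiftLeft 1 (Nat.sub m d)) := by
    have h3 : rot m 1 d = 1 <<< (m - d) := by
      unfold rot
      have h4 : (1 >>> d : ℕ) = 0 := by
        rw [Nat.shiftRight_eq_div_pow]
        exact Nat.div_eq_of_lt (Nat.one_lt_two_pow (by omega))
      rw [h4, Nat.or_zero, Nat.shiftLeft_eq, one_mul]
      rw [Nat.and_two_pow_sub_one_eq_mod]
      exact Nat.mod_eq_of_lt (Nat.pow_lt_pow_right (by omega) (by omega))
    rw [h3]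
    rfl
  rw [← h2]
  exact h1

/-- no zero-sum-free set with `k` elements avoids the units -/
theorem nos_sound (m k : ℕ) [NeZero m] (hk : 0 < k) (h : nos m k = true) (S : Finset (ZMod m))
    (hS : ZSF S) (hcard : S.card = k) : ∃ s ∈ S, IsUnit s := by
  classical
  by_contra hcon
  push Not at hcon
  have hne : S.Nonempty := Finset.card_pos.1 (by rw [hcard]; exact hk)
  obtain ⟨x, hxS, hxmin⟩ := Finset.exists_min_image S (fun x => Nat.gcd x.val m) hne
  set d := Nat.gcd x.val m with hd
  have hm : 0 < m := Nat.pos_of_ne_zero (NeZero.ne m)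
  have hdm : d ∣ m := Nat.gcd_dvd_right _ _
  have hx0 : x.val ≠ 0 := fun h0 => hS.zero_notMem ((ZMod.val_eq_zero x).1 h0 ▸ hxS)
  have hdlt : d < m := by
    have h1 : d ≤ x.val := Nat.le_of_dvd (Nat.pos_of_ne_zero hx0) (Nat.gcd_dvd_left _ _)
    exact lt_of_le_of_lt h1 (ZMod.val_lt x)
  have hd0 : 0 < d := Nat.gcd_pos_of_pos_right _ hm
  have hd1 : d ≠ 1 := by
    intro h1
    have h2 := hcon x hxS
    rw [← ZMod.natCast_zmod_val x, ZMod.isUnit_iff_coprime] at h2
    exact h2 h1
  obtain ⟨u, hu⟩ := unit_gcd x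
  set S' := S.image (fun y => (u : ZMod m) * y) with hS'
  have hz : ZSF S' := zsf_smul S hS u
  have hcard' : S'.card = k := by
    rw [hS', Finset.card_image_of_injective _ (fun a b h => by simpa using h), hcard]
  have hdS' : ((d : ℕ) : ZMod m) ∈ S' := Finset.mem_image.2 ⟨x, hxS, hu⟩
  have hS'gcd : ∀ y ∈ S', d ≤ Nat.gcd y.val m := by
    intro y hy
    obtain ⟨z, hz1, rfl⟩ := Finset.mem_image.1 hy
    show d ≤ Nat.gcd ((u : ZMod m) * z).val m
    rw [gcd_unit]
    exact hxmin z hz1
  -- the search at `d`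
  have htop : top m k d = false := by
    unfold nos at h
    rw [List.all_eq_true] at h
    have h1 := h d (List.mem_range.2 hdlt)
    rw [if_pos ⟨by omega, Nat.mod_eq_zero_of_dvd hdm⟩] at h1
    simpa using h1
  unfold top at htop
  simp only [frc_eq] at htop
  set N := Nat.lor 1 (Nat.shiftLeft 1 (Nat.sub m d)) with hN
  set C := msk (fun y => Nat.ble d (Nat.gcd y m) && !(Nat.beq y d) && !(N.testBit y)) m with hC
  have hM : Nat.sub (Nat.shiftLeft 1 m) 1 = 2 ^ m - 1 := by
    have h1 : Nat.shiftLeft 1 m = 1 <<< m := rfl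
    rw [h1, Nat.shiftLeft_eq, one_mul]
    rfl
  rw [hM] at htop
  have hR := rep_one m d hd0 hdlt
  rw [← hN] at hR
  set T := (S'.erase ((d : ℕ) : ZMod m)).image ZMod.val with hT
  have hvinj : Function.Injective (ZMod.val : ZMod m → ℕ) := ZMod.val_injective m
  have hTcard : T.card = k - 1 := by
    rw [hT, Finset.card_image_of_injective _ hvinj, Finset.card_erase_of_mem hdS', hcard']
  have hdval : ((d : ℕ) : ZMod m).val = d := ZMod.val_natCast_of_lt hdlt
  -- `T` is good
  have hg0 : Gd {b : ZMod m | ∃ U ⊆ (∅ : Finset (ZMod m)), ∑ u ∈ U, u = b} (S'.image ZMod.val) := by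
    intro U hU hne2
    rintro ⟨V, hV, hsum⟩
    rw [Finset.subset_empty] at hV
    subst hV
    rw [Finset.sum_empty] at hsum
    have h2 : ∑ y ∈ U, (y : ZMod m) = 0 := by
      rw [← neg_eq_zero]
      exact hsum.symm
    obtain ⟨W, hW, rfl⟩ := Finset.subset_image_iff.1 hU
    rw [Finset.sum_image (fun a _ b _ h => hvinj h)] at h2
    refine hz W (by exact_mod_cast hW) (Finset.image_nonempty.1 hne2) ?_
    rw [← h2]
    exact Finset.sum_congr rfl fun y _ => (ZMod.natCast_zmod_val y).symm
  have hdI : d ∈ S'.image ZMod.val := Finset.mem_image.2 ⟨_, hdS', hdval⟩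
  have hg1 := hg0.step hdI
  have hTI : T ⊆ (S'.image ZMod.val).erase d := by
    intro y hy
    rw [hT, Finset.mem_image] at hy
    obtain ⟨z, hz1, rfl⟩ := hy
    rw [Finset.mem_erase] at hz1
    rw [Finset.mem_erase]
    refine ⟨fun h3 => hz1.1 ?_, Finset.mem_image.2 ⟨z, hz1.2, rfl⟩⟩
    rw [← h3, ZMod.natCast_zmod_val]
  have hg := hg1.mono hTI
  refine bs_sound m (m + 1) (k - 1) C N _ hR ?_ htop T ?_ hTcard hg
  · intro y hy
    rw [hC, msk_bit, Bool.and_eq_true, decide_eq_true_iff] at hy
    exact hy.1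
  · intro y hy
    have hym : y < m := by
      rw [hT, Finset.mem_image] at hy
      obtain ⟨z, _, rfl⟩ := hy
      exact ZMod.val_lt z
    have hyd : y ≠ d := by
      have := hTI hy
      rw [Finset.mem_erase] at this
      exact this.1
    have hyg : d ≤ Nat.gcd y m := by
      have := hTI hy
      rw [Finset.mem_erase, Finset.mem_image] at this
      obtain ⟨_, z, hz1, rfl⟩ := this
      exact hS'gcd z hz1
    have hyN : N.testBit y = false := by
      have h5 := hg.one hy
      have h6 : ¬ N.testBit y = true := fun h7 => h5 ((hR.2 y hym).1 h7)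
      simpa using h6
    rw [hC, msk_bit, hyN, show Nat.beq y d = false from by
      cases hb : Nat.beq y d with
      | false => rfl
      | true => exact absurd (Nat.eq_of_beq_eq_true hb) hyd]
    have h8 : Nat.ble d (Nat.gcd y m) = true := Nat.ble_eq_true_of_le hyg
    rw [h8]
    simp [hym]

/-- a maximum set contains a unit -/
theorem none_of (m k : ℕ) [NeZero m] (l : List ℕ) (hl : chk m l 1 = true) (hnd : l.Nodup)
    (hlen : l.length = k) (hk : 0 < k) (hlt : ∀ x ∈ l, x < m) (h : nos m k = true) :
    ∀ S : Finset (ZMod m), ZSF S → (∀ S' : Finset (ZMod m), ZSF S' → S'.card ≤ S.card) →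
      ∃ s ∈ S, IsUnit s := by
  classical
  intro S hS hmax
  have hm : 0 < m := Nat.pos_of_ne_zero (NeZero.ne m)
  have hz := zsf_of_good l ∅ (by
    intro T hT hne
    rw [Finset.subset_empty] at hT
    exact absurd hT hne.ne_empty) (good_of_chk m l 1 _ (rep_zero m hm) hl)
  rw [Finset.empty_union] at hz
  have hnd' : (l.map (Nat.cast : ℕ → ZMod m)).Nodup :=
    List.Nodup.map_on (fun x hx y hy h => cast_inj_lt (hlt x hx) (hlt y hy) h) hnd
  have h1 := hmax _ hz
  rw [List.toFinset_card_of_nodup hnd', List.length_map, hlen] at h1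
  obtain ⟨T, hT1, hT2⟩ := Finset.exists_subset_card_eq h1
  obtain ⟨s, hs, hu⟩ := nos_sound m k hk h T (hS.mono hT1) hT2
  exact ⟨s, hT1 hs, hu⟩

end Pool.Agent.Lib.MP_d75b76_nt
end

section

/-!
# Small moduli without a maximum zero-sum-free set which avoids units
-/

set_option autoImplicit false
set_option linter.unusedSectionVars false
set_option maxRecDepth 100000

open Finset

namespace Pool.Agent.Lib.MP_d75b76_nt

theorem nn2 : ∀ S : Finset (ZMod 2), ZSF S →
    (∀ S' : Finset (ZMod 2), ZSF S' → S'.card ≤ S.card) → ∃ s ∈ S, IsUnit s :=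
  none_of 2 1 [1] (by decide +kernel) (by decide +kernel)
    rfl (by norm_num) (by decide +kernel) (by decide +kernel)

theorem nn3 : ∀ S : Finset (ZMod 3), ZSF S →
    (∀ S' : Finset (ZMod 3), ZSF S' → S'.card ≤ S.card) → ∃ s ∈ S, IsUnit s :=
  none_of 3 1 [1] (by decide +kernel) (by decide +kernel)
    rfl (by norm_num) (by decide +kernel) (by decide +kernel)

theorem nn4 : ∀ S : Finset (ZMod 4), ZSF S →
    (∀ S' : Finset (ZMod 4), ZSF S' → S'.card ≤ S.card) → ∃ s ∈ S, IsUnit s :=
  none_of 4 2 [1, 2] (by decide +kernel) (by decide +kernel)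
    rfl (by norm_num) (by decide +kernel) (by decide +kernel)

theorem nn5 : ∀ S : Finset (ZMod 5), ZSF S →
    (∀ S' : Finset (ZMod 5), ZSF S' → S'.card ≤ S.card) → ∃ s ∈ S, IsUnit s :=
  none_of 5 2 [1, 2] (by decide +kernel) (by decide +kernel)
    rfl (by norm_num) (by decide +kernel) (by decide +kernel)

theorem nn6 : ∀ S : Finset (ZMod 6), ZSF S →
    (∀ S' : Finset (ZMod 6), ZSF S' → S'.card ≤ S.card) → ∃ s ∈ S, IsUnit s :=
  none_of 6 3 [4, 1, 3] (by decide +kernel) (by decide +kernel)
    rfl (by norm_num) (by decide +kernel) (by decide +kernel)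

theorem nn7 : ∀ S : Finset (ZMod 7), ZSF S →
    (∀ S' : Finset (ZMod 7), ZSF S' → S'.card ≤ S.card) → ∃ s ∈ S, IsUnit s :=
  none_of 7 3 [5, 1, 3] (by decide +kernel) (by decide +kernel)
    rfl (by norm_num) (by decide +kernel) (by decide +kernel)

theorem nn8 : ∀ S : Finset (ZMod 8), ZSF S →
    (∀ S' : Finset (ZMod 8), ZSF S' → S'.card ≤ S.card) → ∃ s ∈ S, IsUnit s :=
  none_of 8 3 [6, 1, 3] (by decide +kernel) (by decide +kernel)
    rfl (by norm_num) (by decide +kernel) (by decide +kernel)

theorem nn9 : ∀ S : Finset (ZMod 9), ZSF S →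
    (∀ S' : Finset (ZMod 9), ZSF S' → S'.card ≤ S.card) → ∃ s ∈ S, IsUnit s :=
  none_of 9 4 [7, 1, 3, 4] (by decide +kernel) (by decide +kernel)
    rfl (by norm_num) (by decide +kernel) (by decide +kernel)

theorem nn10 : ∀ S : Finset (ZMod 10), ZSF S →
    (∀ S' : Finset (ZMod 10), ZSF S' → S'.card ≤ S.card) → ∃ s ∈ S, IsUnit s :=
  none_of 10 4 [8, 1, 3, 4] (by decide +kernel) (by decide +kernel)
    rfl (by norm_num) (by decide +kernel) (by decide +kernel)

theorem nn11 : ∀ S : Finset (ZMod 11), ZSF S →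
    (∀ S' : Finset (ZMod 11), ZSF S' → S'.card ≤ S.card) → ∃ s ∈ S, IsUnit s :=
  none_of 11 4 [9, 1, 3, 4] (by decide +kernel) (by decide +kernel)
    rfl (by norm_num) (by decide +kernel) (by decide +kernel)

theorem nn13 : ∀ S : Finset (ZMod 13), ZSF S →
    (∀ S' : Finset (ZMod 13), ZSF S' → S'.card ≤ S.card) → ∃ s ∈ S, IsUnit s :=
  none_of 13 4 [11, 1, 3, 4] (by decide +kernel) (by decide +kernel)
    rfl (by norm_num) (by decide +kernel) (by decide +kernel)

theorem nn14 : ∀ S : Finset (ZMod 14), ZSF S →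
    (∀ S' : Finset (ZMod 14), ZSF S' → S'.card ≤ S.card) → ∃ s ∈ S, IsUnit s :=
  none_of 14 5 [12, 1, 3, 4, 5] (by decide +kernel) (by decide +kernel)
    rfl (by norm_num) (by decide +kernel) (by decide +kernel)

theorem nn15 : ∀ S : Finset (ZMod 15), ZSF S →
    (∀ S' : Finset (ZMod 15), ZSF S' → S'.card ≤ S.card) → ∃ s ∈ S, IsUnit s :=
  none_of 15 5 [13, 1, 3, 4, 5] (by decide +kernel) (by decide +kernel)
    rfl (by norm_num) (by decide +kernel) (by decide +kernel)

theorem nn16 : ∀ S : Finset (ZMod 16), ZSF S →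
    (∀ S' : Finset (ZMod 16), ZSF S' → S'.card ≤ S.card) → ∃ s ∈ S, IsUnit s :=
  none_of 16 5 [14, 1, 3, 4, 5] (by decide +kernel) (by decide +kernel)
    rfl (by norm_num) (by decide +kernel) (by decide +kernel)

theorem nn17 : ∀ S : Finset (ZMod 17), ZSF S →
    (∀ S' : Finset (ZMod 17), ZSF S' → S'.card ≤ S.card) → ∃ s ∈ S, IsUnit s :=
  none_of 17 5 [15, 1, 3, 4, 5] (by decide +kernel) (by decide +kernel)
    rfl (by norm_num) (by decide +kernel) (by decide +kernel)

theorem nn19 : ∀ S : Finset (ZMod 19), ZSF S →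
    (∀ S' : Finset (ZMod 19), ZSF S' → S'.card ≤ S.card) → ∃ s ∈ S, IsUnit s :=
  none_of 19 5 [17, 1, 3, 4, 5] (by decide +kernel) (by decide +kernel)
    rfl (by norm_num) (by decide +kernel) (by decide +kernel)

theorem nn20 : ∀ S : Finset (ZMod 20), ZSF S →
    (∀ S' : Finset (ZMod 20), ZSF S' → S'.card ≤ S.card) → ∃ s ∈ S, IsUnit s :=
  none_of 20 6 [18, 1, 3, 4, 5, 6] (by decide +kernel) (by decide +kernel)
    rfl (by norm_num) (by decide +kernel) (by decide +kernel)

theorem nn21 : ∀ S : Finset (ZMod 21), ZSF S →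
    (∀ S' : Finset (ZMod 21), ZSF S' → S'.card ≤ S.card) → ∃ s ∈ S, IsUnit s :=
  none_of 21 6 [19, 1, 3, 4, 5, 6] (by decide +kernel) (by decide +kernel)
    rfl (by norm_num) (by decide +kernel) (by decide +kernel)

theorem nn22 : ∀ S : Finset (ZMod 22), ZSF S →
    (∀ S' : Finset (ZMod 22), ZSF S' → S'.card ≤ S.card) → ∃ s ∈ S, IsUnit s :=
  none_of 22 6 [20, 1, 3, 4, 5, 6] (by decide +kernel) (by decide +kernel)
    rfl (by norm_num) (by decide +kernel) (by decide +kernel)

theorem nn23 : ∀ S : Finset (ZMod 23), ZSF S →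
    (∀ S' : Finset (ZMod 23), ZSF S' → S'.card ≤ S.card) → ∃ s ∈ S, IsUnit s :=
  none_of 23 6 [21, 1, 3, 4, 5, 6] (by decide +kernel) (by decide +kernel)
    rfl (by norm_num) (by decide +kernel) (by decide +kernel)

theorem nn25 : ∀ S : Finset (ZMod 25), ZSF S →
    (∀ S' : Finset (ZMod 25), ZSF S' → S'.card ≤ S.card) → ∃ s ∈ S, IsUnit s :=
  none_of 25 6 [23, 1, 3, 4, 5, 6] (by decide +kernel) (by decide +kernel)
    rfl (by norm_num) (by decide +kernel) (by decide +kernel)

theorem nn26 : ∀ S : Finset (ZMod 26), ZSF S →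
    (∀ S' : Finset (ZMod 26), ZSF S' → S'.card ≤ S.card) → ∃ s ∈ S, IsUnit s :=
  none_of 26 6 [24, 1, 3, 4, 5, 6] (by decide +kernel) (by decide +kernel)
    rfl (by norm_num) (by decide +kernel) (by decide +kernel)

theorem nn27 : ∀ S : Finset (ZMod 27), ZSF S →
    (∀ S' : Finset (ZMod 27), ZSF S' → S'.card ≤ S.card) → ∃ s ∈ S, IsUnit s :=
  none_of 27 7 [25, 1, 3, 4, 5, 6, 7] (by decide +kernel) (by decide +kernel)
    rfl (by norm_num) (by decide +kernel) (by decide +kernel)

theorem nn28 : ∀ S : Finset (ZMod 28), ZSF S →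
    (∀ S' : Finset (ZMod 28), ZSF S' → S'.card ≤ S.card) → ∃ s ∈ S, IsUnit s :=
  none_of 28 7 [26, 1, 3, 4, 5, 6, 7] (by decide +kernel) (by decide +kernel)
    rfl (by norm_num) (by decide +kernel) (by decide +kernel)

theorem nn29 : ∀ S : Finset (ZMod 29), ZSF S →
    (∀ S' : Finset (ZMod 29), ZSF S' → S'.card ≤ S.card) → ∃ s ∈ S, IsUnit s :=
  none_of 29 7 [27, 1, 3, 4, 5, 6, 7] (by decide +kernel) (by decide +kernel)
    rfl (by norm_num) (by decide +kernel) (by decide +kernel)

theorem nn31 : ∀ S : Finset (ZMod 31), ZSF S →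
    (∀ S' : Finset (ZMod 31), ZSF S' → S'.card ≤ S.card) → ∃ s ∈ S, IsUnit s :=
  none_of 31 7 [29, 1, 3, 4, 5, 6, 7] (by decide +kernel) (by decide +kernel)
    rfl (by norm_num) (by decide +kernel) (by decide +kernel)

theorem nn32 : ∀ S : Finset (ZMod 32), ZSF S →
    (∀ S' : Finset (ZMod 32), ZSF S' → S'.card ≤ S.card) → ∃ s ∈ S, IsUnit s :=
  none_of 32 7 [30, 1, 3, 4, 5, 6, 7] (by decide +kernel) (by decide +kernel)
    rfl (by norm_num) (by decide +kernel) (by decide +kernel)

theorem nn33 : ∀ S : Finset (ZMod 33), ZSF S →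
    (∀ S' : Finset (ZMod 33), ZSF S' → S'.card ≤ S.card) → ∃ s ∈ S, IsUnit s :=
  none_of 33 7 [31, 1, 3, 4, 5, 6, 7] (by decide +kernel) (by decide +kernel)
    rfl (by norm_num) (by decide +kernel) (by decide +kernel)

theorem nn34 : ∀ S : Finset (ZMod 34), ZSF S →
    (∀ S' : Finset (ZMod 34), ZSF S' → S'.card ≤ S.card) → ∃ s ∈ S, IsUnit s :=
  none_of 34 7 [32, 1, 3, 4, 5, 6, 7] (by decide +kernel) (by decide +kernel)
    rfl (by norm_num) (by decide +kernel) (by decide +kernel)

theorem nn35 : ∀ S : Finset (ZMod 35), ZSF S →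
    (∀ S' : Finset (ZMod 35), ZSF S' → S'.card ≤ S.card) → ∃ s ∈ S, IsUnit s :=
  none_of 35 8 [33, 1, 3, 4, 5, 6, 7, 8] (by decide +kernel) (by decide +kernel)
    rfl (by norm_num) (by decide +kernel) (by decide +kernel)

theorem nn36 : ∀ S : Finset (ZMod 36), ZSF S →
    (∀ S' : Finset (ZMod 36), ZSF S' → S'.card ≤ S.card) → ∃ s ∈ S, IsUnit s :=
  none_of 36 8 [34, 1, 3, 4, 5, 6, 7, 8] (by decide +kernel) (by decide +kernel)
    rfl (by norm_num) (by decide +kernel) (by decide +kernel)

theorem nn37 : ∀ S : Finset (ZMod 37), ZSF S →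
    (∀ S' : Finset (ZMod 37), ZSF S' → S'.card ≤ S.card) → ∃ s ∈ S, IsUnit s :=
  none_of 37 8 [35, 1, 3, 4, 5, 6, 7, 8] (by decide +kernel) (by decide +kernel)
    rfl (by norm_num) (by decide +kernel) (by decide +kernel)

theorem nn38 : ∀ S : Finset (ZMod 38), ZSF S →
    (∀ S' : Finset (ZMod 38), ZSF S' → S'.card ≤ S.card) → ∃ s ∈ S, IsUnit s :=
  none_of 38 8 [36, 1, 3, 4, 5, 6, 7, 8] (by decide +kernel) (by decide +kernel)
    rfl (by norm_num) (by decide +kernel) (by decide +kernel)

theorem nn39 : ∀ S : Finset (ZMod 39), ZSF S →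
    (∀ S' : Finset (ZMod 39), ZSF S' → S'.card ≤ S.card) → ∃ s ∈ S, IsUnit s :=
  none_of 39 8 [37, 1, 3, 4, 5, 6, 7, 8] (by decide +kernel) (by decide +kernel)
    rfl (by norm_num) (by decide +kernel) (by decide +kernel)

theorem nn40 : ∀ S : Finset (ZMod 40), ZSF S →
    (∀ S' : Finset (ZMod 40), ZSF S' → S'.card ≤ S.card) → ∃ s ∈ S, IsUnit s :=
  none_of 40 8 [38, 1, 3, 4, 5, 6, 7, 8] (by decide +kernel) (by decide +kernel)
    rfl (by norm_num) (by decide +kernel) (by decide +kernel)

theorem nn41 : ∀ S : Finset (ZMod 41), ZSF S →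
    (∀ S' : Finset (ZMod 41), ZSF S' → S'.card ≤ S.card) → ∃ s ∈ S, IsUnit s :=
  none_of 41 8 [39, 1, 3, 4, 5, 6, 7, 8] (by decide +kernel) (by decide +kernel)
    rfl (by norm_num) (by decide +kernel) (by decide +kernel)

theorem nn42 : ∀ S : Finset (ZMod 42), ZSF S →
    (∀ S' : Finset (ZMod 42), ZSF S' → S'.card ≤ S.card) → ∃ s ∈ S, IsUnit s :=
  none_of 42 9 [1, 2, 3, 4, 21, 22, 23, 24, 25] (by decide +kernel) (by decide +kernel)
    rfl (by norm_num) (by decide +kernel) (by decide +kernel)

theorem nn43 : ∀ S : Finset (ZMod 43), ZSF S →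
    (∀ S' : Finset (ZMod 43), ZSF S' → S'.card ≤ S.card) → ∃ s ∈ S, IsUnit s :=
  none_of 43 8 [41, 1, 3, 4, 5, 6, 7, 8] (by decide +kernel) (by decide +kernel)
    rfl (by norm_num) (by decide +kernel) (by decide +kernel)

theorem nn44 : ∀ S : Finset (ZMod 44), ZSF S →
    (∀ S' : Finset (ZMod 44), ZSF S' → S'.card ≤ S.card) → ∃ s ∈ S, IsUnit s :=
  none_of 44 9 [42, 1, 3, 4, 5, 6, 7, 8, 9] (by decide +kernel) (by decide +kernel)
    rfl (by norm_num) (by decide +kernel) (by decide +kernel)

theorem nn45 : ∀ S : Finset (ZMod 45), ZSF S →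
    (∀ S' : Finset (ZMod 45), ZSF S' → S'.card ≤ S.card) → ∃ s ∈ S, IsUnit s :=
  none_of 45 9 [43, 1, 3, 4, 5, 6, 7, 8, 9] (by decide +kernel) (by decide +kernel)
    rfl (by norm_num) (by decide +kernel) (by decide +kernel)

theorem nn46 : ∀ S : Finset (ZMod 46), ZSF S →
    (∀ S' : Finset (ZMod 46), ZSF S' → S'.card ≤ S.card) → ∃ s ∈ S, IsUnit s :=
  none_of 46 9 [44, 1, 3, 4, 5, 6, 7, 8, 9] (by decide +kernel) (by decide +kernel)
    rfl (by norm_num) (by decide +kernel) (by decide +kernel)

theorem nn47 : ∀ S : Finset (ZMod 47), ZSF S →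
    (∀ S' : Finset (ZMod 47), ZSF S' → S'.card ≤ S.card) → ∃ s ∈ S, IsUnit s :=
  none_of 47 9 [45, 1, 3, 4, 5, 6, 7, 8, 9] (by decide +kernel) (by decide +kernel)
    rfl (by norm_num) (by decide +kernel) (by decide +kernel)

end Pool.Agent.Lib.MP_d75b76_nt
end

section

/-!
# Small moduli without a maximum zero-sum-free set which avoids units
-/

set_option autoImplicit false
set_option linter.unusedSectionVars false
set_option maxRecDepth 100000

open Finset

namespace Pool.Agent.Lib.MP_d75b76_nt

theorem nn48 : ∀ S : Finset (ZMod 48), ZSF S →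
    (∀ S' : Finset (ZMod 48), ZSF S' → S'.card ≤ S.card) → ∃ s ∈ S, IsUnit s :=
  none_of 48 9 [46, 1, 3, 4, 5, 6, 7, 8, 9] (by decide +kernel) (by decide +kernel)
    rfl (by norm_num) (by decide +kernel) (by decide +kernel)

theorem nn49 : ∀ S : Finset (ZMod 49), ZSF S →
    (∀ S' : Finset (ZMod 49), ZSF S' → S'.card ≤ S.card) → ∃ s ∈ S, IsUnit s :=
  none_of 49 9 [47, 1, 3, 4, 5, 6, 7, 8, 9] (by decide +kernel) (by decide +kernel)
    rfl (by norm_num) (by decide +kernel) (by decide +kernel)

end Pool.Agent.Lib.MP_d75b76_nt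
end

section

/-!
# Small moduli without a maximum zero-sum-free set which avoids units
-/

set_option autoImplicit false
set_option linter.unusedSectionVars false
set_option maxRecDepth 100000

open Finset

namespace Pool.Agent.Lib.MP_d75b76_nt

theorem nn50 : ∀ S : Finset (ZMod 50), ZSF S →
    (∀ S' : Finset (ZMod 50), ZSF S' → S'.card ≤ S.card) → ∃ s ∈ S, IsUnit s :=
  none_of 50 9 [48, 1, 3, 4, 5, 6, 7, 8, 9] (by decide +kernel) (by decide +kernel)
    rfl (by norm_num) (by decide +kernel) (by decide +kernel)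

theorem nn51 : ∀ S : Finset (ZMod 51), ZSF S →
    (∀ S' : Finset (ZMod 51), ZSF S' → S'.card ≤ S.card) → ∃ s ∈ S, IsUnit s :=
  none_of 51 9 [49, 1, 3, 4, 5, 6, 7, 8, 9] (by decide +kernel) (by decide +kernel)
    rfl (by norm_num) (by decide +kernel) (by decide +kernel)

theorem nn52 : ∀ S : Finset (ZMod 52), ZSF S →
    (∀ S' : Finset (ZMod 52), ZSF S' → S'.card ≤ S.card) → ∃ s ∈ S, IsUnit s :=
  none_of 52 9 [50, 1, 3, 4, 5, 6, 7, 8, 9] (by decide +kernel) (by decide +kernel)
    rfl (by norm_num) (by decide +kernel) (by decide +kernel)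

theorem nn53 : ∀ S : Finset (ZMod 53), ZSF S →
    (∀ S' : Finset (ZMod 53), ZSF S' → S'.card ≤ S.card) → ∃ s ∈ S, IsUnit s :=
  none_of 53 9 [51, 1, 3, 4, 5, 6, 7, 8, 9] (by decide +kernel) (by decide +kernel)
    rfl (by norm_num) (by decide +kernel) (by decide +kernel)

end Pool.Agent.Lib.MP_d75b76_nt
end

section

/-!
# Small moduli without a maximum zero-sum-free set which avoids units
-/

set_option autoImplicit false
set_option linter.unusedSectionVars false
set_option maxRecDepth 100000

open Finset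

namespace Pool.Agent.Lib.MP_d75b76_nt

theorem nn54 : ∀ S : Finset (ZMod 54), ZSF S →
    (∀ S' : Finset (ZMod 54), ZSF S' → S'.card ≤ S.card) → ∃ s ∈ S, IsUnit s :=
  none_of 54 10 [52, 1, 3, 4, 5, 6, 7, 8, 9, 10] (by decide +kernel) (by decide +kernel)
    rfl (by norm_num) (by decide +kernel) (by decide +kernel)

theorem nn55 : ∀ S : Finset (ZMod 55), ZSF S →
    (∀ S' : Finset (ZMod 55), ZSF S' → S'.card ≤ S.card) → ∃ s ∈ S, IsUnit s :=
  none_of 55 10 [53, 1, 3, 4, 5, 6, 7, 8, 9, 10] (by decide +kernel) (by decide +kernel)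
    rfl (by norm_num) (by decide +kernel) (by decide +kernel)

end Pool.Agent.Lib.MP_d75b76_nt
end

section

/-!
# Small moduli without a maximum zero-sum-free set which avoids units
-/

set_option autoImplicit false
set_option linter.unusedSectionVars false
set_option maxRecDepth 100000

open Finset

namespace Pool.Agent.Lib.MP_d75b76_nt

theorem nn56 : ∀ S : Finset (ZMod 56), ZSF S →
    (∀ S' : Finset (ZMod 56), ZSF S' → S'.card ≤ S.card) → ∃ s ∈ S, IsUnit s :=
  none_of 56 10 [54, 1, 3, 4, 5, 6, 7, 8, 9, 10] (by decide +kernel) (by decide +kernel)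
    rfl (by norm_num) (by decide +kernel) (by decide +kernel)

theorem nn57 : ∀ S : Finset (ZMod 57), ZSF S →
    (∀ S' : Finset (ZMod 57), ZSF S' → S'.card ≤ S.card) → ∃ s ∈ S, IsUnit s :=
  none_of 57 10 [55, 1, 3, 4, 5, 6, 7, 8, 9, 10] (by decide +kernel) (by decide +kernel)
    rfl (by norm_num) (by decide +kernel) (by decide +kernel)

theorem nn58 : ∀ S : Finset (ZMod 58), ZSF S →
    (∀ S' : Finset (ZMod 58), ZSF S' → S'.card ≤ S.card) → ∃ s ∈ S, IsUnit s :=
  none_of 58 10 [56, 1, 3, 4, 5, 6, 7, 8, 9, 10] (by decide +kernel) (by decide +kernel)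
    rfl (by norm_num) (by decide +kernel) (by decide +kernel)

theorem nn59 : ∀ S : Finset (ZMod 59), ZSF S →
    (∀ S' : Finset (ZMod 59), ZSF S' → S'.card ≤ S.card) → ∃ s ∈ S, IsUnit s :=
  none_of 59 10 [57, 1, 3, 4, 5, 6, 7, 8, 9, 10] (by decide +kernel) (by decide +kernel)
    rfl (by norm_num) (by decide +kernel) (by decide +kernel)

end Pool.Agent.Lib.MP_d75b76_nt
end
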