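import Pool.Agent.Lib.MP_d75b76_nt.F3
import Pool.Agent.Lib.MP_d75b76_nt.A2
import Pool.Agent.Lib.MP_d75b76_nt.E2

section

/-!
# One growth step
-/

set_option autoImplicit false
set_option linter.unusedSectionVars false

open Finset Pointwise

namespace Pool.Agent.Lib.MP_d75b76_nt

open RG (stb mem_stb)
open AM (sf off mem_sf mem_off card_sf zero_mem_sf)
open Pool.Agent.Lib.MP_d3cc86_co (lam Asym symz)

variable {G : Type} [AddCommGroup G] [Fintype G]

/-- Let `n = |V|`, `g = n - (n / P + 1)`; then `P g ≤ (P - 1) n` (`P (n / P + 1) ≥ n`), so `Thick V g` by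
`thick`. Apply `AM.stage V V.subsetSum` with `L := P`: `V.subsetSum ⊆ closure V`; `1 ≤ g`;
`g P + 1 ≤ |V.subsetSum|`: `quad` gives `10^7 |V.subsetSum| ≥ n^2 ≥ 2 * 10^7 P n`, so
`|V.subsetSum| ≥ 2 P n ≥ g P + 1`; `|V.subsetSum| + g P + 1 ≤ Nat.card (closure V)` from `hN` (`g ≤ n`).
Result: `x ∈ V` with `g P + 1 ≤ P lam + g`, so
`P lam ≥ (P - 1) g + 1 ≥ (P - 1)(n - n / P - 1) + 1 ≥ (P - 1) n - n - P + 2 ≥ (P - 3) n` (`n ≥ P`). -/
theorem step0 [DecidableEq G] (V : Finset G) (hV : Asym V) (hz : ZSF V) (P : ℕ) (hP : 10 ≤ P)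
    (h1 : 800 * P ^ 2 ≤ V.card) (h2 : 2 * 10 ^ 7 * P ≤ V.card)
    (hN : V.subsetSum.card + P * V.card + 1 ≤ Nat.card (AddSubgroup.closure (V : Set G))) :
    ∃ x ∈ V, (P - 3) * V.card ≤ P * lam V.subsetSum x := by
  have hmem : ∀ x ∈ V.subsetSum, x ∈ AddSubgroup.closure (V : Set G) := by
    intro x hx
    obtain ⟨B, hB, rfl⟩ := Finset.mem_subsetSum_iff.1 hx
    exact AddSubgroup.sum_mem _ (fun b hb => AddSubgroup.subset_closure (hB hb))
  obtain ⟨q, rfl⟩ : ∃ q, P = q + 3 := ⟨P - 3, by omega⟩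
  set n := V.card with hn
  set d := n / (q + 3) with hd
  have hd1 : (q + 3) * d ≤ n := by
    rw [hd]; exact Nat.mul_div_le n (q + 3)
  have hd2 : n < (q + 3) * (d + 1) := by
    rw [hd]; exact Nat.lt_mul_div_succ n (by omega)
  have hn0 : 1 ≤ n := by nlinarith
  have hdn : 10 * d ≤ n := le_trans (Nat.mul_le_mul_right d hP) hd1
  have hnbig : 100 ≤ n := by nlinarith
  have hdn1 : d + 1 + 1 ≤ n := by omega
  obtain ⟨g, hg⟩ : ∃ g, n = g + (d + 1) := ⟨n - (d + 1), by omega⟩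
  have hg1 : 1 ≤ g := by omega
  have hgn : g ≤ n := by omega
  have hT : AM.Thick V g := by
    refine thick V hV hz (q + 3) g (by omega) h1 ?_
    rw [← hn]
    have e1 : q + 3 - 1 = q + 2 := by omega
    rw [e1]
    have e2 : (q + 3) * n = (q + 3) * g + (q + 3) * (d + 1) := by
      rw [hg]; ring
    nlinarith
  have hq := quad V hV hz
  rw [← hn] at hq
  have hS : 2 * (q + 3) * n ≤ V.subsetSum.card := by
    have h3 : 2 * 10 ^ 7 * (q + 3) * n ≤ n ^ 2 := by
      rw [pow_two]; exact Nat.mul_le_mul_right n h2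
    have h4 : 10 ^ 7 * (2 * (q + 3) * n) ≤ 10 ^ 7 * V.subsetSum.card := by
      calc 10 ^ 7 * (2 * (q + 3) * n) = 2 * 10 ^ 7 * (q + 3) * n := by ring
        _ ≤ n ^ 2 := h3
        _ ≤ _ := hq
    exact Nat.le_of_mul_le_mul_left h4 (by positivity)
  have hgP : g * (q + 3) ≤ (q + 3) * n := by
    rw [mul_comm]; exact Nat.mul_le_mul_left _ hgn
  obtain ⟨x, hx, hx1⟩ := AM.stage V V.subsetSum hV hmem g (q + 3) hg1 (by omega) hT
    (by nlinarith) (by omega)
  refine ⟨x, hx, ?_⟩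
  have e3 : q + 3 - 3 = q := by omega
  rw [e3]
  have e4 : g * (q + 3) = (q + 2) * g + g := by ring
  have e5 : (q + 2) * n = (q + 2) * g + (q + 2) * d + (q + 2) := by
    rw [hg]; ring
  have e6 : (q + 2) * n = q * n + 2 * n := by ring
  have e7 : (q + 3) * d = (q + 2) * d + d := by ring
  have e8 : q + 3 ≤ n := by nlinarith
  omega

end Pool.Agent.Lib.MP_d75b76_nt
end

section

/-!
# The subset sums of a part of `A` do not nearly fill the whole group
-/

set_option autoImplicit false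
set_option linter.unusedSectionVars false

open Finset Pointwise

namespace Pool.Agent.Lib.MP_d75b76_nt

open RG (stb mem_stb)
open AM (sf off mem_sf mem_off card_sf zero_mem_sf)
open Pool.Agent.Lib.MP_d3cc86_co (lam Asym symz)

variable {G : Type} [AddCommGroup G] [Fintype G]

/-- Case `H = closure V = ⊤`. Suppose `|G| ≤ |V.subsetSum| + P n`, `n = |V|`, `P = PP L`, `k = |A|`. Let
`R = A \ V`, `|R| = k - n`. `halves` with `H = ⊤`: `|V.subsetSum| + |R.subsetSum| ≤ |G| + 1`, so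
`|R.subsetSum| ≤ P n + 1 ≤ P k + 1`. `quad` for `R`: `|R|^2 ≤ 10^7 (P k + 1) ≤ 2 * 10^7 P k`. `h2` is
`k ≤ P |R|`, so `k^2 ≤ P^2 |R|^2 ≤ 2 * 10^7 P^3 k`, `k ≤ 2 * 10^7 P^3 = 2 * 10^58 L^12`, contradiction to
`big_aux` (`(2 * 10^58 + 1) L^12 ≤ k`). -/
theorem notfull_top [DecidableEq G] {A V : Finset G} {L : ℕ} (hG : Good A L) (hV : V ⊆ A)
    (h2 : A.card ≤ PP L * (A.card - V.card)) :
    V.subsetSum.card + PP L * V.card + 1 ≤ Fintype.card G := by
  by_contra hcon
  have hP : 1 ≤ PP L := by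
    have h1 : 0 < L := by have := hG.L1000; omega
    exact Nat.mul_pos (by norm_num) (Nat.pow_pos h1)
  have hn : V.card ≤ A.card := Finset.card_le_card hV
  have hRc : (A \ V).card = A.card - V.card := Finset.card_sdiff_of_subset hV
  have hh := halves A V (A \ V) hG.zsf hV Finset.sdiff_subset Finset.disjoint_sdiff ⊤
    (fun v _ => AddSubgroup.mem_top v) (fun v _ => AddSubgroup.mem_top v)
  have htop : Nat.card (⊤ : AddSubgroup G) = Fintype.card G := by
    rw [Nat.card_congr (AddSubgroup.topEquiv (G := G)).toEquiv, Nat.card_eq_fintype_card]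
  rw [htop] at hh
  have hq := quad (A \ V) (fun a ha hna => hG.asym a (Finset.sdiff_subset ha)
    (Finset.sdiff_subset hna)) (hG.zsf.mono Finset.sdiff_subset)
  rw [hRc] at hq
  have hk1 : 1 * L ^ 0 ≤ A.card := big_aux hG.L1000 hG.big (by norm_num) (by norm_num)
  have hb := big_aux hG.L1000 hG.big (a := 12) (by norm_num) (C := 2 * 10 ^ 58 + 1) (by norm_num)
  have hL12 : 0 < L ^ 12 := Nat.pow_pos (by have := hG.L1000; omega)
  generalize hPd : PP L = P at *
  have hPP : P ^ 3 = 10 ^ 51 * L ^ 12 := by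
    rw [← hPd, PP]; ring
  generalize hk : A.card = k at *
  generalize hr : k - V.card = r at *
  generalize (A \ V).subsetSum.card = sR at *
  have h3 : sR ≤ P * k + 1 := by
    have h4 : P * V.card ≤ P * k := Nat.mul_le_mul_left _ hn
    omega
  have hkpos : 1 ≤ k := by simpa using hk1
  have h5 : r ^ 2 ≤ 2 * 10 ^ 7 * (P * k) := by
    have h6 : 1 ≤ P * k := Nat.mul_pos hP hkpos
    calc r ^ 2 ≤ 10 ^ 7 * sR := hq
      _ ≤ 10 ^ 7 * (P * k + 1) := Nat.mul_le_mul_left _ h3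
      _ ≤ 2 * 10 ^ 7 * (P * k) := by omega
  have h7 : k * k ≤ (2 * 10 ^ 7 * P ^ 3) * k := by
    calc k * k ≤ (P * r) * (P * r) := Nat.mul_le_mul h2 h2
      _ = P ^ 2 * r ^ 2 := by ring
      _ ≤ P ^ 2 * (2 * 10 ^ 7 * (P * k)) := Nat.mul_le_mul_left _ h5
      _ = (2 * 10 ^ 7 * P ^ 3) * k := by ring
  have h8 : k ≤ 2 * 10 ^ 7 * P ^ 3 := Nat.le_of_mul_le_mul_right h7 hkpos
  rw [hPP] at h8
  have h9 : 2 * 10 ^ 7 * (10 ^ 51 * L ^ 12) = 2 * 10 ^ 58 * L ^ 12 := by ring
  rw [h9] at h8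
  have h10 : (2 * 10 ^ 58 + 1) * L ^ 12 = 2 * 10 ^ 58 * L ^ 12 + L ^ 12 := by ring
  rw [h10] at hb
  omega

end Pool.Agent.Lib.MP_d75b76_nt
end

section

/-!
# The subset sums of a large part of `A` do not nearly fill the subgroup they generate
-/

set_option autoImplicit false
set_option linter.unusedSectionVars false

open Finset Pointwise

namespace Pool.Agent.Lib.MP_d75b76_nt

open RG (stb mem_stb)
open AM (sf off mem_sf mem_off card_sf zero_mem_sf)
open Pool.Agent.Lib.MP_d3cc86_co (lam Asym symz)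

variable {G : Type} [AddCommGroup G] [Fintype G]

/-- `H` is any proper subgroup with `V ⊆ H`. Suppose `|H| ≤ |V.subsetSum| + P n`, `n = |V|`, `P = PP L`,
`k = |A|`, `q = H.index`, `q |H| = |G| ≤ k^2` (`AddSubgroup.card_mul_index`). Then `np_arith` gives a
contradiction. Its hypotheses: `olson` for `V` in `H`: `n^2 < 400 |H|`. `hG.nc H`: `3 k ≤ L |off A H|`
(`inn_add_off`). Pigeonhole for the map `off A H → G ⧸ H` (`q` classes): there is `x₀` such that
`X = {x ∈ off A H : x - x₀ ∈ H}` satisfies `|off A H| ≤ q |X|`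
(`Finset.exists_le_card_fiber_of_mul_le_card_of_maps_to` or
`Finset.card_eq_sum_card_fiberwise`), so `3 k ≤ q L |X|`. If `2 q ≤ |X|` then `class_sums` gives
`|X|^2 ≤ 4 * 10^7 q (|H| - |V.subsetSum|) ≤ 4 * 10^7 q (P n)`. -/
theorem notfull_proper [DecidableEq G] {A V : Finset G} {L : ℕ} (hG : Good A L) (hV : V ⊆ A)
    (h1 : A.card ≤ 10 ^ 8 * L ^ 2 * V.card) (H : AddSubgroup G) (hH : H ≠ ⊤)
    (hVH : ∀ v ∈ V, v ∈ H) : V.subsetSum.card + PP L * V.card + 1 ≤ Nat.card H := by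
  classical
  by_contra hcon
  have hle : Nat.card H - V.subsetSum.card ≤ PP L * V.card := by omega
  have : Fintype (G ⧸ H) := Fintype.ofFinite _
  have hidx : H.index = Fintype.card (G ⧸ H) := by
    rw [AddSubgroup.index, Nat.card_eq_fintype_card]
  have hfib : ∑ c : G ⧸ H, ((off A H).filter (fun x => (QuotientAddGroup.mk x : G ⧸ H) = c)).card =
      (off A H).card := by
    rw [← Finset.card_eq_sum_card_fiberwise]
    intro s _
    exact Finset.mem_coe.2 (Finset.mem_univ _)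
  obtain ⟨c, hc⟩ : ∃ c : G ⧸ H, (off A H).card ≤
      H.index * ((off A H).filter (fun x => (QuotientAddGroup.mk x : G ⧸ H) = c)).card := by
    by_contra! hcon2
    have h4 : ∑ c : G ⧸ H,
        H.index * ((off A H).filter (fun x => (QuotientAddGroup.mk x : G ⧸ H) = c)).card <
        ∑ _c : G ⧸ H, (off A H).card :=
      Finset.sum_lt_sum_of_nonempty ⟨0, Finset.mem_univ _⟩ (fun c _ => hcon2 c)
    rw [← Finset.mul_sum, hfib, Finset.sum_const, Finset.card_univ, smul_eq_mul, ← hidx] at h4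
    exact lt_irrefl _ h4
  obtain ⟨x₀, rfl⟩ := QuotientAddGroup.mk_surjective c
  set X := (off A H).filter (fun x => (QuotientAddGroup.mk x : G ⧸ H) = QuotientAddGroup.mk x₀)
    with hX
  have hXA : X ⊆ A := fun x hx => ((mem_off A H x).1 (Finset.mem_filter.1 hx).1).1
  have hXH : ∀ x ∈ X, x ∉ H := fun x hx => ((mem_off A H x).1 (Finset.mem_filter.1 hx).1).2
  have hXx : ∀ x ∈ X, x - x₀ ∈ H := by
    intro x hx
    have h1 := QuotientAddGroup.eq.1 (Finset.mem_filter.1 hx).2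
    have h2 := H.neg_mem h1
    have h3 : -(-x + x₀) = x - x₀ := by abel
    rwa [h3] at h2
  have hn : V.card ≤ A.card := Finset.card_le_card hV
  have hols := olson V (hG.asym.mono hV) (hG.zsf.mono hV) H hVH
  have hnc := hG.nc H hH
  have hio := inn_add_off A H
  have hsize : H.index * Nat.card H ≤ A.card ^ 2 := by
    rw [mul_comm, AddSubgroup.card_mul_index, Nat.card_eq_fintype_card]
    exact hG.size
  refine np_arith A.card V.card L H.index X.card (Nat.card H) hG.L1000 hG.big hn h1 hsize hols ?_ ?_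
  · have h5 : L * A.card = L * (inn A H).card + L * (off A H).card := by
      rw [← hio, Nat.mul_add]
    have h6 : L * (off A H).card ≤ H.index * L * X.card := by
      calc L * (off A H).card ≤ L * (H.index * X.card) := Nat.mul_le_mul_left _ hc
        _ = H.index * L * X.card := by ring
    omega
  · intro hq
    exact (class_sums A V X hG.asym hG.zsf hV hXA H hVH x₀ hXx hXH hq).trans
      (Nat.mul_le_mul_left _ hle)

/-- the two cases together (`by_cases closure V = ⊤`; `Nat.card (⊤ : AddSubgroup G) = Fintype.card G`) -/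
theorem notfull [DecidableEq G] {A V : Finset G} {L : ℕ} (hG : Good A L) (hV : V ⊆ A)
    (h1 : A.card ≤ 10 ^ 8 * L ^ 2 * V.card) (h2 : A.card ≤ PP L * (A.card - V.card)) :
    V.subsetSum.card + PP L * V.card + 1 ≤ Nat.card (AddSubgroup.closure (V : Set G)) := by
  by_cases htop : AddSubgroup.closure (V : Set G) = ⊤
  · have h3 : Nat.card (AddSubgroup.closure (V : Set G)) = Fintype.card G := by
      rw [htop, Nat.card_congr (AddSubgroup.topEquiv (G := G)).toEquiv, Nat.card_eq_fintype_card]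
    rw [h3]
    exact notfull_top hG hV h2
  · exact notfull_proper hG hV h1 _ htop fun v hv => AddSubgroup.subset_closure hv

end Pool.Agent.Lib.MP_d75b76_nt
end

section

/-!
# The growth steps
-/

set_option autoImplicit false
set_option linter.unusedSectionVars false

open Finset Pointwise

namespace Pool.Agent.Lib.MP_d75b76_nt

open RG (stb mem_stb)
open AM (sf off mem_sf mem_off card_sf zero_mem_sf)
open Pool.Agent.Lib.MP_d3cc86_co (lam Asym symz)

variable {G : Type} [AddCommGroup G] [Fintype G]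

/-- the numerical part: `|V|` is large compared with powers of `L` -/
private lemma step_num {L k n C a : ℕ} (hL : 1000 ≤ L) (hk : L ^ 50 ≤ k)
    (h1 : k ≤ 10 ^ 8 * L ^ 2 * n) (ha : a + 2 ≤ 50) (hC : 10 ^ 8 * C ≤ 1000 ^ (50 - (a + 2))) :
    C * L ^ a ≤ n := by
  have h2 : 10 ^ 8 * C * L ^ (a + 2) ≤ k := big_aux hL hk ha hC
  have h3 : 0 < 10 ^ 8 * L ^ 2 := by
    have : 0 < L := by omega
    positivity
  refine Nat.le_of_mul_le_mul_left (c := 10 ^ 8 * L ^ 2) ?_ h3
  calc 10 ^ 8 * L ^ 2 * (C * L ^ a) = 10 ^ 8 * C * L ^ (a + 2) := by ring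
    _ ≤ k := h2
    _ ≤ 10 ^ 8 * L ^ 2 * n := h1

/-- `step0` with `P = PP L` and `notfull`. `V` is asymmetric and zero-sum-free (`Asym.mono`, `ZSF.mono`).
`k = |A| ≤ 10^8 L^2 |V|`; `800 P^2 = 8 * 10^36 L^8 ≤ |V|` because `10^8 L^2 * 8 * 10^36 L^8 ≤ k` (`big_aux`) and
similarly `2 * 10^7 P ≤ |V|`. -/
theorem step [DecidableEq G] {A V : Finset G} {L : ℕ} (hG : Good A L) (hV : V ⊆ A)
    (h1 : A.card ≤ 10 ^ 8 * L ^ 2 * V.card) (h2 : A.card ≤ PP L * (A.card - V.card)) :
    ∃ x ∈ V, (PP L - 3) * V.card ≤ PP L * lam V.subsetSum x := by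
  have hL := hG.L1000
  have hP : 10 ≤ PP L := by
    unfold PP
    have h3 : 1 ≤ L ^ 4 := Nat.one_le_pow _ _ (by omega)
    omega
  refine step0 V (hG.asym.mono hV) (hG.zsf.mono hV) (PP L) hP ?_ ?_ (notfull hG hV h1 h2)
  · have h3 : 8 * 10 ^ 36 * L ^ 8 ≤ V.card :=
      step_num hL hG.big h1 (by norm_num) (by norm_num)
    calc 800 * PP L ^ 2 = 8 * 10 ^ 36 * L ^ 8 := by
          unfold PP
          ring
      _ ≤ V.card := h3
  · have h3 : 2 * 10 ^ 24 * L ^ 4 ≤ V.card :=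
      step_num hL hG.big h1 (by norm_num) (by norm_num)
    calc 2 * 10 ^ 7 * PP L = 2 * 10 ^ 24 * L ^ 4 := by
          unfold PP
          ring
      _ ≤ V.card := h3

end Pool.Agent.Lib.MP_d75b76_nt
end

section

/-!
# Simple properties of the sets `V` with `Win A L V`
-/

set_option autoImplicit false
set_option linter.unusedSectionVars false

open Finset Pointwise

namespace Pool.Agent.Lib.MP_d75b76_nt

open RG (stb mem_stb)
open AM (sf off mem_sf mem_off card_sf zero_mem_sf)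
open Pool.Agent.Lib.MP_d3cc86_co (lam Asym symz)

variable {G : Type} [AddCommGroup G] [Fintype G]

/-- `hG.nc H`: `L |inn A H| + 3 k ≤ L k`. If `W ⊆ H` then `W ⊆ inn A H`, `L |W| + 3 k ≤ L k`, so
`3 k ≤ L (k - |W|)`, contradiction. -/
theorem not_in {A W : Finset G} {L : ℕ} (hG : Good A L) (hW : W ⊆ A)
    (h : L * (A.card - W.card) < 3 * A.card) (H : AddSubgroup G) (hH : H ≠ ⊤) :
    ¬ ∀ w ∈ W, w ∈ H := by
  intro hall
  have h1 := hG.nc H hH
  have h2 : W ⊆ inn A H := fun w hw => (mem_inn A H w).2 ⟨hW hw, hall w hw⟩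
  have h3 : L * W.card ≤ L * (inn A H).card := Nat.mul_le_mul_left L (Finset.card_le_card h2)
  have h4 : L * W.card ≤ L * A.card := Nat.mul_le_mul_left L (Finset.card_le_card hW)
  rw [Nat.mul_sub] at h
  omega

/-- `not_in` for `H = closure W` -/
theorem closure_top {A W : Finset G} {L : ℕ} (hG : Good A L) (hW : W ⊆ A)
    (h : L * (A.card - W.card) < 3 * A.card) : AddSubgroup.closure (W : Set G) = ⊤ := by
  by_contra hne
  exact not_in hG hW h _ hne (fun w hw => AddSubgroup.subset_closure (Finset.mem_coe.2 hw))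

/-- `499 k ≤ 500 n`; and `n < k`. -/
theorem win_card {A V : Finset G} {L : ℕ} (hG : Good A L) (hV : Win A L V) :
    499 * A.card ≤ 500 * V.card ∧ V.card < A.card := by
  have hk : L ^ 50 ≤ A.card := hG.big
  have hL : 1000 ≤ L := hG.L1000
  have hlo := hV.lo
  have hhi := hV.hi
  have hc : V.card ≤ A.card := Finset.card_le_card hV.sub
  have hpos : 1 * L ^ 0 ≤ A.card := big_aux hL hk (by norm_num) (by norm_num)
  have h1 : 1000 * (A.card - V.card) ≤ L * (A.card - V.card) := Nat.mul_le_mul_right _ hL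
  refine ⟨by omega, ?_⟩
  by_contra hcon
  have h0 : A.card - V.card = 0 := by omega
  rw [h0] at hhi
  simp at hpos hhi
  exact absurd hhi (by
    intro h
    rw [h] at hpos
    simp at hpos)

/-- `k = |A|`, `n = |V|`. `L (k - n) ≤ 2 k` gives `500 n ≥ 499 k`. `quad` for `V`: `n^2 ≤ 10^7 |V.subsetSum|`,
which gives the first claim. Let `R = A \ V`, `k ≤ L |R|`. `halves` (`H = ⊤`):
`|V.subsetSum| + |R.subsetSum| ≤ |G| + 1`; `quad` for `R`: `k^2 ≤ L^2 |R|^2 ≤ 10^7 L^2 |R.subsetSum| ≤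
10^7 L^2 (|G| - |V.subsetSum| + 1)`. Since `k^2 > 2 * 10^7 L^2`, `|G| - |V.subsetSum| ≥ 1` and the second
claim follows. -/
theorem cmin [DecidableEq G] {A V : Finset G} {L : ℕ} (hG : Good A L) (hV : Win A L V) :
    A.card ^ 2 ≤ 2 * 10 ^ 7 * L ^ 2 * V.subsetSum.card ∧
      A.card ^ 2 ≤ 2 * 10 ^ 7 * L ^ 2 * (Fintype.card G - V.subsetSum.card) := by
  have hk : L ^ 50 ≤ A.card := hG.big
  have hL : 1000 ≤ L := hG.L1000
  obtain ⟨hwc, hlt⟩ := win_card hG hV
  have hq : V.card ^ 2 ≤ 10 ^ 7 * V.subsetSum.card :=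
    quad V (fun a ha hna => hG.asym a (hV.sub ha) (hV.sub hna)) (hG.zsf.mono hV.sub)
  have hL2 : 1000 ^ 2 ≤ L ^ 2 := Nat.pow_le_pow_left hL 2
  refine ⟨?_, ?_⟩
  · have h1 : (499 * A.card) ^ 2 ≤ (500 * V.card) ^ 2 := Nat.pow_le_pow_left hwc 2
    have h2 : (2 : ℕ) * V.subsetSum.card * 1000 ^ 2 ≤ 2 * V.subsetSum.card * L ^ 2 :=
      Nat.mul_le_mul_left _ hL2
    nlinarith [h1, h2, hq]
  · have hR : (A \ V) ⊆ A := Finset.sdiff_subset
    have hRc : (A \ V).card = A.card - V.card := Finset.card_sdiff_of_subset hV.sub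
    have hqR : (A \ V).card ^ 2 ≤ 10 ^ 7 * (A \ V).subsetSum.card :=
      quad (A \ V) (fun a ha hna => hG.asym a (hR ha) (hR hna)) (hG.zsf.mono hR)
    have hh := halves A V (A \ V) hG.zsf hV.sub hR Finset.disjoint_sdiff ⊤
      (fun _ _ => AddSubgroup.mem_top _) (fun _ _ => AddSubgroup.mem_top _)
    rw [AddSubgroup.card_top, Nat.card_eq_fintype_card] at hh
    have hVG : V.subsetSum.card ≤ Fintype.card G := Finset.card_le_univ _
    have hhi := hV.hi
    rw [← hRc] at hhi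
    have h1 : A.card ^ 2 ≤ (L * (A \ V).card) ^ 2 := Nat.pow_le_pow_left hhi 2
    obtain ⟨D, hD⟩ : ∃ D, Fintype.card G = V.subsetSum.card + D := ⟨_, (Nat.add_sub_cancel' hVG).symm⟩
    have hD2 : Fintype.card G - V.subsetSum.card = D := by omega
    rw [hD2]
    have hS : (A \ V).subsetSum.card ≤ D + 1 := by omega
    have h2 : A.card ^ 2 ≤ 10 ^ 7 * L ^ 2 * (D + 1) := by
      calc A.card ^ 2 ≤ (L * (A \ V).card) ^ 2 := h1
        _ = L ^ 2 * (A \ V).card ^ 2 := by ring
        _ ≤ L ^ 2 * (10 ^ 7 * (A \ V).subsetSum.card) := Nat.mul_le_mul_left _ hqR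
        _ ≤ L ^ 2 * (10 ^ 7 * (D + 1)) :=
            Nat.mul_le_mul_left _ (Nat.mul_le_mul_left _ hS)
        _ = 10 ^ 7 * L ^ 2 * (D + 1) := by ring
    have hbig : (10 ^ 7 + 1) * L ^ 2 ≤ A.card := big_aux hL hk (by norm_num) (by norm_num)
    have hA1 : A.card ≤ A.card ^ 2 := Nat.le_self_pow (by norm_num) _
    have hDpos : 1 ≤ D := by
      rcases Nat.eq_zero_or_pos D with h0 | h0
      · subst h0
        nlinarith [h2, hbig, hA1, hL2]
      · exact h0
    calc A.card ^ 2 ≤ 10 ^ 7 * L ^ 2 * (D + 1) := h2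
      _ ≤ 10 ^ 7 * L ^ 2 * (2 * D) := Nat.mul_le_mul_left _ (by omega)
      _ = 2 * 10 ^ 7 * L ^ 2 * D := by ring

/-- `win_card`, `big_aux`: `V` satisfies the hypotheses of `step`: `k ≤ 10^8 L^2 n`,
`k ≤ L (k - n) ≤ P (k - n)`. -/
theorem win_step [DecidableEq G] {A V : Finset G} {L : ℕ} (hG : Good A L) (hV : Win A L V) :
    ∃ x ∈ V, (PP L - 3) * V.card ≤ PP L * lam V.subsetSum x := by
  have hL : 1000 ≤ L := hG.L1000
  obtain ⟨hwc, hlt⟩ := win_card hG hV
  have hL2 : 1000 ^ 2 ≤ L ^ 2 := Nat.pow_le_pow_left hL 2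
  refine step hG hV.sub ?_ ?_
  · have h1 : 1 * V.card ≤ L ^ 2 * V.card := Nat.mul_le_mul_right _ (by omega)
    have h2 : 10 ^ 8 * L ^ 2 * V.card = 10 ^ 8 * (L ^ 2 * V.card) := by ring
    rw [h2]
    omega
  · have h1 : L ≤ PP L := by
      unfold PP
      have h3 : L ≤ L ^ 4 := Nat.le_self_pow (by norm_num) _
      omega
    exact hV.hi.trans (Nat.mul_le_mul_right _ h1)

/-- `L (k - n) ≤ 2 k < 3 k`: `closure_top`. -/
theorem win_top {A V : Finset G} {L : ℕ} (hG : Good A L) (hV : Win A L V) :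
    AddSubgroup.closure (V : Set G) = ⊤ := by
  have hpos : 0 < A.card := by
    obtain ⟨_, hlt⟩ := win_card hG hV
    omega
  have hlo := hV.lo
  exact closure_top hG hV.sub (by omega)

end Pool.Agent.Lib.MP_d75b76_nt
end

section

/-!
# The crude upper bound for `|A|`
-/

set_option autoImplicit false
set_option linter.unusedSectionVars false

open Finset Pointwise

namespace Pool.Agent.Lib.MP_d75b76_nt

open RG (stb mem_stb)
open AM (sf off mem_sf mem_off card_sf zero_mem_sf)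
open Pool.Agent.Lib.MP_d3cc86_co (lam Asym symz)

variable {G : Type} [AddCommGroup G] [Fintype G]

/-- `k = |A|`, `P = PP L`. `chain` with `a = k / (10^8 L^2)`, `b = k - (k / P + 1)`, `K = P`,
`f i = (P - 3) i` and `step`: for `i > a` `k ≤ 10^8 L^2 i` (`Nat.lt_mul_div_succ` or
`Nat.div_lt_iff_lt_mul`), for `i ≤ b` `k ≤ P (k - i)`; `a ≤ b ≤ k`. So
`∑_{i ∈ Ioc a b} (P - 3) i ≤ P |A.subsetSum| ≤ P |G|`; `upper_arith`. -/
theorem upper [DecidableEq G] {A : Finset G} {L : ℕ} (hG : Good A L) :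
    49 * A.card ^ 2 ≤ 100 * Fintype.card G := by
  have hL := hG.L1000
  have hD : 0 < 10 ^ 8 * L ^ 2 := by
    have : 0 < L := by omega
    positivity
  have hP : 10 ^ 17 ≤ PP L := by
    have h1 : 1 ≤ L ^ 4 := Nat.one_le_pow _ _ (by omega)
    unfold PP
    calc 10 ^ 17 = 10 ^ 17 * 1 := by norm_num
      _ ≤ 10 ^ 17 * L ^ 4 := Nat.mul_le_mul_left _ h1
  have hk : 10 ^ 8 ≤ A.card := by
    have h1 := big_aux hL hG.big (a := 0) (C := 10 ^ 8) (by norm_num) (by norm_num)
    simpa using h1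
  have hkP : 10 ^ 8 * (A.card / PP L) ≤ A.card := by
    calc 10 ^ 8 * (A.card / PP L) ≤ PP L * (A.card / PP L) :=
          Nat.mul_le_mul_right _ (by omega)
      _ ≤ A.card := Nat.mul_div_le _ _
  have hka : 10 ^ 8 * (A.card / (10 ^ 8 * L ^ 2)) ≤ A.card := by
    have hL2 : 1 ≤ L ^ 2 := Nat.one_le_pow _ _ (by omega)
    calc 10 ^ 8 * (A.card / (10 ^ 8 * L ^ 2))
        ≤ (10 ^ 8 * L ^ 2) * (A.card / (10 ^ 8 * L ^ 2)) :=
          Nat.mul_le_mul_right _ (by omega)
      _ ≤ A.card := Nat.mul_div_le _ _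
  have hmain := chain A (A.card / (10 ^ 8 * L ^ 2)) (A.card - (A.card / PP L + 1)) (PP L)
    (fun i => (PP L - 3) * i) (by
      intro V hV h1 h2
      refine step hG hV ?_ ?_
      · have h3 : A.card < V.card * (10 ^ 8 * L ^ 2) := (Nat.div_lt_iff_lt_mul hD).1 h1
        rw [Nat.mul_comm]
        exact h3.le
      · have h3 : A.card / PP L + 1 ≤ A.card - V.card := by omega
        calc A.card ≤ PP L * (A.card / PP L + 1) :=
              (Nat.lt_mul_div_succ _ (by omega)).le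
          _ ≤ PP L * (A.card - V.card) := Nat.mul_le_mul_left _ h3)
    (by omega) (by omega)
  refine upper_arith A.card (Fintype.card G) L _ _ hL hG.big rfl rfl (hmain.trans ?_)
  exact Nat.mul_le_mul_left _ (Finset.card_le_univ _)

end Pool.Agent.Lib.MP_d75b76_nt
end

section

/-!
# A large subset all of whose elements have nearly minimal growth
-/

set_option autoImplicit false
set_option linter.unusedSectionVars false

open Finset Pointwise

namespace Pool.Agent.Lib.MP_d75b76_nt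

open RG (stb mem_stb)
open AM (sf off mem_sf mem_off card_sf zero_mem_sf)
open Pool.Agent.Lib.MP_d3cc86_co (lam Asym symz)

variable {G : Type} [AddCommGroup G] [Fintype G]

/-- `k = |A|`, `P = PP L`. Suppose the conclusion fails: for every `V` with `Win A L V` there is
`x ∈ V` with `(P + 9 L) |V| < P lam V.subsetSum x`. Let `a = k / (10^8 L^2)`, `b = k - (k / P + 1)`,
`a1 = k - 2 k / L`, `b1 = k - (k / L + 1)`. For `a1 < i ≤ b1` every `V ⊆ A` with `|V| = i` satisfies
`Win A L V` (`L (2 k / L) ≤ 2 k`, `L (k / L + 1) ≥ k`). `chain` with `K = P` and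
`f i = if a1 < i ∧ i ≤ b1 then (P + 9 L) i else (P - 3) i` (`step` for the other `i`: `i > a` gives
`k ≤ 10^8 L^2 i`, `i ≤ b` gives `k ≤ P (k - i)`): `∑_{i ∈ Ioc a b} f i ≤ P |A.subsetSum| ≤ P |G|`,
contradiction by `tight_arith`. -/
theorem tight [DecidableEq G] {A : Finset G} {L : ℕ} (hG : Good A L)
    (hs : 2 * Fintype.card G ≤ A.card ^ 2 + 6 * A.card) :
    ∃ V, Win A L V ∧ ∀ x ∈ V, PP L * lam V.subsetSum x ≤ (PP L + 9 * L) * V.card := by
  have hL := hG.L1000
  have hD : 0 < 10 ^ 8 * L ^ 2 := by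
    have : 0 < L := by omega
    positivity
  have hP : 10 ^ 17 ≤ PP L := by
    have h1 : 1 ≤ L ^ 4 := Nat.one_le_pow _ _ (by omega)
    unfold PP
    calc 10 ^ 17 = 10 ^ 17 * 1 := by norm_num
      _ ≤ 10 ^ 17 * L ^ 4 := Nat.mul_le_mul_left _ h1
  have hk : 10 ^ 8 ≤ A.card := by
    have h1 := big_aux hL hG.big (a := 0) (C := 10 ^ 8) (by norm_num) (by norm_num)
    simpa using h1
  have hkP : 10 ^ 8 * (A.card / PP L) ≤ A.card := by
    calc 10 ^ 8 * (A.card / PP L) ≤ PP L * (A.card / PP L) :=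
          Nat.mul_le_mul_right _ (by omega)
      _ ≤ A.card := Nat.mul_div_le _ _
  have hka : 10 ^ 8 * (A.card / (10 ^ 8 * L ^ 2)) ≤ A.card := by
    have hL2 : 1 ≤ L ^ 2 := Nat.one_le_pow _ _ (by omega)
    calc 10 ^ 8 * (A.card / (10 ^ 8 * L ^ 2))
        ≤ (10 ^ 8 * L ^ 2) * (A.card / (10 ^ 8 * L ^ 2)) :=
          Nat.mul_le_mul_right _ (by omega)
      _ ≤ A.card := Nat.mul_div_le _ _
  by_contra hcon
  push Not at hcon
  have hmain := chain A (A.card / (10 ^ 8 * L ^ 2)) (A.card - (A.card / PP L + 1)) (PP L)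
    (fun i => if A.card - 2 * A.card / L < i ∧ i ≤ A.card - (A.card / L + 1) then
      (PP L + 9 * L) * i else (PP L - 3) * i) (by
      intro V hV h1 h2
      by_cases hc : A.card - 2 * A.card / L < V.card ∧ V.card ≤ A.card - (A.card / L + 1)
      · have hW : Win A L V := by
          obtain ⟨hc1, hc2⟩ := hc
          refine ⟨hV, ?_, ?_⟩
          · have h3 : A.card - V.card ≤ 2 * A.card / L := by omega
            exact (Nat.mul_le_mul_left _ h3).trans (Nat.mul_div_le _ _)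
          · have h3 : A.card / L + 1 ≤ A.card - V.card := by omega
            calc A.card ≤ L * (A.card / L + 1) := (Nat.lt_mul_div_succ _ (by omega)).le
              _ ≤ L * (A.card - V.card) := Nat.mul_le_mul_left _ h3
        obtain ⟨x, hx, hlt⟩ := hcon V hW
        refine ⟨x, hx, ?_⟩
        simp only [if_pos hc]
        exact hlt.le
      · have h3 : A.card < V.card * (10 ^ 8 * L ^ 2) := (Nat.div_lt_iff_lt_mul hD).1 h1
        have h4 : A.card / PP L + 1 ≤ A.card - V.card := by omega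
        obtain ⟨x, hx, hle⟩ := step hG hV (by rw [Nat.mul_comm]; exact h3.le) (by
          calc A.card ≤ PP L * (A.card / PP L + 1) :=
                (Nat.lt_mul_div_succ _ (by omega)).le
            _ ≤ PP L * (A.card - V.card) := Nat.mul_le_mul_left _ h4)
        refine ⟨x, hx, ?_⟩
        simp only [if_neg hc]
        exact hle)
    (by omega) (by omega)
  exact tight_arith A.card (Fintype.card G) L _ _ _ _ hL hG.big rfl rfl rfl rfl hs
    (hmain.trans (Nat.mul_le_mul_left _ (Finset.card_le_univ _)))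

end Pool.Agent.Lib.MP_d75b76_nt
end

section

/-!
# Lower bounds modulo a subgroup
-/

set_option autoImplicit false
set_option linter.unusedSectionVars false

open Finset Pointwise

namespace Pool.Agent.Lib.MP_d75b76_nt

open RG (stb mem_stb)
open AM (sf off mem_sf mem_off card_sf zero_mem_sf)
open Pool.Agent.Lib.MP_d3cc86_co (lam Asym symz)

variable {G : Type} [AddCommGroup G] [Fintype G]

/-- arithmetic: if `c^2 < 400 h`, `h ≤ 10 v`, `v` huge compared with `L`, then `c ≤ v / (10^6 L)` -/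
private lemma inn_num {L v c : ℕ} (hL : 1000 ≤ L) (hv : 10 ^ 20 * L ^ 2 ≤ v) (hc : c ^ 2 < 4000 * v) :
    c ≤ v / (10 ^ 6 * L) := by
  have hpos : 0 < 10 ^ 6 * L := by omega
  rw [Nat.le_div_iff_mul_le hpos]
  by_contra hcon
  push Not at hcon
  have h1 : v * v < (c * (10 ^ 6 * L)) * (c * (10 ^ 6 * L)) := Nat.mul_self_lt_mul_self hcon
  have h2 : (c * (10 ^ 6 * L)) * (c * (10 ^ 6 * L)) = c ^ 2 * (10 ^ 12 * L ^ 2) := by ring
  have h3 : c ^ 2 * (10 ^ 12 * L ^ 2) ≤ 4000 * v * (10 ^ 12 * L ^ 2) := Nat.mul_le_mul_right _ hc.le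
  have h4 : 4000 * v * (10 ^ 12 * L ^ 2) = v * (4 * 10 ^ 15 * L ^ 2) := by ring
  have h5 : v * (4 * 10 ^ 15 * L ^ 2) ≤ v * v := by
    apply Nat.mul_le_mul_left
    refine le_trans ?_ hv
    apply Nat.mul_le_mul_right
    norm_num
  omega

/-- `olson_in`: `|inn V1 H|^2 < 400 |H| ≤ 4000 v ≤ t^2` because `t ≥ v / (10^6 L) - 1` and `v` is large
(`win_card`, `big_aux`). -/
theorem inn_small [DecidableEq G] {A V V1 : Finset G} {L : ℕ} (hG : Good A L) (hV : Win A L V)
    (h1 : V1 ⊆ V) (t : ℕ) (ht : t = V.card / (10 ^ 6 * L)) (H : AddSubgroup G)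
    (hH : Nat.card H ≤ 10 * V.card) : (inn V1 H).card ≤ t := by
  have hsub : V1 ⊆ A := h1.trans hV.sub
  have ho := olson_in V1 (hG.asym.mono hsub) (hG.zsf.mono hsub) H
  obtain ⟨hwc, hlt⟩ := win_card hG hV
  have hbig : 10 ^ 21 * L ^ 2 ≤ A.card := big_aux hG.L1000 hG.big (by norm_num) (by norm_num)
  subst ht
  refine inn_num hG.L1000 ?_ ?_
  · have h2 : (10 : ℕ) ^ 21 * L ^ 2 = 10 * (10 ^ 20 * L ^ 2) := by ring
    rw [h2] at hbig
    omega
  · refine lt_of_lt_of_le ho ?_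
    omega

/-- `sf H`, `off V1 H`, `-(off V1 H)` are pairwise disjoint subsets of `symz V1 + sf H` (`V1` is
asymmetric; compare the end of the proof of `AM.growth`, file `AM/G1.lean`), and
`|off V1 H| = |V1| - |inn V1 H| ≥ |V1| - t` (`inn_small`, `inn_add_off`). -/
theorem low1 [DecidableEq G] {A V V1 : Finset G} {L : ℕ} (hG : Good A L) (hV : Win A L V)
    (h1 : V1 ⊆ V) (t : ℕ) (ht : t = V.card / (10 ^ 6 * L)) (hv : V.card ≤ V1.card + t)
    (H : AddSubgroup G) (hH : Nat.card H ≤ 10 * V.card) :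
    Nat.card H + 2 * V.card ≤ (symz V1 + sf H).card + 4 * t := by
  classical
  have hsub : V1 ⊆ A := h1.trans hV.sub
  have hasym : Asym V1 := hG.asym.mono hsub
  have hi := inn_small hG hV h1 t ht H hH
  have hio := inn_add_off V1 H
  have h0S : (0 : G) ∈ symz V1 := Finset.mem_insert_self _ _
  have hsub1 : sf H ⊆ symz V1 + sf H := by
    intro h hh
    rw [Finset.mem_add]
    exact ⟨0, h0S, h, hh, zero_add h⟩
  have hs1 : sf H ∪ (off V1 H ∪ -(off V1 H)) ⊆ symz V1 + sf H := by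
    refine Finset.union_subset hsub1 (Finset.union_subset ?_ ?_)
    · intro y hy
      rw [mem_off] at hy
      rw [Finset.mem_add]
      exact ⟨y, Finset.mem_insert_of_mem (Finset.mem_union_left _ hy.1), 0, zero_mem_sf H,
        add_zero y⟩
    · intro y hy
      rw [Finset.mem_neg', mem_off] at hy
      rw [Finset.mem_add]
      exact ⟨y, Finset.mem_insert_of_mem (Finset.mem_union_right _ (Finset.mem_neg'.2 hy.1)),
        0, zero_mem_sf H, add_zero y⟩
  have hs2 : Disjoint (off V1 H) (-(off V1 H)) := by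
    rw [Finset.disjoint_left]
    intro y hy hy'
    rw [Finset.mem_neg', mem_off] at hy'
    rw [mem_off] at hy
    exact hasym y hy.1 hy'.1
  have hs3 : Disjoint (sf H) (off V1 H ∪ -(off V1 H)) := by
    rw [Finset.disjoint_left]
    intro y hy hy'
    rw [mem_sf] at hy
    rcases Finset.mem_union.1 hy' with h4 | h4
    · rw [mem_off] at h4
      exact h4.2 hy
    · rw [Finset.mem_neg', mem_off] at h4
      exact h4.2 (H.neg_mem hy)
  have h4 := Finset.card_le_card hs1
  rw [Finset.card_union_of_disjoint hs3, Finset.card_union_of_disjoint hs2,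
    Finset.card_neg, card_sf] at h4
  omega

end Pool.Agent.Lib.MP_d75b76_nt
end

section

/-!
# The maximal height
-/

set_option autoImplicit false
set_option linter.unusedSectionVars false

open Finset Pointwise

namespace Pool.Agent.Lib.MP_d75b76_nt

open RG (stb mem_stb)
open AM (sf off mem_sf mem_off card_sf zero_mem_sf)
open Pool.Agent.Lib.MP_d3cc86_co (lam Asym symz)

/-- `V1` is not contained in a proper subgroup: `not_in`, `L (k - |V1|) ≤ L (k - v) + L t ≤ 2 k + v / 10^6 < 3 k`. -/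
theorem not_in' {m : ℕ} [NeZero m] {A V V1 : Finset (ZMod m)} {L : ℕ} (hG : Good A L)
    (hV : Win A L V) (h1 : V1 ⊆ V) (t : ℕ) (ht : t = V.card / (10 ^ 6 * L))
    (hv : V.card ≤ V1.card + t) (H : AddSubgroup (ZMod m)) (hH : H ≠ ⊤) :
    ¬ ∀ x ∈ V1, x ∈ H := by
  have hA : V.card ≤ A.card := Finset.card_le_card hV.sub
  have hA1 : V1.card ≤ V.card := Finset.card_le_card h1
  have hlo := hV.lo
  have hpos : 1 * L ^ 0 ≤ A.card := big_aux hG.L1000 hG.big (by norm_num) (by norm_num)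
  have h2 : V.card / (10 ^ 6 * L) * (10 ^ 6 * L) ≤ V.card := Nat.div_mul_le_self _ _
  have h3 : 10 ^ 6 * (L * t) ≤ V.card := by
    rw [ht]
    calc 10 ^ 6 * (L * (V.card / (10 ^ 6 * L))) = V.card / (10 ^ 6 * L) * (10 ^ 6 * L) := by ring
      _ ≤ V.card := h2
  refine not_in hG (h1.trans hV.sub) ?_ H hH
  have h4 : A.card - V1.card ≤ (A.card - V.card) + t := by omega
  have h5 : L * (A.card - V1.card) ≤ L * (A.card - V.card) + L * t := by
    rw [← Nat.mul_add]
    exact Nat.mul_le_mul_left L h4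
  have h6 : 1 ≤ A.card := by simpa using hpos
  omega

/-- some `x ∈ V1` has `r * x ≠ 0`: otherwise `V1` is contained in the proper subgroup
`{y : r * y = 0}` (the kernel of `AddMonoidHom.mulLeft r`; `r * 1 ≠ 0`) -/
theorem exists_ne {m : ℕ} [NeZero m] {A V V1 : Finset (ZMod m)} {L : ℕ} (hG : Good A L)
    (hV : Win A L V) (h1 : V1 ⊆ V) (t : ℕ) (ht : t = V.card / (10 ^ 6 * L))
    (hv : V.card ≤ V1.card + t) (r : ZMod m) (hr : r ≠ 0) : ∃ x ∈ V1, r * x ≠ 0 := by
  by_contra hcon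
  push Not at hcon
  refine not_in' hG hV h1 t ht hv (AddMonoidHom.mulLeft r).ker ?_ ?_
  · intro htop
    have h2 : (1 : ZMod m) ∈ (AddMonoidHom.mulLeft r).ker := by
      rw [htop]; exact AddSubgroup.mem_top _
    rw [AddMonoidHom.mem_ker] at h2
    apply hr
    simpa using h2
  · intro x hx
    rw [AddMonoidHom.mem_ker]
    exact hcon x hx

/-- On `symz V1` the heights satisfy the same inequality (`lft_neg`; height of `0` is `0`). Let `N` be the
maximum of `|(r x).valMinAbs|` on `symz V1`; `N > 0` by `exists_ne` (`ZMod.valMinAbs_eq_zero`); it is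
attained at `x`, and `x₀ = x` or `-x` has height `N`. -/
theorem top_exists {m : ℕ} [NeZero m] {A V V1 : Finset (ZMod m)} {L : ℕ} (hG : Good A L)
    (hV : Win A L V) (h1 : V1 ⊆ V) (t : ℕ) (ht : t = V.card / (10 ^ 6 * L))
    (hv : V.card ≤ V1.card + t) (r : ZMod m) (hr : r ≠ 0)
    (h20 : ∀ x ∈ V1, 20 * |(r * x).valMinAbs| < m) :
    (∀ x ∈ symz V1, 20 * |(r * x).valMinAbs| < m) ∧ ∃ N : ℤ, 0 < N ∧ 20 * N < m ∧
      (∀ x ∈ symz V1, |(r * x).valMinAbs| ≤ N) ∧ ∃ x₀ ∈ symz V1, (r * x₀).valMinAbs = N := by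
  have hm0 : (0 : ℤ) < m := by
    have := Nat.pos_of_neZero m
    exact_mod_cast this
  have hneg : ∀ x : ZMod m, 20 * |(r * x).valMinAbs| < m →
      (r * (-x)).valMinAbs = - (r * x).valMinAbs := by
    intro x hx
    have h2 := lft_neg r x hx
    have h3 := congrArg Prod.snd h2
    simpa [lft] using h3
  have hall : ∀ x ∈ symz V1, 20 * |(r * x).valMinAbs| < m := by
    intro x hx
    simp only [symz, Finset.mem_insert, Finset.mem_union, Finset.mem_neg'] at hx
    rcases hx with rfl | hx | hx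
    · simpa using hm0
    · exact h20 x hx
    · have h2 := hneg (-x) (h20 (-x) hx)
      rw [neg_neg] at h2
      rw [h2, abs_neg]
      exact h20 (-x) hx
  have hsymm : ∀ s ∈ symz V1, -s ∈ symz V1 := by
    intro s hs
    simp only [symz, Finset.mem_insert, Finset.mem_union, Finset.mem_neg'] at hs ⊢
    rcases hs with rfl | hs | hs
    · left; exact neg_zero
    · right; right; rw [neg_neg]; exact hs
    · right; left; exact hs
  refine ⟨hall, ?_⟩
  have h0 : (0 : ZMod m) ∈ symz V1 := by simp [symz]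
  obtain ⟨y, hy, hmax⟩ := Finset.exists_max_image (symz V1) (fun x => |(r * x).valMinAbs|) ⟨0, h0⟩
  obtain ⟨z, hz, hzr⟩ := exists_ne hG hV h1 t ht hv r hr
  have hz' : z ∈ symz V1 := by
    simp only [symz, Finset.mem_insert, Finset.mem_union, Finset.mem_neg']
    right; left; exact hz
  have hpos : 0 < |(r * z).valMinAbs| := by
    rw [abs_pos]
    intro h2
    exact hzr ((ZMod.valMinAbs_eq_zero _).1 h2)
  refine ⟨|(r * y).valMinAbs|, lt_of_lt_of_le hpos (hmax z hz'), hall y hy, hmax, ?_⟩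
  rcases le_total 0 (r * y).valMinAbs with h2 | h2
  · exact ⟨y, hy, (abs_of_nonneg h2).symm⟩
  · refine ⟨-y, hsymm y hy, ?_⟩
    rw [hneg y (hall y hy), abs_of_nonpos h2]

end Pool.Agent.Lib.MP_d75b76_nt
end

section

/-!
# The upper bound in a subgroup
-/

set_option autoImplicit false
set_option linter.unusedSectionVars false

open Finset Pointwise

namespace Pool.Agent.Lib.MP_d75b76_nt

open RG (stb mem_stb)
open AM (sf off mem_sf mem_off card_sf zero_mem_sf)
open Pool.Agent.Lib.MP_d3cc86_co (lam Asym symz)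

variable {G : Type} [AddCommGroup G] [Fintype G]

/-- `upper` in a subgroup. `A0 = (inn A H).subtype (· ∈ H) : Finset ↥H` is `Good` in the group `↥H`:
`|A0| = |inn A H|`; `Asym`, `ZSF`: sums in `↥H` and in `G` agree (map a subset of `A0` to `G` with
`Function.Embedding.subtype`; `Finset.sum_map`, `AddSubgroup.coe_sum`); for `K : AddSubgroup ↥H`,
`K ≠ ⊤`, the subgroup `H' = K.map H.subtype` satisfies `H' < H`, and `|inn A0 K| ≤ |inn A H'|`. So
`upper` gives the claim (`Nat.card H = Fintype.card ↥H`). -/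
theorem upper_sub [DecidableEq G] {A : Finset G} {L : ℕ} (hA : Asym A) (hz : ZSF A)
    (hL : 1000 ≤ L) (H : AddSubgroup G) (hk : L ^ 50 ≤ (inn A H).card)
    (hs : Nat.card H ≤ (inn A H).card ^ 2)
    (hnc : ∀ H' : AddSubgroup G, H' < H →
      L * (inn A H').card + 3 * (inn A H).card ≤ L * (inn A H).card) :
    49 * (inn A H).card ^ 2 ≤ 100 * Nat.card H := by
  classical
  have : Fintype ↥H := Fintype.ofFinite _
  set A0 : Finset ↥H := (inn A H).subtype (· ∈ H) with hA0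
  have hmem : ∀ x : ↥H, x ∈ A0 ↔ (x : G) ∈ A := by
    intro x
    rw [hA0, Finset.mem_subtype, mem_inn]
    exact ⟨fun h => h.1, fun h => ⟨h, x.2⟩⟩
  have hcard : A0.card = (inn A H).card := by
    rw [hA0, Finset.card_subtype, Finset.filter_true_of_mem]
    intro x hx
    exact ((mem_inn A H x).1 hx).2
  have hNc : Nat.card H = Fintype.card ↥H := Nat.card_eq_fintype_card
  have hgood : Good A0 L := by
    refine ⟨?_, ?_, hL, ?_, ?_, ?_⟩
    · intro a ha hna
      rw [hmem] at ha hna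
      exact hA _ ha (by simpa using hna)
    · intro T hT hne h0
      have h1 : ∑ x ∈ T.map (Function.Embedding.subtype _), x ≠ 0 := by
        refine hz _ ?_ (hne.map)
        intro x hx
        rw [Finset.mem_map] at hx
        obtain ⟨y, hy, rfl⟩ := hx
        exact (hmem y).1 (hT hy)
      apply h1
      rw [Finset.sum_map]
      have h2 : ((∑ x ∈ T, x : ↥H) : G) = 0 := by rw [h0]; rfl
      rw [AddSubgroup.val_finsetSum] at h2
      exact h2
    · rw [hcard]; exact hk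
    · rw [hcard, ← hNc]; exact hs
    · intro K hK
      have hlt : K.map H.subtype < H := by
        refine lt_of_le_of_ne ?_ ?_
        · rintro x ⟨y, -, rfl⟩
          exact y.2
        · intro he
          apply hK
          rw [eq_top_iff]
          intro x _
          have : (x : G) ∈ K.map H.subtype := by rw [he]; exact x.2
          obtain ⟨y, hy, hyx⟩ := this
          have : y = x := Subtype.ext hyx
          rw [← this]; exact hy
      have h1 := hnc _ hlt
      have h2 : (inn A0 K).card ≤ (inn A (K.map H.subtype)).card := by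
        rw [← Finset.card_map (Function.Embedding.subtype (· ∈ H))]
        refine Finset.card_le_card ?_
        intro x hx
        rw [Finset.mem_map] at hx
        obtain ⟨y, hy, rfl⟩ := hx
        rw [mem_inn] at hy ⊢
        exact ⟨(hmem y).1 hy.1, ⟨y, hy.2, rfl⟩⟩
      rw [hcard]
      have h3 := Nat.mul_le_mul_left L h2
      omega
  have h := upper hgood
  rw [hcard, ← hNc] at h
  exact h

end Pool.Agent.Lib.MP_d75b76_nt
end

section

/-!
# The sum of the layers
-/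

set_option autoImplicit false
set_option linter.unusedSectionVars false

open Finset Pointwise

namespace Pool.Agent.Lib.MP_d75b76_nt

open RG (stb mem_stb)
open AM (sf off mem_sf mem_off card_sf zero_mem_sf)
open Pool.Agent.Lib.MP_d3cc86_co (lam Asym symz)

variable {G : Type} [AddCommGroup G] [Fintype G]

open Pool.Agent.Lib.MP_d3cc86_co (lam_neg lam_zero lam_compl)

/-- `k = |A|`, `v = |V|`, `P = PP L`, `B = V.subsetSum`, `C = B` if `2 |B| ≤ |G|` and `C = univ \ B` otherwise,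
`c = |C|`: `2 c ≤ |G|`, `k^2 ≤ 2 * 10^7 L^2 c` (`cmin`), `lam C x = lam B x` (`lam_compl`, `K = univ`). Let `l` be
the maximum of `lam B x`, `x ∈ V`; `lam C s ≤ l` for `s ∈ symz V` (`lam_neg`, `lam_zero`),
`P l ≤ (P + 9 L) v` (`ht`) and `(P - 3) v ≤ P l` (`win_step`). Let `J = c / v + 1`, so `v (J - 1) ≤ c < v J`
(first claim; second claim: `k v ≤ k^2 ≤ 2 * 10^7 L^2 c ≤ 2 * 10^7 L^2 v J`). Third claim: `averaging` and
`layers_arith` with `F = ∑_{i < J} |i • symz V|`, `fJ = |J • symz V|`, `n = |G|`. -/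
theorem sum_layers [DecidableEq G] {A V : Finset G} {L : ℕ} (hG : Good A L) (hV : Win A L V)
    (ht : ∀ x ∈ V, PP L * lam V.subsetSum x ≤ (PP L + 9 * L) * V.card) :
    ∃ J : ℕ, 2 * (V.card * (J - 1)) ≤ Fintype.card G ∧ A.card ≤ 2 * 10 ^ 7 * L ^ 2 * J ∧
      10 ^ 9 * L * ∑ i ∈ Finset.range J, (i • symz V).card ≤
        (10 ^ 9 * L + 3) * (V.card * J ^ 2) := by
  obtain ⟨hc1, hc2⟩ := cmin hG hV
  obtain ⟨hw1, hw2⟩ := win_card hG hV
  obtain ⟨x1, hx1, hx1'⟩ := win_step hG hV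
  obtain ⟨x0, hx0, hx0'⟩ := Finset.exists_max_image V (fun x => lam V.subsetSum x) ⟨x1, hx1⟩
  have hvpos : 0 < V.card := Finset.card_pos.2 ⟨x1, hx1⟩
  -- the smaller one of `B` and its complement
  obtain ⟨C, hC1, hC2, hC3⟩ : ∃ C : Finset G, 2 * C.card ≤ Fintype.card G ∧
      A.card ^ 2 ≤ 2 * 10 ^ 7 * L ^ 2 * C.card ∧ ∀ x, lam C x = lam V.subsetSum x := by
    rcases le_or_gt (2 * V.subsetSum.card) (Fintype.card G) with h | h
    · exact ⟨V.subsetSum, h, hc1, fun x => rfl⟩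
    · refine ⟨Finset.univ \ V.subsetSum, ?_, ?_, fun x => ?_⟩
      · rw [Finset.card_sdiff_of_subset (Finset.subset_univ _), Finset.card_univ]
        omega
      · rw [Finset.card_sdiff_of_subset (Finset.subset_univ _), Finset.card_univ]
        exact hc2
      · refine lam_compl (Finset.subset_univ _) ?_
        exact Finset.vadd_finset_univ
  have hl : ∀ s ∈ symz V, lam C s ≤ lam V.subsetSum x0 := by
    intro s hs
    rw [hC3]
    unfold symz at hs
    rw [Finset.mem_insert, Finset.mem_union, Finset.mem_neg'] at hs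
    rcases hs with rfl | hs | hs
    · rw [lam_zero]; exact Nat.zero_le _
    · exact hx0' s hs
    · rw [← lam_neg]; exact hx0' (-s) hs
  have h0 : (0 : G) ∈ symz V := by
    unfold symz
    exact Finset.mem_insert_self _ _
  have hdiv1 : V.card * (C.card / V.card) ≤ C.card := Nat.mul_div_le _ _
  have hdiv2 : C.card < V.card * (C.card / V.card + 1) := by
    have := Nat.lt_mul_div_succ C.card hvpos
    exact this
  refine ⟨C.card / V.card + 1, ?_, ?_, ?_⟩
  · rw [Nat.add_sub_cancel]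
    omega
  · refine Nat.le_of_mul_le_mul_left ?_ hvpos
    calc V.card * A.card ≤ A.card * A.card := Nat.mul_le_mul_right _ hw2.le
      _ = A.card ^ 2 := by ring
      _ ≤ 2 * 10 ^ 7 * L ^ 2 * C.card := hC2
      _ ≤ 2 * 10 ^ 7 * L ^ 2 * (V.card * (C.card / V.card + 1)) :=
          Nat.mul_le_mul_left _ hdiv2.le
      _ = V.card * (2 * 10 ^ 7 * L ^ 2 * (C.card / V.card + 1)) := by ring
  · exact layers_arith A.card V.card L C.card (lam V.subsetSum x0) (C.card / V.card + 1) _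
      ((C.card / V.card + 1) • symz V).card (Fintype.card G) hG.L1000 hG.big hw2.le hw1 hC2
      hG.size (ht x0 hx0) (hx1'.trans (Nat.mul_le_mul_left _ (hx0' x1 hx1))) rfl
      (Finset.card_le_univ _) (averaging C (symz V) h0 _ hl _)

end Pool.Agent.Lib.MP_d75b76_nt
end

section

/-!
# Kneser's theorem at the layer `I`
-/

set_option autoImplicit false
set_option linter.unusedSectionVars false

open Finset Pointwise

namespace Pool.Agent.Lib.MP_d75b76_nt

open RG (stb mem_stb)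
open AM (sf off mem_sf mem_off card_sf zero_mem_sf)
open Pool.Agent.Lib.MP_d3cc86_co (lam Asym symz)

variable {G : Type} [AddCommGroup G] [Fintype G]

open Pool.Agent.Lib.MP_d3cc86_co (nsmul_mono_zero)

/-- `S = symz V`, `i4 = I / 4`, `H = stb ((4 * i4) • S)`, `1 ≤ i4` (`hI`, `big_aux`).
* `H ≤ stb (I • S)`: `stb_nsmul_le`. `|(4 i4) • S| ≤ |I • S|`: `nsmul_mono_zero`.
* `|H| ≤ |(4 i4) • S| ≤ |I • S| ≤ 3 |G| / 4 < |G|` (`card_stb_le`), so `H ≠ ⊤`.
* `kn_iter` with `(j, i) = (4, i4), (2, 2 i4), (1, 4 i4)` (`one_nsmul`) and `two_cosets` (`not_in` for `V`: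
  `L (k - v) ≤ 2 k < 3 k`): the hypotheses of `kn_arith` with `f = |I • S|`, `h = |H|`,
  `X1 = |S + sf H|`, `X2 = |2 • S + sf H|`, `X4 = |4 • S + sf H|`. -/
theorem kneser_part [DecidableEq G] {A V : Finset G} {L : ℕ} (hG : Good A L) (hV : Win A L V)
    (I : ℕ) (hI : A.card ≤ 10 ^ 8 * L ^ 2 * I)
    (hf : 10 ^ 6 * L * (I • symz V).card ≤ (10 ^ 6 * L + 2) * (2 * V.card * I))
    (h34 : 4 * (I • symz V).card ≤ 3 * Fintype.card G) (t : ℕ)
    (ht : t = V.card / (10 ^ 6 * L)) :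
    ∃ H : AddSubgroup G, H ≤ stb (I • symz V) ∧ H ≠ ⊤ ∧ Nat.card H ≤ 3 * V.card ∧
      (2 • symz V + sf H).card ≤ Nat.card H + 4 * V.card + 13 * t ∧
      (4 • symz V + sf H).card ≤ Nat.card H + 8 * V.card + 25 * t := by
  have hk : L ^ 50 ≤ A.card := hG.big
  have hL : 1000 ≤ L := hG.L1000
  obtain ⟨hwc, hlt⟩ := win_card hG hV
  have hb : 4 * 10 ^ 8 * L ^ 2 ≤ A.card := big_aux hL hk (by norm_num) (by norm_num)
  have hI4 : 4 ≤ I := by
    have h1 : 10 ^ 8 * L ^ 2 * 4 ≤ 10 ^ 8 * L ^ 2 * I := by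
      calc 10 ^ 8 * L ^ 2 * 4 = 4 * 10 ^ 8 * L ^ 2 := by ring
        _ ≤ A.card := hb
        _ ≤ _ := hI
    exact Nat.le_of_mul_le_mul_left h1 (by positivity)
  have hi4 : 1 ≤ I / 4 := by omega
  have h4I : 4 * (I / 4) ≤ I := by omega
  have h0 : (0 : G) ∈ symz V := Finset.mem_insert_self _ _
  have hS : (symz V).Nonempty := ⟨0, h0⟩
  have hcard : ((4 * (I / 4)) • symz V).card ≤ (I • symz V).card :=
    Finset.card_le_card (nsmul_mono_zero h0 h4I)
  have hH1 : Nat.card (stb ((4 * (I / 4)) • symz V)) ≤ ((4 * (I / 4)) • symz V).card :=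
    card_stb_le _ hS.nsmul
  have hGpos : 0 < Fintype.card G := Fintype.card_pos
  have hHtop : stb ((4 * (I / 4)) • symz V) ≠ ⊤ := by
    intro hc
    rw [hc, AddSubgroup.card_top, Nat.card_eq_fintype_card] at hH1
    omega
  have e4 := kn_iter (symz V) hS (4 * (I / 4)) 4 (I / 4) rfl hi4
  have e2 := kn_iter (symz V) hS (4 * (I / 4)) 2 (2 * (I / 4)) (by ring) (by omega)
  have e1 := kn_iter (symz V) hS (4 * (I / 4)) 1 (4 * (I / 4)) (by ring) (by omega)
  rw [one_nsmul] at e1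
  have hlo := hV.lo
  have hno := not_in hG hV.sub (by omega) _ hHtop
  have e0 := two_cosets (symz V) h0 (stb ((4 * (I / 4)) • symz V)) (fun hall => hno
    (fun w hw => hall w (Finset.mem_insert_of_mem (Finset.mem_union_left _ hw))))
  obtain ⟨r1, r2, r3⟩ := kn_arith A.card V.card L I (I / 4) t (I • symz V).card
    (Nat.card (stb ((4 * (I / 4)) • symz V)))
    (symz V + sf (stb ((4 * (I / 4)) • symz V))).card
    (2 • symz V + sf (stb ((4 * (I / 4)) • symz V))).card
    (4 • symz V + sf (stb ((4 * (I / 4)) • symz V))).card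
    hL hk hwc hI hf hlt.le rfl ht (by omega) (by omega) (by omega) e0
  exact ⟨stb ((4 * (I / 4)) • symz V), stb_nsmul_le (symz V) _ _ h4I, hHtop, r1, r2, r3⟩

end Pool.Agent.Lib.MP_d75b76_nt
end

section

/-!
# Lower bounds modulo a subgroup, two summands
-/

set_option autoImplicit false
set_option linter.unusedSectionVars false

open Finset Pointwise

namespace Pool.Agent.Lib.MP_d75b76_nt

open RG (stb mem_stb)
open AM (sf off mem_sf mem_off card_sf zero_mem_sf)
open Pool.Agent.Lib.MP_d3cc86_co (lam Asym symz)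

variable {G : Type} [AddCommGroup G] [Fintype G]

/-- `S1 = symz V1`, `X = S1 + sf H`, `X + X = 2 • S1 + sf H` (`two_nsmul`, `AM.sf_add_sf`), `F = stb (X + X)`.
`H ≤ F` (`AM.le_stb`). `|F| ≤ |X + X| ≤ 10 v` (`card_stb_le`). `AM.kneser_stb X X`:
`2 |X + sf F| ≤ |X + X| + |F|`, `X + sf F ⊇ S1 + sf F`, and `low1` for `F`:
`|F| + 2 v ≤ |S1 + sf F| + 4 t`. So `|X + X| ≥ 2 |F| + 4 v - 8 t - |F| ≥ |H| + 4 v - 8 t`. -/
theorem low2 [DecidableEq G] {A V V1 : Finset G} {L : ℕ} (hG : Good A L) (hV : Win A L V)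
    (h1 : V1 ⊆ V) (t : ℕ) (ht : t = V.card / (10 ^ 6 * L)) (hv : V.card ≤ V1.card + t)
    (H : AddSubgroup G) (hH : (2 • symz V1 + sf H).card ≤ 10 * V.card) :
    Nat.card H + 4 * V.card ≤ (2 • symz V1 + sf H).card + 8 * t := by
  have hne : (symz V1).Nonempty := ⟨0, by simp [symz]⟩
  have hsf : (sf H).Nonempty := ⟨0, zero_mem_sf H⟩
  have hXX : (symz V1 + sf H) + (symz V1 + sf H) = 2 • symz V1 + sf H := by
    rw [add_add_add_comm, AM.sf_add_sf, two_nsmul]
  have hX : (symz V1 + sf H).Nonempty := hne.add hsf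
  have hHF : H ≤ stb ((symz V1 + sf H) + (symz V1 + sf H)) := by
    apply AM.le_stb
    rw [hXX, add_assoc, AM.sf_add_sf]
  have h2 := card_stb_le ((symz V1 + sf H) + (symz V1 + sf H)) (hX.add hX)
  have h3 := AM.kneser_stb (symz V1 + sf H) (symz V1 + sf H) hX hX
  have h4 : Nat.card H ≤ Nat.card (stb ((symz V1 + sf H) + (symz V1 + sf H))) :=
    AddSubgroup.card_le_of_le hHF
  set F := stb ((symz V1 + sf H) + (symz V1 + sf H)) with hF
  rw [hXX] at h2 h3
  have h5 := low1 hG hV h1 t ht hv F (h2.trans hH)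
  have h6 : symz V1 + sf F ⊆ symz V1 + sf H + sf F := by
    intro z hz
    obtain ⟨a, ha, b, hb, rfl⟩ := Finset.mem_add.1 hz
    exact Finset.add_mem_add (Finset.mem_add.2 ⟨a, ha, 0, zero_mem_sf H, add_zero a⟩) hb
  have h7 := Finset.card_le_card h6
  omega

end Pool.Agent.Lib.MP_d75b76_nt
end

section

/-!
# No proper subgroup contains almost all of `A`
-/

set_option autoImplicit false
set_option linter.unusedSectionVars false

open Finset Pointwise

namespace Pool.Agent.Lib.MP_d75b76_nt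

open RG (stb mem_stb)
open AM (sf off mem_sf mem_off card_sf zero_mem_sf)
open Pool.Agent.Lib.MP_d3cc86_co (lam Asym symz)

variable {G : Type} [AddCommGroup G] [Fintype G]

/-- a proper subgroup has at most half of the elements -/
private lemma two_card_le {H' H : AddSubgroup G} (h : H' < H) :
    2 * Nat.card H' ≤ Nat.card H := by
  have hdvd : Nat.card H' ∣ Nat.card H := AddSubgroup.card_dvd_of_le h.le
  have hpos : 0 < Nat.card H := Nat.card_pos
  have hne : Nat.card H' ≠ Nat.card H := by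
    intro he
    exact h.ne (AddSubgroup.eq_of_le_of_card_ge h.le he.ge)
  obtain ⟨c, hc⟩ := hdvd
  rcases Nat.lt_or_ge c 2 with h2 | h2
  · interval_cases c
    · omega
    · omega
  · rw [hc, mul_comm]
    exact Nat.mul_le_mul_left _ h2

/-- `k = |A|`, `n = |G|`, `2 n ≤ k^2 + 6 k`. Let `P(s)` be: there is a subgroup `H` with
`(L - 3)^s k ≤ L^s |inn A H|` and `2^s |H| ≤ n`. `P(9)` is false: `olson_in`:
`(L-3)^18 k^2 ≤ L^18 |inn A H|^2 < 400 L^18 |H|`, so `512 (L-3)^18 k^2 < 400 L^18 n ≤ 400 L^18 k^2`, but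
`512 (L-3)^18 ≥ 400 L^18` for `L ≥ 1000` (`(1 - 3/L)^18 ≥ 1 - 54/L`, Bernoulli). The only thing to prove is
`nc`. Suppose `H ≠ ⊤` violates it: `(L - 3) k < L |inn A H|`, and `2 |H| ≤ n`: so `P(1)`. Let `s` be the
largest number with `P(s)`, `1 ≤ s ≤ 8`, with the subgroup `H`. Then `H` satisfies `hnc` of `upper_sub`: a
subgroup `H' < H` with `(L - 3) |inn A H| < L |inn A H'|` would give `P(s+1)` (`2 |H'| ≤ |H|`). Let
`k0 = |inn A H|`: `k0 ≥ (1 - 3/L)^8 k ≥ (1 - 24/L) k ≥ 0.976 k`, so `L^50 ≤ L^51 / 2 ≤ k0`, and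
`|H| ≤ n / 2 ≤ (k^2 + 6 k) / 4 ≤ 0.26 k^2 ≤ k0^2`. `upper_sub`: `49 k0^2 ≤ 100 |H| ≤ 26 k^2`, but
`49 * 0.976^2 > 46`, contradiction. -/
theorem reduce [DecidableEq G] {A : Finset G} {L : ℕ} (hA : Asym A) (hz : ZSF A) (hL : 1000 ≤ L)
    (hk : L ^ 51 ≤ A.card) (hs : 2 * Fintype.card G ≤ A.card ^ 2 + 6 * A.card) : Good A L := by
  classical
  have hLpos : 0 < L := by omega
  have hk50 : L ^ 50 * 1000 ≤ A.card := by
    calc L ^ 50 * 1000 ≤ L ^ 50 * L := Nat.mul_le_mul_left _ hL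
      _ = L ^ 51 := (pow_succ _ _).symm
      _ ≤ A.card := hk
  have h50pos : 1 ≤ L ^ 50 := Nat.one_le_pow _ _ hLpos
  have hk1000 : 1000 ≤ A.card := by nlinarith
  have hLR : (1000 : ℝ) ≤ (L : ℝ) := by exact_mod_cast hL
  have hLR0 : (0 : ℝ) < (L : ℝ) := by linarith
  have hkR : (1000 : ℝ) ≤ (A.card : ℝ) := by exact_mod_cast hk1000
  have hsR : 2 * (Fintype.card G : ℝ) ≤ (A.card : ℝ) ^ 2 + 6 * (A.card : ℝ) := by exact_mod_cast hs
  have hk50R : (L : ℝ) ^ 50 * 1000 ≤ (A.card : ℝ) := by exact_mod_cast hk50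
  set x : ℝ := 1 - 3 / (L : ℝ) with hx
  have h3L : 3 / (L : ℝ) ≤ 3 / 1000 := div_le_div_of_nonneg_left (by norm_num) (by norm_num) hLR
  have h3L0 : 0 < 3 / (L : ℝ) := by positivity
  have hx0 : 0 ≤ x := by rw [hx]; linarith
  have hx1 : x ≤ 1 := by rw [hx]; linarith
  have hbern : ∀ s : ℕ, 1 - (s : ℝ) * (3 / 1000) ≤ x ^ s := by
    intro s
    have h1 : 1 + (s : ℝ) * (-(3 / (L : ℝ))) ≤ (1 + (-(3 / (L : ℝ)))) ^ s :=
      one_add_mul_le_pow (by linarith) s
    have h2 : (1 + (-(3 / (L : ℝ)))) = x := by rw [hx]; ring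
    rw [h2] at h1
    have h3 : (s : ℝ) * (3 / (L : ℝ)) ≤ (s : ℝ) * (3 / 1000) :=
      mul_le_mul_of_nonneg_left h3L (Nat.cast_nonneg s)
    linarith
  have hstep : ∀ a b : ℕ, L * a < L * b + 3 * a → x * (a : ℝ) ≤ (b : ℝ) := by
    intro a b hab
    have h1 : (L : ℝ) * a < (L : ℝ) * b + 3 * a := by exact_mod_cast hab
    have h2 : x * (a : ℝ) = ((L : ℝ) * a - 3 * a) / L := by
      rw [hx]; field_simp
    rw [h2, div_le_iff₀ hLR0]
    linarith
  have hnG : Nat.card G = Fintype.card G := Nat.card_eq_fintype_card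
  refine ⟨hA, hz, hL, ?_, ?_, ?_⟩
  · calc L ^ 50 ≤ L ^ 50 * 1000 := Nat.le_mul_of_pos_right _ (by norm_num)
      _ ≤ A.card := hk50
  · have : 6 * A.card ≤ A.card ^ 2 := by nlinarith
    omega
  · intro H0 hH0
    by_contra hcon
    push Not at hcon
    let P : ℕ → Prop := fun s => ∃ H : AddSubgroup G,
      x ^ s * (A.card : ℝ) ≤ ((inn A H).card : ℝ) ∧ 2 ^ s * Nat.card H ≤ Fintype.card G
    have hP1 : P 1 := by
      refine ⟨H0, ?_, ?_⟩
      · rw [pow_one]
        exact hstep _ _ hcon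
      · rw [pow_one]
        have h := two_card_le (lt_top_iff_ne_top.2 hH0)
        rw [AddSubgroup.card_top, hnG] at h
        exact h
    have hP9 : ¬ P 9 := by
      rintro ⟨H, h1, h2⟩
      have h3 := olson_in A hA hz H
      have h3R : ((inn A H).card : ℝ) ^ 2 < 400 * (Nat.card H : ℝ) := by exact_mod_cast h3
      have h2R : (2 : ℝ) ^ 9 * (Nat.card H : ℝ) ≤ (Fintype.card G : ℝ) := by exact_mod_cast h2
      have h4 := hbern 9
      have h5 : (973 / 1000 : ℝ) ≤ x ^ 9 := by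
        refine le_trans ?_ h4
        norm_num
      have h6 : (973 / 1000 : ℝ) * (A.card : ℝ) ≤ ((inn A H).card : ℝ) :=
        le_trans (mul_le_mul_of_nonneg_right h5 (Nat.cast_nonneg _)) h1
      have h7 : ((973 / 1000 : ℝ) * (A.card : ℝ)) ^ 2 ≤ ((inn A H).card : ℝ) ^ 2 :=
        pow_le_pow_left₀ (by positivity) h6 2
      nlinarith
    have hex : ∃ s : ℕ, 1 ≤ s ∧ s ≤ 8 ∧ P s ∧ ¬ P (s + 1) := by
      by_contra hno
      push Not at hno
      have hall : ∀ s : ℕ, 1 ≤ s → s ≤ 9 → P s := by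
        intro s h1
        induction s, h1 using Nat.le_induction with
        | base => intro _; exact hP1
        | succ n hn ih => intro h9; exact hno n hn (by omega) (ih (by omega))
      exact hP9 (hall 9 (by norm_num) le_rfl)
    obtain ⟨s, hs1, hs8, ⟨H, h1, h2⟩, hnP⟩ := hex
    have hx8 : (976 / 1000 : ℝ) ≤ x ^ s := by
      have h3 : x ^ 8 ≤ x ^ s := pow_le_pow_of_le_one hx0 hx1 hs8
      refine le_trans ?_ (le_trans (hbern 8) h3)
      norm_num
    have hk0 : (976 / 1000 : ℝ) * (A.card : ℝ) ≤ ((inn A H).card : ℝ) :=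
      le_trans (mul_le_mul_of_nonneg_right hx8 (Nat.cast_nonneg _)) h1
    have hk0sq : ((976 / 1000 : ℝ) * (A.card : ℝ)) ^ 2 ≤ ((inn A H).card : ℝ) ^ 2 :=
      pow_le_pow_left₀ (by positivity) hk0 2
    have hH2 : 2 * Nat.card H ≤ Fintype.card G := by
      refine le_trans (Nat.mul_le_mul_right _ ?_) h2
      calc 2 = 2 ^ 1 := rfl
        _ ≤ 2 ^ s := Nat.pow_le_pow_right (by norm_num) hs1
    have hH2R : 2 * (Nat.card H : ℝ) ≤ (Fintype.card G : ℝ) := by exact_mod_cast hH2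
    have hbig : L ^ 50 ≤ (inn A H).card := by
      have : (L : ℝ) ^ 50 ≤ ((inn A H).card : ℝ) := by
        have h50 : (1 : ℝ) ≤ (L : ℝ) ^ 50 := by exact_mod_cast h50pos
        linarith
      exact_mod_cast this
    have hsz : Nat.card H ≤ (inn A H).card ^ 2 := by
      have : (Nat.card H : ℝ) ≤ ((inn A H).card : ℝ) ^ 2 := by nlinarith
      exact_mod_cast this
    have hnc : ∀ H' : AddSubgroup G, H' < H →
        L * (inn A H').card + 3 * (inn A H).card ≤ L * (inn A H).card := by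
      intro H' hH'
      by_contra hc
      push Not at hc
      apply hnP
      refine ⟨H', ?_, ?_⟩
      · have h3 := hstep _ _ hc
        calc x ^ (s + 1) * (A.card : ℝ) = x * (x ^ s * (A.card : ℝ)) := by ring
          _ ≤ x * ((inn A H).card : ℝ) := mul_le_mul_of_nonneg_left h1 hx0
          _ ≤ ((inn A H').card : ℝ) := h3
      · calc 2 ^ (s + 1) * Nat.card H' = 2 ^ s * (2 * Nat.card H') := by ring
          _ ≤ 2 ^ s * Nat.card H := Nat.mul_le_mul_left _ (two_card_le hH')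
          _ ≤ Fintype.card G := h2
    have hup := upper_sub hA hz hL H hbig hsz hnc
    have hupR : 49 * ((inn A H).card : ℝ) ^ 2 ≤ 100 * (Nat.card H : ℝ) := by exact_mod_cast hup
    nlinarith

end Pool.Agent.Lib.MP_d75b76_nt
end

section

/-!
# The frequency
-/

set_option autoImplicit false
set_option linter.unusedSectionVars false

open Finset Pointwise

namespace Pool.Agent.Lib.MP_d75b76_nt

open RG (stb mem_stb)
open AM (sf off mem_sf mem_off card_sf zero_mem_sf)
open Pool.Agent.Lib.MP_d3cc86_co (lam Asym symz)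

open Pool.Agent.Lib.MP_d3cc86_co (nsmul_mono_zero card_union_vadd)

/-- `F = I • symz V`, `v = |V|`, `k = |A|`: `lam F x ≤ |(I+1) • symz V| - |F| ≤ 16 v` for `x ∈ V` (`x +ᵥ F` and
`F` are contained in `(I + 1) • symz V`; `card_union_vadd`). `freq_set` with `T = 16 v` gives `r ≠ 0`. Let
`V1 = V.filter (20 |(r x).valMinAbs| < m)`: `|V \ V1| |F| ≤ 3200 v^2`, `v I ≤ |F|`, so
`|V \ V1| I ≤ 3200 v`, `|V \ V1| k ≤ 3200 v * 10^8 L^2 ≤ 3200 k * 10^8 L^2`,
`|V \ V1| ≤ 3.2 * 10^11 L^2 ≤ t` (`big_aux`, `win_card`; `t ≥ v / (10^6 L) - 1`). (`Fintype.card (ZMod m) = m`: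
`ZMod.card`.) -/
theorem freq_part {m : ℕ} [NeZero m] {A V : Finset (ZMod m)} {L : ℕ} (hG : Good A L)
    (hV : Win A L V) (I : ℕ) (hI : A.card ≤ 10 ^ 8 * L ^ 2 * I)
    (h16 : ((I + 1) • symz V).card ≤ (I • symz V).card + 16 * V.card)
    (h34 : 4 * (I • symz V).card ≤ 3 * Fintype.card (ZMod m))
    (hvI : V.card * I ≤ (I • symz V).card) (t : ℕ) (ht : t = V.card / (10 ^ 6 * L)) :
    ∃ r : ZMod m, r ≠ 0 ∧ (∀ y ∈ stb (I • symz V), r * y = 0) ∧
      ∃ V1 ⊆ V, V.card ≤ V1.card + t ∧ ∀ x ∈ V1, 20 * |(r * x).valMinAbs| < m := by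
  classical
  have hL : 1000 ≤ L := hG.L1000
  have hbig : 7 * 10 ^ 17 * L ^ 3 ≤ A.card := big_aux hL hG.big (by norm_num) (by norm_num)
  obtain ⟨hw1, hw2⟩ := win_card hG hV
  have hL3 : 0 < L ^ 3 := Nat.pow_pos (by omega)
  have hL0 : 0 < L := by omega
  have hkpos : 0 < A.card := by omega
  have hvpos : 0 < V.card := by omega
  set F := I • symz V with hF
  have hzero : (0 : ZMod m) ∈ symz V := Finset.mem_insert_self _ _
  have hFne : F.Nonempty := ⟨0, by
    have h1 := nsmul_mono_zero hzero (Nat.zero_le I)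
    refine h1 ?_
    rw [zero_nsmul]
    exact Finset.mem_zero.2 rfl⟩
  have hlam : ∀ x ∈ V, lam F x ≤ 16 * V.card := by
    intro x hx
    have h1 : F ∪ (x +ᵥ F) ⊆ (I + 1) • symz V := by
      refine Finset.union_subset (nsmul_mono_zero hzero (Nat.le_succ I)) ?_
      intro y hy
      rw [Finset.mem_vadd_finset] at hy
      obtain ⟨z, hz, rfl⟩ := hy
      rw [succ_nsmul', Finset.mem_add]
      exact ⟨x, Finset.mem_insert_of_mem (Finset.mem_union_left _ hx), z, hz, rfl⟩
    have h2 := Finset.card_le_card h1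
    rw [card_union_vadd] at h2
    omega
  rw [ZMod.card] at h34
  obtain ⟨r, hr0, hr1, hr2⟩ := freq_set F V (16 * V.card) hFne h34 hlam
  refine ⟨r, hr0, hr1, V.filter (fun x => 20 * |(r * x).valMinAbs| < m), Finset.filter_subset _ _,
    ?_, fun x hx => (Finset.mem_filter.1 hx).2⟩
  set W := V.filter (fun x => (m : ℤ) ≤ 20 * |(r * x).valMinAbs|) with hW
  have hsplit : V.card = (V.filter (fun x => 20 * |(r * x).valMinAbs| < m)).card + W.card := by
    have h1 := Finset.card_filter_add_card_filter_not (s := V)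
      (fun x => 20 * |(r * x).valMinAbs| < (m : ℤ))
    have h2 : V.filter (fun x => ¬ 20 * |(r * x).valMinAbs| < (m : ℤ)) = W := by
      rw [hW]
      refine Finset.filter_congr fun x _ => ?_
      exact not_lt
    rw [h2] at h1
    exact h1.symm
  -- `|W| I ≤ 3200 v`
  have h1 : W.card * I ≤ 3200 * V.card := by
    have h2 : W.card * (V.card * I) ≤ 200 * (16 * V.card) * V.card :=
      (Nat.mul_le_mul_left _ hvI).trans hr2
    have h3 : W.card * I * V.card ≤ 3200 * V.card * V.card := by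
      calc W.card * I * V.card = W.card * (V.card * I) := by ring
        _ ≤ _ := h2
        _ = _ := by ring
    exact Nat.le_of_mul_le_mul_right h3 hvpos
  have h2 : W.card ≤ 3200 * (10 ^ 8 * L ^ 2) := by
    have h3 : W.card * A.card ≤ 3200 * (10 ^ 8 * L ^ 2) * A.card := by
      calc W.card * A.card ≤ W.card * (10 ^ 8 * L ^ 2 * I) := Nat.mul_le_mul_left _ hI
        _ = 10 ^ 8 * L ^ 2 * (W.card * I) := by ring
        _ ≤ 10 ^ 8 * L ^ 2 * (3200 * V.card) := Nat.mul_le_mul_left _ h1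
        _ = 3200 * (10 ^ 8 * L ^ 2) * V.card := by ring
        _ ≤ 3200 * (10 ^ 8 * L ^ 2) * A.card := Nat.mul_le_mul_left _ hw2.le
    exact Nat.le_of_mul_le_mul_right h3 hkpos
  have h3 : W.card ≤ t := by
    rw [ht, Nat.le_div_iff_mul_le (by positivity)]
    have h4 : W.card * (10 ^ 6 * L) ≤ 3200 * (10 ^ 8 * L ^ 2) * (10 ^ 6 * L) :=
      Nat.mul_le_mul_right _ h2
    have h5 : 3200 * (10 ^ 8 * L ^ 2) * (10 ^ 6 * L) = 32 * 10 ^ 16 * L ^ 3 := by ring
    rw [h5] at h4
    omega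
  omega

end Pool.Agent.Lib.MP_d75b76_nt
end

section

/-!
# The set `V` and the layer `I`
-/

set_option autoImplicit false
set_option linter.unusedSectionVars false

open Finset Pointwise

namespace Pool.Agent.Lib.MP_d75b76_nt

open RG (stb mem_stb)
open AM (sf off mem_sf mem_off card_sf zero_mem_sf)
open Pool.Agent.Lib.MP_d3cc86_co (lam Asym symz)

variable {G : Type} [AddCommGroup G] [Fintype G]

open Pool.Agent.Lib.MP_d3cc86_co (nsmul_mono_zero)

/-- `tight` gives `V`, `sum_layers` gives `J`. `k = |A|`, `v = |V|`, `P = PP L`, `f i = |i • symz V|`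
(monotone: `nsmul_mono_zero`, `0 ∈ symz V`), `g = v - (v / P + 1)`: `AM.Thick V g` (`thick` with `P`;
`800 P^2 ≤ v` by `big_aux` and `win_card`). `pick`: `10^12 L ≤ v, J` by `big_aux` (`k ≤ 2 * 10^7 L^2 J`);
`10^12 L (v - g) = 10^12 L (v / P + 1) ≤ v`; for `i < J`: `AM.growth` gives `1 + 2 g i ≤ f i` or
`i • symz V ⊇ closure V = univ` (`win_top`), `f i = |G| ≥ 2 v (J - 1) ≥ 2 g i`. So there is `I` with
`J ≤ 4 I`, `2 I ≤ J`. `k ≤ 2 * 10^7 L^2 * 4 I ≤ 10^8 L^2 I`. `v I ≤ 2 g I ≤ f I` (`v ≤ 2 g`, `I < J`).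
`4 f I ≤ 3 |G|`: `f I ≤ 1.01 * 2 v I ≤ 1.01 v J ≤ 1.01 (|G| / 2 + v)` and `v ≤ k ≤ |G| / 1000`
(`upper`: `49 k^2 ≤ 100 |G|`). -/
theorem partC [DecidableEq G] {A : Finset G} {L : ℕ} (hG : Good A L)
    (hs : 2 * Fintype.card G ≤ A.card ^ 2 + 6 * A.card) :
    ∃ (V : Finset G) (I : ℕ), Win A L V ∧ A.card ≤ 10 ^ 8 * L ^ 2 * I ∧
      10 ^ 6 * L * (I • symz V).card ≤ (10 ^ 6 * L + 2) * (2 * V.card * I) ∧
      ((I + 1) • symz V).card ≤ (I • symz V).card + 16 * V.card ∧
      4 * (I • symz V).card ≤ 3 * Fintype.card G ∧ V.card * I ≤ (I • symz V).card := by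
  obtain ⟨V, hV, ht⟩ := tight hG hs
  obtain ⟨J, hJ1, hJ2, hJ3⟩ := sum_layers hG hV ht
  obtain ⟨hw1, hw2⟩ := win_card hG hV
  have hup := upper hG
  have hL : 1000 ≤ L := hG.L1000
  have hL0 : 0 < L := by omega
  have hk1 : 2 * 10 ^ 12 * L ≤ A.card := by
    have := big_aux hL hG.big (a := 1) (C := 2 * 10 ^ 12) (by norm_num) (by norm_num)
    rwa [pow_one] at this
  have hk2 : 1600 * 10 ^ 34 * L ^ 8 ≤ A.card :=
    big_aux hL hG.big (a := 8) (C := 1600 * 10 ^ 34) (by norm_num) (by norm_num)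
  have hk3 : 2 * 10 ^ 7 * 10 ^ 12 * L ^ 3 ≤ A.card :=
    big_aux hL hG.big (a := 3) (C := 2 * 10 ^ 7 * 10 ^ 12) (by norm_num) (by norm_num)
  have hkv : A.card ≤ 2 * V.card := by omega
  have hv1 : 10 ^ 12 * L ≤ V.card := by omega
  have hP1 : 2 * 10 ^ 12 * L ≤ PP L := by
    unfold PP
    have h1 : L ≤ L ^ 4 := Nat.le_self_pow (by norm_num) _
    omega
  have hP0 : 0 < PP L := by omega
  have hP2 : 800 * PP L ^ 2 ≤ V.card := by
    have h1 : 2 * (800 * PP L ^ 2) = 1600 * 10 ^ 34 * L ^ 8 := by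
      unfold PP; ring
    omega
  have hJ0 : 10 ^ 12 * L ≤ J := by
    have h1 : 2 * 10 ^ 7 * L ^ 2 * (10 ^ 12 * L) ≤ 2 * 10 ^ 7 * L ^ 2 * J := by
      calc 2 * 10 ^ 7 * L ^ 2 * (10 ^ 12 * L) = 2 * 10 ^ 7 * 10 ^ 12 * L ^ 3 := by ring
        _ ≤ _ := hk3.trans hJ2
    exact Nat.le_of_mul_le_mul_left h1 (by positivity)
  -- the number `g`
  have hd1 : PP L * (V.card / PP L) ≤ V.card := Nat.mul_div_le _ _
  have hd2 : V.card < PP L * (V.card / PP L + 1) := Nat.lt_mul_div_succ _ hP0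
  have hd3 : 2 * 10 ^ 12 * L * (V.card / PP L) ≤ V.card :=
    (Nat.mul_le_mul_right _ hP1).trans hd1
  have hd4 : 10 ^ 12 * L * (V.card / PP L + 1) ≤ V.card := by
    have e1 : 2 * (10 ^ 12 * L * (V.card / PP L + 1)) =
        2 * 10 ^ 12 * L * (V.card / PP L) + 2 * 10 ^ 12 * L := by ring
    have e2 : 4 * 10 ^ 12 * L ≤ A.card := by
      have := big_aux hL hG.big (a := 1) (C := 4 * 10 ^ 12) (by norm_num) (by norm_num)
      rwa [pow_one] at this
    omega
  have hd5 : V.card / PP L + 1 ≤ V.card := by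
    have : 1 * (V.card / PP L + 1) ≤ 10 ^ 12 * L * (V.card / PP L + 1) :=
      Nat.mul_le_mul_right _ (by omega)
    omega
  obtain ⟨g, hg⟩ : ∃ g, g = V.card - (V.card / PP L + 1) := ⟨_, rfl⟩
  have hg1 : g ≤ V.card := by rw [hg]; exact Nat.sub_le _ _
  have hvg : V.card - g = V.card / PP L + 1 := by rw [hg]; exact Nat.sub_sub_self hd5
  have hg2 : 10 ^ 12 * L * (V.card - g) ≤ V.card := by rw [hvg]; exact hd4
  have hg3 : V.card ≤ 2 * g := by
    have : 2 * (V.card - g) ≤ 10 ^ 12 * L * (V.card - g) := Nat.mul_le_mul_right _ (by omega)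
    omega
  have hasym : Asym V := fun a ha hna => hG.asym a (hV.sub ha) (hV.sub hna)
  have hT : AM.Thick V g := by
    refine thick V hasym (hG.zsf.mono hV.sub) (PP L) g (by omega) hP2 ?_
    have e1 : PP L * g + PP L * (V.card / PP L + 1) = PP L * V.card := by
      rw [← Nat.mul_add]
      congr 1
      omega
    have e2 : (PP L - 1) * V.card = PP L * V.card - V.card := by
      rw [Nat.sub_mul, one_mul]
    rw [e2]
    omega
  have h0 : (0 : G) ∈ symz V := Finset.mem_insert_self _ _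
  have hmono : Monotone (fun i : ℕ => (i • symz V).card) := fun i j hij =>
    Finset.card_le_card (nsmul_mono_zero h0 hij)
  have h1 : ∀ i < J, 2 * g * i ≤ (i • symz V).card := by
    intro i hi
    rcases AM.growth V hasym g hT i with h | h
    · have hu : i • symz V = Finset.univ := by
        refine Finset.eq_univ_of_forall fun x => h x ?_
        rw [win_top hG hV]
        exact AddSubgroup.mem_top x
      rw [hu, Finset.card_univ]
      calc 2 * g * i ≤ 2 * V.card * (J - 1) :=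
            Nat.mul_le_mul (Nat.mul_le_mul_left _ hg1) (by omega)
        _ = 2 * (V.card * (J - 1)) := by ring
        _ ≤ _ := hJ1
    · omega
  obtain ⟨I, hI1, hI2, hI3, hI4⟩ := pick (fun i : ℕ => (i • symz V).card) hmono V.card g J L hL
    hv1 hJ0 hg1 hg2 h1 hJ3
  refine ⟨V, I, hV, ?_, hI3, hI4, ?_, ?_⟩
  · calc A.card ≤ 2 * 10 ^ 7 * L ^ 2 * J := hJ2
      _ ≤ 2 * 10 ^ 7 * L ^ 2 * (4 * I) := Nat.mul_le_mul_left _ hI1
      _ = (8 * 10 ^ 7) * (L ^ 2 * I) := by ring
      _ ≤ 10 ^ 8 * (L ^ 2 * I) := Nat.mul_le_mul_right _ (by norm_num)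
      _ = 10 ^ 8 * L ^ 2 * I := by ring
  · -- `4 f I ≤ 3 |G|`
    have e1 : 100 * (I • symz V).card ≤ 101 * (2 * V.card * I) := by
      have a1 : 100 * (10 ^ 6 * L + 2) ≤ 101 * (10 ^ 6 * L) := by omega
      have a2 : 10 ^ 6 * L * (100 * (I • symz V).card) ≤
          10 ^ 6 * L * (101 * (2 * V.card * I)) := by
        calc 10 ^ 6 * L * (100 * (I • symz V).card)
            = 100 * (10 ^ 6 * L * (I • symz V).card) := by ring
          _ ≤ 100 * ((10 ^ 6 * L + 2) * (2 * V.card * I)) := Nat.mul_le_mul_left _ hI3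
          _ = 100 * (10 ^ 6 * L + 2) * (2 * V.card * I) := by ring
          _ ≤ 101 * (10 ^ 6 * L) * (2 * V.card * I) := Nat.mul_le_mul_right _ a1
          _ = _ := by ring
      exact Nat.le_of_mul_le_mul_left a2 (by positivity)
    have e2 : 2 * (2 * V.card * I) ≤ Fintype.card G + 2 * V.card := by
      have a1 : V.card * (2 * I) ≤ V.card * J := Nat.mul_le_mul_left _ hI2
      have a2 : V.card * J = V.card * (J - 1) + V.card := by
        obtain ⟨j, rfl⟩ : ∃ j, J = j + 1 := ⟨J - 1, by omega⟩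
        rw [Nat.add_sub_cancel]; ring
      have a3 : 2 * V.card * I = V.card * (2 * I) := by ring
      omega
    have e3 : 1000 * A.card ≤ Fintype.card G := by
      have a1 : 10 ^ 6 ≤ A.card := by omega
      have a2 : 49 * (10 ^ 6 * A.card) ≤ 49 * A.card ^ 2 := by
        rw [sq]
        exact Nat.mul_le_mul_left _ (Nat.mul_le_mul_right _ a1)
      omega
    omega
  · calc V.card * I ≤ 2 * g * I := Nat.mul_le_mul_right _ hg3
      _ ≤ _ := h1 I (by omega)

end Pool.Agent.Lib.MP_d75b76_nt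
end

section

/-!
# The structure of `A`
-/

set_option autoImplicit false
set_option linter.unusedSectionVars false

open Finset Pointwise

namespace Pool.Agent.Lib.MP_d75b76_nt

open RG (stb mem_stb)
open AM (sf off mem_sf mem_off card_sf zero_mem_sf)
open Pool.Agent.Lib.MP_d3cc86_co (lam Asym symz)

/-- `V, I` from `partC` (`Fintype.card (ZMod m) = m`: `ZMod.card`), `v = |V|`, `k = |A|`, `t = v / (10^6 L)`, `H`
from `kneser_part`, `r, V1` from `freq_part`; `r * y = 0` on `H ≤ stb (I • symz V)`. `S1 = symz V1`,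
`N, x₀` from `top_exists`, `s = lft r x₀`. Apply `freiman` to `P = PT r S1 H` (`mem_PT`). With `h = |H|`, and
`2 • S1 + sf H ⊆ 2 • symz V + sf H`, `4 • S1 + sf H ⊆ 4 • symz V + sf H`:
* `|P| = |2 • S1 + sf H| ≤ h + 4 v + 13 t ≤ 10 v` (`card_PT`), `|P| ≥ h + 4 v - 8 t` (`low2`);
* `|P + P| = |4 • S1 + sf H| ≤ h + 8 v + 25 t` (`card_PT2`);
* `|S1 + sf H| + 2 τ ≤ |P|` (`top_PT`) and `|S1 + sf H| ≥ h + 2 v - 4 t` (`low1`): `2 τ ≤ 2 v + 17 t`.
The first alternative of `freiman` would give `10 |P| ≤ 4 |P + P| + 6 τ`, i.e.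
`10 h + 40 v - 80 t ≤ 4 h + 38 v + 151 t`, `2 v ≤ 231 t`, impossible (`10^9 t ≤ v`, `v > 0`). So we get
`Γ₀`, and `4 |U| ≤ |P + P| - |P| ≤ 4 v + 33 t`, `|U| ≤ v + 9 t`. Take
`Γ = Γ₀ ⊓ {γ : γ.2 = r * γ.1 in ZMod m}` (a subgroup; it contains the lifts, `ZMod.coe_valMinAbs`). -/
theorem partF {m : ℕ} [NeZero m] {A : Finset (ZMod m)} {L : ℕ} (hG : Good A L)
    (hs : 2 * m ≤ A.card ^ 2 + 6 * A.card) :
    ∃ (V V1 : Finset (ZMod m)) (t : ℕ) (r : ZMod m) (N : ℤ) (Γ : AddSubgroup (ZMod m × ℤ)),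
      Win A L V ∧ V1 ⊆ V ∧ t = V.card / (10 ^ 6 * L) ∧ V.card ≤ V1.card + t ∧ r ≠ 0 ∧
      20 * N < m ∧ (∀ x ∈ V1, lft r x ∈ Γ ∧ |(r * x).valMinAbs| ≤ N) ∧
      (∀ γ ∈ Γ, ((γ.2 : ℤ) : ZMod m) = r * γ.1) ∧
      ∀ U : Finset (ZMod m × ℤ), (∀ γ ∈ U, γ ∈ Γ ∧ 0 < γ.2 ∧ γ.2 ≤ N) →
        U.card ≤ V.card + 9 * t := by
  obtain ⟨V, I, hV, hI, hf, h16, h34, hvI⟩ := partC hG (by rw [ZMod.card]; exact hs)
  obtain ⟨t, ht⟩ : ∃ t, t = V.card / (10 ^ 6 * L) := ⟨_, rfl⟩
  obtain ⟨H, hHst, hHtop, hH3, hX2, hX4⟩ := kneser_part hG hV I hI hf h34 t ht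
  obtain ⟨r, hr0, hrst, V1, h1V, hv1, h20⟩ := freq_part hG hV I hI h16 h34 hvI t ht
  have hH : ∀ y ∈ H, r * y = 0 := fun y hy => hrst y (hHst hy)
  obtain ⟨h20', N, hN0, hN20, hNle, x₀, hx₀, hx₀N⟩ := top_exists hG hV h1V t ht hv1 r hr0 h20
  have h0S : (0 : ZMod m) ∈ symz V1 := by simp [symz]
  have hsym : ∀ x ∈ symz V1, -x ∈ symz V1 := by
    intro x hx
    simp only [symz, Finset.mem_insert, Finset.mem_union, Finset.mem_neg] at hx ⊢
    rcases hx with rfl | hx | ⟨y, hy, rfl⟩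
    · left; simp
    · right; right; exact ⟨x, hx, rfl⟩
    · right; left; simpa using hy
  obtain ⟨p0, p1, p2⟩ := mem_PT (H := H) h0S hsym h20' N hNle
  have hPc : (PT r (symz V1) H).card = (2 • symz V1 + sf H).card := card_PT h20' hH
  have hPPc : (PT r (symz V1) H + PT r (symz V1) H).card = (4 • symz V1 + sf H).card :=
    card_PT2 h20' hH
  have htop := top_PT h0S hsym h20' hH N hN0 hNle
  have hmod := PT_mod (S := symz V1) hH
  have hsub : symz V1 ⊆ symz V := by
    intro x hx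
    simp only [symz, Finset.mem_insert, Finset.mem_union, Finset.mem_neg] at hx ⊢
    rcases hx with rfl | hx | ⟨y, hy, rfl⟩
    · left; rfl
    · right; left; exact h1V hx
    · right; right; exact ⟨y, h1V hy, rfl⟩
  have hsub2 : (2 • symz V1 + sf H).card ≤ (2 • symz V + sf H).card :=
    Finset.card_le_card (Finset.add_subset_add_right (Finset.nsmul_subset_nsmul_left hsub))
  have hsub4 : (4 • symz V1 + sf H).card ≤ (4 • symz V + sf H).card :=
    Finset.card_le_card (Finset.add_subset_add_right (Finset.nsmul_subset_nsmul_left hsub))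
  have hwc := win_card hG hV
  have hkpos : 10 ^ 3 * L ^ 1 ≤ A.card :=
    big_aux hG.L1000 hG.big (by norm_num) (by norm_num)
  have hL := hG.L1000
  rw [pow_one] at hkpos
  have hvpos : 0 < V.card := by omega
  have ht9 : 10 ^ 9 * t ≤ V.card := by
    have h1 : t * (10 ^ 6 * L) ≤ V.card := by rw [ht]; exact Nat.div_mul_le_self _ _
    have h2 : t * (10 ^ 6 * 1000) ≤ t * (10 ^ 6 * L) :=
      Nat.mul_le_mul_left _ (Nat.mul_le_mul_left _ hL)
    omega
  have h10 : (2 • symz V1 + sf H).card ≤ 10 * V.card := by omega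
  have hlow2 := low2 hG hV h1V t ht hv1 H h10
  have hlow1 := low1 hG hV h1V t ht hv1 H (by omega)
  have hx₀2 : (lft r x₀).2 = N := hx₀N
  have hfr := freiman (PT r (symz V1) H) (lft r x₀) (by rw [hx₀2]; exact hN0) p0 (p1 x₀ hx₀).1
    (p1 x₀ hx₀).2.1 (p1 x₀ hx₀).2.2 (by rw [hx₀2]; exact p2)
  rw [hx₀2] at hfr
  rcases hfr with hfr | ⟨Γ₀, hΓP, hΓU⟩
  · exfalso
    omega
  · let Γ : AddSubgroup (ZMod m × ℤ) :=
      { carrier := {γ | γ ∈ Γ₀ ∧ ((γ.2 : ℤ) : ZMod m) = r * γ.1}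
        add_mem' := by
          rintro a b ⟨ha, ha'⟩ ⟨hb, hb'⟩
          refine ⟨Γ₀.add_mem ha hb, ?_⟩
          rw [Prod.snd_add, Prod.fst_add, Int.cast_add, ha', hb', mul_add]
        zero_mem' := by
          refine ⟨Γ₀.zero_mem, ?_⟩
          simp
        neg_mem' := by
          rintro a ⟨ha, ha'⟩
          refine ⟨Γ₀.neg_mem ha, ?_⟩
          rw [Prod.snd_neg, Prod.fst_neg, Int.cast_neg, ha', mul_neg] }
    refine ⟨V, V1, t, r, N, Γ, hV, h1V, ht, hv1, hr0, hN20, ?_, ?_, ?_⟩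
    · intro x hx
      have hxS : x ∈ symz V1 := by
        simp only [symz, Finset.mem_insert, Finset.mem_union]
        right; left; exact hx
      refine ⟨⟨hΓP _ (p1 x hxS).1, ?_⟩, hNle x hxS⟩
      exact ZMod.coe_valMinAbs _
    · rintro γ ⟨-, hγ⟩
      exact hγ
    · intro U hU
      have h5 := hΓU U (fun γ hγ => ⟨(hU γ hγ).1.1, (hU γ hγ).2⟩)
      omega

end Pool.Agent.Lib.MP_d75b76_nt
end

section

/-!
# The units
-/

set_option autoImplicit false
set_option linter.unusedSectionVars false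

open Finset Pointwise

namespace Pool.Agent.Lib.MP_d75b76_nt

open RG (stb mem_stb)
open AM (sf off mem_sf mem_off card_sf zero_mem_sf)
open Pool.Agent.Lib.MP_d3cc86_co (lam Asym symz)

/-- Notation of `partF`; `k = |A|`, `v = |V|`, `w = m.primeFactors.card`. `V1 ⊆ A` is not contained in a proper
subgroup (`not_in'`). Let `U = (univ ×ˢ Finset.Ioc 0 N).filter (· ∈ Γ)` (`classical`), so
`|U| ≤ v + 9 t`. `K = Γ.comap (AddMonoidHom.inl _ _)`. Some `x ∈ V1` has `r * x ≠ 0` (`exists_ne`), and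
`lft r x` or `-lft r x` is in `U`, so `U` is not empty and `|K| ≤ |U| ≤ 10 v` (`card_K_le`),
`|inn V1 K| ≤ t` (`inn_small`). `inj_U` (no element of `A` is a unit):
`|V1| - t ≤ |{γ ∈ U : ¬ IsUnit γ.1}| = |U| - |{γ ∈ U : IsUnit γ.1}|`, so the number of `γ ∈ U` with unit
first coordinate is at most `v + 9 t - (v - 2 t) = 11 t`. `hproj` of `units_many`:
`Γ.map (AddMonoidHom.fst _ _) = ⊤` because it contains `V1` (`not_in'`). `units_many`:
`v - 2 t ≤ |V1| - t ≤ |U| ≤ 22 * 8^w * t`, with `10^6 L t ≤ v`, `10^9 t ≤ v`, `v > 0`: `v ≤ 44 * 8^w * t`,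
`10^6 L ≤ 44 * 8^w` (`t > 0`). -/
theorem small_L {m : ℕ} [NeZero m] {A : Finset (ZMod m)} {L : ℕ} (hG : Good A L)
    (hs : 2 * m ≤ A.card ^ 2 + 6 * A.card) (hu : ∀ a ∈ A, ¬ IsUnit a) :
    L < 8 ^ m.primeFactors.card := by
  classical
  by_contra hL
  have hL' : 8 ^ m.primeFactors.card ≤ L := Nat.le_of_not_lt hL
  obtain ⟨V, V1, t, r, N, Γ, hV, h1, ht, hv, hr, hN, hΓ, hΓr, hUb⟩ := partF hG hs
  have hwc := win_card hG hV
  have hL1000 := hG.L1000
  -- the size of `t`
  have hb : 2 * 10 ^ 6 * L ^ 1 ≤ A.card := big_aux hL1000 hG.big (by norm_num) (by norm_num)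
  have hvL : 10 ^ 6 * L ≤ V.card := by
    have h2 := hwc.1
    rw [pow_one] at hb
    omega
  have hLpos : 0 < L := by omega
  have htpos : 0 < t := by
    rw [ht]
    exact Nat.div_pos hvL (by positivity)
  have htv : 10 ^ 6 * L * t ≤ V.card := by
    rw [ht]
    exact Nat.mul_div_le _ _
  have htv9 : 10 ^ 9 * t ≤ V.card := by
    refine le_trans ?_ htv
    refine Nat.mul_le_mul_right t ?_
    omega
  -- the set `U`
  set U : Finset (ZMod m × ℤ) :=
    ((univ : Finset (ZMod m)) ×ˢ Finset.Ioc (0 : ℤ) N).filter (fun γ => γ ∈ Γ) with hUdef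
  have hU : ∀ γ, γ ∈ U ↔ γ ∈ Γ ∧ 0 < γ.2 ∧ γ.2 ≤ N := by
    intro γ
    rw [hUdef, Finset.mem_filter, Finset.mem_product, Finset.mem_Ioc]
    constructor
    · rintro ⟨⟨_, h2⟩, h3⟩
      exact ⟨h3, h2⟩
    · rintro ⟨h3, h2⟩
      exact ⟨⟨Finset.mem_univ _, h2⟩, h3⟩
  have hUcard : U.card ≤ V.card + 9 * t := hUb U (fun γ hγ => (hU γ).1 hγ)
  obtain ⟨x, hx, hrx⟩ := exists_ne hG hV h1 t ht hv r hr
  have hne : U.Nonempty := by
    have h0 : (r * x).valMinAbs ≠ 0 := fun h => hrx ((ZMod.valMinAbs_eq_zero _).1 h)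
    obtain ⟨h2, h3⟩ := hΓ x hx
    have h4 := abs_le.1 h3
    rcases lt_or_gt_of_ne h0 with h5 | h5
    · refine ⟨-lft r x, (hU _).2 ⟨Γ.neg_mem h2, ?_, ?_⟩⟩
      · show 0 < -(r * x).valMinAbs
        omega
      · show -(r * x).valMinAbs ≤ N
        omega
    · exact ⟨lft r x, (hU _).2 ⟨h2, h5, h4.2⟩⟩
  have hK := card_K_le N Γ U hU hne
  have hin : (inn V1 (Γ.comap (AddMonoidHom.inl (ZMod m) ℤ))).card ≤ t :=
    inn_small hG hV h1 t ht _ (by omega)
  have hA : Asym V1 := by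
    intro a ha hna
    exact hG.asym a (hV.sub (h1 ha)) (hV.sub (h1 hna))
  have hinj := inj_U V1 hA r N Γ hΓ U hU (fun y hy => hu y (hV.sub (h1 hy)))
  have hproj : ∀ y : ZMod m, ∃ γ ∈ Γ, γ.1 = y := by
    by_contra hcon
    refine not_in' hG hV h1 t ht hv (Γ.map (AddMonoidHom.fst (ZMod m) ℤ)) ?_ ?_
    · intro htop
      apply hcon
      intro y
      have hy : y ∈ Γ.map (AddMonoidHom.fst (ZMod m) ℤ) := by
        rw [htop]
        exact AddSubgroup.mem_top y
      obtain ⟨γ, hγ, hγy⟩ := hy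
      exact ⟨γ, hγ, hγy⟩
    · intro y hy
      exact ⟨lft r y, (hΓ y hy).1, rfl⟩
  have hmany := units_many m Γ hproj N U hU hne
  have hsplit : (U.filter (fun γ => IsUnit γ.1)).card +
      (U.filter (fun γ => ¬ IsUnit γ.1)).card = U.card := by
    convert Finset.card_filter_add_card_filter_not (s := U) (fun γ => IsUnit γ.1)
  have hunit : (U.filter (fun γ => IsUnit γ.1)).card ≤ 11 * t := by
    omega
  have hlow : V.card ≤ U.card + 2 * t := by
    omega
  have hup : U.card ≤ 22 * L * t := by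
    calc U.card ≤ 2 * 8 ^ m.primeFactors.card * (U.filter (fun γ => IsUnit γ.1)).card := by
          convert hmany
      _ ≤ 2 * L * (11 * t) := Nat.mul_le_mul (Nat.mul_le_mul_left 2 hL') hunit
      _ = 22 * L * t := by ring
  have hLt : t ≤ L * t := Nat.le_mul_of_pos_left t hLpos
  have e1 : 22 * L * t = 22 * (L * t) := by ring
  have e2 : 10 ^ 6 * L * t = 10 ^ 6 * (L * t) := by ring
  rw [e1] at hup
  rw [e2] at htv
  omega

end Pool.Agent.Lib.MP_d75b76_nt
end

section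

/-!
# Main theorem
-/

set_option autoImplicit false
set_option linter.unusedSectionVars false

open Finset Pointwise

namespace Pool.Agent.Lib.MP_d75b76_nt

open RG (stb mem_stb)
open AM (sf off mem_sf mem_off card_sf zero_mem_sf)
open Pool.Agent.Lib.MP_d3cc86_co (lam Asym symz)

/-- an element of order two of `ZMod m` -/
private lemma two_tor {m : ℕ} [NeZero m] {a : ZMod m} (ha : a ≠ 0) (h : a + a = 0) :
    2 * a.val = m := by
  have h1 : ((2 * a.val : ℕ) : ZMod m) = 0 := by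
    push_cast
    rw [ZMod.natCast_zmod_val, two_mul]
    exact h
  rw [ZMod.natCast_eq_zero_iff] at h1
  have h2 := ZMod.val_lt a
  have h3 : 0 < a.val := by
    rw [Nat.pos_iff_ne_zero]
    intro h0
    exact ha ((ZMod.val_eq_zero a).1 h0)
  obtain ⟨c, hc⟩ := h1
  have h4 : c = 1 := by
    rcases Nat.lt_or_ge c 1 with h5 | h5
    · have : c = 0 := by omega
      rw [this, mul_zero] at hc
      omega
    · by_contra h6
      have h7 : 2 ≤ c := by omega
      have h8 : m * 2 ≤ m * c := Nat.mul_le_mul_left m h7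
      omega
  rw [h4, mul_one] at hc
  exact hc

/-- Let `A' = A.filter (a + a ≠ 0)`. At most one `a ≠ 0` in `ZMod m` has `a + a = 0`, and `0 ∉ A`, so
`|A| ≤ |A'| + 1`. `A'` is zero-sum-free and asymmetric (`ZSF.asym`). `k' = |A'| ≥ L^52 - 1 ≥ L^51`,
`2 m ≤ (k' + 2) (k' + 3) ≤ k'^2 + 6 k'`. `reduce` (`ZMod.card`) and `small_L` for `A'`. -/
theorem main {m : ℕ} [NeZero m] (A : Finset (ZMod m)) (hz : ZSF A) (hu : ∀ a ∈ A, ¬ IsUnit a)
    (L : ℕ) (hL : 1000 ≤ L) (hk : L ^ 52 ≤ A.card) (hs : 2 * m ≤ (A.card + 1) * (A.card + 2)) :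
    L < 8 ^ m.primeFactors.card := by
  classical
  set A' := A.filter (fun a => a + a ≠ 0) with hA'
  have hsub : A' ⊆ A := Finset.filter_subset _ _
  have hc1 : (A.filter (fun a => ¬ (a + a ≠ 0))).card ≤ 1 := by
    rw [Finset.card_le_one]
    intro a ha b hb
    rw [Finset.mem_filter, not_not] at ha hb
    have ha0 : a ≠ 0 := fun h0 => hz.zero_notMem (h0 ▸ ha.1)
    have hb0 : b ≠ 0 := fun h0 => hz.zero_notMem (h0 ▸ hb.1)
    have h1 := two_tor ha0 ha.2
    have h2 := two_tor hb0 hb.2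
    exact ZMod.val_injective m (by omega)
  have hc2 : A'.card + (A.filter (fun a => ¬ (a + a ≠ 0))).card = A.card :=
    Finset.card_filter_add_card_filter_not (s := A) (fun a => a + a ≠ 0)
  have hk' : L ^ 51 ≤ A'.card := by
    have h1 : L ^ 52 = L * L ^ 51 := by rw [pow_succ]; ring
    have h2 : 1 ≤ L ^ 51 := Nat.one_le_pow _ _ (by omega)
    have h3 : 1000 * L ^ 51 ≤ L * L ^ 51 := Nat.mul_le_mul_right _ hL
    omega
  have h6 : 1000 ≤ A'.card := by
    have h1 : L ^ 1 ≤ L ^ 51 := Nat.pow_le_pow_right (by omega) (by norm_num)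
    rw [pow_one] at h1
    omega
  have hs' : 2 * m ≤ A'.card ^ 2 + 6 * A'.card := by
    have h1 : (A.card + 1) * (A.card + 2) ≤ (A'.card + 2) * (A'.card + 3) :=
      Nat.mul_le_mul (by omega) (by omega)
    have h2 : (A'.card + 2) * (A'.card + 3) = A'.card ^ 2 + 5 * A'.card + 6 := by ring
    omega
  have hz' := hz.mono hsub
  have has : Asym A' := hz'.asym fun a ha => (Finset.mem_filter.1 ha).2
  have hG : Good A' L := reduce has hz' hL hk' (by rw [ZMod.card]; exact hs')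
  exact small_L hG hs' fun a ha => hu a (hsub ha)

/-- For all large `m` a maximum zero-sum-free set modulo `m` contains a unit. `M` from `exists_L` (and
`M ≥ 1`). If no element of `S` is a unit let `k = |S|`. `interval` with `l = k + 1` and the maximality of `S`
give `2 m ≤ (k + 1) (k + 2)`. `exists_L` and `main` give a contradiction. -/
theorem large : ∃ M, ∀ m ≥ M, ∀ S : Finset (ZMod m), ZSF S →
    (∀ S' : Finset (ZMod m), ZSF S' → S'.card ≤ S.card) → ∃ s ∈ S, IsUnit s := by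
  obtain ⟨M, hM⟩ := exists_L
  refine ⟨max M 1, fun m hm S hS hmax => ?_⟩
  have hm1 : M ≤ m := le_trans (le_max_left _ _) hm
  have hm2 : 1 ≤ m := le_trans (le_max_right _ _) hm
  have : NeZero m := ⟨by omega⟩
  by_contra hno
  have hu : ∀ a ∈ S, ¬ IsUnit a := fun a ha h => hno ⟨a, ha, h⟩
  have hk : 2 * m ≤ (S.card + 1) * (S.card + 2) := by
    by_contra hlt
    obtain ⟨S', h1, h2⟩ := interval m (S.card + 1) (not_le.1 hlt)
    have := hmax S' h2
    omega
  obtain ⟨L, h1, h2, h3⟩ := hM m hm1 S.card hk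
  have := main S hS hu L h1 h2 hk
  omega

end Pool.Agent.Lib.MP_d75b76_nt
end

section

/-!
# The explicit form of the main theorem
-/

set_option autoImplicit false
set_option linter.unusedSectionVars false

open Finset Pointwise

namespace Pool.Agent.Lib.MP_d75b76_nt

/-- If `m` is at least `max 1000 (8 ^ ω (m))` to the power `104`, then every maximum zero-sum-free
set modulo `m` contains a unit. -/
theorem explicit (m : ℕ) [NeZero m] (hm : max 1000 (8 ^ m.primeFactors.card) ^ 104 ≤ m)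
    (S : Finset (ZMod m)) (hS : ZSF S)
    (hmax : ∀ S' : Finset (ZMod m), ZSF S' → S'.card ≤ S.card) : ∃ s ∈ S, IsUnit s := by
  by_contra hno
  have hu : ∀ a ∈ S, ¬ IsUnit a := fun a ha h => hno ⟨a, ha, h⟩
  have hk : 2 * m ≤ (S.card + 1) * (S.card + 2) := by
    by_contra hlt
    obtain ⟨S', h1, h2⟩ := interval m (S.card + 1) (not_le.1 hlt)
    have := hmax S' h2
    omega
  set L := max 1000 (8 ^ m.primeFactors.card) with hL
  have h1 : 1000 ≤ L := le_max_left _ _
  have h2 : 8 ^ m.primeFactors.card ≤ L := le_max_right _ _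
  have h3 : L ^ 52 ≤ S.card := by
    by_contra hlt
    have h4 : S.card + 1 ≤ L ^ 52 := not_le.1 hlt
    have h5 : (S.card + 1) * (S.card + 2) ≤ L ^ 52 * (L ^ 52 + 1) :=
      Nat.mul_le_mul h4 (by omega)
    have h6 : L ^ 104 = L ^ 52 * L ^ 52 := by rw [← pow_add]
    have h7 : 1 < L ^ 52 := Nat.one_lt_pow (by norm_num) (by omega)
    have h8 : L ^ 52 * (L ^ 52 + 1) = L ^ 52 * L ^ 52 + L ^ 52 := by ring
    have h9 : L ^ 52 < L ^ 52 * L ^ 52 := by
      have h10 : L ^ 52 * 1 < L ^ 52 * L ^ 52 := Nat.mul_lt_mul_of_pos_left h7 (by omega)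
      rwa [mul_one] at h10
    omega
  have := main S hS hu L h1 h3 hk
  omega

end Pool.Agent.Lib.MP_d75b76_nt
end
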